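import Pool.Agent.H709Q.Defs

/-! M: bookkeeping of majorants. -/

open Real Set MeasureTheory Topology Filter
open scoped ENNReal

namespace Pool.Agent.H709Q

theorem majRules : MajRules := by
  refine ⟨?_, ?_, ?_, ?_⟩
  · rintro N N' K K' h hK ⟨g, hg1, hg2, hg3⟩
    exact ⟨g, hg1, fun α hα => (h α hα).trans (hg2 α hα), hg3.trans (ENNReal.ofReal_le_ofReal hK)⟩
  · rintro N N' K K' hK hK' ⟨g, hg1, hg2, hg3⟩ ⟨g', hg1', hg2', hg3'⟩
    refine ⟨fun α => g α + g' α, hg1.add hg1', fun α hα => add_le_add (hg2 α hα) (hg2' α hα), ?_⟩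
    rw [lintegral_add_left hg1, ENNReal.ofReal_add hK hK']
    exact add_le_add hg3 hg3'
  · intro N K S hK hS h
    choose g hg1 hg2 hg3 using h
    refine ⟨fun α => ∑' i, g i α, Measurable.tsum hg1,
      fun α hα => ENNReal.tsum_le_tsum fun i => hg2 i α hα, ?_⟩
    rw [lintegral_tsum fun i => (hg1 i).aemeasurable]
    calc ∑' i, ∫⁻ α in Ioo 0 π, g i α ≤ ∑' i, ENNReal.ofReal (K i) :=
          ENNReal.tsum_le_tsum fun i => hg3 i
      _ = ENNReal.ofReal (∑' i, K i) := (ENNReal.ofReal_tsum_of_nonneg hK hS.summable).symm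
      _ = ENNReal.ofReal S := by rw [hS.tsum_eq]
  · intro N K hmono h
    choose g hg1 hg2 hg3 using h
    refine ⟨fun α => liminf (fun i => g i α) atTop, Measurable.liminf hg1, fun α hα => ?_, ?_⟩
    · refine iSup_le fun i => ?_
      refine le_liminf_of_le (by isBoundedDefault) ?_
      filter_upwards [eventually_ge_atTop i] with j hj
      exact (hmono i j α hj).trans (hg2 j α hα)
    · refine (lintegral_liminf_le hg1).trans ?_
      refine (liminf_le_liminf (Eventually.of_forall fun i => hg3 i)).trans ?_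
      rw [liminf_const]

end Pool.Agent.H709Q
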