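import Pool.Agent.H709Q.Defs

/-! T12a: reduction to the normal form. -/

open Real Set MeasureTheory Topology Filter
open scoped ENNReal

namespace Pool.Agent.H709Q

open Pool.Agent.H709R2 (wedge)

namespace T12a

/-- the inverse change of variables `z ↦ l R_{-θ} (z - p)` -/
noncomputable def Psi (l c s : ℝ) (p z : ℝ × ℝ) : ℝ × ℝ :=
  (l * (c * (z.1 - p.1) + s * (z.2 - p.2)), l * (-(s * (z.1 - p.1)) + c * (z.2 - p.2)))

lemma Psi_inj {l c s : ℝ} (hl : l ≠ 0) (hcs : c ^ 2 + s ^ 2 = 1) (p : ℝ × ℝ) :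
    Function.Injective (Psi l c s p) := by
  intro z w h
  simp only [Psi, Prod.mk.injEq] at h
  obtain ⟨h1, h2⟩ := h
  have h1' := mul_left_cancel₀ hl h1
  have h2' := mul_left_cancel₀ hl h2
  have e1 : z.1 - w.1 = 0 := by
    linear_combination c * h1' - s * h2' - (z.1 - w.1) * hcs
  have e2 : z.2 - w.2 = 0 := by
    linear_combination s * h1' + c * h2' - (z.2 - w.2) * hcs
  exact Prod.ext (by linarith) (by linarith)

/-- the transformed field; `l = λ⁻¹` -/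
noncomputable def tr (X : QF) (p : ℝ × ℝ) (k l c s : ℝ) : QF :=
  let A11 := X.a1 + 2 * X.a3 * p.1 + X.a4 * p.2
  let A12 := X.a2 + X.a4 * p.1 + 2 * X.a5 * p.2
  let A21 := X.b1 + 2 * X.b3 * p.1 + X.b4 * p.2
  let A22 := X.b2 + X.b4 * p.1 + 2 * X.b5 * p.2
  let p3 := X.a3 * c ^ 2 + X.a4 * c * s + X.a5 * s ^ 2
  let p4 := -2 * X.a3 * c * s + X.a4 * (c ^ 2 - s ^ 2) + 2 * X.a5 * s * c
  let p5 := X.a3 * s ^ 2 - X.a4 * s * c + X.a5 * c ^ 2
  let q3 := X.b3 * c ^ 2 + X.b4 * c * s + X.b5 * s ^ 2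
  let q4 := -2 * X.b3 * c * s + X.b4 * (c ^ 2 - s ^ 2) + 2 * X.b5 * s * c
  let q5 := X.b3 * s ^ 2 - X.b4 * s * c + X.b5 * c ^ 2
  { a0 := 0
    b0 := 0
    a1 := k * (c * (A11 * c + A12 * s) + s * (A21 * c + A22 * s))
    a2 := k * (c * (-A11 * s + A12 * c) + s * (-A21 * s + A22 * c))
    b1 := k * (-s * (A11 * c + A12 * s) + c * (A21 * c + A22 * s))
    b2 := k * (-s * (-A11 * s + A12 * c) + c * (-A21 * s + A22 * c))
    a3 := k * l⁻¹ * (c * p3 + s * q3)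
    a4 := k * l⁻¹ * (c * p4 + s * q4)
    a5 := k * l⁻¹ * (c * p5 + s * q5)
    b3 := k * l⁻¹ * (-s * p3 + c * q3)
    b4 := k * l⁻¹ * (-s * p4 + c * q4)
    b5 := k * l⁻¹ * (-s * p5 + c * q5) }

lemma tr_f (X : QF) (p : ℝ × ℝ) (k l c s : ℝ) (hl : l ≠ 0) (hcs : c ^ 2 + s ^ 2 = 1)
    (hp : X.f p = 0) (α : ℝ) (z : ℝ × ℝ) :
    ((tr X p k l c s).rot α).f (Psi l c s p z) =
      (l * (k * (c * ((X.rot α).f z).1 + s * ((X.rot α).f z).2)),
       l * (k * (-(s * ((X.rot α).f z).1) + c * ((X.rot α).f z).2))) := by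
  obtain ⟨w, hw⟩ : ∃ w, w = Psi l c s p z := ⟨_, rfl⟩
  have hz : z = (p.1 + l⁻¹ * (c * w.1 - s * w.2), p.2 + l⁻¹ * (s * w.1 + c * w.2)) := by
    subst hw
    unfold Psi
    refine Prod.ext ?_ ?_
    · field_simp
      linear_combination (-(z.1 - p.1)) * hcs
    · field_simp
      linear_combination (-(z.2 - p.2)) * hcs
  rw [← hw]
  have hp1 : X.a0 = -(X.a1 * p.1 + X.a2 * p.2 + X.a3 * p.1 ^ 2 + X.a4 * (p.1 * p.2) +
      X.a5 * p.2 ^ 2) := by
    have := congrArg Prod.fst hp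
    simp only [QF.f, Prod.fst_zero] at this
    linarith
  have hp2 : X.b0 = -(X.b1 * p.1 + X.b2 * p.2 + X.b3 * p.1 ^ 2 + X.b4 * (p.1 * p.2) +
      X.b5 * p.2 ^ 2) := by
    have := congrArg Prod.snd hp
    simp only [QF.f, Prod.snd_zero] at this
    linarith
  rw [QF.f_rot, QF.f_rot]
  have key : (tr X p k l c s).f w = (l * (k * (c * (X.f z).1 + s * (X.f z).2)),
      l * (k * (-(s * (X.f z).1) + c * (X.f z).2))) := by
    rw [hz]
    unfold QF.f tr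
    simp only
    rw [hp1, hp2]
    refine Prod.ext ?_ ?_
    · simp only
      field_simp
      ring
    · simp only
      field_simp
      ring
  rw [key]
  unfold H709R2.rot
  refine Prod.ext ?_ ?_
  · simp only
    ring
  · simp only
    ring

lemma fstD {g : ℝ → ℝ × ℝ} {v : ℝ × ℝ} {t : ℝ} (h : HasDerivAt g v t) :
    HasDerivAt (fun t => (g t).1) v.1 t :=
  (hasFDerivAt_fst (𝕜 := ℝ) (p := g t)).comp_hasDerivAt t h

lemma sndD {g : ℝ → ℝ × ℝ} {v : ℝ × ℝ} {t : ℝ} (h : HasDerivAt g v t) :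
    HasDerivAt (fun t => (g t).2) v.2 t :=
  (hasFDerivAt_snd (𝕜 := ℝ) (p := g t)).comp_hasDerivAt t h

lemma cyc_tr (X : QF) (p : ℝ × ℝ) (k l c s : ℝ) (hk : 0 < k) (hl : 0 < l)
    (hcs : c ^ 2 + s ^ 2 = 1) (hp : X.f p = 0) (α : ℝ) {γ : ℝ → ℝ × ℝ} {T : ℝ}
    (h : Cyc (X.rot α) γ T) (ha : Around (X.rot α) p γ) :
    Cyc ((tr X p k l c s).rot α) (fun t => Psi l c s p (γ (k * t))) (T / k) ∧
      Around ((tr X p k l c s).rot α) 0 (fun t => Psi l c s p (γ (k * t))) := by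
  have hf := tr_f X p k l c s hl.ne' hcs hp α
  refine ⟨⟨div_pos h.pos hk, ?_, ?_, ?_, ?_⟩, ?_⟩
  · intro t
    have h0 : HasDerivAt (fun t : ℝ => k * t) k t := by
      simpa using (hasDerivAt_id t).const_mul k
    have h1 : HasDerivAt (fun t => γ (k * t)) (k • (X.rot α).f (γ (k * t))) t :=
      (h.ode (k * t)).scomp t h0
    have h11 : HasDerivAt (fun t => (γ (k * t)).1) (k • (X.rot α).f (γ (k * t))).1 t :=
      fstD h1
    have h12 : HasDerivAt (fun t => (γ (k * t)).2) (k • (X.rot α).f (γ (k * t))).2 t :=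
      sndD h1
    rw [hf]
    unfold Psi
    refine HasDerivAt.prodMk ?_ ?_
    · have := (((h11.sub_const p.1).const_mul c).add ((h12.sub_const p.2).const_mul s)).const_mul l
      refine HasDerivAt.congr_deriv this ?_
      simp only [Prod.smul_fst, Prod.smul_snd, smul_eq_mul]
      ring
    · have := (((h11.sub_const p.1).const_mul s).neg.add
        ((h12.sub_const p.2).const_mul c)).const_mul l
      refine HasDerivAt.congr_deriv this ?_
      simp only [Prod.smul_fst, Prod.smul_snd, smul_eq_mul]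
      ring
  · intro t
    have : k * (t + T / k) = k * t + T := by field_simp
    simp only [this, h.per]
  · intro a b hab
    have h1 := Psi_inj hl.ne' hcs p hab
    obtain ⟨m, hm⟩ := h.inj _ _ h1
    refine ⟨m, ?_⟩
    field_simp
    linarith
  · intro t h0
    rw [hf] at h0
    apply h.ne (k * t)
    have h1 := congrArg Prod.fst h0
    have h2 := congrArg Prod.snd h0
    simp only [Prod.fst_zero, Prod.snd_zero] at h1 h2
    have h1' := (mul_eq_zero.1 ((mul_eq_zero.1 h1).resolve_left hl.ne')).resolve_left hk.ne'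
    have h2' := (mul_eq_zero.1 ((mul_eq_zero.1 h2).resolve_left hl.ne')).resolve_left hk.ne'
    refine Prod.ext ?_ ?_
    · simp only [Prod.fst_zero]
      linear_combination c * h1' - s * h2' - ((X.rot α).f (γ (k * t))).1 * hcs
    · simp only [Prod.snd_zero]
      linear_combination s * h1' + c * h2' - ((X.rot α).f (γ (k * t))).2 * hcs
  · intro t
    rw [hf]
    have h1 := ha (k * t)
    have e : wedge (Psi l c s p (γ (k * t)) - 0)
        (l * (k * (c * ((X.rot α).f (γ (k * t))).1 + s * ((X.rot α).f (γ (k * t))).2)),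
         l * (k * (-(s * ((X.rot α).f (γ (k * t))).1) + c * ((X.rot α).f (γ (k * t))).2))) =
        l ^ 2 * k * wedge (γ (k * t) - p) ((X.rot α).f (γ (k * t))) := by
      unfold H709R2.wedge Psi
      simp only [sub_zero, Prod.fst_sub, Prod.snd_sub]
      linear_combination (l ^ 2 * k * (((γ (k * t)).1 - p.1) * ((X.rot α).f (γ (k * t))).2 -
        ((γ (k * t)).2 - p.2) * ((X.rot α).f (γ (k * t))).1)) * hcs
    rw [e]
    positivity

lemma orb_le (X : QF) (p : ℝ × ℝ) (k l c s : ℝ) (hk : 0 < k) (hl : 0 < l)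
    (hcs : c ^ 2 + s ^ 2 = 1) (hp : X.f p = 0) (α : ℝ) :
    (Orb (X.rot α) p).encard ≤ (Orb ((tr X p k l c s).rot α) 0).encard := by
  have hinj : Function.Injective (fun C : Set (ℝ × ℝ) => Psi l c s p '' C) :=
    (Psi_inj hl.ne' hcs p).image_injective
  rw [← hinj.injOn.encard_image]
  refine encard_le_encard ?_
  rintro _ ⟨C, ⟨γ, T, hc, ha, rfl⟩, rfl⟩
  obtain ⟨h1, h2⟩ := cyc_tr X p k l c s hk hl hcs hp α hc ha
  refine ⟨_, _, h1, h2, ?_⟩
  ext z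
  simp only [mem_image, mem_range]
  constructor
  · rintro ⟨_, ⟨t, rfl⟩, rfl⟩
    exact ⟨t / k, by rw [mul_div_cancel₀ _ hk.ne']⟩
  · rintro ⟨t, rfl⟩
    exact ⟨_, ⟨k * t, rfl⟩, rfl⟩

/-- polar coordinates -/
lemma polar (x y : ℝ) : ∃ m β : ℝ, 0 ≤ m ∧ x = m * cos β ∧ y = m * sin β := by
  refine ⟨‖(⟨x, y⟩ : ℂ)‖, Complex.arg ⟨x, y⟩, norm_nonneg _, ?_, ?_⟩
  · rw [Complex.norm_mul_cos_arg]
  · rw [Complex.norm_mul_sin_arg]

/-- the linear part -/
lemma lin (A11 A12 A21 A22 α : ℝ)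
    (h : ∀ u : ℝ × ℝ, u ≠ 0 → 0 < wedge u (H709R2.rot α (A11 * u.1 + A12 * u.2,
      A21 * u.1 + A22 * u.2))) :
    ∃ θ k e a : ℝ, 0 < k ∧ 0 < e ∧ e ≤ 1 ∧
      k * (cos θ * (A11 * cos θ + A12 * sin θ) + sin θ * (A21 * cos θ + A22 * sin θ)) =
        -(e * sin a) ∧
      k * (cos θ * (-A11 * sin θ + A12 * cos θ) + sin θ * (-A21 * sin θ + A22 * cos θ)) =
        -cos a ∧
      k * (-sin θ * (A11 * cos θ + A12 * sin θ) + cos θ * (A21 * cos θ + A22 * sin θ)) =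
        e * cos a ∧
      k * (-sin θ * (-A11 * sin θ + A12 * cos θ) + cos θ * (-A21 * sin θ + A22 * cos θ)) =
        -sin a := by
  obtain ⟨m, β, hm, h1, h2⟩ := polar ((A11 + A22) / 2) ((A21 - A12) / 2)
  obtain ⟨n, δ, hn, h3, h4⟩ := polar ((A11 - A22) / 2) ((A21 + A12) / 2)
  have e11 : A11 = m * cos β + n * cos δ := by linarith
  have e22 : A22 = m * cos β - n * cos δ := by linarith
  have e21 : A21 = m * sin β + n * sin δ := by linarith
  have e12 : A12 = n * sin δ - m * sin β := by linarith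
  have hmn : n < m := by
    obtain ⟨φ, hφ⟩ : ∃ φ : ℝ, φ = (α + δ + π / 2) / 2 := ⟨_, rfl⟩
    have hne : ((cos φ, sin φ) : ℝ × ℝ) ≠ 0 := by
      intro h0
      have h1 := congrArg Prod.fst h0
      have h2 := congrArg Prod.snd h0
      simp only [Prod.fst_zero, Prod.snd_zero] at h1 h2
      have := sin_sq_add_cos_sq φ
      rw [h1, h2] at this
      norm_num at this
    have h5 := h _ hne
    have key : wedge ((cos φ, sin φ) : ℝ × ℝ) (H709R2.rot α (A11 * cos φ + A12 * sin φ,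
        A21 * cos φ + A22 * sin φ)) = m * sin (α + β) + n * sin (α + δ - 2 * φ) := by
      rw [sin_sub, sin_add, sin_add, cos_add, sin_two_mul, cos_two_mul, e11, e22, e21, e12]
      unfold H709R2.wedge H709R2.rot
      simp only
      have hs := sin_sq_add_cos_sq φ
      have hs' : sin φ ^ 2 = 1 - cos φ ^ 2 := by linarith
      ring_nf
      rw [hs']
      ring
    simp only at h5
    rw [key] at h5
    have hφ2 : α + δ - 2 * φ = -(π / 2) := by rw [hφ]; ring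
    rw [hφ2, sin_neg, sin_pi_div_two] at h5
    nlinarith [sin_le_one (α + β)]
  have hm0 : 0 < m := lt_of_le_of_lt hn hmn
  have hmn0 : 0 < m + n := by linarith
  obtain ⟨a, ha⟩ : ∃ a : ℝ, a = β - π / 2 := ⟨_, rfl⟩
  obtain ⟨θ, hθ⟩ : ∃ θ : ℝ, θ = (δ - a + π / 2) / 2 := ⟨_, rfl⟩
  have hβ : β = a + π / 2 := by linarith
  have hδ : δ = a + 2 * θ - π / 2 := by linarith
  have cβ : cos β = - sin a := by rw [hβ, cos_add_pi_div_two]
  have sβ : sin β = cos a := by rw [hβ, sin_add_pi_div_two]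
  have cδ : cos δ = sin a * (2 * cos θ ^ 2 - 1) + cos a * (2 * sin θ * cos θ) := by
    rw [hδ, cos_sub_pi_div_two, sin_add, sin_two_mul, cos_two_mul]
  have sδ : sin δ = -(cos a * (2 * cos θ ^ 2 - 1) - sin a * (2 * sin θ * cos θ)) := by
    rw [hδ, sin_sub_pi_div_two, cos_add, sin_two_mul, cos_two_mul]
  have hs : sin θ ^ 2 = 1 - cos θ ^ 2 := by linarith [sin_sq_add_cos_sq θ]
  have hs3 : sin θ ^ 3 = sin θ * (1 - cos θ ^ 2) := by rw [pow_succ, hs]; ring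
  refine ⟨θ, (m + n)⁻¹, (m - n) / (m + n), a, inv_pos.2 hmn0, div_pos (by linarith) hmn0,
    (div_le_one hmn0).2 (by linarith), ?_, ?_, ?_, ?_⟩
  · rw [e11, e22, e21, e12, cβ, sβ, cδ, sδ]
    field_simp
    ring_nf
    simp only [hs, hs3]
    ring
  · rw [e11, e22, e21, e12, cβ, sβ, cδ, sδ]
    field_simp
    ring_nf
    simp only [hs, hs3]
    ring
  · rw [e11, e22, e21, e12, cβ, sβ, cδ, sδ]
    field_simp
    ring_nf
    simp only [hs, hs3]
    ring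
  · rw [e11, e22, e21, e12, cβ, sβ, cδ, sδ]
    field_simp
    ring_nf
    simp only [hs, hs3]
    ring

lemma D_zero (X : QF) (c s : ℝ) (hcs : c ^ 2 + s ^ 2 = 1)
    (hq : X.a3 ≠ 0 ∨ X.a4 ≠ 0 ∨ X.a5 ≠ 0 ∨ X.b3 ≠ 0 ∨ X.b4 ≠ 0 ∨ X.b5 ≠ 0) :
    0 < max (max ((X.a3 * c ^ 2 + X.a4 * c * s + X.a5 * s ^ 2) ^ 2 +
      (X.b3 * c ^ 2 + X.b4 * c * s + X.b5 * s ^ 2) ^ 2)
      ((-2 * X.a3 * c * s + X.a4 * (c ^ 2 - s ^ 2) + 2 * X.a5 * s * c) ^ 2 +
      (-2 * X.b3 * c * s + X.b4 * (c ^ 2 - s ^ 2) + 2 * X.b5 * s * c) ^ 2))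
      ((X.a3 * s ^ 2 - X.a4 * s * c + X.a5 * c ^ 2) ^ 2 +
      (X.b3 * s ^ 2 - X.b4 * s * c + X.b5 * c ^ 2) ^ 2) := by
  by_contra hcon
  rw [not_lt, max_le_iff, max_le_iff] at hcon
  obtain ⟨⟨h1, h2⟩, h3⟩ := hcon
  have z : ∀ x y : ℝ, x ^ 2 + y ^ 2 ≤ 0 → x = 0 ∧ y = 0 := by
    intro x y h
    constructor <;> nlinarith [sq_nonneg x, sq_nonneg y]
  obtain ⟨a1, b1⟩ := z _ _ h1
  obtain ⟨a2, b2⟩ := z _ _ h2
  obtain ⟨a3, b3⟩ := z _ _ h3
  have inv : ∀ x y w : ℝ, x * c ^ 2 + y * c * s + w * s ^ 2 = 0 →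
      -2 * x * c * s + y * (c ^ 2 - s ^ 2) + 2 * w * s * c = 0 →
      x * s ^ 2 - y * s * c + w * c ^ 2 = 0 → x = 0 ∧ y = 0 ∧ w = 0 := by
    intro x y w e1 e2 e3
    refine ⟨?_, ?_, ?_⟩
    · linear_combination c ^ 2 * e1 - c * s * e2 + s ^ 2 * e3 -
        x * (c ^ 2 + s ^ 2 + 1) * hcs
    · linear_combination 2 * c * s * e1 + (c ^ 2 - s ^ 2) * e2 - 2 * c * s * e3 -
        y * (c ^ 2 + s ^ 2 + 1) * hcs
    · linear_combination s ^ 2 * e1 + c * s * e2 + c ^ 2 * e3 -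
        w * (c ^ 2 + s ^ 2 + 1) * hcs
  obtain ⟨x1, x2, x3⟩ := inv _ _ _ a1 a2 a3
  obtain ⟨y1, y2, y3⟩ := inv _ _ _ b1 b2 b3
  rcases hq with h | h | h | h | h | h
  · exact h x1
  · exact h x2
  · exact h x3
  · exact h y1
  · exact h y2
  · exact h y3

end T12a

open T12a in
/-- T12a -/
theorem reduction (hl : LinPos) : Reduction := by
  rintro X p hp ⟨α, γ, T, hc, ha⟩ hq
  have hp' : (X.rot α).f p = 0 := by
    rw [QF.f_rot, hp]
    unfold H709R2.rot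
    ext <;> simp
  obtain ⟨θ, k, e, a, hk, he, he1, l1, l2, l3, l4⟩ := lin
    (X.a1 + 2 * X.a3 * p.1 + X.a4 * p.2) (X.a2 + X.a4 * p.1 + 2 * X.a5 * p.2)
    (X.b1 + 2 * X.b3 * p.1 + X.b4 * p.2) (X.b2 + X.b4 * p.1 + 2 * X.b5 * p.2) α (by
      intro u hu
      have h := hl (X.rot α) γ T p hc hp' ha u hu
      rw [QF.D_rot] at h
      convert h using 3
      unfold QF.D
      refine Prod.ext ?_ ?_
      · simp only
        ring
      · simp only
        ring)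
  have hcs : cos θ ^ 2 + sin θ ^ 2 = 1 := cos_sq_add_sin_sq θ
  have hM := D_zero X (cos θ) (sin θ) hcs hq
  set M := max (max ((X.a3 * cos θ ^ 2 + X.a4 * cos θ * sin θ + X.a5 * sin θ ^ 2) ^ 2 +
      (X.b3 * cos θ ^ 2 + X.b4 * cos θ * sin θ + X.b5 * sin θ ^ 2) ^ 2)
      ((-2 * X.a3 * cos θ * sin θ + X.a4 * (cos θ ^ 2 - sin θ ^ 2) +
        2 * X.a5 * sin θ * cos θ) ^ 2 +
      (-2 * X.b3 * cos θ * sin θ + X.b4 * (cos θ ^ 2 - sin θ ^ 2) +
        2 * X.b5 * sin θ * cos θ) ^ 2))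
      ((X.a3 * sin θ ^ 2 - X.a4 * sin θ * cos θ + X.a5 * cos θ ^ 2) ^ 2 +
      (X.b3 * sin θ ^ 2 - X.b4 * sin θ * cos θ + X.b5 * cos θ ^ 2) ^ 2) with hMdef
  have hS : 0 < √M := Real.sqrt_pos.2 hM
  have hS2 : √M ^ 2 = M := Real.sq_sqrt hM.le
  have hl0 : 0 < k * √M := mul_pos hk hS
  have hkl : (k * (k * √M)⁻¹) ^ 2 = M⁻¹ := by
    rw [mul_inv, ← mul_assoc, mul_inv_cancel₀ hk.ne', one_mul, inv_pow, hS2]
  have nrm : ∀ x y : ℝ, (k * (k * √M)⁻¹ * (cos θ * x + sin θ * y)) ^ 2 +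
      (k * (k * √M)⁻¹ * (-sin θ * x + cos θ * y)) ^ 2 = (x ^ 2 + y ^ 2) / M := by
    intro x y
    have : (k * (k * √M)⁻¹ * (cos θ * x + sin θ * y)) ^ 2 +
      (k * (k * √M)⁻¹ * (-sin θ * x + cos θ * y)) ^ 2 =
        (k * (k * √M)⁻¹) ^ 2 * ((x ^ 2 + y ^ 2) * (cos θ ^ 2 + sin θ ^ 2)) := by ring
    rw [this, hkl, hcs]
    field_simp
  refine ⟨tr X p k (k * √M) (cos θ) (sin θ), ⟨rfl, rfl, ⟨e, a, he, he1, l1, l2, l3, l4⟩,
    ?_, ?_, ?_⟩, ?_, fun α => orb_le X p k (k * √M) _ _ hk hl0 hcs hp α⟩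
  · refine (nrm _ _).trans_le ((div_le_one hM).2 ?_)
    exact (le_max_left _ _).trans (le_max_left _ _)
  · refine (nrm _ _).trans_le ((div_le_one hM).2 ?_)
    exact (le_max_right _ _).trans (le_max_left _ _)
  · refine (nrm _ _).trans_le ((div_le_one hM).2 ?_)
    exact le_max_right _ _
  · unfold Q1
    rcases max_choice (max ((X.a3 * cos θ ^ 2 + X.a4 * cos θ * sin θ + X.a5 * sin θ ^ 2) ^ 2 +
      (X.b3 * cos θ ^ 2 + X.b4 * cos θ * sin θ + X.b5 * sin θ ^ 2) ^ 2)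
      ((-2 * X.a3 * cos θ * sin θ + X.a4 * (cos θ ^ 2 - sin θ ^ 2) +
        2 * X.a5 * sin θ * cos θ) ^ 2 +
      (-2 * X.b3 * cos θ * sin θ + X.b4 * (cos θ ^ 2 - sin θ ^ 2) +
        2 * X.b5 * sin θ * cos θ) ^ 2))
      ((X.a3 * sin θ ^ 2 - X.a4 * sin θ * cos θ + X.a5 * cos θ ^ 2) ^ 2 +
      (X.b3 * sin θ ^ 2 - X.b4 * sin θ * cos θ + X.b5 * cos θ ^ 2) ^ 2) with h | h
    · rcases max_choice ((X.a3 * cos θ ^ 2 + X.a4 * cos θ * sin θ + X.a5 * sin θ ^ 2) ^ 2 +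
        (X.b3 * cos θ ^ 2 + X.b4 * cos θ * sin θ + X.b5 * sin θ ^ 2) ^ 2)
        ((-2 * X.a3 * cos θ * sin θ + X.a4 * (cos θ ^ 2 - sin θ ^ 2) +
          2 * X.a5 * sin θ * cos θ) ^ 2 +
        (-2 * X.b3 * cos θ * sin θ + X.b4 * (cos θ ^ 2 - sin θ ^ 2) +
          2 * X.b5 * sin θ * cos θ) ^ 2) with h' | h'
      · left
        refine (nrm _ _).trans ?_
        rw [div_eq_one_iff_eq hM.ne', hMdef, h, h']
      · right; left
        refine (nrm _ _).trans ?_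
        rw [div_eq_one_iff_eq hM.ne', hMdef, h, h']
    · right; right
      refine (nrm _ _).trans ?_
      rw [div_eq_one_iff_eq hM.ne', hMdef, h]

end Pool.Agent.H709Q
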