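import Pool.Agent.H709Q.Defs

/-! T12b: the affine case. -/

open Real Set MeasureTheory Topology Filter
open scoped ENNReal

namespace Pool.Agent.H709Q

open Pool.Agent.H709R2 (wedge)

theorem T12b_trace {X : QF} {p : ℝ × ℝ} (hp : X.f p = 0) (h3 : X.a3 = 0) (h4 : X.a4 = 0)
    (h5 : X.a5 = 0) (k3 : X.b3 = 0) (k4 : X.b4 = 0) (k5 : X.b5 = 0) {γ : ℝ → ℝ × ℝ} {T : ℝ}
    (hc : Cyc X γ T) (ha : Around X p γ) : X.a1 + X.b2 = 0 := by
  have hp1 : X.a0 + X.a1 * p.1 + X.a2 * p.2 = 0 := by
    have := congrArg Prod.fst hp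
    simpa [QF.f, h3, h4, h5] using this
  have hp2 : X.b0 + X.b1 * p.1 + X.b2 * p.2 = 0 := by
    have := congrArg Prod.snd hp
    simpa [QF.f, k3, k4, k5] using this
  have hf : ∀ z : ℝ × ℝ, X.f z = (X.a1 * (z.1 - p.1) + X.a2 * (z.2 - p.2),
      X.b1 * (z.1 - p.1) + X.b2 * (z.2 - p.2)) := by
    intro z
    simp only [QF.f, h3, h4, h5, k3, k4, k5, Prod.mk.injEq]
    constructor <;> linarith
  have hd : ∀ t, HasDerivAt (fun t => wedge (γ t - p) (X.f (γ t)))
      ((X.a1 + X.b2) * wedge (γ t - p) (X.f (γ t))) t := by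
    intro t
    have h0 := hc.ode t
    have h1 : HasDerivAt (fun t => (γ t).1) (X.f (γ t)).1 t :=
      (hasFDerivAt_fst (𝕜 := ℝ) (p := γ t)).comp_hasDerivAt t h0
    have h2 : HasDerivAt (fun t => (γ t).2) (X.f (γ t)).2 t :=
      (hasFDerivAt_snd (𝕜 := ℝ) (p := γ t)).comp_hasDerivAt t h0
    have h1' := h1.sub_const p.1
    have h2' := h2.sub_const p.2
    have h6 := (h1'.mul ((h1'.const_mul X.b1).add (h2'.const_mul X.b2))).sub
      (h2'.mul ((h1'.const_mul X.a1).add (h2'.const_mul X.a2)))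
    refine (h6.congr_of_eventuallyEq (Eventually.of_forall fun s => ?_)).congr_deriv ?_
    · simp only [wedge, hf, Prod.fst_sub, Prod.snd_sub, Pi.mul_apply, Pi.sub_apply, Pi.add_apply]
    · simp only [wedge, hf, Prod.fst_sub, Prod.snd_sub, Pi.mul_apply, Pi.sub_apply, Pi.add_apply]
      ring
  obtain ⟨c, _, hc0⟩ := exists_hasDerivAt_eq_zero hc.pos
    (fun x _ => (hd x).continuousAt.continuousWithinAt)
    (by
      have := hc.per 0
      rw [zero_add] at this
      simp only [this]) (fun x _ => hd x)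
  rcases mul_eq_zero.1 hc0 with h | h
  · exact h
  · exact absurd h (ha c).ne'

theorem affineCase (hl : LinPos) : AffineCase := by
  intro X p hp h3 h4 h5 k3 k4 k5
  have key : ∀ α : ℝ, (Orb (X.rot α) p).Nonempty →
      cos α * (X.a1 + X.b2) + sin α * (X.a2 - X.b1) = 0 ∧
      ¬ (X.a1 + X.b2 = 0 ∧ X.a2 - X.b1 = 0) := by
    rintro α ⟨C, γ, T, hc, ha, -⟩
    have hp' : (X.rot α).f p = 0 := by
      rw [QF.f_rot, hp]
      simp [H709R2.rot]
    have h1 := T12b_trace hp' (by simp [QF.rot, h3, k3]) (by simp [QF.rot, h4, k4])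
      (by simp [QF.rot, h5, k5]) (by simp [QF.rot, h3, k3]) (by simp [QF.rot, h4, k4])
      (by simp [QF.rot, h5, k5]) hc ha
    simp only [QF.rot] at h1
    refine ⟨by linarith, ?_⟩
    rintro ⟨e1, e2⟩
    have h6 := hl (X.rot α) γ T p hc hp' ha (1, 0) (by simp)
    have h7 := hl (X.rot α) γ T p hc hp' ha (0, 1) (by simp)
    simp only [wedge, QF.D, QF.rot, h3, h4, h5, k3, k4, k5] at h6 h7
    have e3 : X.b2 = - X.a1 := by linarith
    have e4 : X.a2 = X.b1 := by linarith
    rw [e3, e4] at h7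
    nlinarith
  set Z : Set ℝ := {α | α ∈ Ioo 0 π ∧ (Orb (X.rot α) p).Nonempty} with hZ
  have hsub : Z.Subsingleton := by
    rintro α ⟨hα, hα'⟩ β ⟨hβ, hβ'⟩
    by_contra hne
    obtain ⟨e1, e2⟩ := key α hα'
    obtain ⟨e3, -⟩ := key β hβ'
    have hs : sin (β - α) ≠ 0 := by
      intro h0
      rw [Real.sin_eq_zero_iff_of_lt_of_lt (by linarith [hα.2, hβ.1]) (by linarith [hα.1, hβ.2])]
        at h0
      exact hne (by linarith)
    rw [sin_sub] at hs
    apply e2
    constructor
    · have : (sin β * cos α - cos β * sin α) * (X.a1 + X.b2) = 0 := by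
        linear_combination sin β * e1 - sin α * e3
      exact (mul_eq_zero.1 this).resolve_left hs
    · have : (sin β * cos α - cos β * sin α) * (X.a2 - X.b1) = 0 := by
        linear_combination cos α * e3 - cos β * e1
      exact (mul_eq_zero.1 this).resolve_left hs
  refine ⟨Z.indicator fun _ => ⊤, measurable_const.indicator hsub.measurableSet, ?_, ?_⟩
  · intro α hα
    by_cases h : (Orb (X.rot α) p).Nonempty
    · rw [indicator_of_mem (show α ∈ Z from ⟨hα, h⟩)]
      exact le_top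
    · rw [Set.not_nonempty_iff_eq_empty] at h
      simp only [h, encard_empty]
      simp
  · rw [lintegral_indicator hsub.measurableSet]
    have h0 : (volume.restrict (Ioo 0 π)) Z = 0 := by
      exact le_antisymm ((Measure.restrict_apply_le _ _).trans (hsub.measure_zero volume).le) zero_le
    rw [Measure.restrict_eq_zero.2 h0]
    simp

end Pool.Agent.H709Q
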