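import Pool.Agent.H709Q.Defs

/-! T2a: the curvature of a simple closed orbit of a quadratic field has a constant sign. -/

set_option autoImplicit false

open Real Set MeasureTheory Topology Filter

namespace Pool.Agent.H709Q

open Pool.Agent.H709R2 (wedge ClosedOrbit)

lemma t2a_zero_of {v x : ℝ × ℝ} (hv : v ≠ 0) (h1 : v.1 * x.1 + v.2 * x.2 = 0)
    (h2 : wedge v x = 0) : x = 0 := by
  have hN : 0 < v.1 ^ 2 + v.2 ^ 2 := by
    rcases eq_or_ne v.1 0 with h | h
    · have h' : v.2 ≠ 0 := fun h' => hv (Prod.ext h h')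
      positivity
    · positivity
  unfold wedge at h2
  have e1 : (v.1 ^ 2 + v.2 ^ 2) * x.1 = 0 := by linear_combination v.1 * h1 - v.2 * h2
  have e2 : (v.1 ^ 2 + v.2 ^ 2) * x.2 = 0 := by linear_combination v.2 * h1 + v.1 * h2
  exact Prod.ext ((mul_eq_zero.1 e1).resolve_left hN.ne') ((mul_eq_zero.1 e2).resolve_left hN.ne')

/-- the curvature does not vanish -/
lemma t2a_curv_ne (X : QF) (γ : ℝ → ℝ × ℝ) (T : ℝ) (h : Cyc X γ T) (t₀ : ℝ) :
    X.curv (γ t₀) ≠ 0 := by
  intro hcurv
  set z := γ t₀ with hz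
  set v := X.f z with hv
  have hv0 : v ≠ 0 := h.ne t₀
  set N : ℝ := v.1 ^ 2 + v.2 ^ 2 with hN
  have hNpos : 0 < N := by
    rcases eq_or_ne v.1 0 with h1 | h1
    · have h' : v.2 ≠ 0 := fun h' => hv0 (Prod.ext h1 h')
      positivity
    · positivity
  have hγc : Continuous γ := continuous_iff_continuousAt.2 fun t => (h.ode t).continuousAt
  have hd1 : ∀ t, HasDerivAt (fun t => (γ t).1) (X.f (γ t)).1 t := fun t =>
    (hasFDerivAt_fst (𝕜 := ℝ) (p := γ t)).comp_hasDerivAt t (h.ode t)
  have hd2 : ∀ t, HasDerivAt (fun t => (γ t).2) (X.f (γ t)).2 t := fun t =>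
    (hasFDerivAt_snd (𝕜 := ℝ) (p := γ t)).comp_hasDerivAt t (h.ode t)
  -- coordinates
  set H : ℝ → ℝ := fun t => v.1 * ((γ t).2 - z.2) - v.2 * ((γ t).1 - z.1) with hH
  set S : ℝ → ℝ := fun t => (v.1 * ((γ t).1 - z.1) + v.2 * ((γ t).2 - z.2)) / N with hS
  have hHc : Continuous H := by fun_prop
  have hSc : Continuous S := by fun_prop
  have hHd : ∀ t, HasDerivAt H (wedge v (X.f (γ t))) t := by
    intro t
    have := (((hd2 t).sub_const z.2).const_mul v.1).sub (((hd1 t).sub_const z.1).const_mul v.2)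
    refine this.congr_deriv ?_
    unfold wedge
    ring
  have hSd : ∀ t, HasDerivAt S ((v.1 * (X.f (γ t)).1 + v.2 * (X.f (γ t)).2) / N) t := by
    intro t
    exact ((((hd1 t).sub_const z.1).const_mul v.1).add
      (((hd2 t).sub_const z.2).const_mul v.2)).div_const N
  -- the coefficient
  set n : ℝ × ℝ := (-v.2 / N, v.1 / N) with hn
  set c1 : ℝ := wedge v (X.D z n) with hc1
  set c2 : ℝ := wedge v (X.D v n - X.D 0 n) with hc2
  set c3 : ℝ := wedge v (X.qd n) with hc3
  set q2 : ℝ := wedge v (X.qd v) with hq2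
  set m : ℝ → ℝ := fun t => c1 + S t * c2 + H t * c3 with hm
  have hmc : Continuous m := by fun_prop
  have hcurv' : wedge v (X.D z v) = 0 := hcurv
  have key : ∀ t, wedge v (X.f (γ t)) = q2 * S t ^ 2 + H t * m t := by
    intro t
    have e1 : (γ t).1 = z.1 + (S t * v.1 + H t * n.1) := by
      simp only [hS, hH, hn]
      field_simp
      rw [hN]
      ring
    have e2 : (γ t).2 = z.2 + (S t * v.2 + H t * n.2) := by
      simp only [hS, hH, hn]
      field_simp
      rw [hN]
      ring
    have e3 : γ t = z + (S t * v.1 + H t * n.1, S t * v.2 + H t * n.2) := Prod.ext e1 e2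
    rw [e3, QF.f_add, ← hv]
    have e4 : wedge v (v + X.D z (S t * v.1 + H t * n.1, S t * v.2 + H t * n.2) +
        X.qd (S t * v.1 + H t * n.1, S t * v.2 + H t * n.2)) =
        S t * wedge v (X.D z v) + (q2 * S t ^ 2 + H t * m t) := by
      simp only [hm, hc1, hc2, hc3, hq2]
      clear_value S H m n c1 c2 c3 q2
      unfold wedge QF.D QF.qd
      simp only [Prod.fst_add, Prod.snd_add, Prod.fst_sub, Prod.snd_sub, Prod.fst_zero,
        Prod.snd_zero]
      ring
    rw [e4, hcurv']
    ring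
  -- integrating factor
  set F : ℝ → ℝ := fun t => ∫ s in t₀..t, m s with hF
  have hFd : ∀ t, HasDerivAt F (m t) t := fun t => (hmc.integral_hasStrictDerivAt t₀ t).hasDerivAt
  set G : ℝ → ℝ := fun t => H t * exp (-F t) with hG
  have hGd : ∀ t, HasDerivAt G (q2 * S t ^ 2 * exp (-F t)) t := by
    intro t
    have := (hHd t).mul ((hFd t).neg.exp)
    refine this.congr_deriv ?_
    rw [key t, Pi.neg_apply]
    ring
  have hGdiff : Differentiable ℝ G := fun t => (hGd t).differentiableAt
  have hH0 : H t₀ = 0 := by simp [hH, ← hz]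
  have hHT : H (t₀ + T) = 0 := by simp [hH, h.per, ← hz]
  have hG0 : G t₀ = 0 := by simp [hG, hH0]
  have hGT : G (t₀ + T) = 0 := by simp [hG, hHT]
  have hT := h.pos
  have hGz : ∀ t ∈ Icc t₀ (t₀ + T), G t = 0 := by
    intro t ht
    rcases le_total 0 q2 with hq | hq
    · have hmono : Monotone G := monotone_of_deriv_nonneg hGdiff fun t => by
        rw [(hGd t).deriv]
        positivity
      have h1 := hmono ht.1
      have h2 := hmono ht.2
      rw [hG0] at h1
      rw [hGT] at h2
      exact le_antisymm h2 h1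
    · have hanti : Antitone G := antitone_of_deriv_nonpos hGdiff fun t => by
        rw [(hGd t).deriv]
        have h1 : 0 ≤ S t ^ 2 * exp (-F t) := by positivity
        nlinarith
      have h1 := hanti ht.1
      have h2 := hanti ht.2
      rw [hG0] at h1
      rw [hGT] at h2
      exact le_antisymm h1 h2
  have hHz : ∀ t ∈ Icc t₀ (t₀ + T), H t = 0 := by
    intro t ht
    have h1 := hGz t ht
    exact (mul_eq_zero.1 h1).resolve_right (exp_pos _).ne'
  have hwz : ∀ t ∈ Ioo t₀ (t₀ + T), wedge v (X.f (γ t)) = 0 := by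
    intro t ht
    have h1 : H =ᶠ[𝓝 t] fun _ => (0 : ℝ) := by
      filter_upwards [Icc_mem_nhds ht.1 ht.2] with s hs
      exact hHz s hs
    exact (hHd t).unique ((hasDerivAt_const t (0 : ℝ)).congr_of_eventuallyEq h1)
  obtain ⟨c, hc, hc0⟩ := exists_hasDerivAt_eq_zero (show t₀ < t₀ + T by linarith)
    hSc.continuousOn (by simp [hS, h.per]) (fun t _ => hSd t)
  have h1 : v.1 * (X.f (γ c)).1 + v.2 * (X.f (γ c)).2 = 0 := by
    rcases div_eq_zero_iff.1 hc0 with h1 | h1
    · exact h1
    · exact absurd h1 hNpos.ne'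
  exact h.ne c (t2a_zero_of hv0 h1 (hwz c hc))

theorem curvSign : CurvSign := by
  intro X γ T h
  have hγc : Continuous γ := continuous_iff_continuousAt.2 fun t => (h.ode t).continuousAt
  have hfc : Continuous fun t => X.f (γ t) := X.continuous_f.comp hγc
  have hDc : Continuous fun t => X.D (γ t) (X.f (γ t)) :=
    X.continuous_D.comp (hγc.prodMk hfc)
  have hc : Continuous fun t => X.curv (γ t) := by
    unfold QF.curv wedge
    exact ((continuous_fst.comp hfc).mul (continuous_snd.comp hDc)).sub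
      ((continuous_snd.comp hfc).mul (continuous_fst.comp hDc))
  rcases lt_or_gt_of_ne (t2a_curv_ne X γ T h 0) with h0 | h0
  · right
    intro t
    rcases lt_or_gt_of_ne (t2a_curv_ne X γ T h t) with h1 | h1
    · exact h1
    · obtain ⟨s, hs⟩ := intermediate_value_univ 0 t hc (show (0 : ℝ) ∈ _ from ⟨h0.le, h1.le⟩)
      exact absurd hs (t2a_curv_ne X γ T h s)
  · left
    intro t
    rcases lt_or_gt_of_ne (t2a_curv_ne X γ T h t) with h1 | h1
    · obtain ⟨s, hs⟩ := intermediate_value_univ t 0 hc (show (0 : ℝ) ∈ _ from ⟨h1.le, h0.le⟩)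
      exact absurd hs (t2a_curv_ne X γ T h s)
    · exact h1

end Pool.Agent.H709Q
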