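import Pool.Agent.H709Q.Defs

/-! Task T2b (helper634): the tangent lines of a simple closed orbit are supporting lines. -/

open Real Set MeasureTheory Topology Filter

namespace Pool.Agent.H709Q

noncomputable section

open Pool.Agent.H709R2 (wedge)

/-- `HalfCross` for path connected sets -/
theorem t2b_cross (hc : HalfCross) {P Q : Set (ℝ × ℝ)} (hP : ∀ z ∈ P, 0 ≤ z.2)
    (hQ : ∀ z ∈ Q, 0 ≤ z.2) {a b c d : ℝ} (h1 : a < b) (h2 : b < c) (h3 : c < d)
    (j1 : JoinedIn P (a, 0) (c, 0)) (j2 : JoinedIn Q (b, 0) (d, 0)) : ∃ z, z ∈ P ∧ z ∈ Q := by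
  obtain ⟨f, hf⟩ := j1
  obtain ⟨g, hg⟩ := j2
  have hf' : ∀ t, f.extend t ∈ P := fun t => by
    rw [Path.extend]
    exact hf _
  have hg' : ∀ t, g.extend t ∈ Q := fun t => by
    rw [Path.extend]
    exact hg _
  obtain ⟨s, hs, t, ht, hst⟩ := hc f.extend g.extend f.continuous_extend.continuousOn
    g.continuous_extend.continuousOn (fun t _ => hP _ (hf' t)) (fun t _ => hQ _ (hg' t))
    a b c d h1 h2 h3 f.extend_zero f.extend_one g.extend_zero g.extend_one
  exact ⟨f.extend s, hf' s, hst ▸ hg' t⟩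

/-- sign analysis -/
theorem t2b_sign {q1 q2 s1 s2 : ℝ} (hq : 0 < q1) (h1 : s1 * (q1 + q2 * s1) < 0)
    (h2 : 0 < s2 * (q1 + q2 * s2)) :
    (s1 < 0 ∧ 0 < s2) ∨ (s2 < s1 ∧ s1 < 0) ∨ (0 < s2 ∧ s2 < s1) := by
  rcases lt_trichotomy s1 0 with h | h | h
  · have h3 : 0 < q1 + q2 * s1 := by
      by_contra hcon
      push Not at hcon
      nlinarith
    rcases lt_trichotomy s2 0 with h' | h' | h'
    · right; left
      refine ⟨?_, h⟩
      have h4 : q1 + q2 * s2 < 0 := by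
        by_contra hcon
        push Not at hcon
        nlinarith
      have h5 : 0 < q2 := by
        by_contra hcon
        push Not at hcon
        nlinarith [mul_nonneg_of_nonpos_of_nonpos hcon h'.le]
      nlinarith
    · rw [h'] at h2; simp at h2
    · left; exact ⟨h, h'⟩
  · rw [h] at h1; simp at h1
  · have h3 : q1 + q2 * s1 < 0 := by
      by_contra hcon
      push Not at hcon
      nlinarith
    have h5 : q2 < 0 := by
      by_contra hcon
      push Not at hcon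
      nlinarith [mul_nonneg hcon h.le]
    rcases lt_trichotomy s2 0 with h' | h' | h'
    · exfalso
      nlinarith [mul_pos_of_neg_of_neg h5 h']
    · rw [h'] at h2; simp at h2
    · right; right
      refine ⟨h', ?_⟩
      have h4 : 0 < q1 + q2 * s2 := by
        by_contra hcon
        push Not at hcon
        nlinarith
      nlinarith

theorem t2b_join {f : ℝ → ℝ × ℝ} (hf : Continuous f) {a b : ℝ} (hab : a ≤ b) :
    JoinedIn (f '' Icc a b) (f a) (f b) :=
  (((convex_Icc a b).isPathConnected ⟨a, left_mem_Icc.2 hab⟩).image hf).joinedIn _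
    ⟨a, left_mem_Icc.2 hab, rfl⟩ _ ⟨b, right_mem_Icc.2 hab, rfl⟩

/-- the topological part, in the coordinates `Ψ = (S, H)` -/
theorem t2b_core (hc : HalfCross) {Ψ : ℝ → ℝ × ℝ} (hΨ : Continuous Ψ) {t0 t1 t2 T N : ℝ}
    (hT : 0 < T) (hN : 0 < N) (h0 : Ψ t0 = 0) (hper : ∀ t, Ψ (t + T) = Ψ t)
    (hinj : ∀ s t, Ψ s = Ψ t → ∃ k : ℤ, s = t + k * T)
    (hder : HasDerivAt (fun t => (Ψ t).1) N t0) (h01 : t0 < t1) (h12 : t1 < t2)
    (h2T : t2 < t0 + T) (hn1 : ∀ t ∈ Icc t0 t1, 0 ≤ (Ψ t).2)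
    (hn2 : ∀ t ∈ Icc t2 (t0 + T), 0 ≤ (Ψ t).2) (e1 : (Ψ t1).2 = 0) (e2 : (Ψ t2).2 = 0)
    (hs : ((Ψ t1).1 < 0 ∧ 0 < (Ψ t2).1) ∨ ((Ψ t2).1 < (Ψ t1).1 ∧ (Ψ t1).1 < 0) ∨
      (0 < (Ψ t2).1 ∧ (Ψ t2).1 < (Ψ t1).1)) : False := by
  have hkey : ∀ s t, Ψ s = Ψ t → s < t → t < s + T → False := by
    intro s t hst h1 h2
    obtain ⟨k, hk⟩ := hinj s t hst
    have hk1 : (-1 : ℝ) < (k : ℝ) := by
      by_contra hcon
      push Not at hcon
      nlinarith
    have hk2 : (k : ℝ) < 0 := by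
      by_contra hcon
      push Not at hcon
      nlinarith
    have hk3 : (-1 : ℤ) < k := by exact_mod_cast hk1
    have hk4 : k < 0 := by exact_mod_cast hk2
    omega
  -- local structure
  obtain ⟨ε, hε, hloc⟩ : ∃ ε > 0, ∀ t, |t - t0| < ε → t ≠ t0 → 0 < slope (fun t => (Ψ t).1) t0 t := by
    have h1 := (hasDerivAt_iff_tendsto_slope.1 hder).eventually (lt_mem_nhds hN)
    rw [eventually_nhdsWithin_iff, Metric.eventually_nhds_iff] at h1
    obtain ⟨ε, hε, h2⟩ := h1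
    exact ⟨ε, hε, fun t ht hne => h2 (by rw [Real.dist_eq]; exact ht) hne⟩
  have hS0 : (Ψ t0).1 = 0 := by rw [h0]; rfl
  obtain ⟨e0, he0, he0ε, he01, he02⟩ : ∃ e0 > 0, e0 < ε ∧ e0 < t1 - t0 ∧ e0 < t0 + T - t2 := by
    refine ⟨min ε (min (t1 - t0) (t0 + T - t2)) / 2, ?_, ?_, ?_, ?_⟩
    · have : 0 < min ε (min (t1 - t0) (t0 + T - t2)) :=
        lt_min hε (lt_min (by linarith) (by linarith))
      linarith
    all_goals
      have h1 : 0 < min ε (min (t1 - t0) (t0 + T - t2)) :=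
        lt_min hε (lt_min (by linarith) (by linarith))
      have h2 : min ε (min (t1 - t0) (t0 + T - t2)) ≤ ε := min_le_left _ _
      have h3 : min ε (min (t1 - t0) (t0 + T - t2)) ≤ t1 - t0 :=
        (min_le_right _ _).trans (min_le_left _ _)
      have h4 : min ε (min (t1 - t0) (t0 + T - t2)) ≤ t0 + T - t2 :=
        (min_le_right _ _).trans (min_le_right _ _)
      linarith
  have hpos : ∀ t, t0 < t → t ≤ t0 + e0 → 0 < (Ψ t).1 := by
    intro t ht1 ht2
    have h1 := hloc t (by rw [abs_of_pos (by linarith)]; linarith) (ne_of_gt ht1)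
    rw [slope_def_field, hS0, sub_zero] at h1
    have h2 : 0 < t - t0 := by linarith
    have h3 := mul_pos h1 h2
    rwa [div_mul_cancel₀ _ h2.ne'] at h3
  have hneg : ∀ t, t < t0 → t0 - e0 ≤ t → (Ψ t).1 < 0 := by
    intro t ht1 ht2
    have h1 := hloc t (by rw [abs_of_neg (by linarith)]; linarith) (ne_of_lt ht1)
    rw [slope_def_field, hS0, sub_zero] at h1
    have h2 : t - t0 < 0 := by linarith
    have h3 := mul_neg_of_pos_of_neg h1 h2
    rwa [div_mul_cancel₀ _ h2.ne] at h3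
  -- lower bound away from t0
  obtain ⟨δ, hδ, hδ2⟩ : ∃ δ > 0, ∀ t ∈ Icc (t0 + e0) (t0 + T - e0), δ ≤ ‖Ψ t‖ := by
    obtain ⟨t, ht, hmin⟩ := isCompact_Icc.exists_isMinOn
      (⟨t1, by constructor <;> linarith⟩ : (Icc (t0 + e0) (t0 + T - e0)).Nonempty)
      hΨ.norm.continuousOn
    refine ⟨‖Ψ t‖, ?_, fun s hs => hmin hs⟩
    refine norm_pos_iff.2 ?_
    intro h1
    rw [← h0] at h1
    exact hkey t0 t h1.symm (by linarith [ht.1]) (by linarith [ht.2])
  have hne1 : (Ψ t1).1 ≠ 0 := by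
    rcases hs with h | h | h
    · exact ne_of_lt h.1
    · exact ne_of_lt h.2
    · exact ne_of_gt (h.1.trans h.2)
  have hne2 : (Ψ t2).1 ≠ 0 := by
    rcases hs with h | h | h
    · exact ne_of_gt h.2
    · exact ne_of_lt (h.1.trans h.2)
    · exact ne_of_gt h.1
  -- the cut
  obtain ⟨e, he, hee0, hsm⟩ : ∃ e > 0, e < e0 ∧ ∀ t, |t - t0| ≤ e →
      ‖Ψ t‖ < min δ (min |(Ψ t1).1| |(Ψ t2).1|) := by
    have hη : 0 < min δ (min |(Ψ t1).1| |(Ψ t2).1|) :=
      lt_min hδ (lt_min (abs_pos.2 hne1) (abs_pos.2 hne2))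
    obtain ⟨d, hd, h1⟩ := Metric.continuousAt_iff.1 (hΨ.continuousAt (x := t0)) _ hη
    refine ⟨min d e0 / 2, ?_, ?_, ?_⟩
    · have := lt_min hd he0
      linarith
    · have := lt_min hd he0
      have := min_le_right d e0
      linarith
    · intro t ht
      have h2 : dist t t0 < d := by
        rw [Real.dist_eq]
        have := lt_min hd he0
        have := min_le_left d e0
        linarith
      have h3 := h1 h2
      rwa [h0, dist_zero_right] at h3
  have hp := hsm (t0 + e) (by simp [abs_of_pos he])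
  have hm := hsm (t0 - e) (by simp [abs_of_pos he])
  have hmT : Ψ (t0 + T - e) = Ψ (t0 - e) := by
    rw [← hper (t0 - e)]
    congr 1
    ring
  have hp1 : ‖Ψ (t0 + e)‖ < δ := lt_of_lt_of_le hp (min_le_left _ _)
  have hm1 : ‖Ψ (t0 - e)‖ < δ := lt_of_lt_of_le hm (min_le_left _ _)
  have hmin2 : min δ (min |(Ψ t1).1| |(Ψ t2).1|) ≤ |(Ψ t1).1| :=
    (min_le_right _ _).trans (min_le_left _ _)
  have hmin3 : min δ (min |(Ψ t1).1| |(Ψ t2).1|) ≤ |(Ψ t2).1| :=
    (min_le_right _ _).trans (min_le_right _ _)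
  have hp2 : |(Ψ (t0 + e)).1| ≤ ‖Ψ (t0 + e)‖ := by
    rw [← Real.norm_eq_abs]; exact norm_fst_le _
  have hm2 : |(Ψ (t0 - e)).1| ≤ ‖Ψ (t0 - e)‖ := by
    rw [← Real.norm_eq_abs]; exact norm_fst_le _
  have hp3 : |(Ψ (t0 + e)).2| ≤ ‖Ψ (t0 + e)‖ := by
    rw [← Real.norm_eq_abs]; exact norm_snd_le _
  have hm3 : |(Ψ (t0 - e)).2| ≤ ‖Ψ (t0 - e)‖ := by
    rw [← Real.norm_eq_abs]; exact norm_snd_le _
  have hSp : 0 < (Ψ (t0 + e)).1 := hpos _ (by linarith) (by linarith)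
  have hSm : (Ψ (t0 - e)).1 < 0 := hneg _ (by linarith) (by linarith)
  have hHp : 0 ≤ (Ψ (t0 + e)).2 := hn1 _ ⟨by linarith, by linarith⟩
  have hHm : 0 ≤ (Ψ (t0 - e)).2 := by
    rw [← hmT]
    exact hn2 _ ⟨by linarith, by linarith⟩
  set Sp := (Ψ (t0 + e)).1 with hSpdef
  set Hp := (Ψ (t0 + e)).2 with hHpdef
  set Sm := (Ψ (t0 - e)).1 with hSmdef
  set Hm := (Ψ (t0 - e)).2 with hHmdef
  set P : Set (ℝ × ℝ) := (fun h : ℝ => (Sp, h)) '' Icc 0 Hp ∪ Ψ '' Icc (t0 + e) t1 with hP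
  set Q : Set (ℝ × ℝ) := (fun h : ℝ => (Sm, h)) '' Icc 0 Hm ∪ Ψ '' Icc t2 (t0 + T - e) with hQ
  have jP : JoinedIn P (Sp, 0) ((Ψ t1).1, 0) := by
    have j1 : JoinedIn P (Sp, 0) (Sp, Hp) :=
      (t2b_join (f := fun h : ℝ => (Sp, h)) (by fun_prop) hHp).mono subset_union_left
    have j2 : JoinedIn P (Ψ (t0 + e)) (Ψ t1) :=
      (t2b_join hΨ (by linarith : t0 + e ≤ t1)).mono subset_union_right
    have e3 : Ψ t1 = ((Ψ t1).1, 0) := by rw [← e1]
    rw [← e3]
    exact j1.trans j2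
  have jQ : JoinedIn Q (Sm, 0) ((Ψ t2).1, 0) := by
    have j1 : JoinedIn Q (Sm, 0) (Sm, Hm) :=
      (t2b_join (f := fun h : ℝ => (Sm, h)) (by fun_prop) hHm).mono subset_union_left
    have j2 : JoinedIn Q (Ψ t2) (Ψ (t0 + T - e)) :=
      (t2b_join hΨ (by linarith : t2 ≤ t0 + T - e)).mono subset_union_right
    have e3 : Ψ t2 = ((Ψ t2).1, 0) := by rw [← e2]
    rw [hmT] at j2
    rw [← e3]
    exact j1.trans j2.symm
  have nP : ∀ z ∈ P, 0 ≤ z.2 := by
    rintro z (⟨h, hh, rfl⟩ | ⟨t, ht, rfl⟩)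
    · exact hh.1
    · exact hn1 t ⟨by linarith [ht.1], ht.2⟩
  have nQ : ∀ z ∈ Q, 0 ≤ z.2 := by
    rintro z (⟨h, hh, rfl⟩ | ⟨t, ht, rfl⟩)
    · exact hh.1
    · exact hn2 t ⟨ht.1, by linarith [ht.2]⟩
  have hdisj : ∀ z, z ∈ P → z ∈ Q → False := by
    rintro z (⟨h, hh, rfl⟩ | ⟨s, hs', rfl⟩) (⟨h', hh', h1⟩ | ⟨t, ht, h1⟩)
    · have h2 := congrArg Prod.fst h1
      simp only at h2
      linarith
    · have h2 := congrArg Prod.fst h1
      simp only at h2
      rcases le_or_gt t (t0 + T - e0) with h3 | h3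
      · have h4 := hδ2 t ⟨by linarith [ht.1], h3⟩
        rw [h1] at h4
        have h5 : ‖((Sp, h) : ℝ × ℝ)‖ ≤ ‖Ψ (t0 + e)‖ := by
          rw [Prod.norm_mk]
          refine max_le hp2 ?_
          rw [Real.norm_eq_abs, abs_of_nonneg hh.1]
          exact hh.2.trans ((le_abs_self _).trans hp3)
        linarith
      · have h4 : Ψ (t - T) = Ψ t := by
          rw [← hper (t - T)]
          congr 1
          ring
        have h5 := hneg (t - T) (by linarith [ht.2]) (by linarith)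
        rw [h4] at h5
        linarith
    · have h2 := congrArg Prod.fst h1
      simp only at h2
      rcases le_or_gt s (t0 + e0) with h3 | h3
      · have h5 := hpos s (by linarith [hs'.1]) h3
        linarith
      · have h4 := hδ2 s ⟨h3.le, by linarith [hs'.2]⟩
        rw [← h1] at h4
        have h5 : ‖((Sm, h') : ℝ × ℝ)‖ ≤ ‖Ψ (t0 - e)‖ := by
          rw [Prod.norm_mk]
          refine max_le hm2 ?_
          rw [Real.norm_eq_abs, abs_of_nonneg hh'.1]
          exact hh'.2.trans ((le_abs_self _).trans hm3)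
        simp only at h4
        linarith
    · exact hkey s t h1.symm (by linarith [hs'.2, ht.1]) (by linarith [hs'.1, ht.2])
  have a1 : |Sp| < |(Ψ t1).1| := lt_of_le_of_lt hp2 (lt_of_lt_of_le hp hmin2)
  have a2 : |Sp| < |(Ψ t2).1| := lt_of_le_of_lt hp2 (lt_of_lt_of_le hp hmin3)
  have b1 : |Sm| < |(Ψ t1).1| := lt_of_le_of_lt hm2 (lt_of_lt_of_le hm hmin2)
  have b2 : |Sm| < |(Ψ t2).1| := lt_of_le_of_lt hm2 (lt_of_lt_of_le hm hmin3)
  rw [abs_of_pos hSp] at a1 a2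
  rw [abs_of_neg hSm] at b1 b2
  rcases hs with ⟨ha, hb⟩ | ⟨ha, hb⟩ | ⟨ha, hb⟩
  · rw [abs_of_neg ha] at b1
    rw [abs_of_pos hb] at a2
    have x1 : (Ψ t1).1 < Sm := by linarith
    have x2 : Sm < Sp := by linarith
    obtain ⟨z, hz1, hz2⟩ := t2b_cross hc nP nQ x1 x2 a2 jP.symm jQ
    exact hdisj z hz1 hz2
  · rw [abs_of_neg hb] at b1
    have x1 : (Ψ t1).1 < Sm := by linarith
    have x2 : Sm < Sp := by linarith
    obtain ⟨z, hz1, hz2⟩ := t2b_cross hc nQ nP ha x1 x2 jQ.symm jP.symm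
    exact hdisj z hz2 hz1
  · rw [abs_of_pos ha] at a2
    have x1 : Sm < Sp := by linarith
    obtain ⟨z, hz1, hz2⟩ := t2b_cross hc nQ nP x1 a2 hb jQ jP
    exact hdisj z hz2 hz1

theorem supporting (hc : HalfCross) (cs : CrossSigns) : Supporting := by
  intro X γ T h hcurv t0 t3
  by_contra hcon
  push Not at hcon
  obtain ⟨t1, t2, h01, h12, h2T, hn1, hn2, e1, e2, s1, s2⟩ := cs X γ T h hcurv t0 t3 hcon
  have hv0 : X.f (γ t0) ≠ 0 := h.ne t0
  have hγ : Continuous γ := by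
    rw [continuous_iff_continuousAt]
    exact fun t => (h.ode t).continuousAt
  set v := X.f (γ t0) with hv
  have hN : 0 < v.1 ^ 2 + v.2 ^ 2 := by
    by_contra hcon2
    push Not at hcon2
    apply hv0
    have h1 : v.1 = 0 := by nlinarith [sq_nonneg v.1, sq_nonneg v.2]
    have h2 : v.2 = 0 := by nlinarith [sq_nonneg v.1, sq_nonneg v.2]
    exact Prod.ext h1 h2
  set N := v.1 ^ 2 + v.2 ^ 2 with hNdef
  -- the formula on the tangent line
  have hline : ∀ t, wedge v (γ t - γ t0) = 0 → wedge v (X.f (γ t)) =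
      ((v.1 * (γ t - γ t0).1 + v.2 * (γ t - γ t0).2) / N) * (X.curv (γ t0) + wedge v (X.qd v) *
        ((v.1 * (γ t - γ t0).1 + v.2 * (γ t - γ t0).2) / N)) := by
    intro t ht
    set σ := (v.1 * (γ t - γ t0).1 + v.2 * (γ t - γ t0).2) / N with hσ
    have h1 : γ t = γ t0 + σ • v := by
      have hσN : σ * N = v.1 * (γ t - γ t0).1 + v.2 * (γ t - γ t0).2 := by
        rw [hσ, div_mul_cancel₀ _ hN.ne']
      unfold H709R2.wedge at ht
      have k1 : (γ t - γ t0).1 = σ * v.1 := by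
        apply mul_right_cancel₀ hN.ne'
        calc (γ t - γ t0).1 * N = (σ * N) * v.1 - v.2 * (v.1 * (γ t - γ t0).2 - v.2 * (γ t - γ t0).1) := by
              rw [hσN, hNdef]; ring
          _ = σ * v.1 * N := by rw [ht]; ring
      have k2 : (γ t - γ t0).2 = σ * v.2 := by
        apply mul_right_cancel₀ hN.ne'
        calc (γ t - γ t0).2 * N = (σ * N) * v.2 + v.1 * (v.1 * (γ t - γ t0).2 - v.2 * (γ t - γ t0).1) := by
              rw [hσN, hNdef]; ring
          _ = σ * v.2 * N := by rw [ht]; ring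
      have k3 : γ t - γ t0 = σ • v := Prod.ext k1 k2
      rw [← k3]
      abel
    rw [h1, QF.f_add, ← hv]
    unfold QF.curv
    rw [← hv]
    unfold H709R2.wedge QF.D QF.qd
    simp only [Prod.fst_add, Prod.snd_add, Prod.smul_fst, Prod.smul_snd, smul_eq_mul]
    ring
  have hs := t2b_sign (hcurv t0) (by rw [← hline t1 e1]; exact s1) (by rw [← hline t2 e2]; exact s2)
  refine t2b_core hc (Ψ := fun t => (v.1 * (γ t - γ t0).1 + v.2 * (γ t - γ t0).2,
    wedge v (γ t - γ t0))) ?_ (t0 := t0) (t1 := t1) (t2 := t2) h.pos hN ?_ ?_ ?_ ?_ h01 h12 h2T hn1 hn2 e1 e2 ?_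
  · unfold H709R2.wedge
    fun_prop
  · unfold H709R2.wedge
    simp
  · intro t
    simp only [h.per t]
  · intro s t hst
    simp only [Prod.mk.injEq] at hst
    obtain ⟨k1, k2⟩ := hst
    apply h.inj
    unfold H709R2.wedge at k2
    simp only [Prod.fst_sub, Prod.snd_sub] at k1 k2
    have l1 : (γ s).1 = (γ t).1 := by
      have : N * ((γ s).1 - (γ t).1) = 0 := by
        rw [hNdef]
        linear_combination v.1 * k1 - v.2 * k2
      have := (mul_eq_zero.1 this).resolve_left hN.ne'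
      linarith
    have l2 : (γ s).2 = (γ t).2 := by
      have : N * ((γ s).2 - (γ t).2) = 0 := by
        rw [hNdef]
        linear_combination v.2 * k1 + v.1 * k2
      have := (mul_eq_zero.1 this).resolve_left hN.ne'
      linarith
    exact Prod.ext l1 l2
  · have hd := h.ode t0
    rw [← hv] at hd
    have h1 : HasDerivAt (fun t => (γ t - γ t0).1) v.1 t0 :=
      ((hasFDerivAt_fst (𝕜 := ℝ) (p := γ t0)).comp_hasDerivAt t0 hd).sub_const _
    have h2 : HasDerivAt (fun t => (γ t - γ t0).2) v.2 t0 :=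
      ((hasFDerivAt_snd (𝕜 := ℝ) (p := γ t0)).comp_hasDerivAt t0 hd).sub_const _
    have h3 := (h1.const_mul v.1).add (h2.const_mul v.2)
    refine HasDerivAt.congr_deriv h3 ?_
    rw [hNdef]
    ring
  · simp only
    rcases hs with ⟨ha, hb⟩ | ⟨ha, hb⟩ | ⟨ha, hb⟩
    · left
      exact ⟨by rwa [div_lt_iff₀ hN, zero_mul] at ha, by rwa [lt_div_iff₀ hN, zero_mul] at hb⟩
    · right; left
      exact ⟨by rwa [div_lt_div_iff_of_pos_right hN] at ha, by rwa [div_lt_iff₀ hN, zero_mul] at hb⟩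
    · right; right
      exact ⟨by rwa [lt_div_iff₀ hN, zero_mul] at ha, by rwa [div_lt_div_iff_of_pos_right hN] at hb⟩

end

end Pool.Agent.H709Q
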