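import Pool.Agent.H709Q.T2Loc

/-! T2c: strict convexity of closed orbits of quadratic systems. -/

open Real Set MeasureTheory Topology Filter
open scoped ENNReal

namespace Pool.Agent.H709Q

open Pool.Agent.H709R2 (wedge ClosedOrbit)

lemma cyc_rev {X : QF} {γ : ℝ → ℝ × ℝ} {T : ℝ} (h : Cyc X γ T) :
    Cyc (X.rot π) (fun t => γ (-t)) T where
  pos := h.pos
  ode := fun t => by
    have := (h.ode (-t)).scomp t (hasDerivAt_neg t)
    rw [X.f_rot_pi]
    rw [neg_one_smul] at this
    exact this
  per := fun t => by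
    have := h.per (-(t + T))
    rw [neg_add, neg_add_cancel_right] at this
    simp only [neg_add]
    exact this.symm
  inj := fun s t hst => by
    obtain ⟨k, hk⟩ := h.inj (-s) (-t) hst
    refine ⟨-k, ?_⟩
    push_cast
    linarith
  ne := fun t => by
    rw [X.f_rot_pi]
    exact neg_ne_zero.2 (h.ne _)

lemma curv_rot_pi (X : QF) (z : ℝ × ℝ) : (X.rot π).curv z = - X.curv z := by
  unfold QF.curv
  rw [X.f_rot_pi, X.D_rot]
  generalize X.f z = v
  unfold wedge QF.D H709R2.rot
  simp only [cos_pi, sin_pi, Prod.fst_neg, Prod.snd_neg]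
  ring

lemma ccw_of_pos (h2 : Supporting) {X : QF} {γ : ℝ → ℝ × ℝ} {T : ℝ} (hC : Cyc X γ T)
    (hcurv : ∀ t, 0 < X.curv (γ t)) : CCW X γ where
  nonneg := h2 X γ T hC hcurv
  curv := hcurv
  strict := by
    intro s t hst
    by_contra hne
    set v := X.f (γ s) with hv
    set H : ℝ → ℝ := fun u => wedge v (γ u - γ s) with hH
    set H' : ℝ → ℝ := fun u => wedge v (X.f (γ u)) with hH'
    have hd : ∀ t, HasDerivAt H (H' t) t := fun t =>
      hasDerivAt_wedge_const v ((hC.ode t).sub_const _)
    have hd2 : ∀ t, HasDerivAt H' (wedge v (X.D (γ t) (X.f (γ t)))) t := fun t =>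
      hasDerivAt_wedge_const v (X.hasDerivAt_f (hC.ode t))
    have hnn : ∀ u, 0 ≤ H u := fun u => h2 X γ T hC hcurv s u
    have hww : wedge v v = 0 := by unfold wedge; ring
    have hs0 : H s = 0 := by simp only [hH, sub_self]; unfold wedge; simp
    have ht' : H' t = 0 := by
      have hmin : IsLocalMin H t := Filter.Eventually.of_forall fun u => by
        rw [show H t = 0 from hst]; exact hnn u
      exact hmin.hasDerivAt_eq_zero (hd t)
    obtain ⟨c, s₁, hc0, hc1, hc2, hc3⟩ := dbl X (γ s) (γ t) (hC.ne s) (hC.ne t) hne hst ht'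
    have hcneg : c < 0 := by
      rcases lt_or_gt_of_ne hc0 with h | h
      · exact h
      · exfalso
        obtain ⟨ε, hε, hl⟩ := loc_neg hd (hd2 t) hst ht' (by
          rw [hc3]
          have := mul_pos h (hcurv s)
          linarith)
        have := hl (t + ε / 2) (by linarith [half_pos hε]) (by
          rw [add_sub_cancel_left, abs_of_pos (half_pos hε)]; linarith)
        linarith [hnn (t + ε / 2)]
    have hle : ∀ u, H u ≤ 0 := by
      intro u
      have h4 := h2 X γ T hC hcurv t u
      have h5 : wedge (X.f (γ t)) (γ u - γ t) = c * H u := by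
        rw [hc1, hc2]
        simp only [hH, hv]
        unfold wedge
        simp only [Prod.fst_sub, Prod.snd_sub, Prod.fst_add, Prod.snd_add, Prod.smul_fst,
          Prod.smul_snd, smul_eq_mul]
        ring
      rw [h5] at h4
      by_contra hcon
      push Not at hcon
      nlinarith
    obtain ⟨ε, hε, hl⟩ := loc_pos hd (hd2 s) hs0 hww (hcurv s)
    have := hl (s + ε / 2) (by linarith [half_pos hε]) (by
      rw [add_sub_cancel_left, abs_of_pos (half_pos hε)]; linarith)
    linarith [hle (s + ε / 2)]

theorem convexity (h1 : CurvSign) (h2 : Supporting) : Convexity := by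
  intro X γ T hC
  rcases h1 X γ T hC with h | h
  · exact Or.inl (ccw_of_pos h2 hC h)
  · refine Or.inr (ccw_of_pos h2 (cyc_rev hC) fun t => ?_)
    rw [curv_rot_pi]
    linarith [h (-t)]

end Pool.Agent.H709Q
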