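import Pool.Agent.H709Q.T2Loc

/-! T2s: first and last crossing of the tangent line. -/

open Real Set MeasureTheory Topology Filter
open scoped ENNReal

namespace Pool.Agent.H709Q

open Pool.Agent.H709R2 (wedge ClosedOrbit)

lemma firstcross (H H' : ℝ → ℝ) (hd : ∀ t, HasDerivAt H (H' t) t) (t₀ b : ℝ) (h0 : H t₀ = 0)
    (hneg : ∃ s ∈ Ioo t₀ b, H s < 0) (hloc : ∃ ε > 0, ∀ t ∈ Ioo t₀ (t₀ + ε), 0 < H t)
    (hdbl : ∀ t ∈ Ioo t₀ b, H t = 0 → H' t = 0 → ∃ a, a ≠ 0 ∧ HasDerivAt H' a t) :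
    ∃ t₁, t₀ < t₁ ∧ (∀ t ∈ Icc t₀ t₁, 0 ≤ H t) ∧ H t₁ = 0 ∧ H' t₁ < 0 ∧
      ∀ s ∈ Ioo t₀ b, H s < 0 → t₁ < s := by
  have hc : Continuous H := continuous_iff_continuousAt.2 fun t => (hd t).continuousAt
  obtain ⟨s₀, hs₀, hs₀n⟩ := hneg
  obtain ⟨ε, hε, hloc⟩ := hloc
  set S : Set ℝ := {t | t ∈ Ioo t₀ b ∧ H t < 0} with hS
  have hne : S.Nonempty := ⟨s₀, hs₀, hs₀n⟩
  have hbdd : BddBelow S := ⟨t₀, fun t ht => ht.1.1.le⟩
  set t₁ := sInf S with ht₁
  have hle : ∀ t ∈ S, t₁ ≤ t := fun t ht => csInf_le hbdd ht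
  have hlow : t₀ + ε ≤ t₁ := by
    refine le_csInf hne fun t ht => ?_
    by_contra hcon
    push Not at hcon
    exact absurd (hloc t ⟨ht.1.1, hcon⟩) (not_lt.2 ht.2.le)
  have h01 : t₀ < t₁ := by linarith
  have h1b : t₁ < b := lt_of_le_of_lt (hle s₀ ⟨hs₀, hs₀n⟩) hs₀.2
  have hIco : ∀ t ∈ Ico t₀ t₁, 0 ≤ H t := by
    intro t ht
    rcases eq_or_lt_of_le ht.1 with h | h
    · rw [← h, h0]
    · by_contra hcon
      push Not at hcon
      exact absurd (hle t ⟨⟨h, ht.2.trans h1b⟩, hcon⟩) (not_le.2 ht.2)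
  have hIcc : ∀ t ∈ Icc t₀ t₁, 0 ≤ H t := by
    have hcl : IsClosed {t | 0 ≤ H t} := isClosed_le continuous_const hc
    have := hcl.closure_subset_iff.2 (show Ico t₀ t₁ ⊆ {t | 0 ≤ H t} from hIco)
    rw [closure_Ico h01.ne] at this
    exact this
  have h1 : H t₁ = 0 := by
    apply le_antisymm
    · have hcl : IsClosed {t | H t ≤ 0} := isClosed_le hc continuous_const
      exact hcl.closure_subset_iff.2 (show S ⊆ {t | H t ≤ 0} from fun t ht => ht.2.le)
        (csInf_mem_closure hne hbdd)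
    · exact hIcc t₁ ⟨h01.le, le_refl _⟩
  have hacc : ∀ δ > 0, ∃ s, t₁ < s ∧ s < t₁ + δ ∧ H s < 0 := by
    intro δ hδ
    obtain ⟨s, hs, hs'⟩ := exists_lt_of_csInf_lt hne (show sInf S < t₁ + δ by linarith)
    refine ⟨s, lt_of_le_of_ne (hle s hs) ?_, hs', hs.2⟩
    rintro rfl
    linarith [hs.2]
  have hstr : ∀ s ∈ Ioo t₀ b, H s < 0 → t₁ < s := by
    intro s hs hsn
    refine lt_of_le_of_ne (hle s ⟨hs, hsn⟩) ?_
    rintro rfl
    linarith
  have hpos : ¬ ∃ δ > 0, ∀ t, t ≠ t₁ → |t - t₁| < δ → 0 < H t := by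
    rintro ⟨δ, hδ, h⟩
    obtain ⟨s, hs1, hs2, hs3⟩ := hacc δ hδ
    have := h s hs1.ne' (by rw [abs_lt]; constructor <;> linarith)
    linarith
  have hnegl : ¬ ∃ δ > 0, ∀ t, t ≠ t₁ → |t - t₁| < δ → H t < 0 := by
    rintro ⟨δ, hδ, h⟩
    have h2 : max t₀ (t₁ - δ) < t₁ := max_lt h01 (by linarith)
    obtain ⟨s, hs1, hs2⟩ := exists_between h2
    have h3 := h s hs2.ne (by
      rw [abs_lt]; constructor
      · linarith [le_max_right t₀ (t₁ - δ)]
      · linarith)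
    have h4 := hIcc s ⟨(le_max_left t₀ (t₁ - δ)).trans hs1.le, hs2.le⟩
    linarith
  refine ⟨t₁, h01, hIcc, h1, ?_, hstr⟩
  rcases lt_trichotomy (H' t₁) 0 with h | h | h
  · exact h
  · exfalso
    obtain ⟨a, ha, hda⟩ := hdbl t₁ ⟨h01, h1b⟩ h1 h
    rcases lt_or_gt_of_ne ha with ha | ha
    · exact hnegl (loc_neg hd hda h1 h ha)
    · exact hpos (loc_pos hd hda h1 h ha)
  · exfalso
    -- H increasing at t₁ : H > 0 on the right
    have hs := (hasDerivAt_iff_tendsto_slope.1 (hd t₁)).eventually (lt_mem_nhds h)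
    rw [eventually_nhdsWithin_iff, Metric.eventually_nhds_iff] at hs
    obtain ⟨δ, hδ, hs⟩ := hs
    obtain ⟨s, hs1, hs2, hs3⟩ := hacc δ hδ
    have h5 := hs (y := s) (by rw [Real.dist_eq, abs_lt]; constructor <;> linarith) hs1.ne'
    rw [slope_def_field, h1, sub_zero] at h5
    have h6 := (div_pos_iff_of_pos_right (show 0 < s - t₁ by linarith)).1 h5
    linarith

theorem crossSigns : CrossSigns := by
  intro X γ T hC hcurv t₀ t₃ h3
  set v := X.f (γ t₀) with hv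
  set H : ℝ → ℝ := fun t => wedge v (γ t - γ t₀) with hH
  set H' : ℝ → ℝ := fun t => wedge v (X.f (γ t)) with hH'
  have hd : ∀ t, HasDerivAt H (H' t) t := fun t =>
    hasDerivAt_wedge_const v ((hC.ode t).sub_const _)
  have hd2 : ∀ t, HasDerivAt H' (wedge v (X.D (γ t) (X.f (γ t)))) t := fun t =>
    hasDerivAt_wedge_const v (X.hasDerivAt_f (hC.ode t))
  have hper : Function.Periodic γ T := hC.per
  obtain ⟨s, hs, hs'⟩ := hper.exists_mem_Ico hC.pos t₃ t₀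
  have hHs : H s < 0 := by
    have : H s = wedge v (γ t₃ - γ t₀) := by rw [hs', hH]
    rw [this]; exact h3
  have hT := hC.pos
  have hww : ∀ u : ℝ × ℝ, wedge u u = 0 := fun u => by unfold wedge; ring
  have hw0 : ∀ u : ℝ × ℝ, wedge u 0 = 0 := fun u => by unfold wedge; simp
  have hH0 : H t₀ = 0 := by simp only [hH, sub_self, hw0]
  have hHT : H (t₀ + T) = 0 := by simp only [hH, hC.per, sub_self, hw0]
  have hst : s ∈ Ioo t₀ (t₀ + T) := ⟨lt_of_le_of_ne hs.1 (by rintro rfl; linarith), hs.2⟩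
  have hl0 : ∃ ε > 0, ∀ t, t ≠ t₀ → |t - t₀| < ε → 0 < H t :=
    loc_pos hd (hd2 t₀) hH0 (hww v) (hcurv t₀)
  have hlT : ∃ ε > 0, ∀ t, t ≠ t₀ + T → |t - (t₀ + T)| < ε → 0 < H t := by
    refine loc_pos hd (hd2 (t₀ + T)) hHT ?_ ?_
    · simp only [hH', hC.per]; exact hww v
    · rw [hC.per]; exact hcurv t₀
  have hdbl : ∀ t ∈ Ioo t₀ (t₀ + T), H t = 0 → H' t = 0 → ∃ a, a ≠ 0 ∧ HasDerivAt H' a t := by
    intro t ht h1 h2
    have hne : γ t ≠ γ t₀ := by
      intro he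
      obtain ⟨k, hk⟩ := hC.inj t t₀ he
      have h4 : 0 < (k : ℝ) * T := by linarith [ht.1]
      have h5 : (k : ℝ) * T < T := by linarith [ht.2]
      have h6 : (0 : ℝ) < k := (pos_iff_pos_of_mul_pos h4).2 hT
      have h7 : (k : ℝ) < 1 := by
        by_contra hcon
        push Not at hcon
        nlinarith
      have h8 : (0 : ℤ) < k := by exact_mod_cast h6
      have h9 : k < (1 : ℤ) := by exact_mod_cast h7
      omega
    obtain ⟨c, s', hc0, -, -, hc3⟩ := dbl X (γ t₀) (γ t) (hC.ne t₀) (hC.ne t) hne h1 h2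
    refine ⟨_, ?_, hd2 t⟩
    rw [hc3]
    exact neg_ne_zero.2 (mul_ne_zero hc0 (hcurv t₀).ne')
  obtain ⟨t₁, h11, h12, h13, h14, h15⟩ := firstcross H H' hd t₀ (t₀ + T) hH0 ⟨s, hst, hHs⟩
    (by
      obtain ⟨ε, hε, h⟩ := hl0
      exact ⟨ε, hε, fun t ht => h t ht.1.ne' (by rw [abs_lt]; constructor <;>
        linarith [ht.1, ht.2])⟩) hdbl
  obtain ⟨t₂, h21, h22, h23, h24, h25⟩ := firstcross (fun t => H (-t)) (fun t => - H' (-t))
    (fun t => by
      have := (hd (-t)).comp t (hasDerivAt_neg t)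
      rw [mul_neg_one] at this
      exact this) (-(t₀ + T)) (-t₀) (by simp only [neg_neg]; exact hHT)
    ⟨-s, ⟨by linarith [hst.2], by linarith [hst.1]⟩, by simp only [neg_neg]; exact hHs⟩
    (by
      obtain ⟨ε, hε, h⟩ := hlT
      refine ⟨ε, hε, fun t ht => h (-t) ?_ ?_⟩
      · intro he
        have := ht.1
        rw [← he] at this
        linarith
      · rw [abs_lt]; constructor <;> linarith [ht.1, ht.2])
    (by
      intro t ht h1 h2
      obtain ⟨a, ha, hda⟩ := hdbl (-t) ⟨by linarith [ht.2], by linarith [ht.1]⟩ h1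
        (by simpa using h2)
      refine ⟨a, ha, ?_⟩
      have := ((hda.comp t (hasDerivAt_neg t)).neg)
      rw [mul_neg_one, neg_neg] at this
      exact this)
  refine ⟨t₁, -t₂, h11, ?_, by linarith, h12, ?_, h13, h23, h14, ?_⟩
  · have h1 := h15 s hst hHs
    have h2 := h25 (-s) ⟨by linarith [hst.2], by linarith [hst.1]⟩
      (by simp only [neg_neg]; exact hHs)
    linarith
  · intro t ht
    have := h22 (-t) ⟨by linarith [ht.2], by linarith [ht.1]⟩
    simp only [neg_neg] at this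
    exact this
  · have := h24
    simp only [Left.neg_neg_iff] at this
    exact this

end Pool.Agent.H709Q
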