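import Pool.Agent.H709Q.Defs
import Pool.Agent.Helper486.Saddle.Winding

/-! T4: a strictly convex closed orbit of a quadratic system has a zero of the field inside. -/

open Real Set MeasureTheory Topology Filter

namespace Pool.Agent.H709Q

open Pool.Agent.H709R2 (wedge)

namespace T4aux

/-- the plane as `ℂ` -/
noncomputable def toC (v : ℝ × ℝ) : ℂ := ⟨v.1, v.2⟩

lemma toC_ne_zero {v : ℝ × ℝ} (h : v ≠ 0) : toC v ≠ 0 := by
  intro h0
  apply h
  have h1 := congrArg Complex.re h0
  have h2 := congrArg Complex.im h0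
  simp only [toC, Complex.zero_re, Complex.zero_im] at h1 h2
  exact Prod.ext h1 h2

lemma toC_eq (v : ℝ × ℝ) : toC v = (v.1 : ℂ) + (v.2 : ℂ) * Complex.I := by
  apply Complex.ext <;> simp [toC]

lemma continuous_toC : Continuous toC := by
  have : toC = fun v : ℝ × ℝ => (v.1 : ℂ) + (v.2 : ℂ) * Complex.I := funext toC_eq
  rw [this]
  fun_prop

lemma hasDerivAt_toC {f : ℝ → ℝ × ℝ} {f' : ℝ × ℝ} {t : ℝ} (h : HasDerivAt f f' t) :
    HasDerivAt (fun t => toC (f t)) (toC f') t := by
  have h1 : HasDerivAt (fun t => (f t).1) f'.1 t :=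
    (hasFDerivAt_fst (𝕜 := ℝ) (p := f t)).comp_hasDerivAt t h
  have h2 : HasDerivAt (fun t => (f t).2) f'.2 t :=
    (hasFDerivAt_snd (𝕜 := ℝ) (p := f t)).comp_hasDerivAt t h
  have : (fun t => toC (f t)) = fun t => ((f t).1 : ℂ) + ((f t).2 : ℂ) * Complex.I :=
    funext fun t => toC_eq _
  rw [this, toC_eq]
  exact h1.ofReal_comp.add (h2.ofReal_comp.mul_const Complex.I)

/-- derivative of a continuous logarithm -/
lemma hasDerivAt_log {l f : ℝ → ℂ} {f' : ℂ} {t : ℝ} (hl : Continuous l)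
    (hE : ∀ t, Complex.exp (l t) = f t) (hf : HasDerivAt f f' t) :
    HasDerivAt l (f' / f t) t := by
  have hft : f t ≠ 0 := by rw [← hE]; exact Complex.exp_ne_zero _
  have h1 : HasDerivAt (fun u => f u / f t) (f' / f t) t := hf.div_const _
  have h2 : f t / f t = 1 := div_self hft
  have h3 : HasDerivAt (fun u => Complex.log (f u / f t)) (f' / f t / (f t / f t)) t :=
    h1.clog_real (by rw [h2]; exact Complex.one_mem_slitPlane)
  rw [h2, div_one] at h3
  have h4 : HasDerivAt (fun u => l t + Complex.log (f u / f t)) (f' / f t) t := h3.const_add _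
  refine h4.congr_of_eventuallyEq ?_
  have h5 : Tendsto (fun u => (l u - l t).im) (𝓝 t) (𝓝 0) := by
    have : Continuous (fun u => (l u - l t).im) := by fun_prop
    have h6 := this.tendsto t
    simpa using h6
  have h7 : ∀ᶠ u in 𝓝 t, (l u - l t).im ∈ Ioo (-π) π :=
    h5 (Ioo_mem_nhds (by simp [Real.pi_pos]) Real.pi_pos)
  filter_upwards [h7] with u hu
  have h8 : f u / f t = Complex.exp (l u - l t) := by rw [Complex.exp_sub, hE, hE]
  rw [h8, Complex.log_exp hu.1 hu.2.le]
  ring

lemma im_div (a b : ℝ × ℝ) (hb : b ≠ 0) :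
    (toC a / toC b).im = wedge b a / (b.1 ^ 2 + b.2 ^ 2) := by
  have hb' : b.1 ^ 2 + b.2 ^ 2 ≠ 0 := by
    intro h
    apply hb
    have h1 : b.1 = 0 := by nlinarith [sq_nonneg b.1, sq_nonneg b.2]
    have h2 : b.2 = 0 := by nlinarith [sq_nonneg b.1, sq_nonneg b.2]
    exact Prod.ext h1 h2
  rw [Complex.div_im]
  simp only [toC, Complex.normSq_mk, wedge]
  have e : b.1 * b.1 + b.2 * b.2 = b.1 ^ 2 + b.2 ^ 2 := by ring
  rw [e]
  field_simp

lemma exists_zero (X : QF) (γ : ℝ → ℝ × ℝ) (T : ℝ) (hC : Cyc X γ T)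
    (hcurv : ∀ t, 0 < X.curv (γ t)) :
    ∃ s t : ℝ, 0 ≤ s ∧ s ≤ 1 ∧ X.f (γ 0 + s • (γ t - γ 0)) = 0 := by
  by_contra hcon
  push Not at hcon
  have hγ : Continuous γ := continuous_iff_continuousAt.mpr fun t => (hC.ode t).continuousAt
  set G : ℝ × ℝ → ℂ := fun p =>
    toC (X.f (γ 0 + (max 0 (min p.1 1)) • (γ p.2 - γ 0))) with hG
  have hGc : Continuous G := by
    refine continuous_toC.comp (X.continuous_f.comp ?_)
    fun_prop
  have hG0 : ∀ p, G p ≠ 0 := by
    intro p
    refine toC_ne_zero (hcon _ _ (le_max_left _ _) ?_)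
    exact max_le zero_le_one (min_le_right _ _)
  obtain ⟨L, hL, hE⟩ := Saddle486.exists_log hGc hG0
  have hper : ∀ s t, G (s, t + T) = G (s, t) := by
    intro s t
    simp only [hG, hC.per]
  have h0 : ∀ t, G (0, t) = G (0, 0) := by
    intro t
    simp [hG]
  -- the logarithm is constant at `s = 0`
  have hL0 : ∀ t, L (0, t) = L (0, 0) := by
    intro t
    exact Saddle486.log_unique (S := (univ : Set ℝ)) isPreconnected_univ
      (L := fun t => L (0, t)) (L' := fun _ => L (0, 0)) (by fun_prop) (by fun_prop)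
      (fun t _ => by rw [hE, hE, h0]) (x₀ := 0) (mem_univ _) rfl t (mem_univ _)
  -- the logarithm is periodic
  have hLper : ∀ p : ℝ × ℝ, L (p.1, p.2 + T) = L p := by
    intro p
    exact Saddle486.log_unique (S := (univ : Set (ℝ × ℝ))) isPreconnected_univ
      (L := fun p => L (p.1, p.2 + T)) (L' := L) (by fun_prop) hL.continuousOn
      (fun p _ => by rw [hE, hE, hper]) (x₀ := (0, 0)) (mem_univ _)
      (by simp only; rw [hL0]) p (mem_univ _)
  -- the argument of the field along the orbit is increasing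
  have hval : ∀ t, G (1, t) = toC (X.f (γ t)) := by
    intro t
    simp [hG]
  have hder : ∀ t, HasDerivAt (fun t => L (1, t))
      (toC (X.D (γ t) (X.f (γ t))) / toC (X.f (γ t))) t := by
    intro t
    refine hasDerivAt_log (f := fun t => toC (X.f (γ t))) (by fun_prop) (fun t => ?_)
      (hasDerivAt_toC (X.hasDerivAt_f (hC.ode t)))
    rw [hE, hval]
  have hder' : ∀ t, HasDerivAt (fun t => (L (1, t)).im)
      (X.curv (γ t) / ((X.f (γ t)).1 ^ 2 + (X.f (γ t)).2 ^ 2)) t := by
    intro t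
    have h1 := (Complex.imCLM.hasFDerivAt (x := L (1, t))).comp_hasDerivAt t (hder t)
    have h2 : Complex.imCLM (toC (X.D (γ t) (X.f (γ t))) / toC (X.f (γ t))) =
        X.curv (γ t) / ((X.f (γ t)).1 ^ 2 + (X.f (γ t)).2 ^ 2) := by
      rw [Complex.imCLM_apply, im_div _ _ (hC.ne t)]
      rfl
    rw [h2] at h1
    exact h1
  have hmono : StrictMono (fun t => (L (1, t)).im) := by
    refine strictMono_of_hasDerivAt_pos hder' (fun t => ?_)
    have h1 := hcurv t
    have h2 : 0 < (X.f (γ t)).1 ^ 2 + (X.f (γ t)).2 ^ 2 := by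
      have hne := hC.ne t
      rcases lt_or_eq_of_le (add_nonneg (sq_nonneg (X.f (γ t)).1) (sq_nonneg (X.f (γ t)).2))
        with h | h
      · exact h
      · exfalso
        apply hne
        have h3 : (X.f (γ t)).1 = 0 := by nlinarith [sq_nonneg (X.f (γ t)).1, sq_nonneg (X.f (γ t)).2]
        have h4 : (X.f (γ t)).2 = 0 := by nlinarith [sq_nonneg (X.f (γ t)).1, sq_nonneg (X.f (γ t)).2]
        exact Prod.ext h3 h4
    exact div_pos h1 h2
  have h1 := hmono hC.pos
  simp only at h1
  have h2 := hLper (1, 0)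
  simp only [zero_add] at h2
  rw [h2] at h1
  exact lt_irrefl _ h1

end T4aux
open T4aux

theorem zeroInside : ZeroInside := by
  intro X γ T hC hccw
  obtain ⟨s, t, hs0, hs1, hz⟩ := exists_zero X γ T hC hccw.curv
  refine ⟨γ 0 + s • (γ t - γ 0), hz, fun u => ?_⟩
  have hs0' : 0 < s := by
    rcases lt_or_eq_of_le hs0 with h | h
    · exact h
    · exfalso
      rw [← h] at hz
      simp at hz
      exact hC.ne 0 hz
  have hs1' : s < 1 := by
    rcases lt_or_eq_of_le hs1 with h | h
    · exact h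
    · exfalso
      rw [h] at hz
      simp at hz
      exact hC.ne t hz
  have e : wedge (γ u - (γ 0 + s • (γ t - γ 0))) (X.f (γ u)) =
      (1 - s) * wedge (X.f (γ u)) (γ 0 - γ u) + s * wedge (X.f (γ u)) (γ t - γ u) := by
    simp only [wedge, Prod.fst_sub, Prod.snd_sub, Prod.fst_add, Prod.snd_add, Prod.smul_fst,
      Prod.smul_snd, smul_eq_mul]
    ring
  have hA := hccw.nonneg u 0
  have hB := hccw.nonneg u t
  have hA' : 0 ≤ (1 - s) * wedge (X.f (γ u)) (γ 0 - γ u) := mul_nonneg (by linarith) hA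
  have hB' : 0 ≤ s * wedge (X.f (γ u)) (γ t - γ u) := mul_nonneg hs0 hB
  rw [e]
  rcases lt_or_eq_of_le (add_nonneg hA' hB') with h | h
  · exact h
  · exfalso
    have h1 : (1 - s) * wedge (X.f (γ u)) (γ 0 - γ u) = 0 := by linarith
    have h2 : s * wedge (X.f (γ u)) (γ t - γ u) = 0 := by linarith
    have h3 : wedge (X.f (γ u)) (γ 0 - γ u) = 0 := by
      rcases mul_eq_zero.mp h1 with h | h
      · linarith
      · exact h
    have h4 : wedge (X.f (γ u)) (γ t - γ u) = 0 := by
      rcases mul_eq_zero.mp h2 with h | h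
      · linarith
      · exact h
    have h5 := hccw.strict u 0 h3
    have h6 := hccw.strict u t h4
    apply hC.ne u
    rw [h5, h6] at hz
    simpa using hz

end Pool.Agent.H709Q
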