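import Pool.Agent.H709Q.Defs

/-! T4b: orbits around a point are counterclockwise; positivity of the linear part. -/

open Real Set MeasureTheory Topology Filter
open scoped ENNReal

namespace Pool.Agent.H709Q

open Pool.Agent.H709R2 (wedge ClosedOrbit)

theorem ccwOfAround (h : Convexity) (hr : Rays) : CcwOfAround := by
  intro X γ T p hC hA
  rcases h X γ T hC with h1 | h1
  · exact h1
  · exfalso
    have hA0 := hA 0
    have hu : p - γ 0 ≠ 0 := by
      intro he
      have : γ 0 - p = 0 := by rw [← neg_sub, he, neg_zero]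
      rw [this] at hA0
      unfold wedge at hA0
      simp at hA0
    obtain ⟨t, r, hr0, ht⟩ := hr X γ T p hC hA (p - γ 0) hu
    have h2 := h1.nonneg 0 (-t)
    simp only [neg_neg, neg_zero] at h2
    rw [X.f_rot_pi, ht] at h2
    have h3 : wedge (-X.f (γ 0)) (p + r • (p - γ 0) - γ 0) =
        -((1 + r) * wedge (γ 0 - p) (X.f (γ 0))) := by
      generalize X.f (γ 0) = v
      generalize γ 0 = w
      unfold wedge
      simp only [Prod.fst_sub, Prod.snd_sub, Prod.fst_add, Prod.snd_add, Prod.smul_fst,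
        Prod.smul_snd, smul_eq_mul, Prod.fst_neg, Prod.snd_neg]
      ring
    rw [h3] at h2
    have h4 := mul_pos (show (0:ℝ) < 1 + r by linarith) hA0
    linarith

theorem linPos (hr : Rays) : LinPos := by
  intro X γ T p hC hp hA u hu
  obtain ⟨t, r, hr0, ht⟩ := hr X γ T p hC hA u hu
  obtain ⟨t', r', hr0', ht'⟩ := hr X γ T p hC hA (-u) (neg_ne_zero.2 hu)
  have h1 := hA t
  have h2 := hA t'
  have e1 : wedge (γ t - p) (X.f (γ t)) =
      r ^ 2 * (wedge u (X.D p u) + r * wedge u (X.qd u)) := by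
    rw [ht, X.f_add, hp]
    unfold wedge QF.D QF.qd
    simp only [Prod.fst_sub, Prod.snd_sub, Prod.fst_add, Prod.snd_add, Prod.smul_fst,
      Prod.smul_snd, smul_eq_mul, Prod.fst_zero, Prod.snd_zero]
    ring
  have e2 : wedge (γ t' - p) (X.f (γ t')) =
      r' ^ 2 * (wedge u (X.D p u) - r' * wedge u (X.qd u)) := by
    rw [ht', X.f_add, hp]
    unfold wedge QF.D QF.qd
    simp only [Prod.fst_sub, Prod.snd_sub, Prod.fst_add, Prod.snd_add, Prod.smul_fst,
      Prod.smul_snd, smul_eq_mul, Prod.fst_zero, Prod.snd_zero, Prod.fst_neg, Prod.snd_neg]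
    ring
  rw [e1] at h1
  rw [e2] at h2
  have h3 := (mul_pos_iff_of_pos_left (pow_pos hr0 2)).1 h1
  have h4 := (mul_pos_iff_of_pos_left (pow_pos hr0' 2)).1 h2
  have h5 : 0 < (r + r') * wedge u (X.D p u) := by
    nlinarith [mul_pos hr0' h3, mul_pos hr0 h4]
  exact (mul_pos_iff_of_pos_left (by linarith)).1 h5

end Pool.Agent.H709Q
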