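import Pool.Agent.H709Q.Defs

/-! T5: at most four points are surrounded by closed orbits of the rotated fields. -/

open Real Set MeasureTheory Topology Filter
open scoped ENNReal

namespace Pool.Agent.H709Q

open Pool.Agent.H709R2 (wedge)

/-- the surrounded zeros -/
def T5R (X : QF) : Set (ℝ × ℝ) :=
  {p : ℝ × ℝ | X.f p = 0 ∧ ∃ (α : ℝ) (γ : ℝ → ℝ × ℝ) (T : ℝ), Cyc (X.rot α) γ T ∧
    Around (X.rot α) p γ}

theorem T5_quad {A B C t : ℝ} (h0 : A = 0) (h1 : A + B + C = 0) (h2 : A + B * t + C * t ^ 2 = 0)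
    (ht0 : t ≠ 0) (ht1 : t ≠ 1) : B = 0 ∧ C = 0 := by
  have h3 : B = -C := by linarith
  have h4 : C * (t * (t - 1)) = 0 := by
    rw [h0, h3] at h2
    linear_combination h2
  have h5 : t * (t - 1) ≠ 0 := mul_ne_zero ht0 (sub_ne_zero.2 ht1)
  have h6 : C = 0 := (mul_eq_zero.1 h4).resolve_right h5
  exact ⟨by rw [h3, h6, neg_zero], h6⟩

/-- the field on a line -/
theorem T5_line (X : QF) (p v : ℝ × ℝ) : ∃ A B C A' B' C' : ℝ, ∀ t : ℝ,
    X.f (p + t • v) = (A + B * t + C * t ^ 2, A' + B' * t + C' * t ^ 2) := by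
  refine ⟨(X.f p).1, (X.D p v).1, (X.qd v).1, (X.f p).2, (X.D p v).2, (X.qd v).2, fun t => ?_⟩
  unfold QF.f QF.D QF.qd
  ext <;> simp only [Prod.fst_add, Prod.snd_add, Prod.smul_fst, Prod.smul_snd, smul_eq_mul] <;>
    ring

theorem T5_col (hr : Rays) (X : QF) (p : ℝ × ℝ) (hp : p ∈ T5R X) (v : ℝ × ℝ) (hv : v ≠ 0)
    (t : ℝ) (h1 : X.f (p + v) = 0) (h2 : X.f (p + t • v) = 0) (ht0 : t ≠ 0) (ht1 : t ≠ 1) :
    False := by
  obtain ⟨hp0, α, γ, T, hc, ha⟩ := hp
  obtain ⟨A, B, C, A', B', C', hl⟩ := T5_line X p v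
  have e0 := hl 0
  rw [zero_smul, add_zero, hp0] at e0
  have e1 := hl 1
  rw [one_smul, h1] at e1
  have e2 := hl t
  rw [h2] at e2
  simp only [Prod.ext_iff, Prod.fst_zero, Prod.snd_zero] at e0 e1 e2
  have hA : A = 0 := by linarith [e0.1]
  have hA' : A' = 0 := by linarith [e0.2]
  obtain ⟨hB, hC⟩ := T5_quad (A := A) (B := B) (C := C) (t := t) hA (by linarith [e1.1])
    (by linarith [e2.1]) ht0 ht1
  obtain ⟨hB', hC'⟩ := T5_quad (A := A') (B := B') (C := C') (t := t) hA' (by linarith [e1.2])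
    (by linarith [e2.2]) ht0 ht1
  obtain ⟨s, r, _, hs⟩ := hr (X.rot α) γ T p hc ha v hv
  have h3 : X.f (γ s) = 0 := by
    rw [hs, hl r, hA, hA', hB, hB', hC, hC']
    ext <;> simp
  apply hc.ne s
  rw [QF.f_rot, h3]
  unfold H709R2.rot
  ext <;> simp

theorem T5_wedge (hr : Rays) (X : QF) (p q r : ℝ × ℝ) (hp : p ∈ T5R X) (hq : X.f q = 0)
    (hrr : X.f r = 0) (hpq : q ≠ p) (hpr : r ≠ p) (hqr : r ≠ q) :
    wedge (q - p) (r - p) ≠ 0 := by
  intro hw
  have hv : q - p ≠ 0 := sub_ne_zero.2 hpq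
  have hN : (q.1 - p.1) ^ 2 + (q.2 - p.2) ^ 2 ≠ 0 := by
    intro h0
    apply hv
    have a1 : q.1 - p.1 = 0 := by nlinarith [sq_nonneg (q.1 - p.1), sq_nonneg (q.2 - p.2)]
    have a2 : q.2 - p.2 = 0 := by nlinarith [sq_nonneg (q.1 - p.1), sq_nonneg (q.2 - p.2)]
    ext
    · exact a1
    · exact a2
  set t : ℝ := ((r.1 - p.1) * (q.1 - p.1) + (r.2 - p.2) * (q.2 - p.2)) /
    ((q.1 - p.1) ^ 2 + (q.2 - p.2) ^ 2) with ht
  have hw' : (q.1 - p.1) * (r.2 - p.2) - (q.2 - p.2) * (r.1 - p.1) = 0 := by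
    unfold H709R2.wedge at hw
    simpa using hw
  have hrt : r = p + t • (q - p) := by
    have htN : t * ((q.1 - p.1) ^ 2 + (q.2 - p.2) ^ 2) =
        (r.1 - p.1) * (q.1 - p.1) + (r.2 - p.2) * (q.2 - p.2) := div_mul_cancel₀ _ hN
    ext
    · simp only [Prod.fst_add, Prod.smul_fst, Prod.fst_sub, smul_eq_mul]
      have : ((q.1 - p.1) ^ 2 + (q.2 - p.2) ^ 2) * (r.1 - (p.1 + t * (q.1 - p.1))) = 0 := by
        linear_combination (-(q.1 - p.1)) * htN - (q.2 - p.2) * hw'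
      have := (mul_eq_zero.1 this).resolve_left hN
      linarith
    · simp only [Prod.snd_add, Prod.smul_snd, Prod.snd_sub, smul_eq_mul]
      have : ((q.1 - p.1) ^ 2 + (q.2 - p.2) ^ 2) * (r.2 - (p.2 + t * (q.2 - p.2))) = 0 := by
        linear_combination (-(q.2 - p.2)) * htN + (q.1 - p.1) * hw'
      have := (mul_eq_zero.1 this).resolve_left hN
      linarith
  refine T5_col hr X p hp (q - p) hv t (by rw [add_sub_cancel]; exact hq)
    (by rw [← hrt]; exact hrr) ?_ ?_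
  · intro h0
    rw [h0, zero_smul, add_zero] at hrt
    exact hpr hrt
  · intro h1
    rw [h1, one_smul, add_sub_cancel] at hrt
    exact hqr hrt

theorem T5_nondeg (hr : Rays) (X : QF) (p : ℝ × ℝ) (hp : p ∈ T5R X) (l m : ℝ)
    (hlm : l ≠ 0 ∨ m ≠ 0) (h : ∀ z, l * (X.f z).1 + m * (X.f z).2 = 0) : False := by
  obtain ⟨hp0, α, γ, T, hc, ha⟩ := hp
  set w : ℝ × ℝ := (cos α * m + sin α * l, sin α * m - cos α * l) with hw
  have hcs := sin_sq_add_cos_sq α
  have hw2 : w.1 ^ 2 + w.2 ^ 2 = l ^ 2 + m ^ 2 := by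
    simp only [hw]
    linear_combination (l ^ 2 + m ^ 2) * hcs
  have hpos : 0 < w.1 ^ 2 + w.2 ^ 2 := by
    rw [hw2]
    rcases hlm with h1 | h1
    · have := sq_nonneg m
      have := pow_pos (abs_pos.2 h1) 2
      rw [sq_abs] at this
      linarith
    · have := sq_nonneg l
      have := pow_pos (abs_pos.2 h1) 2
      rw [sq_abs] at this
      linarith
  have hpar : ∀ z, w.1 * ((X.rot α).f z).2 - w.2 * ((X.rot α).f z).1 = 0 := by
    intro z
    rw [QF.f_rot]
    unfold H709R2.rot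
    simp only [hw]
    linear_combination (sin α ^ 2 + cos α ^ 2) * h z
  have hder : ∀ t, HasDerivAt (fun t => w.1 * (γ t).2 - w.2 * (γ t).1) 0 t := by
    intro t
    have h0 := hc.ode t
    have h1 : HasDerivAt (fun t => (γ t).1) ((X.rot α).f (γ t)).1 t :=
      (hasFDerivAt_fst (𝕜 := ℝ) (p := γ t)).comp_hasDerivAt t h0
    have h2 : HasDerivAt (fun t => (γ t).2) ((X.rot α).f (γ t)).2 t :=
      (hasFDerivAt_snd (𝕜 := ℝ) (p := γ t)).comp_hasDerivAt t h0
    have h3 := (h2.const_mul w.1).sub (h1.const_mul w.2)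
    rw [hpar] at h3
    exact h3
  have hconst : ∀ s t, w.1 * (γ s).2 - w.2 * (γ s).1 = w.1 * (γ t).2 - w.2 * (γ t).1 := by
    intro s t
    exact is_const_of_deriv_eq_zero (fun t => (hder t).differentiableAt)
      (fun t => (hder t).deriv) s t
  have hu : ((-w.2, w.1) : ℝ × ℝ) ≠ 0 := by
    intro h0
    simp only [Prod.mk_eq_zero, neg_eq_zero] at h0
    rw [h0.1, h0.2] at hpos
    norm_num at hpos
  obtain ⟨s, r, hr1, hs⟩ := hr (X.rot α) γ T p hc ha (-w.2, w.1) hu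
  obtain ⟨s', r', hr2, hs'⟩ := hr (X.rot α) γ T p hc ha (-(-w.2, w.1)) (neg_ne_zero.2 hu)
  have h4 := hconst s s'
  rw [hs, hs'] at h4
  simp only [Prod.fst_add, Prod.snd_add, Prod.smul_fst, Prod.smul_snd, smul_eq_mul,
    Prod.neg_mk] at h4
  have h5 : (r + r') * (w.1 ^ 2 + w.2 ^ 2) = 0 := by linear_combination h4
  have h6 : 0 < (r + r') * (w.1 ^ 2 + w.2 ^ 2) := mul_pos (by linarith) hpos
  linarith

/-- the affine change of coordinates -/
theorem T5_coord (X : QF) (l m : ℝ) (p d e : ℝ × ℝ) : ∃ C0 C1 C2 C3 C4 C5 : ℝ, ∀ x y : ℝ,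
    l * (X.f (p + x • d + y • e)).1 + m * (X.f (p + x • d + y • e)).2 =
      C0 + C1 * x + C2 * y + C3 * x ^ 2 + C4 * (x * y) + C5 * y ^ 2 := by
  refine ⟨l * (X.f p).1 + m * (X.f p).2, l * (X.D p d).1 + m * (X.D p d).2,
    l * (X.D p e).1 + m * (X.D p e).2, l * (X.qd d).1 + m * (X.qd d).2,
    l * ((X.qd (d + e)).1 - (X.qd d).1 - (X.qd e).1) +
      m * ((X.qd (d + e)).2 - (X.qd d).2 - (X.qd e).2),
    l * (X.qd e).1 + m * (X.qd e).2, fun x y => ?_⟩
  unfold QF.f QF.D QF.qd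
  simp only [Prod.fst_add, Prod.snd_add, Prod.smul_fst, Prod.smul_snd, smul_eq_mul]
  ring

theorem T5_solve (d e u : ℝ × ℝ) (hW : wedge d e ≠ 0) :
    u = (wedge u e / wedge d e) • d + (wedge d u / wedge d e) • e := by
  have hW' : d.1 * e.2 - d.2 * e.1 ≠ 0 := by
    unfold H709R2.wedge at hW
    exact hW
  unfold H709R2.wedge
  ext
  · simp only [Prod.fst_add, Prod.smul_fst, smul_eq_mul]
    rw [div_mul_eq_mul_div, div_mul_eq_mul_div, ← add_div, eq_div_iff hW']
    ring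
  · simp only [Prod.snd_add, Prod.smul_snd, smul_eq_mul]
    rw [div_mul_eq_mul_div, div_mul_eq_mul_div, ← add_div, eq_div_iff hW']
    ring

theorem T5_five (hr : Rays) (X : QF) (p : Fin 5 → ℝ × ℝ) (hinj : Function.Injective p)
    (hp : ∀ i, p i ∈ T5R X) : False := by
  have hne : ∀ i j, i ≠ j → p i ≠ p j := fun i j h h' => h (hinj h')
  have hz : ∀ i, X.f (p i) = 0 := fun i => (hp i).1
  have hw : ∀ i j k, i ≠ j → i ≠ k → j ≠ k → wedge (p j - p i) (p k - p i) ≠ 0 := by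
    intro i j k h1 h2 h3
    exact T5_wedge hr X (p i) (p j) (p k) (hp i) (hz j) (hz k) (hne _ _ h1.symm)
      (hne _ _ h2.symm) (hne _ _ h3.symm)
  set d := p 1 - p 0 with hd
  set e := p 2 - p 0 with he
  have hW : wedge d e ≠ 0 := hw 0 1 2 (by decide) (by decide) (by decide)
  -- a combination vanishing at the midpoint
  set r0 : ℝ × ℝ := p 0 + (1 / 2 : ℝ) • d with hr0
  obtain ⟨l, m, hlm, hlm0⟩ : ∃ l m : ℝ, (l ≠ 0 ∨ m ≠ 0) ∧ l * (X.f r0).1 + m * (X.f r0).2 = 0 := by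
    by_cases h : (X.f r0).1 = 0
    · exact ⟨1, 0, Or.inl one_ne_zero, by rw [h]; ring⟩
    · exact ⟨-(X.f r0).2, (X.f r0).1, Or.inr h, by ring⟩
  obtain ⟨C0, C1, C2, C3, C4, C5, hC⟩ := T5_coord X l m (p 0) d e
  have hzero : ∀ x y : ℝ, X.f (p 0 + x • d + y • e) = 0 →
      C0 + C1 * x + C2 * y + C3 * x ^ 2 + C4 * (x * y) + C5 * y ^ 2 = 0 := by
    intro x y h
    rw [← hC, h]
    simp
  have k0 := hzero 0 0 (by rw [zero_smul, zero_smul, add_zero, add_zero]; exact hz 0)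
  have k1 := hzero 1 0 (by
    rw [one_smul, zero_smul, add_zero, hd, add_sub_cancel]; exact hz 1)
  have k2 := hzero 0 1 (by
    rw [one_smul, zero_smul, add_zero, he, add_sub_cancel]; exact hz 2)
  have kr : C0 + C1 * (1 / 2) + C3 * (1 / 2) ^ 2 = 0 := by
    have h1 := hC (1 / 2) 0
    rw [zero_smul, add_zero, ← hr0, hlm0] at h1
    linarith
  have c0 : C0 = 0 := by linarith
  have c13 := T5_quad (A := C0) (B := C1) (C := C3) (t := 1 / 2) c0 (by linarith) kr
    (by norm_num) (by norm_num)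
  have c25 : C2 = -C5 := by linarith [c13.1, c13.2]
  -- coordinates of the other two points
  have hcoord : ∀ i, p i = p 0 + (wedge (p i - p 0) e / wedge d e) • d +
      (wedge d (p i - p 0) / wedge d e) • e := by
    intro i
    rw [add_assoc, ← T5_solve d e (p i - p 0) hW, add_sub_cancel]
  set x3 := wedge (p 3 - p 0) e / wedge d e with hx3
  set y3 := wedge d (p 3 - p 0) / wedge d e with hy3
  set x4 := wedge (p 4 - p 0) e / wedge d e with hx4
  set y4 := wedge d (p 4 - p 0) / wedge d e with hy4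
  have hy30 : y3 ≠ 0 := div_ne_zero (hw 0 1 3 (by decide) (by decide) (by decide)) hW
  have hy40 : y4 ≠ 0 := div_ne_zero (hw 0 1 4 (by decide) (by decide) (by decide)) hW
  have k3 := hzero x3 y3 (by rw [← hcoord 3]; exact hz 3)
  have k4 := hzero x4 y4 (by rw [← hcoord 4]; exact hz 4)
  rw [c0, c13.1, c13.2, c25] at k3 k4
  have m3 : C4 * x3 + C5 * (y3 - 1) = 0 := by
    have : y3 * (C4 * x3 + C5 * (y3 - 1)) = 0 := by linear_combination k3
    exact (mul_eq_zero.1 this).resolve_left hy30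
  have m4 : C4 * x4 + C5 * (y4 - 1) = 0 := by
    have : y4 * (C4 * x4 + C5 * (y4 - 1)) = 0 := by linear_combination k4
    exact (mul_eq_zero.1 this).resolve_left hy40
  have hdet : x3 * (y4 - 1) - x4 * (y3 - 1) ≠ 0 := by
    intro h0
    apply hw 2 3 4 (by decide) (by decide) (by decide)
    have e3 := hcoord 3
    have e4 := hcoord 4
    rw [← hx3, ← hy3] at e3
    rw [← hx4, ← hy4] at e4
    have e2 : p 2 = p 0 + e := by rw [he, add_sub_cancel]
    rw [e2, e3, e4]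
    unfold H709R2.wedge
    simp only [Prod.fst_add, Prod.snd_add, Prod.smul_fst, Prod.smul_snd, smul_eq_mul,
      Prod.fst_sub, Prod.snd_sub]
    linear_combination (d.1 * e.2 - d.2 * e.1) * h0
  have c5 : C5 = 0 := by
    have : C5 * (x3 * (y4 - 1) - x4 * (y3 - 1)) = 0 := by linear_combination x3 * m4 - x4 * m3
    exact (mul_eq_zero.1 this).resolve_right hdet
  have c4 : C4 = 0 := by
    have : C4 * (x3 * (y4 - 1) - x4 * (y3 - 1)) = 0 := by
      linear_combination (y4 - 1) * m3 - (y3 - 1) * m4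
    exact (mul_eq_zero.1 this).resolve_right hdet
  refine T5_nondeg hr X (p 0) (hp 0) l m hlm fun z => ?_
  have h1 : z = p 0 + (wedge (z - p 0) e / wedge d e) • d +
      (wedge d (z - p 0) / wedge d e) • e := by
    rw [add_assoc, ← T5_solve d e (z - p 0) hW, add_sub_cancel]
  rw [h1, hC, c0, c13.1, c13.2, c25, c5, c4]
  ring

theorem fewCentres (hr : Rays) : FewCentres := by
  intro X
  by_contra hcon
  rw [not_le] at hcon
  have h5 : (5 : ℕ∞) ≤ (T5R X).encard := by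
    have : (4 : ℕ∞) + 1 ≤ (T5R X).encard := Order.add_one_le_of_lt hcon
    have h : (4 : ℕ∞) + 1 = 5 := by norm_num
    rwa [h] at this
  obtain ⟨t, ht, ht5⟩ := Set.exists_subset_encard_eq h5
  have hfin : t.Finite := by
    rw [← Set.encard_lt_top_iff, ht5]
    exact ENat.coe_lt_top 5
  have hcard : hfin.toFinset.card = 5 := by
    have h1 : t.encard = hfin.toFinset.card := by
      rw [← Set.encard_coe_eq_coe_finsetCard, hfin.coe_toFinset]
    rw [ht5] at h1
    exact_mod_cast h1.symm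
  refine T5_five hr X (fun i => ((Finset.equivFinOfCardEq hcard).symm i : ℝ × ℝ)) ?_ ?_
  · intro i j h
    exact (Finset.equivFinOfCardEq hcard).symm.injective (Subtype.ext h)
  · intro i
    apply ht
    rw [← hfin.mem_toFinset]
    exact ((Finset.equivFinOfCardEq hcard).symm i).2

end Pool.Agent.H709Q
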