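import Pool.Agent.H709Q.Defs

/-! Task T6a: the angle function of a closed orbit around a point. -/

open Real Set MeasureTheory Topology Filter

namespace Pool.Agent.H709Q

noncomputable section

open Pool.Agent.H709R2 (wedge)

/-- a differentiable logarithm of a nowhere zero `C¹` function -/
theorem exists_logD {F F' : ℝ → ℂ} (hF : ∀ t, HasDerivAt F (F' t) t) (hc : Continuous F')
    (h0 : ∀ t, F t ≠ 0) :
    ∃ L : ℝ → ℂ, (∀ t, HasDerivAt L (F' t / F t) t) ∧ ∀ t, Complex.exp (L t) = F t := by
  have hFc : Continuous F := continuous_iff_continuousAt.2 fun t => (hF t).continuousAt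
  have hq : Continuous fun t => F' t / F t := hc.div hFc h0
  set L : ℝ → ℂ := fun t => Complex.log (F 0) + ∫ s in (0:ℝ)..t, F' s / F s with hL
  have hLd : ∀ t, HasDerivAt L (F' t / F t) t := by
    intro t
    have := intervalIntegral.integral_hasDerivAt_right (hq.intervalIntegrable 0 t)
      (hq.stronglyMeasurableAtFilter _ _) hq.continuousAt
    simpa [hL] using this.const_add (Complex.log (F 0))
  refine ⟨L, hLd, ?_⟩
  have hG : ∀ t, HasDerivAt (fun t => F t * Complex.exp (-L t)) 0 t := by
    intro t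
    have h1 : HasDerivAt (fun t => Complex.exp (-L t)) (Complex.exp (-L t) * (-(F' t / F t))) t :=
      (hLd t).neg.cexp
    refine ((hF t).mul h1).congr_deriv ?_
    have := h0 t
    field_simp
    ring
  have hconst : ∀ t, F t * Complex.exp (-L t) = F 0 * Complex.exp (-L 0) := by
    intro t
    exact is_const_of_deriv_eq_zero (fun t => (hG t).differentiableAt) (fun t => (hG t).deriv) t 0
  intro t
  have h1 := hconst t
  have h2 : F 0 * Complex.exp (-L 0) = 1 := by
    simp only [hL, intervalIntegral.integral_same, add_zero]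
    rw [Complex.exp_neg, Complex.exp_log (h0 0), mul_inv_cancel₀ (h0 0)]
  rw [h2, Complex.exp_neg] at h1
  have h3 := Complex.exp_ne_zero (L t)
  field_simp at h1
  exact h1.symm

/-- the angle function of an orbit around `p` -/
theorem exists_angle (X : QF) (γ : ℝ → ℝ × ℝ) (T : ℝ) (p : ℝ × ℝ) (hC : Cyc X γ T)
    (hA : Around X p γ) :
    ∃ θ : ℝ → ℝ,
      (∀ t, HasDerivAt θ (wedge (γ t - p) (X.f (γ t)) / H709R2.sq (γ t - p)) t) ∧
      (∀ t, γ t - p = √(H709R2.sq (γ t - p)) • ev (θ t)) ∧ (∀ t, 0 < H709R2.sq (γ t - p)) ∧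
      StrictMono θ ∧ Function.Surjective θ ∧
      ∃ k : ℕ, 0 < k ∧ ∀ t, θ (t + T) = θ t + k * (2 * π) := by
  -- components
  have hd1 : ∀ t, HasDerivAt (fun t => (γ t).1) (X.f (γ t)).1 t := fun t =>
    (hasFDerivAt_fst (𝕜 := ℝ) (p := γ t)).comp_hasDerivAt t (hC.ode t)
  have hd2 : ∀ t, HasDerivAt (fun t => (γ t).2) (X.f (γ t)).2 t := fun t =>
    (hasFDerivAt_snd (𝕜 := ℝ) (p := γ t)).comp_hasDerivAt t (hC.ode t)
  have hγc : Continuous γ := continuous_iff_continuousAt.2 fun t => (hC.ode t).continuousAt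
  have hsq : ∀ t, 0 < H709R2.sq (γ t - p) := by
    intro t
    have h := hA t
    rcases eq_or_ne (γ t - p) 0 with h0 | h0
    · rw [h0] at h
      simp [wedge] at h
    · unfold H709R2.sq
      rcases (not_and_or.1 (fun hh : (γ t - p).1 = 0 ∧ (γ t - p).2 = 0 =>
        h0 (Prod.ext hh.1 hh.2))) with h1 | h1
      · have := sq_pos_of_ne_zero h1
        positivity
      · have := sq_pos_of_ne_zero h1
        positivity
  set F : ℝ → ℂ := fun t => ⟨(γ t - p).1, (γ t - p).2⟩ with hFdef
  set F' : ℝ → ℂ := fun t => ⟨(X.f (γ t)).1, (X.f (γ t)).2⟩ with hF'def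
  have hFeq : F = fun t => (((γ t).1 - p.1 : ℝ) : ℂ) + (((γ t).2 - p.2 : ℝ) : ℂ) * Complex.I := by
    funext t
    apply Complex.ext <;> simp [hFdef]
  have hF'eq : F' = fun t => (((X.f (γ t)).1 : ℝ) : ℂ) + (((X.f (γ t)).2 : ℝ) : ℂ) * Complex.I := by
    funext t
    apply Complex.ext <;> simp [hF'def]
  have hFd : ∀ t, HasDerivAt F (F' t) t := by
    intro t
    rw [hFeq, hF'eq]
    exact ((hd1 t).sub_const p.1).ofReal_comp.add
      (((hd2 t).sub_const p.2).ofReal_comp.mul_const Complex.I)
  have hF'c : Continuous F' := by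
    rw [hF'eq]
    have := X.continuous_f.comp hγc
    fun_prop
  have hnsq : ∀ t, Complex.normSq (F t) = H709R2.sq (γ t - p) := by
    intro t
    simp [hFdef, Complex.normSq_apply, H709R2.sq]
    ring
  have hF0 : ∀ t, F t ≠ 0 := by
    intro t h
    have := hnsq t
    rw [h] at this
    simp only [map_zero] at this
    linarith [hsq t]
  obtain ⟨L, hLd, hLe⟩ := exists_logD hFd hF'c hF0
  have him : ∀ t, (F' t / F t).im = wedge (γ t - p) (X.f (γ t)) / H709R2.sq (γ t - p) := by
    intro t
    rw [Complex.div_im, hnsq]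
    simp only [hFdef, hF'def, wedge]
    ring
  have hθd : ∀ t, HasDerivAt (fun t => (L t).im)
      (wedge (γ t - p) (X.f (γ t)) / H709R2.sq (γ t - p)) t := by
    intro t
    rw [← him t]
    exact Complex.imCLM.hasFDerivAt.comp_hasDerivAt t (hLd t)
  have hmono : StrictMono fun t => (L t).im := by
    apply strictMono_of_deriv_pos
    intro t
    rw [(hθd t).deriv]
    exact div_pos (hA t) (hsq t)
  have hnorm : ∀ t, Real.exp (L t).re = √(H709R2.sq (γ t - p)) := by
    intro t
    have h1 : ‖F t‖ = Real.exp (L t).re := by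
      rw [← hLe t, Complex.norm_exp]
    rw [← h1, ← hnsq t]
    rfl
  have hper : ∃ n : ℤ, ∀ t, L (t + T) = L t + n * (2 * π * Complex.I) := by
    have hFp : ∀ t, F (t + T) = F t := fun t => by simp only [hFdef, hC.per t]
    have hF'p : ∀ t, F' (t + T) = F' t := fun t => by simp only [hF'def, hC.per t]
    have h1 : ∀ t, HasDerivAt (fun t => L (t + T) - L t) 0 t := by
      intro t
      have h2 : HasDerivAt (fun t => L (t + T)) (F' (t + T) / F (t + T)) t :=
        (hLd (t + T)).comp_add_const t T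
      have := h2.sub (hLd t)
      rwa [hFp, hF'p, sub_self] at this
    have h3 : ∀ t, L (t + T) - L t = L (0 + T) - L 0 := fun t =>
      is_const_of_deriv_eq_zero (f := fun t => L (t + T) - L t)
        (fun t => (h1 t).differentiableAt) (fun t => (h1 t).deriv) t 0
    have h4 : Complex.exp (L (0 + T)) = Complex.exp (L 0) := by rw [hLe, hLe, hFp]
    obtain ⟨n, hn⟩ := Complex.exp_eq_exp_iff_exists_int.1 h4
    refine ⟨n, fun t => ?_⟩
    have := h3 t
    rw [hn] at this
    linear_combination this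
  obtain ⟨n, hn⟩ := hper
  have hθp : ∀ t, (L (t + T)).im = (L t).im + n * (2 * π) := by
    intro t
    rw [hn t]
    simp
  have hnpos : 0 < n := by
    have h1 : (L 0).im < (L (0 + T)).im := hmono (by linarith [hC.pos])
    rw [hθp] at h1
    have h2 : (0:ℝ) < n * (2 * π) := by linarith
    have h3 : (0:ℝ) < n := by
      by_contra h
      push Not at h
      have : (n:ℝ) * (2 * π) ≤ 0 := mul_nonpos_of_nonpos_of_nonneg h (by positivity)
      linarith
    exact_mod_cast h3
  obtain ⟨k, rfl⟩ := Int.eq_ofNat_of_zero_le hnpos.le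
  have hk : 0 < k := by exact_mod_cast hnpos
  have hθp' : ∀ t, (L (t + T)).im = (L t).im + k * (2 * π) := by
    intro t
    rw [hθp t]
    simp
  have hup : ∀ m : ℕ, (L 0).im + m * (2 * π) ≤ (L (m * T)).im := by
    intro m
    induction m with
    | zero => simp
    | succ m ih =>
      have e : ((m + 1 : ℕ) : ℝ) * T = m * T + T := by push_cast; ring
      rw [e, hθp']
      have : (1:ℝ) ≤ k := by exact_mod_cast hk
      push_cast
      nlinarith [Real.pi_pos]
  have hdown : ∀ m : ℕ, (L (-(m * T))).im ≤ (L 0).im - m * (2 * π) := by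
    intro m
    induction m with
    | zero => simp
    | succ m ih =>
      have h1 := hθp' (-(((m + 1 : ℕ) : ℝ) * T))
      have e : -(((m + 1 : ℕ) : ℝ) * T) + T = -(m * T) := by push_cast; ring
      rw [e] at h1
      have : (1:ℝ) ≤ k := by exact_mod_cast hk
      push_cast at h1 ⊢
      nlinarith [Real.pi_pos]
  have hcont : Continuous fun t => (L t).im :=
    continuous_iff_continuousAt.2 fun t => (hθd t).continuousAt
  have hsurj : Function.Surjective fun t => (L t).im := by
    apply hcont.surjective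
    · apply tendsto_atTop_atTop_of_monotone hmono.monotone
      intro b
      obtain ⟨m, hm⟩ := exists_nat_gt ((b - (L 0).im) / (2 * π))
      refine ⟨m * T, le_trans ?_ (hup m)⟩
      rw [div_lt_iff₀ (by positivity)] at hm
      linarith
    · apply tendsto_atBot_atBot_of_monotone hmono.monotone
      intro b
      obtain ⟨m, hm⟩ := exists_nat_gt (((L 0).im - b) / (2 * π))
      refine ⟨-(m * T), le_trans (hdown m) ?_⟩
      rw [div_lt_iff₀ (by positivity)] at hm
      linarith
  refine ⟨fun t => (L t).im, hθd, ?_, hsq, hmono, hsurj, k, hk, hθp'⟩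
  intro t
  have h1 := hLe t
  have h2 : (F t).re = Real.exp (L t).re * cos (L t).im := by rw [← h1, Complex.exp_re]
  have h3 : (F t).im = Real.exp (L t).re * sin (L t).im := by rw [← h1, Complex.exp_im]
  rw [hnorm] at h2 h3
  ext
  · simpa [ev, hFdef] using h2
  · simpa [ev, hFdef] using h3

theorem rays : Rays := by
  intro X γ T p hC hA u hu
  obtain ⟨θ, -, hθ, hsq, -, hsurj, -⟩ := exists_angle X γ T p hC hA
  -- angle of `u`
  have hu' : (⟨u.1, u.2⟩ : ℂ) ≠ 0 := by
    intro h
    apply hu
    have h1 := congrArg Complex.re h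
    have h2 := congrArg Complex.im h
    exact Prod.ext h1 h2
  set w : ℂ := ⟨u.1, u.2⟩ with hw
  obtain ⟨t, ht⟩ := hsurj (Complex.arg w)
  have hn : 0 < ‖w‖ := norm_pos_iff.2 hu'
  refine ⟨t, √(H709R2.sq (γ t - p)) / ‖w‖, by have := hsq t; positivity, ?_⟩
  obtain ⟨R, hR⟩ : ∃ R, R = √(H709R2.sq (γ t - p)) := ⟨_, rfl⟩
  have h1 := hθ t
  rw [← hR, ht] at h1
  rw [← hR]
  have hc : ‖w‖ * cos (Complex.arg w) = u.1 := by
    have := Complex.norm_mul_cos_arg w
    simpa [hw] using this
  have hs : ‖w‖ * sin (Complex.arg w) = u.2 := by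
    have := Complex.norm_mul_sin_arg w
    simpa [hw] using this
  have h3 : R • ev (Complex.arg w) = (R / ‖w‖) • u := by
    ext
    · simp only [ev, Prod.smul_fst, smul_eq_mul]
      rw [← hc]
      field_simp
    · simp only [ev, Prod.smul_snd, smul_eq_mul]
      rw [← hs]
      field_simp
  rw [← h3, ← h1]
  abel

end

end Pool.Agent.H709Q
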