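import Pool.Agent.H709Q.Defs

/-! Task T6c (helper889): closed orbits around the origin in polar coordinates. -/

open Real Set MeasureTheory Topology Filter

namespace Pool.Agent.H709Q

set_option linter.unusedSimpArgs false

noncomputable section

open Pool.Agent.H709R2 (wedge)

/-- polar form of the orbit -/
theorem exists_polar_angle {X : QF} {γ : ℝ → ℝ × ℝ} {T : ℝ} (hc : Cyc X γ T)
    (ha : Around X 0 γ) :
    ∃ θ : ℝ → ℝ, (∀ t, HasDerivAt θ (wedge (γ t) (X.f (γ t)) / H709R2.sq (γ t)) t) ∧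
      ∀ t, γ t = √(H709R2.sq (γ t)) • ev (θ t) := by
  have hw : ∀ t, 0 < wedge (γ t) (X.f (γ t)) := by
    intro t
    have := ha t
    rwa [sub_zero] at this
  have hs : ∀ t, 0 < H709R2.sq (γ t) := by
    intro t
    apply H709R2.sq_pos
    intro h0
    have := hw t
    rw [h0] at this
    simp [wedge] at this
  have hγc : Continuous γ := continuous_iff_continuousAt.2 fun t => (hc.ode t).continuousAt
  have hωc : Continuous fun t => wedge (γ t) (X.f (γ t)) / H709R2.sq (γ t) := by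
    have h1 : Continuous fun t => X.f (γ t) := X.continuous_f.comp hγc
    refine Continuous.div ?_ ?_ fun t => (hs t).ne'
    · unfold wedge
      fun_prop
    · unfold H709R2.sq
      fun_prop
  -- initial angle
  obtain ⟨θ0, hθ0⟩ : ∃ θ0, γ 0 = √(H709R2.sq (γ 0)) • ev θ0 := by
    refine ⟨Complex.arg ((γ 0).1 + (γ 0).2 * Complex.I), ?_⟩
    have h := Complex.norm_mul_exp_arg_mul_I ((γ 0).1 + (γ 0).2 * Complex.I)
    have hn : ‖((γ 0).1 + (γ 0).2 * Complex.I : ℂ)‖ = √(H709R2.sq (γ 0)) := by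
      rw [Complex.norm_add_mul_I, H709R2.sq]
    rw [hn, Complex.exp_mul_I, ← Complex.ofReal_cos, ← Complex.ofReal_sin] at h
    have hre := congrArg Complex.re h
    have him := congrArg Complex.im h
    simp at hre him
    refine Prod.ext ?_ ?_
    · simp only [ev, Prod.smul_fst, smul_eq_mul]
      exact hre.symm
    · simp only [ev, Prod.smul_snd, smul_eq_mul]
      exact him.symm
  obtain ⟨θ, hθ⟩ : ∃ θ : ℝ → ℝ, θ = fun t => θ0 + ∫ s in (0:ℝ)..t,
      wedge (γ s) (X.f (γ s)) / H709R2.sq (γ s) := ⟨_, rfl⟩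
  have hθd : ∀ t, HasDerivAt θ (wedge (γ t) (X.f (γ t)) / H709R2.sq (γ t)) t := by
    intro t
    rw [hθ]
    exact (hωc.integral_hasStrictDerivAt 0 t).hasDerivAt.const_add θ0
  have hθz : θ 0 = θ0 := by rw [hθ]; simp
  refine ⟨θ, hθd, ?_⟩
  -- the two components
  have hd1 : ∀ t, HasDerivAt (fun t => (γ t).1) (X.f (γ t)).1 t := fun t =>
    (hasFDerivAt_fst (𝕜 := ℝ) (p := γ t)).comp_hasDerivAt t (hc.ode t)
  have hd2 : ∀ t, HasDerivAt (fun t => (γ t).2) (X.f (γ t)).2 t := fun t =>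
    (hasFDerivAt_snd (𝕜 := ℝ) (p := γ t)).comp_hasDerivAt t (hc.ode t)
  have hds : ∀ t, HasDerivAt (fun t => H709R2.sq (γ t))
      (2 * (γ t).1 * (X.f (γ t)).1 + 2 * (γ t).2 * (X.f (γ t)).2) t := by
    intro t
    have := ((hd1 t).pow 2).add ((hd2 t).pow 2)
    refine HasDerivAt.congr_deriv this ?_
    push_cast
    ring
  have hdr : ∀ t, HasDerivAt (fun t => √(H709R2.sq (γ t)))
      (((γ t).1 * (X.f (γ t)).1 + (γ t).2 * (X.f (γ t)).2) / √(H709R2.sq (γ t))) t := by
    intro t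
    refine HasDerivAt.congr_deriv ((hds t).sqrt (hs t).ne') ?_
    have := Real.sqrt_pos.2 (hs t)
    field_simp
  have hr : ∀ t, 0 < √(H709R2.sq (γ t)) := fun t => Real.sqrt_pos.2 (hs t)
  have hrr : ∀ t, √(H709R2.sq (γ t)) ^ 2 = (γ t).1 ^ 2 + (γ t).2 ^ 2 := fun t =>
    Real.sq_sqrt (hs t).le
  have hA : ∀ t, HasDerivAt (fun t => ((γ t).1 * cos (θ t) + (γ t).2 * sin (θ t)) / √(H709R2.sq (γ t)))
      0 t := by
    intro t
    have h1 := (((hd1 t).mul (hθd t).cos).add ((hd2 t).mul (hθd t).sin)).div (hdr t) (hr t).ne'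
    refine HasDerivAt.congr_deriv h1 ?_
    have e1 := hrr t
    have e2 : H709R2.sq (γ t) = √(H709R2.sq (γ t)) ^ 2 := (Real.sq_sqrt (hs t).le).symm
    have hr0 := (hr t).ne'
    rw [e2, Real.sqrt_sq (hr t).le]
    unfold wedge
    set r := √(H709R2.sq (γ t)) with hrdef
    rw [div_eq_zero_iff]
    left
    simp only [Pi.add_apply, Pi.sub_apply, Pi.mul_apply]
    field_simp
    rw [e1]
    ring
  have hB : ∀ t, HasDerivAt (fun t => ((γ t).2 * cos (θ t) - (γ t).1 * sin (θ t)) / √(H709R2.sq (γ t)))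
      0 t := by
    intro t
    have h1 := (((hd2 t).mul (hθd t).cos).sub ((hd1 t).mul (hθd t).sin)).div (hdr t) (hr t).ne'
    refine HasDerivAt.congr_deriv h1 ?_
    have e1 := hrr t
    have e2 : H709R2.sq (γ t) = √(H709R2.sq (γ t)) ^ 2 := (Real.sq_sqrt (hs t).le).symm
    have hr0 := (hr t).ne'
    rw [e2, Real.sqrt_sq (hr t).le]
    unfold wedge
    set r := √(H709R2.sq (γ t)) with hrdef
    rw [div_eq_zero_iff]
    left
    simp only [Pi.add_apply, Pi.sub_apply, Pi.mul_apply]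
    field_simp
    rw [e1]
    ring
  have hcA : ∀ t, ((γ t).1 * cos (θ t) + (γ t).2 * sin (θ t)) / √(H709R2.sq (γ t)) =
      ((γ 0).1 * cos (θ 0) + (γ 0).2 * sin (θ 0)) / √(H709R2.sq (γ 0)) := fun t =>
    is_const_of_deriv_eq_zero (fun t => (hA t).differentiableAt) (fun t => (hA t).deriv) t 0
  have hcB : ∀ t, ((γ t).2 * cos (θ t) - (γ t).1 * sin (θ t)) / √(H709R2.sq (γ t)) =
      ((γ 0).2 * cos (θ 0) - (γ 0).1 * sin (θ 0)) / √(H709R2.sq (γ 0)) := fun t =>
    is_const_of_deriv_eq_zero (fun t => (hB t).differentiableAt) (fun t => (hB t).deriv) t 0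
  have g1 : (γ 0).1 = √(H709R2.sq (γ 0)) * cos θ0 := congrArg Prod.fst hθ0
  have g2 : (γ 0).2 = √(H709R2.sq (γ 0)) * sin θ0 := congrArg Prod.snd hθ0
  have hcA0 : ((γ 0).1 * cos (θ 0) + (γ 0).2 * sin (θ 0)) / √(H709R2.sq (γ 0)) = 1 := by
    rw [hθz, div_eq_one_iff_eq (hr 0).ne']
    linear_combination cos θ0 * g1 + sin θ0 * g2 + √(H709R2.sq (γ 0)) * sin_sq_add_cos_sq θ0
  have hcB0 : ((γ 0).2 * cos (θ 0) - (γ 0).1 * sin (θ 0)) / √(H709R2.sq (γ 0)) = 0 := by
    rw [hθz, div_eq_zero_iff]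
    left
    linear_combination cos θ0 * g2 - sin θ0 * g1
  intro t
  have k1 := (hcA t).trans hcA0
  have k2 := (hcB t).trans hcB0
  rw [div_eq_one_iff_eq (hr t).ne'] at k1
  rw [div_eq_zero_iff, or_iff_left (hr t).ne'] at k2
  refine Prod.ext ?_ ?_
  · simp only [ev, Prod.smul_fst, smul_eq_mul]
    linear_combination cos (θ t) * k1 - sin (θ t) * k2 - (γ t).1 * sin_sq_add_cos_sq (θ t)
  · simp only [ev, Prod.smul_snd, smul_eq_mul]
    linear_combination sin (θ t) * k1 + cos (θ t) * k2 - (γ t).2 * sin_sq_add_cos_sq (θ t)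

theorem polar : Polar := by
  intro X γ T hX0 hc ha
  obtain ⟨θ, hθd, hθγ⟩ := exists_polar_angle hc ha
  have hw : ∀ t, 0 < wedge (γ t) (X.f (γ t)) := by
    intro t
    have := ha t
    rwa [sub_zero] at this
  have hs : ∀ t, 0 < H709R2.sq (γ t) := by
    intro t
    apply H709R2.sq_pos
    intro h0
    have := hw t
    rw [h0] at this
    simp [wedge] at this
  have hr : ∀ t, 0 < √(H709R2.sq (γ t)) := fun t => Real.sqrt_pos.2 (hs t)
  have hγc : Continuous γ := continuous_iff_continuousAt.2 fun t => (hc.ode t).continuousAt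
  have hωc : Continuous fun t => wedge (γ t) (X.f (γ t)) / H709R2.sq (γ t) := by
    have h1 : Continuous fun t => X.f (γ t) := X.continuous_f.comp hγc
    refine Continuous.div ?_ ?_ fun t => (hs t).ne'
    · unfold wedge
      fun_prop
    · unfold H709R2.sq
      fun_prop
  -- lower bound of the angular speed
  have hωper : Function.Periodic (fun t => wedge (γ t) (X.f (γ t)) / H709R2.sq (γ t)) T := by
    intro t
    simp only
    rw [hc.per]
  obtain ⟨c, hc0, hcl⟩ : ∃ c, 0 < c ∧ ∀ t, c ≤ wedge (γ t) (X.f (γ t)) / H709R2.sq (γ t) := by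
    obtain ⟨t0, -, ht0⟩ := isCompact_Icc.exists_isMinOn (nonempty_Icc.2 hc.pos.le)
      (hωc.continuousOn (s := Icc 0 T))
    refine ⟨wedge (γ t0) (X.f (γ t0)) / H709R2.sq (γ t0), div_pos (hw t0) (hs t0), fun t => ?_⟩
    obtain ⟨y, hy, hy2⟩ := hωper.exists_mem_Ico₀ hc.pos t
    have := ht0 (⟨hy.1, hy.2.le⟩ : y ∈ Icc 0 T)
    rw [hy2]
    exact this
  have hθc : Continuous θ := continuous_iff_continuousAt.2 fun t => (hθd t).continuousAt
  have hmono : StrictMono θ := by
    apply strictMono_of_deriv_pos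
    intro t
    rw [(hθd t).deriv]
    exact div_pos (hw t) (hs t)
  have hgrow : Monotone fun t => θ t - c * t := by
    apply monotone_of_deriv_nonneg
    · intro t
      exact ((hθd t).differentiableAt).sub ((differentiableAt_id).const_mul c)
    · intro t
      have h1 : HasDerivAt (fun t => θ t - c * t) (wedge (γ t) (X.f (γ t)) / H709R2.sq (γ t) - c * 1) t :=
        (hθd t).sub ((hasDerivAt_id t).const_mul c)
      rw [h1.deriv]
      have := hcl t
      linarith
  have htop : Tendsto θ atTop atTop := by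
    have h1 : Tendsto (fun t => θ 0 + c * t) atTop atTop :=
      tendsto_atTop_add_const_left _ _ (tendsto_id.const_mul_atTop hc0)
    refine tendsto_atTop_mono' _ ?_ h1
    filter_upwards [eventually_ge_atTop 0] with t ht
    have := hgrow ht
    simp only at this
    linarith
  have hbot : Tendsto θ atBot atBot := by
    have h1 : Tendsto (fun t => θ 0 + c * t) atBot atBot :=
      tendsto_atBot_add_const_left _ _ (tendsto_id.const_mul_atBot hc0)
    refine tendsto_atBot_mono' _ ?_ h1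
    filter_upwards [eventually_le_atBot 0] with t ht
    have := hgrow ht
    simp only at this
    linarith
  have hsurj : Function.Surjective θ := hθc.surjective htop hbot
  let e : ℝ ≃o ℝ := hmono.orderIsoOfSurjective θ hsurj
  have he : ∀ t, e t = θ t := fun t => rfl
  have hτ : ∀ φ, θ (e.symm φ) = φ := fun φ => by
    rw [← he]
    exact e.apply_symm_apply φ
  have hτd : ∀ φ, HasDerivAt e.symm
      (wedge (γ (e.symm φ)) (X.f (γ (e.symm φ))) / H709R2.sq (γ (e.symm φ)))⁻¹ φ := by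
    intro φ
    exact HasDerivAt.of_local_left_inverse e.symm.continuous.continuousAt (hθd (e.symm φ))
      (div_pos (hw _) (hs _)).ne' (Eventually.of_forall hτ)
  have hγe : ∀ φ, γ (e.symm φ) = √(H709R2.sq (γ (e.symm φ))) • ev φ := fun φ => by
    have := hθγ (e.symm φ)
    rwa [hτ] at this
  -- the field at the point `r e`
  have hf : ∀ (r φ : ℝ), X.f (r • ev φ) = r • X.D 0 (ev φ) + r ^ 2 • X.qd (ev φ) := by
    intro r φ
    have h1 := X.f_add 0 (r • ev φ)
    rw [zero_add, hX0, zero_add] at h1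
    rw [h1]
    unfold QF.D QF.qd
    ext <;> simp <;> ring
  have hev : ∀ φ, (ev φ).1 = cos φ ∧ (ev φ).2 = sin φ := fun φ => ⟨rfl, rfl⟩
  have hwf : ∀ φ r : ℝ, wedge (r • ev φ) (X.f (r • ev φ)) =
      r ^ 2 * wedge (ev φ) (X.D 0 (ev φ)) + r ^ 3 * wedge (ev φ) (X.qd (ev φ)) := by
    intro φ r
    rw [hf]
    simp only [wedge, Prod.smul_fst, Prod.smul_snd, Prod.fst_add, Prod.snd_add, smul_eq_mul]
    ring
  have hpos : ∀ φ, 0 < wedge (ev φ) (X.D 0 (ev φ)) * (√(H709R2.sq (γ (e.symm φ))))⁻¹ +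
      wedge (ev φ) (X.qd (ev φ)) := by
    intro φ
    have h1 := hw (e.symm φ)
    have h0 := hr (e.symm φ)
    rw [hγe φ, hwf] at h1
    set r := √(H709R2.sq (γ (e.symm φ))) with hrdef
    have h2 : r ^ 2 * wedge (ev φ) (X.D 0 (ev φ)) + r ^ 3 * wedge (ev φ) (X.qd (ev φ)) =
        r ^ 3 * (wedge (ev φ) (X.D 0 (ev φ)) * r⁻¹ + wedge (ev φ) (X.qd (ev φ))) := by
      field_simp
    rw [h2] at h1
    exact (mul_pos_iff_of_pos_left (by positivity)).1 h1
  refine ⟨fun φ => (√(H709R2.sq (γ (e.symm φ))))⁻¹, fun φ => inv_pos.2 (hr _), fun φ => ?_, hpos,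
    fun φ => ?_⟩
  · simp only
    rw [inv_inv, ← hγe φ]
    exact mem_range_self _
  · -- derivative
    have hd1 : ∀ t, HasDerivAt (fun t => (γ t).1) (X.f (γ t)).1 t := fun t =>
      (hasFDerivAt_fst (𝕜 := ℝ) (p := γ t)).comp_hasDerivAt t (hc.ode t)
    have hd2 : ∀ t, HasDerivAt (fun t => (γ t).2) (X.f (γ t)).2 t := fun t =>
      (hasFDerivAt_snd (𝕜 := ℝ) (p := γ t)).comp_hasDerivAt t (hc.ode t)
    have hds : ∀ t, HasDerivAt (fun t => H709R2.sq (γ t))
        (2 * (γ t).1 * (X.f (γ t)).1 + 2 * (γ t).2 * (X.f (γ t)).2) t := by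
      intro t
      have := ((hd1 t).pow 2).add ((hd2 t).pow 2)
      refine HasDerivAt.congr_deriv this ?_
      push_cast
      ring
    have h1 := ((hds (e.symm φ)).sqrt (hs _).ne').inv (hr _).ne'
    have h2 := h1.comp φ (hτd φ)
    refine HasDerivAt.congr_deriv h2 ?_
    beta_reduce
    have h0 := hr (e.symm φ)
    have hp := hpos φ
    have hwp := hw (e.symm φ)
    have hsq : H709R2.sq (γ (e.symm φ)) = √(H709R2.sq (γ (e.symm φ))) ^ 2 := (Real.sq_sqrt (hs _).le).symm
    have hγ := hγe φ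
    set r := √(H709R2.sq (γ (e.symm φ))) with hrdef
    rw [hγ, hwf] at hwp
    rw [hsq, hγ, hwf]
    have e1 : (X.f (r • ev φ)).1 = r * (X.D 0 (ev φ)).1 + r ^ 2 * (X.qd (ev φ)).1 := by
      rw [hf]; rfl
    have e2 : (X.f (r • ev φ)).2 = r * (X.D 0 (ev φ)).2 + r ^ 2 * (X.qd (ev φ)).2 := by
      rw [hf]; rfl
    have e3 : (r • ev φ).1 = r * cos φ := rfl
    have e4 : (r • ev φ).2 = r * sin φ := rfl
    rw [e1, e2, e3, e4]
    set cc := wedge (ev φ) (X.D 0 (ev φ))
    set dd := wedge (ev φ) (X.qd (ev φ))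
    have hne : cc + r * dd ≠ 0 := by
      intro h
      have : r ^ 2 * cc + r ^ 3 * dd = r ^ 2 * (cc + r * dd) := by ring
      rw [this, h, mul_zero] at hwp
      exact lt_irrefl _ hwp
    have e5 : r ^ 2 * cc + r ^ 3 * dd = r ^ 2 * (cc + r * dd) := by ring
    have e6 : cc * r⁻¹ + dd = (cc + r * dd) / r := by
      field_simp
    rw [e5, e6]
    field_simp
    ring

end

end Pool.Agent.H709Q
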