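import Pool.Agent.H709Q.Defs

open Real Set

namespace Pool.Agent.H709Q

open Pool.Agent.H709R2 (wedge ClosedOrbit)

/-- a polynomial bound used at `± π / 4` -/
lemma pinch_q {q1 e2 e3 p3 δ r : ℝ} (hδ : 0 < δ) (hr : r ^ 2 = 2) (hr0 : 0 < r)
    (h1 : |q1| ≤ δ) (h3 : |p3| ≤ δ)
    (hp : |(q1 + e2 + e3 - p3) * (r / 4)| ≤ δ) (hm : |(q1 - e2 + e3 + p3) * (r / 4)| ≤ δ) :
    |e2| ≤ 4 * δ ∧ |e3| ≤ 4 * δ := by
  rw [abs_le] at h1 h3 hp hm ⊢
  rw [abs_le]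
  have hr1 : 1.4 < r := by nlinarith
  obtain ⟨h1a, h1b⟩ := h1
  obtain ⟨h3a, h3b⟩ := h3
  obtain ⟨hpa, hpb⟩ := hp
  obtain ⟨hma, hmb⟩ := hm
  have key : ∀ x : ℝ, -δ * 2 ≤ x * (r / 2) → x * (r / 2) ≤ 2 * δ → -(3 * δ) ≤ x ∧ x ≤ 3 * δ := by
    intro x hx1 hx2
    constructor
    · by_contra hcon
      push Not at hcon
      nlinarith
    · by_contra hcon
      push Not at hcon
      nlinarith
  have k1 := key (q1 + e3) (by nlinarith) (by nlinarith)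
  have k2 := key (e2 - p3) (by nlinarith) (by nlinarith)
  refine ⟨⟨?_, ?_⟩, ?_, ?_⟩ <;> linarith [k1.1, k1.2, k2.1, k2.2]

/-- the key one dimensional estimate -/
lemma pinch_rate {a b c d ρ₁ ρ₂ : ℝ} (ha : |a| ≤ 1) (hb : b ≤ -0.48) (hc : c ≤ 1)
    (h1 : 0 < ρ₁) (h1' : ρ₁ ≤ 1 / 1000) (h2 : 0 < ρ₂) (h2' : ρ₂ ≤ 1 / 1000)
    (hd1 : 0 < c * ρ₁ + d) (hd2 : 0 < c * ρ₂ - d) :
    0.47 ≤ -(ρ₁ * (a * ρ₁ + b)) / (c * ρ₁ + d) - -(ρ₂ * (a * ρ₂ + -b)) / (c * ρ₂ - d) := by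
  rw [abs_le] at ha
  have n1 : 0.47 ≤ -(a * ρ₁ + b) := by nlinarith [ha.1, ha.2]
  have n2 : 0.47 ≤ a * ρ₂ + -b := by nlinarith [ha.1, ha.2]
  have e1 : -(ρ₁ * (a * ρ₁ + b)) / (c * ρ₁ + d) = (ρ₁ * -(a * ρ₁ + b)) / (c * ρ₁ + d) := by
    congr 1; ring
  have e2 : -(ρ₂ * (a * ρ₂ + -b)) / (c * ρ₂ - d) = -((ρ₂ * (a * ρ₂ + -b)) / (c * ρ₂ - d)) := by
    rw [neg_div]
  rw [e1, e2, sub_neg_eq_add]
  rcases le_total d 0 with hd | hd
  · have f1 : 0.47 ≤ (ρ₁ * -(a * ρ₁ + b)) / (c * ρ₁ + d) := by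
      rw [le_div_iff₀ hd1]
      nlinarith
    have f2 : 0 ≤ (ρ₂ * (a * ρ₂ + -b)) / (c * ρ₂ - d) := by
      apply div_nonneg _ hd2.le
      nlinarith
    linarith
  · have f1 : 0.47 ≤ (ρ₂ * (a * ρ₂ + -b)) / (c * ρ₂ - d) := by
      rw [le_div_iff₀ hd2]
      nlinarith
    have f2 : 0 ≤ (ρ₁ * -(a * ρ₁ + b)) / (c * ρ₁ + d) := by
      apply div_nonneg _ hd1.le
      nlinarith
    linarith

lemma pinch_cos {x : ℝ} (h1 : 2 * π / 3 ≤ x) (h2 : x ≤ 4 * π / 3) : cos x ≤ -(1 / 2) := by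
  have h := Real.cos_pi_div_three
  have hpi := Real.pi_pos
  have h3 : cos (x - π) = -cos x := Real.cos_sub_pi x
  have h4 : cos (π / 3) ≤ cos |x - π| := by
    apply Real.cos_le_cos_of_nonneg_of_le_pi (abs_nonneg _) (by linarith)
    rw [abs_le]
    constructor <;> linarith
  rw [Real.cos_abs, h, h3] at h4
  linarith

/-- the radial part of the quadratic field is close to a linear form -/
lemma pinch_b {p1 p2 p3 q1 q2 q3 C S δ : ℝ} (hcs : C ^ 2 + S ^ 2 = 1) (hδ : 0 ≤ δ)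
    (h1 : |q1| ≤ δ) (h3 : |p3| ≤ δ) (he2 : |q2 - p1| ≤ 4 * δ) (he3 : |q3 - p2| ≤ 4 * δ) :
    C * (p1 * C ^ 2 + p2 * (C * S) + p3 * S ^ 2) + S * (q1 * C ^ 2 + q2 * (C * S) + q3 * S ^ 2) ≤
      p1 * C + p2 * S + 10 * δ := by
  have e : C * (p1 * C ^ 2 + p2 * (C * S) + p3 * S ^ 2) +
      S * (q1 * C ^ 2 + q2 * (C * S) + q3 * S ^ 2) =
      p1 * C + p2 * S + (p3 * (C * S ^ 2) + q1 * (C ^ 2 * S) + (q2 - p1) * (C * S ^ 2) +
        (q3 - p2) * (S ^ 3)) := by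
    have : C ^ 2 = 1 - S ^ 2 := by linarith
    have h3 : C ^ 3 = C * (1 - S ^ 2) := by rw [← this]; ring
    linear_combination (p1 * C + p2 * S) * hcs
  rw [e]
  have hC : |C| ≤ 1 := by
    rw [abs_le]; constructor <;> nlinarith
  have hS : |S| ≤ 1 := by
    rw [abs_le]; constructor <;> nlinarith
  have hS2 : |S ^ 2| ≤ 1 := by rw [abs_pow]; exact pow_le_one₀ (abs_nonneg _) hS
  have hC2 : |C ^ 2| ≤ 1 := by rw [abs_pow]; exact pow_le_one₀ (abs_nonneg _) hC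
  have hS3 : |S ^ 3| ≤ 1 := by rw [abs_pow]; exact pow_le_one₀ (abs_nonneg _) hS
  have g1 : |C * S ^ 2| ≤ 1 := by
    rw [abs_mul]; exact mul_le_one₀ hC (abs_nonneg _) hS2
  have g2 : |C ^ 2 * S| ≤ 1 := by
    rw [abs_mul]; exact mul_le_one₀ hC2 (abs_nonneg _) hS
  have m : ∀ x y t : ℝ, |x| ≤ t → |y| ≤ 1 → x * y ≤ t := by
    intro x y t hx hy
    calc x * y ≤ |x * y| := le_abs_self _
      _ = |x| * |y| := abs_mul _ _
      _ ≤ |x| * 1 := mul_le_mul_of_nonneg_left hy (abs_nonneg _)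
      _ ≤ t := by linarith
  have := m _ _ _ h3 g1
  have := m _ _ _ h1 g2
  have := m _ _ _ he2 g1
  have := m _ _ _ he3 hS3
  linarith

/-- T6d: a closed orbit around the origin of a normal form comes close to the origin -/
theorem pinch (hp : Polar) : Pinch := by
  intro X γ T hNF hQ hC hA
  by_contra hcon
  push Not at hcon
  obtain ⟨ρ, hρ0, hρr, hρd, hρ'⟩ := hp X γ T (by
    unfold QF.f; ext <;> simp [hNF.za, hNF.zb]) hC hA
  obtain ⟨e, al, he0, he1, hl1, hl2, hl3, hl4⟩ := hNF.lin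
  -- ρ is small
  have hρs : ∀ φ, ρ φ ≤ 1 / 1000 := by
    intro φ
    obtain ⟨t, ht⟩ := hρr φ
    have h := hcon t
    rw [ht] at h
    have h2 : H709R2.sq ((ρ φ)⁻¹ • ev φ) = ((ρ φ)⁻¹) ^ 2 := by
      unfold H709R2.sq ev
      simp only [Prod.smul_fst, Prod.smul_snd, smul_eq_mul]
      have := sin_sq_add_cos_sq φ
      linear_combination ((ρ φ)⁻¹) ^ 2 * this
    rw [h2] at h
    have h3 : 1000 < (ρ φ)⁻¹ := by
      have : 0 < (ρ φ)⁻¹ := inv_pos.mpr (hρ0 φ)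
      nlinarith
    have h4 : ρ φ < 1000⁻¹ := by
      rw [lt_inv_comm₀ (hρ0 φ) (by norm_num)]
      exact h3
    have h5 : (1000 : ℝ)⁻¹ = 1 / 1000 := by norm_num
    linarith
  -- the coefficients
  set a : ℝ → ℝ := fun φ => cos φ * (X.D 0 (ev φ)).1 + sin φ * (X.D 0 (ev φ)).2 with ha
  set b : ℝ → ℝ := fun φ => cos φ * (X.qd (ev φ)).1 + sin φ * (X.qd (ev φ)).2 with hb
  set c : ℝ → ℝ := fun φ => wedge (ev φ) (X.D 0 (ev φ)) with hc
  set d : ℝ → ℝ := fun φ => wedge (ev φ) (X.qd (ev φ)) with hd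
  have hac : ∀ φ, a φ ^ 2 + c φ ^ 2 ≤ 1 := by
    intro φ
    have h := sin_sq_add_cos_sq φ
    have h' := sin_sq_add_cos_sq al
    have e1 : a φ ^ 2 + c φ ^ 2 = sin φ ^ 2 + e ^ 2 * cos φ ^ 2 := by
      simp only [ha, hc, ev, QF.D, wedge, hl1, hl2, hl3, hl4, Prod.fst_zero, Prod.snd_zero]
      have e2 : ∀ x y C S : ℝ, S ^ 2 + C ^ 2 = 1 → (C * x + S * y) ^ 2 + (C * y - S * x) ^ 2 =
        x ^ 2 + y ^ 2 := by
        intro x y C S h
        linear_combination (x ^ 2 + y ^ 2) * h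
      have e3 := e2 (-(e * sin al) * cos φ + -cos al * sin φ) (e * cos al * cos φ + -sin al * sin φ)
        (cos φ) (sin φ) h
      have e4 : (-(e * sin al) * cos φ + -cos al * sin φ) ^ 2 +
        (e * cos al * cos φ + -sin al * sin φ) ^ 2 = sin φ ^ 2 + e ^ 2 * cos φ ^ 2 := by
        linear_combination (sin φ ^ 2 + e ^ 2 * cos φ ^ 2) * h'
      rw [← e4, ← e3]
      ring
    rw [e1]
    have : e ^ 2 ≤ 1 := by nlinarith
    nlinarith [sq_nonneg (cos φ)]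
  have haa : ∀ φ, |a φ| ≤ 1 := by
    intro φ
    rw [abs_le]
    constructor <;> nlinarith [hac φ, sq_nonneg (c φ)]
  have hcc : ∀ φ, c φ ≤ 1 := by
    intro φ
    nlinarith [hac φ, sq_nonneg (a φ)]
  have hev : ∀ φ, ev (φ + π) = -ev φ := by
    intro φ
    unfold ev
    ext <;> simp
  have hapi : ∀ φ, a (φ + π) = a φ := by
    intro φ
    simp only [ha, hev, QF.D, cos_add_pi, sin_add_pi]
    simp
    ring
  have hbpi : ∀ φ, b (φ + π) = -b φ := by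
    intro φ
    simp only [hb, hev, QF.qd, cos_add_pi, sin_add_pi]
    simp
    ring
  have hcpi : ∀ φ, c (φ + π) = c φ := by
    intro φ
    simp only [hc, hev, QF.D, wedge]
    simp
    ring
  have hdpi : ∀ φ, d (φ + π) = -d φ := by
    intro φ
    simp only [hd, hev, QF.qd, wedge]
    simp
    ring
  have hp1 : ∀ φ, 0 < c φ * ρ φ + d φ := hρd
  have hp2 : ∀ φ, 0 < c φ * ρ (φ + π) - d φ := by
    intro φ
    have := hp1 (φ + π)
    rw [hcpi, hdpi] at this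
    linarith
  have hc0 : ∀ φ, 0 < c φ := by
    intro φ
    have h1 := hp1 φ
    have h2 := hp2 φ
    have h3 : 0 < c φ * (ρ φ + ρ (φ + π)) := by nlinarith
    have h4 : 0 < ρ φ + ρ (φ + π) := by linarith [hρ0 φ, hρ0 (φ + π)]
    by_contra hh
    push Not at hh
    nlinarith
  have hdd : ∀ φ, |d φ| ≤ 1 / 1000 := by
    intro φ
    rw [abs_le]
    have h1 := hp1 φ
    have h2 := hp2 φ
    have h3 := hρs φ
    have h4 := hρs (φ + π)
    have h5 := hc0 φ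
    have h6 := hcc φ
    have h7 := hρ0 φ
    have h8 := hρ0 (φ + π)
    constructor <;> nlinarith
  have hdf : ∀ φ, d φ = X.b3 * cos φ ^ 3 + (X.b4 - X.a3) * (cos φ ^ 2 * sin φ) +
      (X.b5 - X.a4) * (cos φ * sin φ ^ 2) - X.a5 * sin φ ^ 3 := by
    intro φ
    simp only [hd, ev, QF.qd, wedge]
    ring
  have hq1 : |X.b3| ≤ 1 / 1000 := by
    have h := hdd 0
    rw [hdf 0] at h
    simpa using h
  have hp3 : |X.a5| ≤ 1 / 1000 := by
    have h := hdd (π / 2)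
    rw [hdf] at h
    simpa using h
  have h2 : (√2 : ℝ) ^ 2 = 2 := by norm_num
  have h20 : (0 : ℝ) < √2 := by positivity
  have hee : |X.b4 - X.a3| ≤ 4 * (1 / 1000) ∧ |X.b5 - X.a4| ≤ 4 * (1 / 1000) := by
    refine pinch_q (q1 := X.b3) (p3 := X.a5) (r := √2) (by norm_num) h2 h20 hq1 hp3 ?_ ?_
    · have h := hdd (π / 4)
      rw [hdf, cos_pi_div_four, sin_pi_div_four] at h
      convert h using 2
      have : (√2 : ℝ) ^ 3 = 2 * √2 := by rw [pow_succ, h2]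
      linear_combination (-1 / 8 : ℝ) * (X.b3 + (X.b4 - X.a3) + (X.b5 - X.a4) - X.a5) * this
    · have h := hdd (-(π / 4))
      rw [hdf, cos_neg, sin_neg, cos_pi_div_four, sin_pi_div_four] at h
      convert h using 2
      have : (√2 : ℝ) ^ 3 = 2 * √2 := by rw [pow_succ, h2]
      linear_combination (-1 / 8 : ℝ) * (X.b3 - (X.b4 - X.a3) + (X.b5 - X.a4) + X.a5) * this
  obtain ⟨he2, he3⟩ := hee
  -- size of the linear form
  have hl : 0.98 ≤ X.a3 ^ 2 + X.a4 ^ 2 := by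
    have n3 := hNF.q3
    have n4 := hNF.q4
    have n5 := hNF.q5
    rw [abs_le] at hq1 hp3 he2 he3
    have k1 : X.b3 ^ 2 ≤ 1 / 1000 := by nlinarith
    have k2 : X.a5 ^ 2 ≤ 1 / 1000 := by nlinarith
    have m4 : -1 ≤ X.b4 ∧ X.b4 ≤ 1 := by constructor <;> nlinarith [sq_nonneg X.a4]
    have m5 : -1 ≤ X.b5 ∧ X.b5 ≤ 1 := by constructor <;> nlinarith [sq_nonneg X.a5]
    have k3 : X.b4 ^ 2 - 0.008 ≤ X.a3 ^ 2 := by
      have : X.a3 ^ 2 = X.b4 ^ 2 - 2 * (X.b4 * (X.b4 - X.a3)) + (X.b4 - X.a3) ^ 2 := by ring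
      have h : X.b4 * (X.b4 - X.a3) ≤ 0.004 := by nlinarith
      nlinarith [sq_nonneg (X.b4 - X.a3)]
    have k4 : X.b5 ^ 2 - 0.008 ≤ X.a4 ^ 2 := by
      have : X.a4 ^ 2 = X.b5 ^ 2 - 2 * (X.b5 * (X.b5 - X.a4)) + (X.b5 - X.a4) ^ 2 := by ring
      have h : X.b5 * (X.b5 - X.a4) ≤ 0.004 := by nlinarith
      nlinarith [sq_nonneg (X.b5 - X.a4)]
    rcases hQ with h | h | h
    · nlinarith [sq_nonneg X.a4]
    · nlinarith
    · nlinarith [sq_nonneg X.a3]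
  -- polar form of the linear form
  set z : ℂ := ⟨X.a3, X.a4⟩ with hz
  set l : ℝ := ‖z‖ with hlz
  set ψ : ℝ := Complex.arg z with hψ
  have hzc : l * cos ψ = X.a3 := Complex.norm_mul_cos_arg z
  have hzs : l * sin ψ = X.a4 := Complex.norm_mul_sin_arg z
  have hl0 : 0 ≤ l := norm_nonneg _
  have hl2 : l ^ 2 = X.a3 ^ 2 + X.a4 ^ 2 := by
    rw [← hzc, ← hzs]
    have := sin_sq_add_cos_sq ψ
    linear_combination -l ^ 2 * this
  have hl98 : 0.98 ≤ l := by nlinarith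
  have hbb : ∀ φ, b φ ≤ l * cos (φ - ψ) + 10 * (1 / 1000) := by
    intro φ
    have h := pinch_b (p1 := X.a3) (p2 := X.a4) (p3 := X.a5) (q1 := X.b3) (q2 := X.b4)
      (q3 := X.b5) (C := cos φ) (S := sin φ) (δ := 1 / 1000) (cos_sq_add_sin_sq φ) (by norm_num)
      hq1 hp3 he2 he3
    have e1 : b φ = cos φ * (X.a3 * cos φ ^ 2 + X.a4 * (cos φ * sin φ) + X.a5 * sin φ ^ 2) +
        sin φ * (X.b3 * cos φ ^ 2 + X.b4 * (cos φ * sin φ) + X.b5 * sin φ ^ 2) := rfl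
    rw [e1]
    refine h.trans ?_
    rw [cos_sub]
    have : X.a3 * cos φ + X.a4 * sin φ = l * (cos φ * cos ψ + sin φ * sin ψ) := by
      rw [← hzc, ← hzs]; ring
    linarith
  -- the difference of opposite radii
  have hpi3 := Real.pi_gt_three
  have hg : ∀ φ, HasDerivAt (fun φ => ρ φ - ρ (φ + π))
      (-(ρ φ * (a φ * ρ φ + b φ)) / (c φ * ρ φ + d φ) -
        -(ρ (φ + π) * (a φ * ρ (φ + π) + -b φ)) / (c φ * ρ (φ + π) - d φ)) φ := by
    intro φ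
    have h1 := hρ' φ
    have h2 := HasDerivAt.comp_add_const φ π (hρ' (φ + π))
    have h3 := h1.sub h2
    refine h3.congr_deriv ?_
    have ea : cos (φ + π) * (X.D 0 (ev (φ + π))).1 + sin (φ + π) * (X.D 0 (ev (φ + π))).2 = a φ :=
      hapi φ
    have eb : cos (φ + π) * (X.qd (ev (φ + π))).1 + sin (φ + π) * (X.qd (ev (φ + π))).2 = -b φ :=
      hbpi φ
    have ec : wedge (ev (φ + π)) (X.D 0 (ev (φ + π))) = c φ := hcpi φ
    have ed : wedge (ev (φ + π)) (X.qd (ev (φ + π))) = -d φ := hdpi φ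
    rw [ea, eb, ec, ed]
    simp only [ha, hb, hc, hd, sub_eq_add_neg]
  obtain ⟨φ, hφ, hφe⟩ := exists_hasDerivAt_eq_slope (fun φ => ρ φ - ρ (φ + π)) _
    (show ψ + 2 * π / 3 < ψ + 4 * π / 3 by linarith)
    (fun φ _ => (hg φ).continuousAt.continuousWithinAt) (fun φ _ => hg φ)
  have hcos : cos (φ - ψ) ≤ -(1 / 2) := by
    apply pinch_cos
    · linarith [hφ.1]
    · linarith [hφ.2]
  have hb48 : b φ ≤ -0.48 := by
    have := hbb φ
    nlinarith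
  have hr := pinch_rate (haa φ) hb48 (hcc φ) (hρ0 φ) (hρs φ) (hρ0 (φ + π)) (hρs (φ + π)) (hp1 φ)
    (hp2 φ)
  rw [hφe, le_div_iff₀ (by linarith)] at hr
  have w1 := hρs (ψ + 4 * π / 3)
  have w2 := hρ0 (ψ + 4 * π / 3 + π)
  have w3 := hρ0 (ψ + 2 * π / 3)
  have w4 := hρs (ψ + 2 * π / 3 + π)
  nlinarith

end Pool.Agent.H709Q
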