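import Pool.Agent.H709Q.Defs

/-! T7: lower and upper graph of a strictly convex closed orbit. -/

open Real Set MeasureTheory Topology Filter

namespace Pool.Agent.H709Q

open Pool.Agent.H709R2 (wedge ClosedOrbit)

/-- inverse of a strictly increasing branch -/
lemma T7_branch {x p : ℝ → ℝ} {a b : ℝ} (hab : a < b) (hx : Continuous x)
    (hd : ∀ t ∈ Ioo a b, HasDerivAt x (p t) t) (hp : ∀ t ∈ Ioo a b, 0 < p t) :
    ∃ θ : ℝ → ℝ, Continuous θ ∧ (∀ s ∈ Icc (x a) (x b), θ s ∈ Icc a b ∧ x (θ s) = s) ∧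
      (∀ t ∈ Icc a b, θ (x t) = t) ∧
      (∀ s ∈ Ioo (x a) (x b), θ s ∈ Ioo a b ∧ HasDerivAt θ (1 / p (θ s)) s) := by
  have hmono : StrictMonoOn x (Icc a b) := by
    refine strictMonoOn_of_deriv_pos (convex_Icc a b) hx.continuousOn ?_
    intro t ht
    rw [interior_Icc] at ht
    rw [(hd t ht).deriv]
    exact hp t ht
  set q : ℝ → ℝ := fun t => max a (min b t) with hq
  have hqc : Continuous q := by fun_prop
  have hqm : ∀ t, q t ∈ Icc a b := fun t => ⟨le_max_left _ _, max_le hab.le (min_le_left _ _)⟩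
  have hqid : ∀ t ∈ Icc a b, q t = t := by
    intro t ht
    simp only [hq]
    rw [min_eq_right ht.2, max_eq_right ht.1]
  have hqmono : Monotone q := by
    intro s t hst
    simp only [hq]
    exact max_le_max le_rfl (min_le_min le_rfl hst)
  set xe : ℝ → ℝ := fun t => x (q t) + (t - q t) with hxe
  have hxec : Continuous xe := by fun_prop
  have hqdiff : ∀ s t, s ≤ t → s - q s ≤ t - q t := by
    intro s t hst
    simp only [hq]
    rcases le_total b s with h1 | h1
    · rw [min_eq_left h1, min_eq_left (h1.trans hst)]; linarith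
    · rw [min_eq_right h1]
      rcases le_total a s with h2 | h2
      · rw [max_eq_right h2]
        rcases le_total b t with h3 | h3
        · rw [min_eq_left h3, max_eq_right hab.le]; linarith
        · rw [min_eq_right h3, max_eq_right (h2.trans hst)]; linarith
      · rw [max_eq_left h2]
        rcases le_total b t with h3 | h3
        · rw [min_eq_left h3, max_eq_right hab.le]; linarith
        · rw [min_eq_right h3]
          rcases le_total a t with h4 | h4
          · rw [max_eq_right h4]; linarith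
          · rw [max_eq_left h4]; linarith
  have hxem : StrictMono xe := by
    intro s t hst
    have h1 := hqmono hst.le
    have h2 := hqdiff s t hst.le
    simp only [hxe]
    rcases h1.lt_or_eq with h | h
    · have := hmono (hqm s) (hqm t) h
      linarith
    · rw [← h] at h2 ⊢
      linarith
  have hqlo : ∀ t, t - q t ≥ t - b := fun t => by have := (hqm t).2; linarith
  have hqhi : ∀ t, t - q t ≤ t - a := fun t => by have := (hqm t).1; linarith
  have hxlo : ∀ t ∈ Icc a b, x a ≤ x t := fun t ht =>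
    hmono.monotoneOn ⟨le_rfl, hab.le⟩ ht ht.1
  have hxhi : ∀ t ∈ Icc a b, x t ≤ x b := fun t ht =>
    hmono.monotoneOn ht ⟨hab.le, le_rfl⟩ ht.2
  have htop : Tendsto xe atTop atTop := by
    refine tendsto_atTop_mono (f := fun t => t + (x a - b)) ?_ (tendsto_atTop_add_const_right _ _ tendsto_id)
    intro t
    have := hqlo t; have := hxlo _ (hqm t)
    simp only [hxe]; linarith
  have hbot : Tendsto xe atBot atBot := by
    refine tendsto_atBot_mono (f := fun t => t + (x b - a)) ?_ (tendsto_atBot_add_const_right _ _ tendsto_id)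
    intro t
    have := hqhi t; have := hxhi _ (hqm t)
    simp only [hxe]; linarith
  have hsurj : Function.Surjective xe := hxec.surjective htop hbot
  set e := StrictMono.orderIsoOfSurjective xe hxem hsurj with he
  have hxeid : ∀ t ∈ Icc a b, xe t = x t := by
    intro t ht
    simp only [hxe, hqid t ht]; ring
  have hes : ∀ s, xe (e.symm s) = s := fun s => e.apply_symm_apply s
  have hse : ∀ t, e.symm (xe t) = t := fun t => e.symm_apply_apply t
  have hea : e.symm (x a) = a := by
    rw [← hxeid a ⟨le_rfl, hab.le⟩]; exact hse a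
  have heb : e.symm (x b) = b := by
    rw [← hxeid b ⟨hab.le, le_rfl⟩]; exact hse b
  refine ⟨fun s => e.symm s, e.symm.continuous, ?_, ?_, ?_⟩
  · intro s hs
    have h1 : e.symm s ∈ Icc a b := by
      constructor
      · have := e.symm.monotone hs.1; rw [hea] at this; exact this
      · have := e.symm.monotone hs.2; rw [heb] at this; exact this
    refine ⟨h1, ?_⟩
    have := hes s
    rw [hxeid _ h1] at this
    exact this
  · intro t ht
    show e.symm (x t) = t
    rw [← hxeid t ht]; exact hse t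
  · intro s hs
    have h1 : e.symm s ∈ Ioo a b := by
      constructor
      · have := e.symm.strictMono hs.1; rw [hea] at this; exact this
      · have := e.symm.strictMono hs.2; rw [heb] at this; exact this
    refine ⟨h1, ?_⟩
    have hd1 : HasDerivAt xe (p (e.symm s)) (e.symm s) := by
      refine (hd _ h1).congr_of_eventuallyEq ?_
      filter_upwards [isOpen_Ioo.mem_nhds h1] with t ht
      exact hxeid t ⟨ht.1.le, ht.2.le⟩
    have := HasDerivAt.of_local_left_inverse (f := xe) (g := fun s => e.symm s) (a := s)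
      e.symm.continuous.continuousAt hd1 (hp _ h1).ne' (Eventually.of_forall hes)
    simpa [one_div] using this

/-- supporting lines give convexity -/
lemma T7_convex {x₁ x₂ : ℝ} {f σ : ℝ → ℝ}
    (h : ∀ s ∈ Ioo x₁ x₂, ∀ s' ∈ Icc x₁ x₂, f s + σ s * (s' - s) ≤ f s') :
    ConvexOn ℝ (Icc x₁ x₂) f := by
  refine ⟨convex_Icc _ _, ?_⟩
  intro a ha b hb p q hp hq hpq
  simp only [smul_eq_mul]
  have hm : p * a + q * b ∈ Icc x₁ x₂ := by
    have := (convex_Icc x₁ x₂) ha hb hp hq hpq
    simpa using this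
  have hq1 : q = 1 - p := by linarith
  rcases eq_or_lt_of_le hm.1 with h1 | h1
  · have e1 : p * (a - x₁) + q * (b - x₁) = 0 := by rw [hq1] at h1 ⊢; linarith
    have p1 : 0 ≤ p * (a - x₁) := mul_nonneg hp (by linarith [ha.1])
    have p2 : 0 ≤ q * (b - x₁) := mul_nonneg hq (by linarith [hb.1])
    have z1 : p * (a - x₁) = 0 := by linarith
    have z2 : q * (b - x₁) = 0 := by linarith
    rw [← h1]
    have f1 : p * f a = p * f x₁ := by
      rcases mul_eq_zero.1 z1 with h | h
      · rw [h]; ring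
      · rw [show a = x₁ by linarith]
    have f2 : q * f b = q * f x₁ := by
      rcases mul_eq_zero.1 z2 with h | h
      · rw [h]; ring
      · rw [show b = x₁ by linarith]
    rw [f1, f2, hq1]; apply le_of_eq; ring
  rcases eq_or_lt_of_le hm.2 with h2 | h2
  · have e1 : p * (x₂ - a) + q * (x₂ - b) = 0 := by rw [hq1] at h2 ⊢; linarith
    have p1 : 0 ≤ p * (x₂ - a) := mul_nonneg hp (by linarith [ha.2])
    have p2 : 0 ≤ q * (x₂ - b) := mul_nonneg hq (by linarith [hb.2])
    have z1 : p * (x₂ - a) = 0 := by linarith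
    have z2 : q * (x₂ - b) = 0 := by linarith
    rw [h2]
    have f1 : p * f a = p * f x₂ := by
      rcases mul_eq_zero.1 z1 with h | h
      · rw [h]; ring
      · rw [show a = x₂ by linarith]
    have f2 : q * f b = q * f x₂ := by
      rcases mul_eq_zero.1 z2 with h | h
      · rw [h]; ring
      · rw [show b = x₂ by linarith]
    rw [f1, f2, hq1]; apply le_of_eq; ring
  · have k1 := h _ ⟨h1, h2⟩ a ha
    have k2 := h _ ⟨h1, h2⟩ b hb
    have l1 := mul_le_mul_of_nonneg_left k1 hp
    have l2 := mul_le_mul_of_nonneg_left k2 hq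
    set m := p * a + q * b with hmdef
    set S := σ m with hS
    set F := f m with hF
    have e : p * (F + S * (a - m)) + q * (F + S * (b - m)) = F := by
      have : p * (F + S * (a - m)) + q * (F + S * (b - m)) =
        (p + q) * F + S * (p * a + q * b - (p + q) * m) := by ring
      rw [this, hpq, ← hmdef]; ring
    linarith

lemma T7_sign {P : ℝ → ℝ} {a b c : ℝ} (hP : Continuous P) (hc : c ∈ Ioo a b) (hpc : 0 < P c)
    (hne : ∀ t ∈ Ioo a b, P t ≠ 0) : ∀ t ∈ Ioo a b, 0 < P t := by
  intro t ht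
  by_contra hcon
  have hlt : P t < 0 := lt_of_le_of_ne (not_lt.1 hcon) (hne t ht)
  have h0 : (0:ℝ) ∈ uIcc (P t) (P c) := by
    rw [uIcc_of_le (by linarith)]; exact ⟨hlt.le, hpc.le⟩
  obtain ⟨r, hr, hr0⟩ := intermediate_value_uIcc (hP.continuousOn (s := uIcc t c)) h0
  have : r ∈ Ioo a b := by
    rcases le_total t c with h | h
    · rw [uIcc_of_le h] at hr
      exact ⟨lt_of_lt_of_le ht.1 hr.1, lt_of_le_of_lt hr.2 hc.2⟩
    · rw [uIcc_of_ge h] at hr
      exact ⟨lt_of_lt_of_le hc.1 hr.1, lt_of_le_of_lt hr.2 ht.2⟩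
  exact hne r this hr0

theorem graphs : Graphs := by
  intro X γ T hC hW
  set x : ℝ → ℝ := fun t => (γ t).1 with hx
  set y : ℝ → ℝ := fun t => (γ t).2 with hy
  set P : ℝ → ℝ := fun t => (X.f (γ t)).1 with hP
  set Q : ℝ → ℝ := fun t => (X.f (γ t)).2 with hQ
  have hγc : Continuous γ := continuous_iff_continuousAt.2 fun t => (hC.ode t).continuousAt
  have hxd : ∀ t, HasDerivAt x (P t) t := fun t =>
    (hasFDerivAt_fst (𝕜 := ℝ) (p := γ t)).comp_hasDerivAt t (hC.ode t)
  have hyd : ∀ t, HasDerivAt y (Q t) t := fun t =>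
    (hasFDerivAt_snd (𝕜 := ℝ) (p := γ t)).comp_hasDerivAt t (hC.ode t)
  have hxc : Continuous x := continuous_fst.comp hγc
  have hyc : Continuous y := continuous_snd.comp hγc
  have hPc : Continuous P := continuous_fst.comp (X.continuous_f.comp hγc)
  have hQc : Continuous Q := continuous_snd.comp (X.continuous_f.comp hγc)
  have hper : Function.Periodic γ T := hC.per
  have hT := hC.pos
  -- extreme points
  obtain ⟨t₁, ht₁, hmin⟩ := isCompact_Icc.exists_isMinOn (nonempty_Icc.2 hT.le) hxc.continuousOn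
  have hmin' : ∀ u, x t₁ ≤ x u := by
    intro u
    obtain ⟨v, hv, huv⟩ := hper.exists_mem_Ico₀ hT u
    have := isMinOn_iff.1 hmin v ⟨hv.1, hv.2.le⟩
    simp only [hx] at this ⊢
    rw [huv]; exact this
  obtain ⟨t₂, ht₂, hmax⟩ := isCompact_Icc.exists_isMaxOn
    (nonempty_Icc.2 (by linarith : t₁ ≤ t₁ + T)) hxc.continuousOn
  have hmax' : ∀ u, x u ≤ x t₂ := by
    intro u
    obtain ⟨v, hv, huv⟩ := hper.exists_mem_Ico hT u t₁
    have := isMaxOn_iff.1 hmax v ⟨hv.1, hv.2.le⟩
    simp only [hx] at this ⊢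
    rw [huv]; exact this
  have hlt : x t₁ < x t₂ := by
    by_contra hcon
    have hcst : ∀ u, x u = x t₁ := fun u =>
      le_antisymm ((hmax' u).trans (not_lt.1 hcon)) (hmin' u)
    have hP0 : ∀ t, P t = 0 := by
      intro t
      have h1 : HasDerivAt x 0 t := by
        have : x = fun _ => x t₁ := funext hcst
        rw [this]; exact hasDerivAt_const t _
      exact (hxd t).unique h1
    have hD : HasDerivAt P (X.D (γ t₁) (X.f (γ t₁))).1 t₁ := by
      have h0 : HasFDerivAt (Prod.fst : ℝ × ℝ → ℝ) (ContinuousLinearMap.fst ℝ ℝ ℝ)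
        ((fun t => X.f (γ t)) t₁) := hasFDerivAt_fst
      exact h0.comp_hasDerivAt t₁ (X.hasDerivAt_f (hC.ode t₁))
    have hD0 : HasDerivAt P 0 t₁ := by
      have : P = fun _ => 0 := funext hP0
      rw [this]; exact hasDerivAt_const t₁ _
    have hz := hD.unique hD0
    have hcv := hW.curv t₁
    unfold QF.curv wedge at hcv
    have hp0 := hP0 t₁
    simp only [hP] at hp0
    rw [hz, hp0] at hcv
    simp at hcv
  have hxT : x (t₁ + T) = x t₁ := by simp only [hx]; rw [hC.per]
  have hyT : y (t₁ + T) = y t₁ := by simp only [hy]; rw [hC.per]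
  have ht2a : t₁ < t₂ := by
    rcases eq_or_lt_of_le ht₂.1 with h | h
    · rw [h] at hlt; exact absurd hlt (lt_irrefl _)
    · exact h
  have ht2b : t₂ < t₁ + T := by
    rcases eq_or_lt_of_le ht₂.2 with h | h
    · rw [h, hxT] at hlt; exact absurd hlt (lt_irrefl _)
    · exact h
  -- zeros of P
  have hw : ∀ s t, 0 ≤ P s * (y t - y s) - Q s * (x t - x s) := by
    intro s t
    have := hW.nonneg s t
    unfold wedge at this
    simpa [hP, hQ, hx, hy] using this
  have hneQ : ∀ t, P t = 0 → Q t ≠ 0 := by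
    intro t h1 h2
    exact hC.ne t (Prod.ext h1 h2)
  have hstrict : ∀ s t, P s * (y t - y s) - Q s * (x t - x s) = 0 → γ t = γ s := by
    intro s t h
    refine hW.strict s t ?_
    unfold wedge
    simpa [hP, hQ, hx, hy] using h
  have hP1 : P t₁ = 0 := by
    have : IsLocalMin x t₁ := Eventually.of_forall hmin'
    exact this.hasDerivAt_eq_zero (hxd t₁)
  have hP2 : P t₂ = 0 := by
    have : IsLocalMax x t₂ := Eventually.of_forall hmax'
    exact this.hasDerivAt_eq_zero (hxd t₂)
  have hQ1 : Q t₁ < 0 := by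
    rcases lt_trichotomy (Q t₁) 0 with h | h | h
    · exact h
    · exact absurd h (hneQ _ hP1)
    · have := hw t₁ t₂
      rw [hP1] at this
      nlinarith [mul_pos h (sub_pos.2 hlt)]
  have hQ2 : 0 < Q t₂ := by
    rcases lt_trichotomy (Q t₂) 0 with h | h | h
    · have := hw t₂ t₁
      rw [hP2] at this
      nlinarith [mul_pos_of_neg_of_neg h (sub_neg.2 hlt)]
    · exact absurd h (hneQ _ hP2)
    · exact h
  have hPne : ∀ t, t₁ < t → t < t₁ + T → t ≠ t₂ → P t ≠ 0 := by
    intro t h1 h2 h3 h0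
    rcases lt_trichotomy (Q t) 0 with h | h | h
    · -- minimum
      have hxt : x t = x t₁ := by
        have := hw t t₁
        rw [h0] at this
        have h5 : x t ≤ x t₁ := by
          by_contra hc
          have := mul_pos_of_neg_of_neg h (sub_neg.2 (not_le.1 hc))
          linarith
        exact le_antisymm h5 (hmin' t)
      have hγ := hstrict t t₁ (by rw [h0, hxt]; ring)
      obtain ⟨k, hk⟩ := hC.inj t t₁ hγ.symm
      have hk1 : (0:ℝ) < k := by
        by_contra hc
        have : (k:ℝ) * T ≤ 0 := mul_nonpos_of_nonpos_of_nonneg (not_lt.1 hc) hT.le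
        linarith
      have hk2 : (k:ℝ) < 1 := by
        by_contra hc
        have : T ≤ (k:ℝ) * T := by nlinarith [not_lt.1 hc]
        linarith
      have a1 : 0 < k := by exact_mod_cast hk1
      have a2 : k < 1 := by exact_mod_cast hk2
      omega
    · exact hneQ t h0 h
    · have hxt : x t = x t₂ := by
        have := hw t t₂
        rw [h0] at this
        have h5 : x t₂ ≤ x t := by
          by_contra hc
          have := mul_pos h (sub_pos.2 (not_le.1 hc))
          linarith
        exact le_antisymm (hmax' t) h5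
      have hγ := hstrict t t₂ (by rw [h0, hxt]; ring)
      obtain ⟨k, hk⟩ := hC.inj t t₂ hγ.symm
      have hk1 : (-1:ℝ) < k := by
        by_contra hc
        have : (k:ℝ) * T ≤ -T := by nlinarith [not_lt.1 hc]
        linarith
      have hk2 : (k:ℝ) < 1 := by
        by_contra hc
        have : T ≤ (k:ℝ) * T := by nlinarith [not_lt.1 hc]
        linarith
      have a1 : -1 < k := by exact_mod_cast hk1
      have a2 : k < 1 := by exact_mod_cast hk2
      have a3 : k = 0 := by omega
      rw [a3] at hk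
      apply h3
      simpa using hk
  -- signs of P
  have hPl : ∀ t ∈ Ioo t₁ t₂, 0 < P t := by
    obtain ⟨c, hc, hc'⟩ := exists_hasDerivAt_eq_slope x P ht2a hxc.continuousOn
      (fun t _ => hxd t)
    refine T7_sign hPc hc ?_ ?_
    · rw [hc']; exact div_pos (sub_pos.2 hlt) (sub_pos.2 ht2a)
    · intro t ht
      exact hPne t ht.1 (ht.2.trans ht2b) ht.2.ne
  have hPu : ∀ t ∈ Ioo t₂ (t₁ + T), P t < 0 := by
    obtain ⟨c, hc, hc'⟩ := exists_hasDerivAt_eq_slope x P ht2b hxc.continuousOn
      (fun t _ => hxd t)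
    have key := T7_sign (P := fun t => - P t) hPc.neg hc ?_ ?_
    · intro t ht
      have := key t ht
      linarith
    · rw [hc', hxT]
      rw [← neg_div]
      exact div_pos (by linarith) (sub_pos.2 ht2b)
    · intro t ht
      have := hPne t (ht2a.trans ht.1) ht.2 ht.1.ne'
      simpa using this
  -- branches
  obtain ⟨θl, hlc, hl1, hl2, hl3⟩ := T7_branch ht2a hxc (fun t _ => hxd t) hPl
  obtain ⟨φ, hφc, hφ1, hφ2, hφ3⟩ := T7_branch (x := fun t => x (-t)) (p := fun t => -P (-t))
    (a := -(t₁ + T)) (b := -t₂) (by linarith) (hxc.comp continuous_neg)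
    (fun t _ => by
      have := (hxd (-t)).comp t (hasDerivAt_neg t)
      rw [mul_neg, mul_one] at this
      exact this)
    (fun t ht => by
      have := hPu (-t) ⟨by linarith [ht.2], by linarith [ht.1]⟩
      linarith)
  simp only [neg_neg] at hφ1 hφ2 hφ3
  rw [hxT] at hφ1 hφ3
  set θu : ℝ → ℝ := fun s => -φ s with hθu
  have huc : Continuous θu := hφc.neg
  have hu1 : ∀ s ∈ Icc (x t₁) (x t₂), θu s ∈ Icc t₂ (t₁ + T) ∧ x (θu s) = s := by
    intro s hs
    obtain ⟨h1, h2⟩ := hφ1 s hs
    exact ⟨⟨by simp only [hθu]; linarith [h1.2], by simp only [hθu]; linarith [h1.1]⟩, h2⟩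
  have hu2 : ∀ t ∈ Icc t₂ (t₁ + T), θu (x t) = t := by
    intro t ht
    have := hφ2 (-t) ⟨by linarith [ht.2], by linarith [ht.1]⟩
    simp only [neg_neg] at this
    simp only [hθu, this, neg_neg]
  have hu3 : ∀ s ∈ Ioo (x t₁) (x t₂), θu s ∈ Ioo t₂ (t₁ + T) ∧
      HasDerivAt θu (1 / P (θu s)) s := by
    intro s hs
    obtain ⟨h1, h2⟩ := hφ3 s hs
    refine ⟨⟨by simp only [hθu]; linarith [h1.2], by simp only [hθu]; linarith [h1.1]⟩, ?_⟩
    have := h2.neg
    refine this.congr_deriv ?_
    simp only [hθu]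
    rw [div_neg, neg_neg]
  have hpl : ∀ s ∈ Icc (x t₁) (x t₂), (s, y (θl s)) = γ (θl s) := by
    intro s hs
    have := (hl1 s hs).2
    exact Prod.ext this.symm rfl
  have hpu : ∀ s ∈ Icc (x t₁) (x t₂), (s, y (θu s)) = γ (θu s) := by
    intro s hs
    have := (hu1 s hs).2
    exact Prod.ext this.symm rfl
  have hl_1 : θl (x t₁) = t₁ := hl2 t₁ ⟨le_rfl, ht2a.le⟩
  have hl_2 : θl (x t₂) = t₂ := hl2 t₂ ⟨ht2a.le, le_rfl⟩
  have hu_1 : θu (x t₁) = t₁ + T := by
    rw [← hxT]; exact hu2 (t₁ + T) ⟨ht2b.le, le_rfl⟩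
  have hu_2 : θu (x t₂) = t₂ := hu2 t₂ ⟨le_rfl, ht2b.le⟩
  have m1 : x t₁ ∈ Icc (x t₁) (x t₂) := ⟨le_rfl, hlt.le⟩
  have m2 : x t₂ ∈ Icc (x t₁) (x t₂) := ⟨hlt.le, le_rfl⟩
  have hIoo : ∀ s, s ∈ Ioo (x t₁) (x t₂) → s ∈ Icc (x t₁) (x t₂) := fun s hs =>
    Ioo_subset_Icc_self hs
  refine ⟨x t₁, x t₂, fun s => y (θl s), fun s => y (θu s), ?_⟩
  refine
    { lt := hlt
      cl := (hyc.comp hlc).continuousOn
      cu := (hyc.comp huc).continuousOn
      e1 := ?_, e2 := ?_, lu := ?_, vl := ?_, vu := ?_, dl := ?_, du := ?_, convl := ?_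
      concu := ?_, v1 := ?_, v2 := ?_, w1 := ?_, w2 := ?_, rng := ?_, act := ?_ }
  · show y (θl (x t₁)) = y (θu (x t₁))
    rw [hl_1, hu_1, hyT]
  · show y (θl (x t₂)) = y (θu (x t₂))
    rw [hl_2, hu_2]
  · intro s hs
    have h1 := hl3 s hs
    have h2 := hu3 s hs
    have hpos := hPl _ h1.1
    have hneg := hPu _ h2.1
    have h3 := hw (θl s) (θu s)
    rw [(hl1 s (hIoo s hs)).2, (hu1 s (hIoo s hs)).2] at h3
    have h4 : 0 ≤ y (θu s) - y (θl s) := by
      by_contra hc
      have := mul_neg_of_pos_of_neg hpos (not_le.1 hc)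
      linarith
    rcases eq_or_lt_of_le h4 with h5 | h5
    · exfalso
      have h6 : γ (θu s) = γ (θl s) := by
        rw [← hpl s (hIoo s hs), ← hpu s (hIoo s hs)]
        have : y (θu s) = y (θl s) := by linarith
        rw [this]
      have h7 : P (θu s) = P (θl s) := by simp only [hP]; rw [h6]
      linarith
    · show y (θl s) < y (θu s)
      linarith
  · intro s hs
    show 0 < (X.f (s, y (θl s))).1
    rw [hpl s (hIoo s hs)]
    exact hPl _ (hl3 s hs).1
  · intro s hs
    show (X.f (s, y (θu s))).1 < 0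
    rw [hpu s (hIoo s hs)]
    exact hPu _ (hu3 s hs).1
  · intro s hs
    show HasDerivAt (fun s => y (θl s)) ((X.f (s, y (θl s))).2 / (X.f (s, y (θl s))).1) s
    rw [hpl s (hIoo s hs)]
    have := (hyd (θl s)).comp s (hl3 s hs).2
    refine this.congr_deriv ?_
    simp only [hQ, hP]; ring
  · intro s hs
    show HasDerivAt (fun s => y (θu s)) ((X.f (s, y (θu s))).2 / (X.f (s, y (θu s))).1) s
    rw [hpu s (hIoo s hs)]
    have := (hyd (θu s)).comp s (hu3 s hs).2
    refine this.congr_deriv ?_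
    simp only [hQ, hP]; ring
  · refine T7_convex (σ := fun s => Q (θl s) / P (θl s)) ?_
    intro s hs s' hs'
    show y (θl s) + Q (θl s) / P (θl s) * (s' - s) ≤ y (θl s')
    have hpos := hPl _ (hl3 s hs).1
    have h3 := hw (θl s) (θl s')
    rw [(hl1 s (hIoo s hs)).2, (hl1 s' hs').2] at h3
    have h4 : Q (θl s) / P (θl s) * (s' - s) ≤ y (θl s') - y (θl s) := by
      rw [div_mul_eq_mul_div, div_le_iff₀ hpos]
      linarith
    linarith
  · rw [← neg_convexOn_iff]
    refine T7_convex (σ := fun s => -(Q (θu s) / P (θu s))) ?_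
    intro s hs s' hs'
    show -y (θu s) + -(Q (θu s) / P (θu s)) * (s' - s) ≤ -y (θu s')
    have hneg := hPu _ (hu3 s hs).1
    have h3 := hw (θu s) (θu s')
    rw [(hu1 s (hIoo s hs)).2, (hu1 s' hs').2] at h3
    have h4 : y (θu s') - y (θu s) ≤ Q (θu s) / P (θu s) * (s' - s) := by
      rw [div_mul_eq_mul_div, le_div_iff_of_neg hneg]
      linarith
    linarith
  · show (X.f (x t₁, y (θl (x t₁)))).1 = 0
    rw [hpl _ m1, hl_1]; exact hP1
  · show (X.f (x t₂, y (θl (x t₂)))).1 = 0
    rw [hpl _ m2, hl_2]; exact hP2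
  · show (X.f (x t₁, y (θl (x t₁)))).2 < 0
    rw [hpl _ m1, hl_1]; exact hQ1
  · show 0 < (X.f (x t₂, y (θl (x t₂)))).2
    rw [hpl _ m2, hl_2]; exact hQ2
  · ext z
    constructor
    · rintro ⟨t, rfl⟩
      obtain ⟨v, hv, huv⟩ := hper.exists_mem_Ico hT t t₁
      rw [huv]
      refine ⟨⟨hmin' v, hmax' v⟩, ?_⟩
      rcases le_total v t₂ with h | h
      · left
        show y v = y (θl (x v))
        rw [hl2 v ⟨hv.1, h⟩]
      · right
        show y v = y (θu (x v))
        rw [hu2 v ⟨h, hv.2.le⟩]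
    · rintro ⟨hz1, hz2⟩
      rcases hz2 with h | h
      · refine ⟨θl z.1, ?_⟩
        rw [← hpl _ hz1]
        exact Prod.ext rfl h.symm
      · refine ⟨θu z.1, ?_⟩
        rw [← hpu _ hz1]
        exact Prod.ext rfl h.symm
  · -- the action
    set F : ℝ → ℝ := fun s => (X.f (s, y (θl s))).1 with hF
    set G : ℝ → ℝ := fun s => (X.f (s, y (θu s))).1 with hG
    have hFc : Continuous F :=
      continuous_fst.comp (X.continuous_f.comp (continuous_id.prodMk (hyc.comp hlc)))
    have hGc : Continuous G :=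
      continuous_fst.comp (X.continuous_f.comp (continuous_id.prodMk (hyc.comp huc)))
    show ∫ s in (x t₁)..(x t₂), (F s - G s) ≤ ∫ t in (0:ℝ)..T, H709R2.sq (X.f (γ t))
    have hsqc : Continuous fun t => H709R2.sq (X.f (γ t)) := by
      have : (fun t => H709R2.sq (X.f (γ t))) = fun t => P t ^ 2 + Q t ^ 2 := by
        funext t; simp [H709R2.sq, hP, hQ]
      rw [this]; fun_prop
    have hsqp : Function.Periodic (fun t => H709R2.sq (X.f (γ t))) T := by
      intro t
      show H709R2.sq (X.f (γ (t + T))) = H709R2.sq (X.f (γ t))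
      rw [hC.per]
    have hI1 : ∫ t in (0:ℝ)..T, H709R2.sq (X.f (γ t)) =
        ∫ t in t₁..(t₁ + T), H709R2.sq (X.f (γ t)) := by
      have := hsqp.intervalIntegral_add_eq 0 t₁
      simpa using this
    have hI2 : ∫ t in t₁..(t₁ + T), P t * P t ≤ ∫ t in t₁..(t₁ + T), H709R2.sq (X.f (γ t)) := by
      refine intervalIntegral.integral_mono_on (by linarith)
        ((hPc.mul hPc).intervalIntegrable _ _) (hsqc.intervalIntegrable _ _) ?_
      intro t _
      simp only [H709R2.sq]
      nlinarith [sq_nonneg (X.f (γ t)).2]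
    have hI3 : ∫ t in t₁..(t₁ + T), P t * P t =
        (∫ t in t₁..t₂, P t * P t) + ∫ t in t₂..(t₁ + T), P t * P t :=
      (intervalIntegral.integral_add_adjacent_intervals
        ((hPc.mul hPc).intervalIntegrable _ _) ((hPc.mul hPc).intervalIntegrable _ _)).symm
    have hI4 : ∫ t in t₁..t₂, P t * P t = ∫ s in (x t₁)..(x t₂), F s := by
      rw [← intervalIntegral.integral_comp_mul_deriv (f := x) (f' := P) (g := F)
        (fun t _ => hxd t) hPc.continuousOn hFc]
      refine intervalIntegral.integral_congr ?_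
      intro t ht
      rw [uIcc_of_le ht2a.le] at ht
      have hm : x t ∈ Icc (x t₁) (x t₂) := ⟨hmin' t, hmax' t⟩
      show P t * P t = F (x t) * P t
      have : F (x t) = P t := by
        simp only [hF]
        rw [hpl _ hm, hl2 t ht]
      rw [this]
    have hI5 : ∫ t in t₂..(t₁ + T), P t * P t = -∫ s in (x t₁)..(x t₂), G s := by
      rw [← intervalIntegral.integral_symm]
      rw [show (∫ s in (x t₂)..(x t₁), G s) = ∫ s in (x t₂)..(x (t₁ + T)), G s by rw [hxT]]
      rw [← intervalIntegral.integral_comp_mul_deriv (f := x) (f' := P) (g := G)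
        (fun t _ => hxd t) hPc.continuousOn hGc]
      refine intervalIntegral.integral_congr ?_
      intro t ht
      rw [uIcc_of_le ht2b.le] at ht
      have hm : x t ∈ Icc (x t₁) (x t₂) := ⟨hmin' t, hmax' t⟩
      show P t * P t = G (x t) * P t
      have : G (x t) = P t := by
        simp only [hG]
        rw [hpu _ hm, hu2 t ht]
      rw [this]
    rw [intervalIntegral.integral_sub (hFc.intervalIntegrable _ _) (hGc.intervalIntegrable _ _)]
    linarith

end Pool.Agent.H709Q
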