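import Pool.Agent.H709Q.T9a

/-! The class bound. -/

open Real Set MeasureTheory Topology Filter
open scoped ENNReal

namespace Pool.Agent.H709Q

noncomputable section

open Pool.Agent.H709R2

lemma fderiv_f (X : QF) (p v : ℝ × ℝ) : fderiv ℝ X.f p v = X.D p v := by
  have h1 : HasDerivAt (fun t : ℝ => p + t • v) v 0 := by
    have := ((hasDerivAt_id (0:ℝ)).smul_const v).const_add p
    simpa using this
  have h2 := X.hasDerivAt_f h1
  have h3 : HasFDerivAt X.f (fderiv ℝ X.f p) (p + (0:ℝ) • v) := by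
    rw [zero_smul, add_zero]
    exact ((X.contDiff_f (m := 1)).differentiable (by norm_num) p).hasFDerivAt
  have h4 := h3.comp_hasDerivAt (0:ℝ) h1
  have h5 := h4.unique h2
  simpa using h5

lemma divRot_f (X : QF) (α : ℝ) (p : ℝ × ℝ) : divRot X.f α p = (X.rot α).div p := by
  unfold divRot
  rw [fderiv_f, fderiv_f]
  unfold H709R2.rot QF.D QF.div QF.rot
  simp only
  ring

lemma cyc_of_minPer {X : QF} {Y : ℝ × ℝ → ℝ × ℝ} {φ : ℝ → ℝ × ℝ → ℝ → ℝ × ℝ} (hφ : RotFlow Y φ)
    {α : ℝ} {p : ℝ × ℝ} {T₀ : ℝ} (hmp : MinPer Y φ α p T₀)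
    (hY : ∀ t, Y (φ t p α) = X.f (φ t p α)) : Cyc (X.rot α) (fun t => φ t p α) T₀ := by
  have hP : Function.Periodic (fun t => φ t p α) T₀ := by
    intro t
    simp only
    rw [hφ.add, hmp.per]
  refine ⟨hmp.pos, ?_, hP, ?_, ?_⟩
  · intro t
    rw [QF.f_rot, ← hY t]
    exact hφ.deriv p α t
  · intro s t hst
    have h1 : φ (-t + s) p α = p := by
      rw [hφ.add, hst, ← hφ.add, neg_add_cancel, hφ.zero]
    set k : ℤ := ⌊(s - t) / T₀⌋ with hk
    have hpos := hmp.pos
    have hr0 : 0 ≤ (s - t) - k * T₀ := by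
      have := Int.floor_le ((s - t) / T₀)
      rw [← hk, le_div_iff₀ hpos] at this
      linarith
    have hr1 : (s - t) - k * T₀ < T₀ := by
      have := Int.lt_floor_add_one ((s - t) / T₀)
      rw [← hk, div_lt_iff₀ hpos] at this
      linarith
    have h2 : φ ((s - t) - k * T₀) p α = p := by
      have h3 := hP.sub_int_mul_eq (x := s - t) k
      rw [h3, show s - t = -t + s by ring, h1]
    refine ⟨k, ?_⟩
    rcases hr0.lt_or_eq with h3 | h3
    · exact absurd h2 (hmp.min _ ⟨h3, hr1⟩)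
    · linarith
  · intro t
    rw [QF.f_rot, ← hY t]
    exact rot_ne_zero (hφ.ne_zero hmp.ne t) α

lemma isClosed_Box (A B : ℝ) : IsClosed (Box A B) := by
  unfold Box
  have h1 : Continuous fun z : ℝ × ℝ => |z.1| := by fun_prop
  have h2 : Continuous fun z : ℝ × ℝ => |z.2| := by fun_prop
  exact (isClosed_le h1 continuous_const).inter (isClosed_le h2 continuous_const)

lemma volume_Box {A B : ℝ} (hA : 0 < A) :
    volume (Box A B) = ENNReal.ofReal (4 * A * B) := by
  have : Box A B = Icc (-A) A ×ˢ Icc (-B) B := by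
    ext z
    simp only [Box, mem_ofPred_eq, mem_prod, mem_Icc, abs_le]
  rw [this, Measure.volume_eq_prod, Measure.prod_prod, Real.volume_Icc, Real.volume_Icc,
    ← ENNReal.ofReal_mul (by linarith)]
  congr 1
  ring

theorem classBound : ClassBound := by
  intro X A B D ℓ hA hB hD hℓ hyp
  obtain ⟨Y, hY, ⟨K, hK⟩, ⟨M, hM⟩, hYF⟩ :=
    exists_cutoff (F := X.f) (X.contDiff_f (m := 2)) (max A B)
  obtain ⟨φ, hφ⟩ := exists_rotFlow hY hK hM
  have hnorm : ∀ z ∈ Box A B, ‖z‖ ≤ max A B := by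
    intro z hz
    rw [Prod.norm_def, Real.norm_eq_abs, Real.norm_eq_abs]
    exact max_le_max hz.1 hz.2
  have hYe : ∀ z ∈ Box A B, Y z = X.f z := fun z hz => (hYF z (hnorm z hz)).eq_of_nhds
  set Γ : Set ((ℝ × ℝ) × (ℝ × ℝ)) := {w | |w.1.1| ≤ A / 16} ∪ {w | |w.2.2| ≤ B / 16} with hΓ
  have hΓc : IsClosed Γ := by
    refine IsClosed.union ?_ ?_
    · exact isClosed_le (by fun_prop) continuous_const
    · exact isClosed_le (by fun_prop) continuous_const
  have hΓn : ∀ u v : ℝ × ℝ, (u, v) ∉ Γ ↔ A / 16 < |u.1| ∧ B / 16 < |v.2| := by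
    intro u v
    simp only [hΓ, mem_union, mem_ofPred_eq, not_or, not_le]
  have hFc : Continuous fun q : ℝ × (ℝ × ℝ) => wedge q.2 (rot q.1 (Y q.2)) := by
    have := hY.continuous
    unfold wedge rot
    fun_prop
  obtain ⟨g, hg1, hg2, hg3⟩ := master4 (w := fun _ _ => 1)
    (F := fun q : ℝ × (ℝ × ℝ) => wedge q.2 (rot q.1 (Y q.2))) hφ hY hFc
    (isClosed_Box A B) hΓc (h := fun _ => ENNReal.ofReal D) measurable_const hℓ (by
      intro α hα p T hmp hbox hpair hpos
      have hC := cyc_of_minPer (X := X) hφ hmp (fun t => hYe _ (hbox t))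
      obtain ⟨s, t, hst⟩ := hpair
      rw [hΓn] at hst
      have h1 := hyp α hα _ _ hC (by
        intro u
        have := hpos u
        simp only at this ⊢
        rw [sub_zero, QF.f_rot, ← hYe _ (hbox u)]
        exact this) (fun u => hbox u) ⟨s, hst.1⟩ ⟨t, hst.2⟩
      refine ⟨contDiffAt_const, ?_, ?_⟩
      · rw [wlen_one]
        refine h1.1.trans (le_of_eq ?_)
        congr 1
        ext u
        rw [QF.f_rot, hYe _ (hbox u)]
      · apply ENNReal.ofReal_le_ofReal
        have hp : p ∈ Box A B := by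
          have := hbox 0
          rwa [hφ.zero] at this
        have h2 := h1.2 0
        simp only [hφ.zero] at h2
        rw [divW_one]
        have h3 : divRot Y α p = divRot X.f α p := by
          unfold divRot
          rw [(hYF p (hnorm p hp)).fderiv_eq]
        rw [h3, divRot_f]
        exact h2)
  refine ⟨g, hg1, ?_, ?_⟩
  · intro α hα
    refine le_trans ?_ (hg2 α hα)
    refine ENat.toENNReal_le.2 (Set.encard_le_encard ?_)
    rintro C ⟨⟨γ, T, hC, hAr, rfl⟩, hbox, ⟨z1, hz1, hz1'⟩, ⟨z2, hz2, hz2'⟩⟩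
    have hbox' : ∀ t, γ t ∈ Box A B := fun t => hbox ⟨t, rfl⟩
    have hγ' : ∀ t, HasDerivAt γ (rot α (Y (γ t))) t := by
      intro t
      rw [hYe _ (hbox' t), ← QF.f_rot]
      exact hC.ode t
    have hnc : ∃ s t, γ s ≠ γ t := by
      by_contra hcon
      push Not at hcon
      have h1 : HasDerivAt γ 0 0 := by
        have : γ = fun _ => γ 0 := by
          ext1 t
          exact hcon t 0
        rw [this]
        exact hasDerivAt_const _ _
      exact hC.ne 0 ((hC.ode 0).unique h1)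
    obtain ⟨T₀, hmp, hrange⟩ := minPer_of_closed hφ hC.pos hγ' hC.per hnc
    refine ⟨⟨γ 0, T₀, hmp, hrange, hbox, z1, hz1, z2, hz2, (hΓn _ _).2 ⟨hz1', hz2'⟩⟩, ?_⟩
    rintro _ ⟨t, rfl⟩
    have := hAr t
    simp only
    rw [sub_zero, QF.f_rot] at this
    rw [hYe _ (hbox' t)]
    exact this
  · calc ∫⁻ α in Ioo 0 π, g α ≤ ∫⁻ α, g α := setLIntegral_le_lintegral _ _
      _ ≤ ENNReal.ofReal (1 / ℓ) * ∫⁻ p in Box A B, ENNReal.ofReal D := hg3
      _ = ENNReal.ofReal (D * (4 * A * B) / ℓ) := by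
        rw [setLIntegral_const, volume_Box hA, ← ENNReal.ofReal_mul hD,
          ← ENNReal.ofReal_mul (by positivity)]
        congr 1
        ring

end

end Pool.Agent.H709Q
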