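import Pool.Agent.H709Q.Expl
import Pool.Agent.H709Q.T9
import Pool.Agent.H709Q.M
import Pool.Agent.H709Q.T1
import Pool.Agent.H709Q.T2a
import Pool.Agent.H709Q.T2s
import Pool.Agent.H709Q.T2b
import Pool.Agent.H709Q.T2c
import Pool.Agent.H709Q.T3
import Pool.Agent.H709Q.T4
import Pool.Agent.H709Q.T4b
import Pool.Agent.H709Q.T5
import Pool.Agent.H709Q.T6a
import Pool.Agent.H709Q.T6c
import Pool.Agent.H709Q.T6d
import Pool.Agent.H709Q.T7
import Pool.Agent.H709Q.T12a
import Pool.Agent.H709Q.T12b

/-! Assembly: the uniform averaged bound. -/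

open Real Set MeasureTheory Topology Filter
open scoped ENNReal

namespace Pool.Agent.H709Q

noncomputable section

open Pool.Agent.H709R2 (wedge ClosedOrbit psi)

theorem convexity' : Convexity := convexity curvSign (supporting halfCross crossSigns)

theorem ccwOfAround' : CcwOfAround := ccwOfAround convexity' rays

theorem linPos' : LinPos := linPos rays

theorem pinch' : Pinch := pinch polar

theorem centreBound' : CentreBoundK (3300000 + 93200000) :=
  centreBoundK majRules (by norm_num)
    (smallBoundK (smallOrbitsK graphs ccwOfAround' rays) classBound rays majRules)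
    (by norm_num) (largeBoundK rays pinch') (reduction linPos') (affineCase linPos')

/-- the main theorem for majorants -/
theorem mainK : FinalK (8 * (3300000 + 93200000)) :=
  finalK majRules minimalPeriod convexity' zeroInside (fewCentres rays) (by norm_num) centreBound'

/-- the number of closed orbits of the rotated field -/
def NR (X : QF) (α : ℝ) : ℝ≥0∞ := (({C | ClosedOrbit (X.rot α).f C}.encard : ℕ∞) : ℝ≥0∞)

lemma NR_rot (X : QF) (α β : ℝ) : NR (X.rot β) α = NR X (α + β) := by
  unfold NR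
  rw [QF.rot_rot, add_comm]

lemma half_le (X : QF) : ∫⁻ α in Ioo 0 π, NR X α ≤ ENNReal.ofReal (772 * 10 ^ 6) := by
  obtain ⟨g, hg1, hg2, hg3⟩ := mainK X
  calc ∫⁻ α in Ioo 0 π, NR X α ≤ ∫⁻ α in Ioo 0 π, g α :=
        setLIntegral_mono' measurableSet_Ioo hg2
    _ ≤ _ := hg3.trans (ENNReal.ofReal_le_ofReal (by norm_num))

lemma half_le' (X : QF) : ∫⁻ α in Ioo π (2 * π), NR X α ≤ ENNReal.ofReal (772 * 10 ^ 6) := by
  have h1 : ∫⁻ α in Ioo π (2 * π), NR X α = ∫⁻ α in Ioo 0 π, NR (X.rot π) α := by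
    rw [← lintegral_indicator measurableSet_Ioo, ← lintegral_indicator measurableSet_Ioo,
      ← lintegral_add_right_eq_self (μ := (volume : Measure ℝ)) _ π]
    refine lintegral_congr fun α => ?_
    by_cases h : α ∈ Ioo 0 π
    · rw [indicator_of_mem h, indicator_of_mem, NR_rot]
      exact ⟨by linarith [h.1], by linarith [h.2]⟩
    · rw [indicator_of_notMem h, indicator_of_notMem]
      intro h'
      exact h ⟨by linarith [h'.1], by linarith [h'.2]⟩
  rw [h1]
  exact half_le _

theorem full_le (X : QF) : ∫⁻ α in Ioc 0 (2 * π), NR X α ≤ ENNReal.ofReal (1544 * 10 ^ 6) := by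
  have hsub : Ioc 0 (2 * π) ⊆ (Ioo 0 π ∪ Ioo π (2 * π)) ∪ {π, 2 * π} := by
    intro x hx
    rcases lt_trichotomy x π with h | h | h
    · exact Or.inl (Or.inl ⟨hx.1, h⟩)
    · exact Or.inr (Or.inl h)
    · rcases lt_or_eq_of_le hx.2 with h' | h'
      · exact Or.inl (Or.inr ⟨h, h'⟩)
      · exact Or.inr (Or.inr h')
  calc ∫⁻ α in Ioc 0 (2 * π), NR X α
      ≤ ∫⁻ α in (Ioo 0 π ∪ Ioo π (2 * π)) ∪ {π, 2 * π}, NR X α := lintegral_mono_set hsub
    _ ≤ (∫⁻ α in Ioo 0 π, NR X α) + (∫⁻ α in Ioo π (2 * π), NR X α) +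
        ∫⁻ α in ({π, 2 * π} : Set ℝ), NR X α := by
        refine (lintegral_union_le _ _ _).trans ?_
        gcongr
        exact lintegral_union_le _ _ _
    _ ≤ ENNReal.ofReal (772 * 10 ^ 6) + ENNReal.ofReal (772 * 10 ^ 6) + 0 := by
        gcongr
        · exact half_le X
        · exact half_le' X
        · rw [Measure.restrict_eq_zero.2, lintegral_zero_measure]
          exact (Set.toFinite ({π, 2 * π} : Set ℝ)).measure_zero volume
    _ = ENNReal.ofReal (1544 * 10 ^ 6) := by
        rw [add_zero, ← ENNReal.ofReal_add (by norm_num) (by norm_num)]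
        norm_num

end

end Pool.Agent.H709Q
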