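import Pool.Agent.H709R2.OMaster
import Pool.Agent.H709R2.WPlus

/-! Quadratic vector fields in the plane: definitions and statements of the project
on the uniform averaged bound for closed orbits of rotated quadratic systems. -/

open Real Set MeasureTheory Topology Filter
open scoped ENNReal

namespace Pool.Agent.H709Q

noncomputable section

open Pool.Agent.H709R2 (wedge ClosedOrbit)

/-- a planar vector field whose components are polynomials of degree at most two -/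
structure QF where
  (a0 a1 a2 a3 a4 a5 b0 b1 b2 b3 b4 b5 : ℝ)

namespace QF

/-- the vector field -/
def f (X : QF) (z : ℝ × ℝ) : ℝ × ℝ :=
  (X.a0 + X.a1 * z.1 + X.a2 * z.2 + X.a3 * z.1 ^ 2 + X.a4 * (z.1 * z.2) + X.a5 * z.2 ^ 2,
   X.b0 + X.b1 * z.1 + X.b2 * z.2 + X.b3 * z.1 ^ 2 + X.b4 * (z.1 * z.2) + X.b5 * z.2 ^ 2)

/-- derivative of the field at `z` in direction `v` -/
def D (X : QF) (z v : ℝ × ℝ) : ℝ × ℝ :=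
  (X.a1 * v.1 + X.a2 * v.2 + 2 * X.a3 * z.1 * v.1 + X.a4 * (z.1 * v.2 + z.2 * v.1) +
      2 * X.a5 * z.2 * v.2,
   X.b1 * v.1 + X.b2 * v.2 + 2 * X.b3 * z.1 * v.1 + X.b4 * (z.1 * v.2 + z.2 * v.1) +
      2 * X.b5 * z.2 * v.2)

/-- divergence -/
def div (X : QF) (z : ℝ × ℝ) : ℝ :=
  X.a1 + 2 * X.a3 * z.1 + X.a4 * z.2 + (X.b2 + X.b4 * z.1 + 2 * X.b5 * z.2)

/-- the quadratic part -/
def qd (X : QF) (v : ℝ × ℝ) : ℝ × ℝ :=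
  (X.a3 * v.1 ^ 2 + X.a4 * (v.1 * v.2) + X.a5 * v.2 ^ 2,
   X.b3 * v.1 ^ 2 + X.b4 * (v.1 * v.2) + X.b5 * v.2 ^ 2)

/-- the rotated field -/
def rot (X : QF) (α : ℝ) : QF where
  a0 := cos α * X.a0 - sin α * X.b0
  a1 := cos α * X.a1 - sin α * X.b1
  a2 := cos α * X.a2 - sin α * X.b2
  a3 := cos α * X.a3 - sin α * X.b3
  a4 := cos α * X.a4 - sin α * X.b4
  a5 := cos α * X.a5 - sin α * X.b5
  b0 := sin α * X.a0 + cos α * X.b0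
  b1 := sin α * X.a1 + cos α * X.b1
  b2 := sin α * X.a2 + cos α * X.b2
  b3 := sin α * X.a3 + cos α * X.b3
  b4 := sin α * X.a4 + cos α * X.b4
  b5 := sin α * X.a5 + cos α * X.b5

lemma f_rot (X : QF) (α : ℝ) (z : ℝ × ℝ) : (X.rot α).f z = H709R2.rot α (X.f z) := by
  unfold QF.f QF.rot H709R2.rot
  ext <;> simp only <;> ring

lemma D_rot (X : QF) (α : ℝ) (z v : ℝ × ℝ) : (X.rot α).D z v = H709R2.rot α (X.D z v) := by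
  unfold QF.D QF.rot H709R2.rot
  ext <;> simp only <;> ring

lemma rot_rot (X : QF) (α β : ℝ) : (X.rot α).rot β = X.rot (α + β) := by
  unfold QF.rot
  simp only [Real.cos_add, Real.sin_add, QF.mk.injEq]
  refine ⟨?_, ?_, ?_, ?_, ?_, ?_, ?_, ?_, ?_, ?_, ?_, ?_⟩ <;> ring

lemma f_rot_pi (X : QF) (z : ℝ × ℝ) : (X.rot π).f z = -X.f z := by
  rw [f_rot]
  unfold H709R2.rot
  ext <;> simp

lemma contDiff_f (X : QF) {m : WithTop ℕ∞} : ContDiff ℝ m X.f := by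
  unfold QF.f
  fun_prop

lemma continuous_f (X : QF) : Continuous X.f := by
  unfold QF.f
  fun_prop

lemma continuous_D (X : QF) : Continuous fun p : (ℝ × ℝ) × (ℝ × ℝ) => X.D p.1 p.2 := by
  unfold QF.D
  fun_prop

lemma hasDerivAt_f (X : QF) {γ : ℝ → ℝ × ℝ} {v : ℝ × ℝ} {t : ℝ} (h : HasDerivAt γ v t) :
    HasDerivAt (fun t => X.f (γ t)) (X.D (γ t) v) t := by
  have h1 : HasDerivAt (fun t => (γ t).1) v.1 t :=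
    (hasFDerivAt_fst (𝕜 := ℝ) (p := γ t)).comp_hasDerivAt t h
  have h2 : HasDerivAt (fun t => (γ t).2) v.2 t :=
    (hasFDerivAt_snd (𝕜 := ℝ) (p := γ t)).comp_hasDerivAt t h
  unfold QF.f QF.D
  refine HasDerivAt.prodMk ?_ ?_
  · have := (((((hasDerivAt_const t X.a0).add (h1.const_mul X.a1)).add (h2.const_mul X.a2)).add
      ((h1.pow 2).const_mul X.a3)).add ((h1.mul h2).const_mul X.a4)).add
      ((h2.pow 2).const_mul X.a5)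
    refine HasDerivAt.congr_deriv this ?_
    push_cast
    ring
  · have := (((((hasDerivAt_const t X.b0).add (h1.const_mul X.b1)).add (h2.const_mul X.b2)).add
      ((h1.pow 2).const_mul X.b3)).add ((h1.mul h2).const_mul X.b4)).add
      ((h2.pow 2).const_mul X.b5)
    refine HasDerivAt.congr_deriv this ?_
    push_cast
    ring

/-- exact second order expansion -/
lemma f_add (X : QF) (z v : ℝ × ℝ) : X.f (z + v) = X.f z + X.D z v + X.qd v := by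
  unfold QF.f QF.D QF.qd
  ext <;> simp only [Prod.fst_add, Prod.snd_add] <;> ring

end QF

/-- a simple closed orbit parametrised by its minimal period -/
structure Cyc (X : QF) (γ : ℝ → ℝ × ℝ) (T : ℝ) : Prop where
  pos : 0 < T
  ode : ∀ t, HasDerivAt γ (X.f (γ t)) t
  per : ∀ t, γ (t + T) = γ t
  inj : ∀ s t, γ s = γ t → ∃ k : ℤ, s = t + k * T
  ne : ∀ t, X.f (γ t) ≠ 0

/-- the numerator of the curvature of the orbit through `z` -/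
def QF.curv (X : QF) (z : ℝ × ℝ) : ℝ := wedge (X.f z) (X.D z (X.f z))

/-- the closed curve lies to the left of all its tangents, strictly -/
structure CCW (X : QF) (γ : ℝ → ℝ × ℝ) : Prop where
  nonneg : ∀ s t, 0 ≤ wedge (X.f (γ s)) (γ t - γ s)
  strict : ∀ s t, wedge (X.f (γ s)) (γ t - γ s) = 0 → γ t = γ s
  curv : ∀ t, 0 < X.curv (γ t)

/-- the orbit turns counterclockwise around `p` -/
def Around (X : QF) (p : ℝ × ℝ) (γ : ℝ → ℝ × ℝ) : Prop := ∀ s, 0 < wedge (γ s - p) (X.f (γ s))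

/-- the closed orbits turning counterclockwise around `p` -/
def Orb (X : QF) (p : ℝ × ℝ) : Set (Set (ℝ × ℝ)) :=
  {C | ∃ γ T, Cyc X γ T ∧ Around X p γ ∧ C = range γ}

/-- `N` has a measurable majorant on `(0, π)` with integral at most `K` -/
def Maj (N : ℝ → ℝ≥0∞) (K : ℝ) : Prop :=
  ∃ g : ℝ → ℝ≥0∞, Measurable g ∧ (∀ α ∈ Ioo 0 π, N α ≤ g α) ∧
    ∫⁻ α in Ioo 0 π, g α ≤ ENNReal.ofReal K

/-- M: bookkeeping of majorants -/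
def MajRules : Prop :=
  (∀ N N' K K', (∀ α ∈ Ioo 0 π, N α ≤ N' α) → K' ≤ K → Maj N' K' → Maj N K) ∧
  (∀ N N' K K', 0 ≤ K → 0 ≤ K' → Maj N K → Maj N' K' → Maj (fun α => N α + N' α) (K + K')) ∧
  (∀ (N : ℕ → ℝ → ℝ≥0∞) (K : ℕ → ℝ) (S : ℝ), (∀ i, 0 ≤ K i) → HasSum K S →
    (∀ i, Maj (N i) (K i)) → Maj (fun α => ∑' i, N i α) S) ∧
  (∀ (N : ℕ → ℝ → ℝ≥0∞) (K : ℝ), (∀ i j α, i ≤ j → N i α ≤ N j α) → (∀ i, Maj (N i) K) →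
    Maj (fun α => ⨆ i, N i α) K)

/-- centred box -/
def Box (A B : ℝ) : Set (ℝ × ℝ) := {z | |z.1| ≤ A ∧ |z.2| ≤ B}

/-- normal form at the origin: the linear part is a rotation of `(x, y) ↦ (-y, e x)`, `0 < e ≤ 1`,
and the quadratic coefficients have norm at most one -/
structure NF (X : QF) : Prop where
  za : X.a0 = 0
  zb : X.b0 = 0
  lin : ∃ e a : ℝ, 0 < e ∧ e ≤ 1 ∧ X.a1 = -(e * sin a) ∧ X.a2 = -cos a ∧ X.b1 = e * cos a ∧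
    X.b2 = -sin a
  q3 : X.a3 ^ 2 + X.b3 ^ 2 ≤ 1
  q4 : X.a4 ^ 2 + X.b4 ^ 2 ≤ 1
  q5 : X.a5 ^ 2 + X.b5 ^ 2 ≤ 1

/-- the quadratic part has size exactly one -/
def Q1 (X : QF) : Prop :=
  X.a3 ^ 2 + X.b3 ^ 2 = 1 ∨ X.a4 ^ 2 + X.b4 ^ 2 = 1 ∨ X.a5 ^ 2 + X.b5 ^ 2 = 1

lemma NF.rot {X : QF} (h : NF X) (α : ℝ) : NF (X.rot α) := by
  have hcs := sin_sq_add_cos_sq α
  obtain ⟨e, a, he, he1, h1, h2, h3, h4⟩ := h.lin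
  refine ⟨by simp [QF.rot, h.za, h.zb], by simp [QF.rot, h.za, h.zb],
    ⟨e, a + α, he, he1, ?_, ?_, ?_, ?_⟩, ?_, ?_, ?_⟩
  · simp only [QF.rot, h1, h3, sin_add]; ring
  · simp only [QF.rot, h2, h4, cos_add]; ring
  · simp only [QF.rot, h1, h3, cos_add]; ring
  · simp only [QF.rot, h2, h4, sin_add]; ring
  · have := h.q3
    simp only [QF.rot]
    nlinarith [this, hcs]
  · have := h.q4
    simp only [QF.rot]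
    nlinarith [this, hcs]
  · have := h.q5
    simp only [QF.rot]
    nlinarith [this, hcs]

lemma Q1.rot {X : QF} (h : Q1 X) (α : ℝ) : Q1 (X.rot α) := by
  have hcs := sin_sq_add_cos_sq α
  rcases h with h | h | h
  · left
    simp only [QF.rot]
    linear_combination h + (X.a3 ^ 2 + X.b3 ^ 2) * hcs
  · right; left
    simp only [QF.rot]
    linear_combination h + (X.a4 ^ 2 + X.b4 ^ 2) * hcs
  · right; right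
    simp only [QF.rot]
    linear_combination h + (X.a5 ^ 2 + X.b5 ^ 2) * hcs

/-- lower and upper graphs of a strictly convex closed orbit -/
structure GD (X : QF) (γ : ℝ → ℝ × ℝ) (T x₁ x₂ : ℝ) (yl yu : ℝ → ℝ) : Prop where
  lt : x₁ < x₂
  cl : ContinuousOn yl (Icc x₁ x₂)
  cu : ContinuousOn yu (Icc x₁ x₂)
  e1 : yl x₁ = yu x₁
  e2 : yl x₂ = yu x₂
  lu : ∀ x ∈ Ioo x₁ x₂, yl x < yu x
  vl : ∀ x ∈ Ioo x₁ x₂, 0 < (X.f (x, yl x)).1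
  vu : ∀ x ∈ Ioo x₁ x₂, (X.f (x, yu x)).1 < 0
  dl : ∀ x ∈ Ioo x₁ x₂, HasDerivAt yl ((X.f (x, yl x)).2 / (X.f (x, yl x)).1) x
  du : ∀ x ∈ Ioo x₁ x₂, HasDerivAt yu ((X.f (x, yu x)).2 / (X.f (x, yu x)).1) x
  convl : ConvexOn ℝ (Icc x₁ x₂) yl
  concu : ConcaveOn ℝ (Icc x₁ x₂) yu
  v1 : (X.f (x₁, yl x₁)).1 = 0
  v2 : (X.f (x₂, yl x₂)).1 = 0
  w1 : (X.f (x₁, yl x₁)).2 < 0
  w2 : 0 < (X.f (x₂, yl x₂)).2
  rng : range γ = {z | z.1 ∈ Icc x₁ x₂ ∧ (z.2 = yl z.1 ∨ z.2 = yu z.1)}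
  act : ∫ x in x₁..x₂, ((X.f (x, yl x)).1 - (X.f (x, yu x)).1) ≤
    ∫ t in (0:ℝ)..T, H709R2.sq (X.f (γ t))

/-! ### The statements -/

/-- T1 -/
def HalfCross : Prop :=
  ∀ f g : ℝ → ℝ × ℝ, ContinuousOn f (Icc 0 1) → ContinuousOn g (Icc 0 1) →
    (∀ t ∈ Icc (0:ℝ) 1, 0 ≤ (f t).2) → (∀ t ∈ Icc (0:ℝ) 1, 0 ≤ (g t).2) →
    ∀ a b c d : ℝ, a < b → b < c → c < d → f 0 = (a, 0) → f 1 = (c, 0) → g 0 = (b, 0) →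
    g 1 = (d, 0) → ∃ s ∈ Icc (0:ℝ) 1, ∃ t ∈ Icc (0:ℝ) 1, f s = g t

/-- T2a -/
def CurvSign : Prop :=
  ∀ (X : QF) (γ : ℝ → ℝ × ℝ) (T : ℝ), Cyc X γ T → (∀ t, 0 < X.curv (γ t)) ∨ (∀ t, X.curv (γ t) < 0)

/-- T2s -/
def CrossSigns : Prop :=
  ∀ (X : QF) (γ : ℝ → ℝ × ℝ) (T : ℝ), Cyc X γ T → (∀ t, 0 < X.curv (γ t)) →
    ∀ t₀ t₃, wedge (X.f (γ t₀)) (γ t₃ - γ t₀) < 0 → ∃ t₁ t₂, t₀ < t₁ ∧ t₁ < t₂ ∧ t₂ < t₀ + T ∧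
      (∀ t ∈ Icc t₀ t₁, 0 ≤ wedge (X.f (γ t₀)) (γ t - γ t₀)) ∧
      (∀ t ∈ Icc t₂ (t₀ + T), 0 ≤ wedge (X.f (γ t₀)) (γ t - γ t₀)) ∧
      wedge (X.f (γ t₀)) (γ t₁ - γ t₀) = 0 ∧ wedge (X.f (γ t₀)) (γ t₂ - γ t₀) = 0 ∧
      wedge (X.f (γ t₀)) (X.f (γ t₁)) < 0 ∧ 0 < wedge (X.f (γ t₀)) (X.f (γ t₂))

/-- T2b -/
def Supporting : Prop :=
  ∀ (X : QF) (γ : ℝ → ℝ × ℝ) (T : ℝ), Cyc X γ T → (∀ t, 0 < X.curv (γ t)) →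
    ∀ s t, 0 ≤ wedge (X.f (γ s)) (γ t - γ s)

/-- T2c -/
def Convexity : Prop :=
  ∀ (X : QF) (γ : ℝ → ℝ × ℝ) (T : ℝ), Cyc X γ T → CCW X γ ∨ CCW (X.rot π) (fun t => γ (-t))

/-- T3 -/
def MinimalPeriod : Prop :=
  ∀ (X : QF) (C : Set (ℝ × ℝ)), ClosedOrbit (QF.f X) C → ∃ γ T, Cyc X γ T ∧ C = range γ

/-- T4 -/
def ZeroInside : Prop :=
  ∀ (X : QF) (γ : ℝ → ℝ × ℝ) (T : ℝ), Cyc X γ T → CCW X γ → ∃ p, X.f p = 0 ∧ Around X p γ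

/-- T6a -/
def Rays : Prop :=
  ∀ (X : QF) (γ : ℝ → ℝ × ℝ) (T : ℝ) (p : ℝ × ℝ), Cyc X γ T → Around X p γ → ∀ u : ℝ × ℝ, u ≠ 0 → ∃ t r : ℝ, 0 < r ∧ γ t = p + r • u

/-- T4' -/
def CcwOfAround : Prop :=
  ∀ (X : QF) (γ : ℝ → ℝ × ℝ) (T : ℝ) (p : ℝ × ℝ), Cyc X γ T → Around X p γ → CCW X γ

/-- T6b -/
def LinPos : Prop :=
  ∀ (X : QF) (γ : ℝ → ℝ × ℝ) (T : ℝ) (p : ℝ × ℝ), Cyc X γ T → X.f p = 0 → Around X p γ → ∀ u : ℝ × ℝ, u ≠ 0 → 0 < wedge u (X.D p u)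

/-- T5 -/
def FewCentres : Prop :=
  ∀ X : QF, {p : ℝ × ℝ | X.f p = 0 ∧ ∃ (α : ℝ) (γ : ℝ → ℝ × ℝ) (T : ℝ), Cyc (X.rot α) γ T ∧
    Around (X.rot α) p γ}.encard ≤ 4

/-- unit vector -/
def ev (φ : ℝ) : ℝ × ℝ := (cos φ, sin φ)

/-- T6c: the orbit in polar coordinates `z = (1/ρ) e_φ` -/
def Polar : Prop :=
  ∀ (X : QF) (γ : ℝ → ℝ × ℝ) (T : ℝ), X.f 0 = 0 → Cyc X γ T → Around X 0 γ →
    ∃ ρ : ℝ → ℝ, (∀ φ, 0 < ρ φ) ∧ (∀ φ, (ρ φ)⁻¹ • ev φ ∈ range γ) ∧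
      (∀ φ, 0 < wedge (ev φ) (X.D 0 (ev φ)) * ρ φ + wedge (ev φ) (X.qd (ev φ))) ∧
      ∀ φ, HasDerivAt ρ (-(ρ φ * ((cos φ * (X.D 0 (ev φ)).1 + sin φ * (X.D 0 (ev φ)).2) * ρ φ +
        (cos φ * (X.qd (ev φ)).1 + sin φ * (X.qd (ev φ)).2))) /
        (wedge (ev φ) (X.D 0 (ev φ)) * ρ φ + wedge (ev φ) (X.qd (ev φ)))) φ

/-- T6d -/
def Pinch : Prop :=
  ∀ (X : QF) (γ : ℝ → ℝ × ℝ) (T : ℝ), NF X → Q1 X → Cyc X γ T → Around X 0 γ → ∃ t, H709R2.sq (γ t) ≤ 1000 ^ 2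

/-- T7 -/
def Graphs : Prop :=
  ∀ (X : QF) (γ : ℝ → ℝ × ℝ) (T : ℝ), Cyc X γ T → CCW X γ → ∃ x₁ x₂ yl yu, GD X γ T x₁ x₂ yl yu

/-- T8 -/
def SmallOrbits : Prop :=
  ∃ K : ℝ, 0 < K ∧ ∀ (X : QF) (γ : ℝ → ℝ × ℝ) (T A B : ℝ), NF X → Cyc X γ T → Around X 0 γ → 0 < A → A ≤ 1 / 16 ^ 5 →
    0 < B → B ≤ 1 / 16 ^ 5 → (∀ t, |(γ t).1| ≤ A ∧ |(γ t).2| ≤ B) →
    (∃ s, A / 16 < |(γ s).1|) → (∃ s, B / 16 < |(γ s).2|) →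
    A * B / K ≤ ∫ t in (0:ℝ)..T, H709R2.sq (X.f (γ t)) ∧ ∀ t, |X.div (γ t)| ^ 4 ≤ K ^ 4 * (A ^ 2 * B)

/-- the class of closed orbits with given box size -/
def Klass (X : QF) (A B : ℝ) : Set (Set (ℝ × ℝ)) :=
  {C | C ∈ Orb X 0 ∧ C ⊆ Box A B ∧ (∃ z ∈ C, A / 16 < |z.1|) ∧ ∃ z ∈ C, B / 16 < |z.2|}

/-- T9 -/
def ClassBound : Prop :=
  ∀ (X : QF) (A B D ℓ : ℝ), 0 < A → 0 < B → 0 ≤ D → 0 < ℓ →
    (∀ α ∈ Ioo 0 π, ∀ γ T, Cyc (X.rot α) γ T → Around (X.rot α) 0 γ →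
      (∀ t, |(γ t).1| ≤ A ∧ |(γ t).2| ≤ B) → (∃ s, A / 16 < |(γ s).1|) →
      (∃ s, B / 16 < |(γ s).2|) →
      ℓ ≤ ∫ t in (0:ℝ)..T, H709R2.sq ((X.rot α).f (γ t)) ∧ ∀ t, |(X.rot α).div (γ t)| ≤ D) →
    Maj (fun α => ((Klass (X.rot α) A B).encard : ℝ≥0∞)) (D * (4 * A * B) / ℓ)

/-- T10 -/
def SmallBound : Prop :=
  ∃ K : ℝ, 0 < K ∧ ∀ X : QF, NF X →
    Maj (fun α => (({C | C ∈ Orb (X.rot α) 0 ∧ C ⊆ Box (1 / 16 ^ 5) (1 / 16 ^ 5)}.encard : ℕ∞) :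
      ℝ≥0∞)) K

/-- T11 -/
def LargeBound : Prop :=
  ∃ K : ℝ, 0 < K ∧ ∀ X : QF, NF X → Q1 X → ∀ M : ℝ,
    Maj (fun α => (({C | C ∈ Orb (X.rot α) 0 ∧ C ⊆ Box M M ∧
      ¬ C ⊆ Box (1 / 16 ^ 5) (1 / 16 ^ 5)}.encard : ℕ∞) : ℝ≥0∞)) K

/-- T12a -/
def Reduction : Prop :=
  ∀ (X : QF) (p : ℝ × ℝ), X.f p = 0 → (∃ (α : ℝ) (γ : ℝ → ℝ × ℝ) (T : ℝ), Cyc (X.rot α) γ T ∧ Around (X.rot α) p γ) →
    (X.a3 ≠ 0 ∨ X.a4 ≠ 0 ∨ X.a5 ≠ 0 ∨ X.b3 ≠ 0 ∨ X.b4 ≠ 0 ∨ X.b5 ≠ 0) →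
    ∃ Y : QF, NF Y ∧ Q1 Y ∧ ∀ α, (Orb (X.rot α) p).encard ≤ (Orb (Y.rot α) 0).encard

/-- T12b -/
def AffineCase : Prop :=
  ∀ (X : QF) (p : ℝ × ℝ), X.f p = 0 → X.a3 = 0 → X.a4 = 0 → X.a5 = 0 → X.b3 = 0 → X.b4 = 0 → X.b5 = 0 →
    Maj (fun α => ((Orb (X.rot α) p).encard : ℝ≥0∞)) 0

/-- T13a -/
def CentreBound : Prop :=
  ∃ K : ℝ, 0 < K ∧ ∀ (X : QF) (p : ℝ × ℝ), X.f p = 0 → Maj (fun α => ((Orb (X.rot α) p).encard : ℝ≥0∞)) K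

/-- T13b -/
def Final : Prop :=
  ∃ K : ℝ, 0 < K ∧ ∀ X : QF,
    Maj (fun α => (({C | ClosedOrbit (X.rot α).f C}.encard : ℕ∞) : ℝ≥0∞)) K

end

end Pool.Agent.H709Q
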