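import Pool.Agent.H709Q.Defs

/-! T10: the bound for the small orbits. -/

open Real Set MeasureTheory Topology Filter
open scoped ENNReal

namespace Pool.Agent.H709Q

noncomputable section

open Pool.Agent.H709R2 (wedge)

namespace T10

lemma encard_iUnion_le {α : Type*} (S : ℕ → Set α) :
    ((⋃ i, S i).encard : ℝ≥0∞) ≤ ∑' i, ((S i).encard : ℝ≥0∞) := by
  let _ : MeasurableSpace α := ⊤
  rw [← Measure.count_apply (MeasurableSpace.measurableSet_top)]
  refine (measure_iUnion_le _).trans (ENNReal.tsum_le_tsum fun i => ?_)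
  rw [Measure.count_apply (MeasurableSpace.measurableSet_top)]

lemma range_compact {X : QF} {γ : ℝ → ℝ × ℝ} {T : ℝ} (h : Cyc X γ T) : IsCompact (range γ) := by
  have hc : Continuous γ := continuous_iff_continuousAt.2 fun t => (h.ode t).continuousAt
  have h1 : γ '' Icc 0 (0 + T) = range γ :=
    Function.Periodic.image_Icc (f := γ) (fun t => h.per t) h.pos 0
  rw [← h1]
  exact isCompact_Icc.image hc

/-- dyadic scale of a number -/
lemma scale {x : ℝ} (h0 : 0 < x) (h1 : x ≤ 1 / 16 ^ 5) :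
    ∃ i : ℕ, x ≤ 1 / 16 ^ (i + 5) ∧ 1 / 16 ^ (i + 5) / 16 < x := by
  obtain ⟨n, hn1, hn2⟩ := exists_nat_pow_near_of_lt_one (x := x * 16 ^ 5) (y := (1 / 16 : ℝ))
    (by positivity) (by
      rw [le_div_iff₀ (by positivity)] at h1
      linarith) (by norm_num) (by norm_num)
  refine ⟨n, ?_, ?_⟩
  · have e : (1 : ℝ) / 16 ^ (n + 5) = (1 / 16) ^ n / 16 ^ 5 := by
      rw [pow_add, one_div_pow]
      field_simp
    rw [e, le_div_iff₀ (by positivity)]
    exact hn2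
  · have e : (1 : ℝ) / 16 ^ (n + 5) / 16 = (1 / 16) ^ (n + 1) / 16 ^ 5 := by
      rw [pow_add, one_div_pow]
      field_simp
      rw [pow_succ]
    rw [e, div_lt_iff₀ (by positivity)]
    exact hn1

end T10

open T10 in
theorem smallBound (h8 : SmallOrbits) (h9 : ClassBound) (hr : Rays) (hm : MajRules) :
    SmallBound := by
  obtain ⟨K0, hK0, h8⟩ := h8
  obtain ⟨hm1, hm2, hm3, hm4⟩ := hm
  -- the numbers
  have hsum1 : Summable (fun j : ℕ => (1 / 2 : ℝ) ^ j) := summable_geometric_two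
  have hsum2 : Summable (fun i : ℕ => (1 / 4 : ℝ) ^ i) :=
    summable_geometric_of_lt_one (by norm_num) (by norm_num)
  have hs1 : HasSum (fun j : ℕ => (1 / 2 : ℝ) ^ j) 2 := hasSum_geometric_two
  set S4 : ℝ := ∑' i : ℕ, (1 / 4 : ℝ) ^ i with hS4
  have hS40 : 0 ≤ S4 := tsum_nonneg (fun i => by positivity)
  refine ⟨4 * K0 ^ 2 * 2 * S4 + 1, by positivity, fun X hX => ?_⟩
  -- the bound for one class
  have hcls : ∀ i j : ℕ, Maj (fun α => ((Klass (X.rot α) (1 / 16 ^ (i + 5)) (1 / 16 ^ (j + 5))).encard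
      : ℝ≥0∞)) (4 * K0 ^ 2 * (1 / 2 : ℝ) ^ j * (1 / 4 : ℝ) ^ i) := by
    intro i j
    set A : ℝ := 1 / 16 ^ (i + 5) with hA
    set B : ℝ := 1 / 16 ^ (j + 5) with hB
    have hA0 : 0 < A := by positivity
    have hB0 : 0 < B := by positivity
    set D : ℝ := K0 * ((1 / 4) ^ (i + 5) * (1 / 2) ^ (j + 5)) with hD
    have hD0 : 0 ≤ D := by positivity
    have hD4 : D ^ 4 = K0 ^ 4 * (A ^ 2 * B) := by
      rw [hD, hA, hB, mul_pow, mul_pow]
      congr 1
      have e1 : (((1 : ℝ) / 4) ^ (i + 5)) ^ 4 = (1 / 16 ^ (i + 5)) ^ 2 := by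
        rw [← pow_mul, ← one_div_pow, ← pow_mul, mul_comm (i + 5) 4, mul_comm (i + 5) 2, pow_mul,
          pow_mul]
        norm_num
      have e2 : (((1 : ℝ) / 2) ^ (j + 5)) ^ 4 = 1 / 16 ^ (j + 5) := by
        rw [← pow_mul, ← one_div_pow, mul_comm (j + 5) 4, pow_mul]
        norm_num
      rw [e1, e2]
    have h := h9 X A B D (A * B / K0) hA0 hB0 hD0 (by positivity) (by
      intro α _ γ T hcyc har hbox hx hy
      have hAle : A ≤ 1 / 16 ^ 5 := by
        rw [hA]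
        exact one_div_le_one_div_of_le (by positivity) (pow_le_pow_right₀ (by norm_num) (by omega))
      have hBle : B ≤ 1 / 16 ^ 5 := by
        rw [hB]
        exact one_div_le_one_div_of_le (by positivity) (pow_le_pow_right₀ (by norm_num) (by omega))
      obtain ⟨h1, h2⟩ := h8 (X.rot α) γ T A B (hX.rot α) hcyc har hA0 hAle hB0 hBle hbox hx hy
      refine ⟨h1, fun t => ?_⟩
      have h3 := h2 t
      rw [← hD4] at h3
      exact le_of_pow_le_pow_left₀ (by norm_num) hD0 h3)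
    refine hm1 _ _ _ _ (fun α _ => le_rfl) ?_ h
    have e3 : D * (4 * A * B) / (A * B / K0) = 4 * K0 * D := by
      field_simp
    rw [e3, hD, pow_add, pow_add]
    have hp1 : (0 : ℝ) ≤ (1 / 4) ^ i := by positivity
    have hp2 : (0 : ℝ) ≤ (1 / 2) ^ j := by positivity
    have e4 : 4 * K0 * (K0 * ((1 / 4) ^ i * (1 / 4) ^ 5 * ((1 / 2) ^ j * (1 / 2) ^ 5))) =
        (4 * K0 ^ 2 * (1 / 2 : ℝ) ^ j * (1 / 4 : ℝ) ^ i) * ((1 / 4) ^ 5 * (1 / 2) ^ 5) := by ring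
    rw [e4]
    exact mul_le_of_le_one_right (by positivity) (by norm_num)
  have hrow : ∀ i : ℕ, Maj (fun α => ∑' j : ℕ,
      ((Klass (X.rot α) (1 / 16 ^ (i + 5)) (1 / 16 ^ (j + 5))).encard : ℝ≥0∞))
      (4 * K0 ^ 2 * 2 * (1 / 4 : ℝ) ^ i) := by
    intro i
    refine hm3 (fun j α => ((Klass (X.rot α) (1 / 16 ^ (i + 5)) (1 / 16 ^ (j + 5))).encard
      : ℝ≥0∞)) (fun j => 4 * K0 ^ 2 * (1 / 2 : ℝ) ^ j * (1 / 4 : ℝ) ^ i) _
      (fun j => by positivity) ?_ (hcls i)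
    exact (hs1.mul_left _).mul_right _
  have hall : Maj (fun α => ∑' i : ℕ, ∑' j : ℕ,
      ((Klass (X.rot α) (1 / 16 ^ (i + 5)) (1 / 16 ^ (j + 5))).encard : ℝ≥0∞))
      (4 * K0 ^ 2 * 2 * S4) := by
    refine hm3 (fun i α => ∑' j : ℕ,
      ((Klass (X.rot α) (1 / 16 ^ (i + 5)) (1 / 16 ^ (j + 5))).encard : ℝ≥0∞))
      (fun i => 4 * K0 ^ 2 * 2 * (1 / 4 : ℝ) ^ i) _ (fun i => by positivity) ?_ hrow
    exact hsum2.hasSum.mul_left _
  refine hm1 _ _ _ _ ?_ (by linarith) hall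
  intro α _
  have hsub : {C | C ∈ Orb (X.rot α) 0 ∧ C ⊆ Box (1 / 16 ^ 5) (1 / 16 ^ 5)} ⊆
      ⋃ i : ℕ, ⋃ j : ℕ, Klass (X.rot α) (1 / 16 ^ (i + 5)) (1 / 16 ^ (j + 5)) := by
    rintro C ⟨hC, hbox⟩
    obtain ⟨γ, T, hcyc, har, rfl⟩ := hC
    have hK := range_compact hcyc
    have hne : (range γ).Nonempty := ⟨γ 0, 0, rfl⟩
    obtain ⟨z1, hz1, hmax1⟩ := hK.exists_isMaxOn hne
      (continuous_fst.abs.continuousOn (s := range γ))
    obtain ⟨z2, hz2, hmax2⟩ := hK.exists_isMaxOn hne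
      (continuous_snd.abs.continuousOn (s := range γ))
    have hp1 : 0 < |z1.1| := by
      obtain ⟨t, r, hr0, ht⟩ := hr (X.rot α) γ T 0 hcyc har (1, 0) (by simp)
      have h1 : |(γ t).1| ≤ |z1.1| := hmax1 ⟨t, rfl⟩
      rw [ht] at h1
      simp only [Prod.smul_mk, smul_eq_mul, mul_one, zero_add] at h1
      rw [abs_of_pos hr0] at h1
      linarith
    have hp2 : 0 < |z2.2| := by
      obtain ⟨t, r, hr0, ht⟩ := hr (X.rot α) γ T 0 hcyc har (0, 1) (by simp)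
      have h1 : |(γ t).2| ≤ |z2.2| := hmax2 ⟨t, rfl⟩
      rw [ht] at h1
      simp only [Prod.smul_mk, smul_eq_mul, mul_one, zero_add] at h1
      rw [abs_of_pos hr0] at h1
      linarith
    obtain ⟨i, hi1, hi2⟩ := scale hp1 (hbox hz1).1
    obtain ⟨j, hj1, hj2⟩ := scale hp2 (hbox hz2).2
    refine mem_iUnion.2 ⟨i, mem_iUnion.2 ⟨j, ⟨γ, T, hcyc, har, rfl⟩, ?_, ⟨z1, hz1, hi2⟩,
      ⟨z2, hz2, hj2⟩⟩⟩
    intro z hz
    exact ⟨(hmax1 hz).trans hi1, (hmax2 hz).trans hj1⟩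
  refine (ENat.toENNReal_le.2 (encard_le_encard hsub)).trans ?_
  refine (encard_iUnion_le _).trans (ENNReal.tsum_le_tsum fun i => encard_iUnion_le _)

end

end Pool.Agent.H709Q
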