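import Pool.Agent.H709Q.Defs

/-! T11: the bound for the orbits that are not small. -/

open Real Set MeasureTheory Topology Filter
open scoped ENNReal

namespace Pool.Agent.H709Q

noncomputable section

open Pool.Agent.H709R2 (wedge ClosedOrbit psi)

namespace T11

/-- the polynomial with the given coefficients -/
def poly (c0 c1 c2 c3 c4 c5 : ℝ) : MvPolynomial (Fin 2) ℝ :=
  MvPolynomial.C c0 + MvPolynomial.C c1 * MvPolynomial.X 0 + MvPolynomial.C c2 * MvPolynomial.X 1 +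
    MvPolynomial.C c3 * MvPolynomial.X 0 ^ 2 +
    MvPolynomial.C c4 * (MvPolynomial.X 0 * MvPolynomial.X 1) +
    MvPolynomial.C c5 * MvPolynomial.X 1 ^ 2

lemma eval_poly (c0 c1 c2 c3 c4 c5 x y : ℝ) :
    MvPolynomial.eval ![x, y] (poly c0 c1 c2 c3 c4 c5) =
      c0 + c1 * x + c2 * y + c3 * x ^ 2 + c4 * (x * y) + c5 * y ^ 2 := by
  simp [poly]

lemma deg_C_mul (c : ℝ) (p : MvPolynomial (Fin 2) ℝ) (h : p.totalDegree ≤ 2) :
    (MvPolynomial.C c * p).totalDegree ≤ 2 := by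
  refine (MvPolynomial.totalDegree_mul _ _).trans ?_
  rw [MvPolynomial.totalDegree_C, zero_add]
  exact h

lemma deg_poly (c0 c1 c2 c3 c4 c5 : ℝ) : (poly c0 c1 c2 c3 c4 c5).totalDegree ≤ 2 := by
  unfold poly
  have hX : ∀ i : Fin 2, (MvPolynomial.X i : MvPolynomial (Fin 2) ℝ).totalDegree = 1 :=
    fun i => MvPolynomial.totalDegree_X i
  refine (MvPolynomial.totalDegree_add _ _).trans (max_le ?_ ?_)
  · refine (MvPolynomial.totalDegree_add _ _).trans (max_le ?_ ?_)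
    · refine (MvPolynomial.totalDegree_add _ _).trans (max_le ?_ ?_)
      · refine (MvPolynomial.totalDegree_add _ _).trans (max_le ?_ ?_)
        · refine (MvPolynomial.totalDegree_add _ _).trans (max_le ?_ ?_)
          · rw [MvPolynomial.totalDegree_C]; omega
          · exact deg_C_mul _ _ (by rw [hX]; omega)
        · exact deg_C_mul _ _ (by rw [hX]; omega)
      · refine deg_C_mul _ _ ((MvPolynomial.totalDegree_pow _ _).trans ?_)
        rw [hX]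
    · refine deg_C_mul _ _ ((MvPolynomial.totalDegree_mul _ _).trans ?_)
      rw [hX, hX]
  · refine deg_C_mul _ _ ((MvPolynomial.totalDegree_pow _ _).trans ?_)
    rw [hX]

lemma field_eq (X : QF) (z : ℝ × ℝ) : H709R2.field (poly X.a0 X.a1 X.a2 X.a3 X.a4 X.a5)
    (poly X.b0 X.b1 X.b2 X.b3 X.b4 X.b5) z = X.f z := by
  unfold H709R2.field QF.f
  rw [eval_poly, eval_poly]

lemma isCompact_Box (M : ℝ) : IsCompact (Box M M) := by
  have : Box M M = Icc (-M) M ×ˢ Icc (-M) M := by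
    ext z
    simp only [Box, mem_setOf_eq, mem_prod, mem_Icc, abs_le]
  rw [this]
  exact isCompact_Icc.prod isCompact_Icc

/-- the lower bound for the spherical diameter -/
def d0 : ℝ := 1 / 16 ^ 5 / 4

lemma d0_pos : 0 < d0 := by unfold d0; positivity

lemma le_of {z w : ℝ × ℝ} (h : d0 ^ 2 * ((1 + H709R2.sq z) * (1 + H709R2.sq w)) ≤ H709R2.sq (z - w)) :
    d0 ≤ √(psi z * psi w * H709R2.sq (z - w)) := by
  refine Real.le_sqrt_of_sq_le ?_
  have h1 : 0 < 1 + H709R2.sq z := H709R2.one_add_sq_pos z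
  have h2 : 0 < 1 + H709R2.sq w := H709R2.one_add_sq_pos w
  unfold psi
  rw [← mul_inv, inv_mul_eq_div, le_div_iff₀ (by positivity)]
  exact h

lemma sq_nn (z : ℝ × ℝ) : 0 ≤ H709R2.sq z := by unfold H709R2.sq; positivity

lemma chord (X : QF) (γ : ℝ → ℝ × ℝ) (T : ℝ) (hr : Rays) (hcyc : Cyc X γ T)
    (har : Around X 0 γ) (t₀ : ℝ) (h0 : H709R2.sq (γ t₀) ≤ 1000 ^ 2)
    (hbig : ¬ range γ ⊆ Box (1 / 16 ^ 5) (1 / 16 ^ 5)) :
    ∃ p ∈ range γ, ∃ q ∈ range γ, d0 ≤ √(psi p * psi q * H709R2.sq (p - q)) := by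
  have hd : d0 ^ 2 = (1 / 16 ^ 5) ^ 2 / 16 := by unfold d0; ring
  have hd' : d0 ^ 2 = 1 / 17592186044416 := by unfold d0; norm_num
  rw [not_subset] at hbig
  obtain ⟨_, ⟨t₁, rfl⟩, hbig⟩ := hbig
  have h1 : (1 / 16 ^ 5) ^ 2 ≤ H709R2.sq (γ t₁) := by
    unfold Box at hbig
    rw [mem_setOf_eq, not_and_or, not_le, not_le] at hbig
    unfold H709R2.sq
    rcases hbig with h | h
    · have := pow_le_pow_left₀ (by positivity) h.le 2
      rw [sq_abs] at this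
      nlinarith [sq_nonneg (γ t₁).2]
    · have := pow_le_pow_left₀ (by positivity) h.le 2
      rw [sq_abs] at this
      nlinarith [sq_nonneg (γ t₁).1]
  by_cases hc : H709R2.sq (γ t₀) ≤ 4 * d0 ^ 2
  · refine ⟨γ t₀, ⟨t₀, rfl⟩, γ t₁, ⟨t₁, rfl⟩, le_of ?_⟩
    have h2 : H709R2.sq (γ t₁) / 4 ≤ H709R2.sq (γ t₀ - γ t₁) := by
      have h3 : H709R2.sq (γ t₀) ≤ H709R2.sq (γ t₁) / 4 := by linarith
      have h4 : H709R2.sq (γ t₀ - γ t₁) = H709R2.sq (γ t₁) / 2 - H709R2.sq (γ t₀) +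
          (((γ t₁).1 / 2 - (γ t₀).1) ^ 2 + ((γ t₁).2 / 2 - (γ t₀).2) ^ 2) * 2 := by
        unfold H709R2.sq
        simp only [Prod.fst_sub, Prod.snd_sub]
        ring
      rw [h4]
      have h5 : 0 ≤ (((γ t₁).1 / 2 - (γ t₀).1) ^ 2 + ((γ t₁).2 / 2 - (γ t₀).2) ^ 2) * 2 := by
        positivity
      linarith
    refine le_trans ?_ h2
    have h6 : 0 ≤ H709R2.sq (γ t₀) := sq_nn _
    have h7 : 0 ≤ H709R2.sq (γ t₁) := sq_nn _
    have h8 : (1 + H709R2.sq (γ t₀)) * (1 + H709R2.sq (γ t₁)) ≤ 2 * (1 + H709R2.sq (γ t₁)) :=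
      mul_le_mul_of_nonneg_right (by rw [hd'] at hc; linarith) (by linarith)
    have h9 : d0 ^ 2 * ((1 + H709R2.sq (γ t₀)) * (1 + H709R2.sq (γ t₁))) ≤ d0 ^ 2 * (2 * (1 + H709R2.sq (γ t₁))) :=
      mul_le_mul_of_nonneg_left h8 (by positivity)
    refine h9.trans ?_
    have h10 : d0 ^ 2 * (2 * (1 + H709R2.sq (γ t₁))) = 2 * d0 ^ 2 + 2 * d0 ^ 2 * H709R2.sq (γ t₁) := by ring
    rw [h10]
    have h11 : 2 * d0 ^ 2 * H709R2.sq (γ t₁) ≤ H709R2.sq (γ t₁) / 8 := by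
      rw [hd']; linarith
    linarith
  · push Not at hc
    have hne : -γ t₀ ≠ 0 := by
      intro h
      rw [neg_eq_zero] at h
      rw [h] at hc
      have h2 : H709R2.sq (0 : ℝ × ℝ) = 0 := by simp [H709R2.sq]
      rw [h2, hd'] at hc
      norm_num at hc
    obtain ⟨t, r, hr0, ht⟩ := hr X γ T 0 hcyc har (-γ t₀) hne
    refine ⟨γ t₀, ⟨t₀, rfl⟩, γ t, ⟨t, rfl⟩, le_of ?_⟩
    have h2 : H709R2.sq (γ t) = r ^ 2 * H709R2.sq (γ t₀) := by
      rw [ht]; unfold H709R2.sq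
      simp only [zero_add, Prod.smul_fst, Prod.smul_snd, Prod.fst_neg, Prod.snd_neg, smul_eq_mul]
      ring
    have h3 : H709R2.sq (γ t₀ - γ t) = (1 + r) ^ 2 * H709R2.sq (γ t₀) := by
      rw [ht]; unfold H709R2.sq
      simp only [zero_add, Prod.smul_fst, Prod.smul_snd, Prod.fst_neg, Prod.snd_neg, smul_eq_mul,
        Prod.fst_sub, Prod.snd_sub]
      ring
    have hU : 0 ≤ H709R2.sq (γ t₀) := sq_nn _
    have hV : 0 ≤ H709R2.sq (γ t) := sq_nn _
    have h4 : H709R2.sq (γ t₀) + H709R2.sq (γ t) ≤ H709R2.sq (γ t₀ - γ t) := by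
      rw [h2, h3]
      nlinarith [mul_nonneg hr0.le hU]
    refine le_trans ?_ h4
    by_cases hV1 : H709R2.sq (γ t) ≤ 1
    · have h8 : (1 + H709R2.sq (γ t₀)) * (1 + H709R2.sq (γ t)) ≤ (1 + H709R2.sq (γ t₀)) * 2 :=
        mul_le_mul_of_nonneg_left (by linarith) (by linarith)
      have h9 : d0 ^ 2 * ((1 + H709R2.sq (γ t₀)) * (1 + H709R2.sq (γ t))) ≤ d0 ^ 2 * ((1 + H709R2.sq (γ t₀)) * 2) :=
        mul_le_mul_of_nonneg_left h8 (by positivity)
      refine h9.trans ?_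
      have h10 : d0 ^ 2 * ((1 + H709R2.sq (γ t₀)) * 2) = 2 * d0 ^ 2 + 2 * d0 ^ 2 * H709R2.sq (γ t₀) := by ring
      rw [h10]
      have h11 : 2 * d0 ^ 2 * H709R2.sq (γ t₀) ≤ H709R2.sq (γ t₀) / 2 := by
        rw [hd']; linarith
      linarith
    · push Not at hV1
      have h8 : (1 + H709R2.sq (γ t₀)) * (1 + H709R2.sq (γ t)) ≤ (1 + 1000 ^ 2) * (2 * H709R2.sq (γ t)) :=
        mul_le_mul (by linarith) (by linarith) (by linarith) (by norm_num)
      have h9 : d0 ^ 2 * ((1 + H709R2.sq (γ t₀)) * (1 + H709R2.sq (γ t))) ≤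
          d0 ^ 2 * ((1 + 1000 ^ 2) * (2 * H709R2.sq (γ t))) :=
        mul_le_mul_of_nonneg_left h8 (by positivity)
      refine h9.trans ?_
      rw [hd']
      linarith

end T11

open T11 in
theorem largeBound (hr : Rays) (hp : Pinch) : LargeBound := by
  refine ⟨π ^ 2 * ((2 : ℕ) + 1) / d0, by
    have := d0_pos
    have := Real.pi_pos
    positivity, fun X hX hX1 M => ?_⟩
  obtain ⟨g, hg1, hg2, hg3⟩ := H709R2.thmAplus
    (deg_poly X.a0 X.a1 X.a2 X.a3 X.a4 X.a5) (deg_poly X.b0 X.b1 X.b2 X.b3 X.b4 X.b5)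
    (isCompact_Box M) d0_pos
  refine ⟨g, hg1, fun α hα => ?_, (setLIntegral_le_lintegral _ _).trans hg3⟩
  refine le_trans (ENat.toENNReal_le.2 (encard_le_encard ?_)) (hg2 α hα)
  rintro C ⟨hC, hbox, hbig⟩
  obtain ⟨γ, T, hcyc, har, rfl⟩ := hC
  refine ⟨⟨γ, T, hcyc.pos, fun t => ?_, hcyc.per, ⟨0, T / 2, fun h => ?_⟩, rfl⟩, hbox, ?_⟩
  · have h := hcyc.ode t
    rw [QF.f_rot, ← field_eq X] at h
    exact h
  · obtain ⟨k, hk⟩ := hcyc.inj _ _ h
    have h1 : (2 * k + 1 : ℝ) * T = 0 := by linarith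
    have h2 := hcyc.pos
    rcases mul_eq_zero.1 h1 with h3 | h3
    · have h4 : (2 * k + 1 : ℤ) = 0 := by exact_mod_cast h3
      omega
    · linarith
  · obtain ⟨t, ht⟩ := hp (X.rot α) γ T (hX.rot α) (hX1.rot α) hcyc har
    exact chord (X.rot α) γ T hr hcyc har t ht hbig

end

end Pool.Agent.H709Q
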