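import Pool.Agent.H709Q.Defs

/-! T13a: the bound for one centre. -/

open Real Set MeasureTheory Topology Filter
open scoped ENNReal

namespace Pool.Agent.H709Q

noncomputable section

open Pool.Agent.H709R2 (wedge)

namespace T13a

lemma encard_iUnion_mono {α : Type*} (S : ℕ → Set α) (hS : Monotone S) :
    ((⋃ i, S i).encard : ℝ≥0∞) ≤ ⨆ i, ((S i).encard : ℝ≥0∞) := by
  let _ : MeasurableSpace α := ⊤
  rw [← Measure.count_apply (MeasurableSpace.measurableSet_top), hS.measure_iUnion]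
  refine iSup_mono fun i => ?_
  rw [Measure.count_apply (MeasurableSpace.measurableSet_top)]

lemma range_bounded {X : QF} {γ : ℝ → ℝ × ℝ} {T : ℝ} (h : Cyc X γ T) :
    ∃ M : ℕ, range γ ⊆ Box M M := by
  have hc : Continuous γ := continuous_iff_continuousAt.2 fun t => (h.ode t).continuousAt
  have h1 : γ '' Icc 0 (0 + T) = range γ :=
    Function.Periodic.image_Icc (f := γ) (fun t => h.per t) h.pos 0
  have h2 : IsCompact (range γ) := by
    rw [← h1]
    exact isCompact_Icc.image hc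
  obtain ⟨R, hR⟩ := h2.isBounded.exists_norm_le
  obtain ⟨M, hM⟩ := exists_nat_ge R
  refine ⟨M, fun z hz => ?_⟩
  have h3 := hR z hz
  exact ⟨((norm_fst_le z).trans h3).trans hM, ((norm_snd_le z).trans h3).trans hM⟩

end T13a

open T13a in
theorem centreBound (hm : MajRules) (hs : SmallBound) (hl : LargeBound) (hr : Reduction)
    (ha : AffineCase) : CentreBound := by
  obtain ⟨Ks, hKs, hs⟩ := hs
  obtain ⟨Kl, hKl, hl⟩ := hl
  obtain ⟨hm1, hm2, hm3, hm4⟩ := hm
  refine ⟨Ks + Kl, by positivity, fun X p hp => ?_⟩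
  by_cases hex : ∃ (α : ℝ) (γ : ℝ → ℝ × ℝ) (T : ℝ), Cyc (X.rot α) γ T ∧ Around (X.rot α) p γ
  · by_cases hq : X.a3 ≠ 0 ∨ X.a4 ≠ 0 ∨ X.a5 ≠ 0 ∨ X.b3 ≠ 0 ∨ X.b4 ≠ 0 ∨ X.b5 ≠ 0
    · obtain ⟨Y, hY, hY1, hYα⟩ := hr X p hp hex hq
      refine hm1 _ (fun α => ⨆ M : ℕ, (({C | C ∈ Orb (Y.rot α) 0 ∧ C ⊆ Box M M}.encard : ℕ∞) :
        ℝ≥0∞)) _ (Ks + Kl) ?_ le_rfl ?_
      · intro α _
        refine (ENat.toENNReal_le.2 (hYα α)).trans ?_
        have h1 : Orb (Y.rot α) 0 = ⋃ M : ℕ, {C | C ∈ Orb (Y.rot α) 0 ∧ C ⊆ Box M M} := by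
          ext C
          constructor
          · intro hC
            obtain ⟨γ, T, hcyc, har, hCr⟩ := hC
            obtain ⟨M, hM⟩ := range_bounded hcyc
            exact mem_iUnion.2 ⟨M, ⟨γ, T, hcyc, har, hCr⟩, by rw [hCr]; exact hM⟩
          · intro hC
            obtain ⟨M, hC, _⟩ := mem_iUnion.1 hC
            exact hC
        conv_lhs => rw [h1]
        refine encard_iUnion_mono _ ?_
        intro M M' hMM C hC
        refine ⟨hC.1, hC.2.trans ?_⟩
        intro z hz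
        have : (M : ℝ) ≤ M' := by exact_mod_cast hMM
        exact ⟨hz.1.trans this, hz.2.trans this⟩
      · refine hm4 (fun (M : ℕ) α => (({C | C ∈ Orb (Y.rot α) 0 ∧ C ⊆ Box M M}.encard : ℕ∞) :
          ℝ≥0∞)) _ ?_ ?_
        · intro M M' α hMM
          refine ENat.toENNReal_le.2 (encard_le_encard ?_)
          intro C hC
          refine ⟨hC.1, hC.2.trans ?_⟩
          intro z hz
          have : (M : ℝ) ≤ M' := by exact_mod_cast hMM
          exact ⟨hz.1.trans this, hz.2.trans this⟩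
        · intro M
          refine hm1 _ _ _ _ ?_ le_rfl (hm2 _ _ _ _ hKs.le hKl.le (hs Y hY) (hl Y hY hY1 M))
          intro α _
          rw [← ENat.toENNReal_add]
          refine ENat.toENNReal_le.2 ((encard_le_encard ?_).trans (encard_union_le _ _))
          intro C hC
          by_cases h : C ⊆ Box (1 / 16 ^ 5) (1 / 16 ^ 5)
          · exact Or.inl ⟨hC.1, h⟩
          · exact Or.inr ⟨hC.1, hC.2, h⟩
    · push Not at hq
      obtain ⟨h1, h2, h3, h4, h5, h6⟩ := hq
      exact hm1 _ _ _ _ (fun α _ => le_rfl) (by positivity) (ha X p hp h1 h2 h3 h4 h5 h6)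
  · refine ⟨fun _ => 0, measurable_const, ?_, by simp⟩
    intro α _
    have : Orb (X.rot α) p = ∅ := by
      rw [eq_empty_iff_forall_notMem]
      rintro C ⟨γ, T, h1, h2, _⟩
      exact hex ⟨α, γ, T, h1, h2⟩
    simp only [this]
    simp

end

end Pool.Agent.H709Q
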