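import Pool.Agent.H709Q.Defs

open Real Set MeasureTheory Topology Filter
open scoped ENNReal

namespace Pool.Agent.H709Q

noncomputable section

open Pool.Agent.H709R2 (wedge ClosedOrbit)

/-- candidate centres -/
def T13bR (X : QF) : Set (ℝ × ℝ) :=
  {p : ℝ × ℝ | X.f p = 0 ∧ ∃ (α : ℝ) (γ : ℝ → ℝ × ℝ) (T : ℝ), Cyc (X.rot α) γ T ∧
    Around (X.rot α) p γ}

lemma T13b_rot_zero {α : ℝ} {v : ℝ × ℝ} (h : H709R2.rot α v = 0) : v = 0 := by
  have h1 : cos α * v.1 - sin α * v.2 = 0 := congrArg Prod.fst h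
  have h2 : sin α * v.1 + cos α * v.2 = 0 := congrArg Prod.snd h
  have hcs := sin_sq_add_cos_sq α
  have e1 : v.1 = 0 := by linear_combination cos α * h1 + sin α * h2 - v.1 * hcs
  have e2 : v.2 = 0 := by linear_combination cos α * h2 - sin α * h1 - v.2 * hcs
  exact Prod.ext e1 e2

lemma T13b_zero {X : QF} {α : ℝ} {p : ℝ × ℝ} (h : (X.rot α).f p = 0) : X.f p = 0 := by
  rw [QF.f_rot] at h
  exact T13b_rot_zero h

lemma T13b_rev {X : QF} {γ : ℝ → ℝ × ℝ} {T : ℝ} (h : Cyc X γ T) :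
    Cyc (X.rot π) (fun t => γ (-t)) T := by
  refine ⟨h.pos, ?_, ?_, ?_, ?_⟩
  · intro t
    have h1 : HasDerivAt (fun t : ℝ => -t) (-1) t := hasDerivAt_neg t
    have h2 := (h.ode (-t)).scomp t h1
    rw [QF.f_rot_pi]
    simpa [Function.comp_def] using h2
  · intro t
    have := h.per (-(t + T))
    show γ (-(t + T)) = γ (-t)
    rw [← this]
    congr 1
    ring
  · intro s t hst
    obtain ⟨k, hk⟩ := h.inj _ _ hst
    refine ⟨-k, ?_⟩
    push_cast
    linarith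
  · intro t
    rw [QF.f_rot_pi]
    exact neg_ne_zero.2 (h.ne _)

lemma T13b_range (γ : ℝ → ℝ × ℝ) : range (fun t => γ (-t)) = range γ := by
  ext z
  constructor
  · rintro ⟨t, rfl⟩
    exact ⟨-t, rfl⟩
  · rintro ⟨t, rfl⟩
    exact ⟨-t, by simp⟩

lemma T13b_encard (F : Finset (ℝ × ℝ)) (S : ℝ × ℝ → Set (Set (ℝ × ℝ))) :
    (((⋃ p ∈ F, S p).encard : ℕ∞) : ℝ≥0∞) ≤ ∑ p ∈ F, ((S p).encard : ℝ≥0∞) := by
  classical
  induction F using Finset.induction_on with
  | empty => simp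
  | insert a F ha ih =>
    rw [Finset.sum_insert ha]
    have h1 : (⋃ p ∈ insert a F, S p) = S a ∪ ⋃ p ∈ F, S p := by
      ext x; simp
    rw [h1]
    calc (((S a ∪ ⋃ p ∈ F, S p).encard : ℕ∞) : ℝ≥0∞)
        ≤ (((S a).encard + (⋃ p ∈ F, S p).encard : ℕ∞) : ℝ≥0∞) :=
          ENat.toENNReal_mono (Set.encard_union_le _ _)
      _ = ((S a).encard : ℝ≥0∞) + ((⋃ p ∈ F, S p).encard : ℝ≥0∞) := ENat.toENNReal_add _ _
      _ ≤ _ := by gcongr

lemma T13b_zeroMaj : Maj (fun _ => 0) 0 := by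
  refine ⟨fun _ => 0, measurable_const, fun _ _ => le_rfl, ?_⟩
  simp

lemma T13b_sum (h1 : MajRules) {K : ℝ} (hK : 0 < K) (N : ℝ × ℝ → ℝ → ℝ≥0∞) (F : Finset (ℝ × ℝ))
    (h : ∀ p ∈ F, Maj (N p) K) : Maj (fun α => ∑ p ∈ F, N p α) (F.card * K) := by
  classical
  induction F using Finset.induction_on with
  | empty => simpa using T13b_zeroMaj
  | insert a F ha ih =>
    have h2 := h1.2.1 (N a) (fun α => ∑ p ∈ F, N p α) K (F.card * K) hK.le (by positivity)
      (h a (Finset.mem_insert_self _ _)) (ih fun p hp => h p (Finset.mem_insert_of_mem hp))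
    have h3 : (fun α => ∑ p ∈ insert a F, N p α) = fun α => N a α + ∑ p ∈ F, N p α := by
      funext α
      rw [Finset.sum_insert ha]
    rw [h3, Finset.card_insert_of_notMem ha]
    have h4 : ((F.card + 1 : ℕ) : ℝ) * K = K + F.card * K := by push_cast; ring
    rw [h4]
    exact h2

lemma T13b_half (h1 : MajRules) (h5 : FewCentres) {K : ℝ} (hK : 0 < K)
    (h6 : ∀ (X : QF) (p : ℝ × ℝ), X.f p = 0 → Maj (fun α => ((Orb (X.rot α) p).encard : ℝ≥0∞)) K)
    (X : QF) :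
    Maj (fun α => (((⋃ p ∈ T13bR X, Orb (X.rot α) p).encard : ℕ∞) : ℝ≥0∞)) (4 * K) := by
  classical
  have h7 : (T13bR X).encard ≤ 4 := h5 X
  have hfin : (T13bR X).Finite := by
    apply Set.finite_of_encard_le_coe (k := 4)
    exact_mod_cast h7
  have hcard : hfin.toFinset.card ≤ 4 := by
    have h8 := hfin.encard_eq_coe_toFinset_card
    rw [h8] at h7
    exact_mod_cast h7
  have h9 := T13b_sum h1 hK (fun p α => ((Orb (X.rot α) p).encard : ℝ≥0∞)) hfin.toFinset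
    (fun p hp => h6 X p ((hfin.mem_toFinset.1 hp).1))
  refine h1.1 _ _ _ _ ?_ ?_ h9
  · intro α _
    have h10 := T13b_encard hfin.toFinset (fun p => Orb (X.rot α) p)
    simpa using h10
  · have : (hfin.toFinset.card : ℝ) ≤ 4 := by exact_mod_cast hcard
    nlinarith

theorem final : MajRules → MinimalPeriod → Convexity → ZeroInside → FewCentres → CentreBound →
    Final := by
  intro h1 h2 h3 h4 h5 h6
  obtain ⟨K, hK, h6⟩ := h6
  refine ⟨8 * K, by positivity, fun X => ?_⟩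
  have hA := T13b_half h1 h5 hK h6 X
  have hB := T13b_half h1 h5 hK h6 (X.rot π)
  have hAB := h1.2.1 _ _ _ _ (by positivity) (by positivity) hA hB
  refine h1.1 _ _ _ _ ?_ (by linarith) hAB
  intro α _
  have hsub : {C | ClosedOrbit (X.rot α).f C} ⊆
      (⋃ p ∈ T13bR X, Orb (X.rot α) p) ∪ ⋃ p ∈ T13bR (X.rot π), Orb ((X.rot π).rot α) p := by
    intro C hC
    obtain ⟨γ, T, hγ, rfl⟩ := h2 _ _ hC
    rcases h3 _ _ _ hγ with hc | hc
    · left
      obtain ⟨p, hp, hap⟩ := h4 _ _ _ hγ hc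
      simp only [mem_iUnion]
      exact ⟨p, ⟨T13b_zero hp, α, γ, T, hγ, hap⟩, γ, T, hγ, hap, rfl⟩
    · right
      have hγ' := T13b_rev hγ
      obtain ⟨p, hp, hap⟩ := h4 _ _ _ hγ' hc
      have e : (X.rot α).rot π = (X.rot π).rot α := by
        rw [QF.rot_rot, QF.rot_rot, add_comm]
      rw [e] at hγ' hap hp
      simp only [mem_iUnion]
      exact ⟨p, ⟨T13b_zero hp, α, _, T, hγ', hap⟩, _, T, hγ', hap, (T13b_range γ).symm⟩
  calc (({C | ClosedOrbit (X.rot α).f C}.encard : ℕ∞) : ℝ≥0∞)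
      ≤ ((((⋃ p ∈ T13bR X, Orb (X.rot α) p) ∪
          ⋃ p ∈ T13bR (X.rot π), Orb ((X.rot π).rot α) p).encard : ℕ∞) : ℝ≥0∞) :=
        ENat.toENNReal_mono (Set.encard_le_encard hsub)
    _ ≤ _ := by
      rw [← ENat.toENNReal_add]
      exact ENat.toENNReal_mono (Set.encard_union_le _ _)

end

end Pool.Agent.H709Q
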