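import Pool.Agent.H709Q.T8
import Pool.Agent.H709Q.T10
import Pool.Agent.H709Q.T11
import Pool.Agent.H709Q.T13a
import Pool.Agent.H709Q.T13b

/-! Versions of the bounds with explicit constants (following T10, T11, T13a by helper493 and
T13b by helper121). -/

open Real Set MeasureTheory Topology Filter
open scoped ENNReal

namespace Pool.Agent.H709Q

noncomputable section

open Pool.Agent.H709R2 (wedge ClosedOrbit psi)

/-- T10 with an explicit constant -/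
def SmallBoundK (K : ℝ) : Prop :=
  ∀ X : QF, NF X →
    Maj (fun α => (({C | C ∈ Orb (X.rot α) 0 ∧ C ⊆ Box (1 / 16 ^ 5) (1 / 16 ^ 5)}.encard : ℕ∞) :
      ℝ≥0∞)) K

/-- T11 with an explicit constant -/
def LargeBoundK (K : ℝ) : Prop :=
  ∀ X : QF, NF X → Q1 X → ∀ M : ℝ,
    Maj (fun α => (({C | C ∈ Orb (X.rot α) 0 ∧ C ⊆ Box M M ∧
      ¬ C ⊆ Box (1 / 16 ^ 5) (1 / 16 ^ 5)}.encard : ℕ∞) : ℝ≥0∞)) K

/-- T13a with an explicit constant -/
def CentreBoundK (K : ℝ) : Prop :=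
  ∀ (X : QF) (p : ℝ × ℝ), X.f p = 0 → Maj (fun α => ((Orb (X.rot α) p).encard : ℝ≥0∞)) K

/-- T13b with an explicit constant -/
def FinalK (K : ℝ) : Prop :=
  ∀ X : QF, Maj (fun α => (({C | ClosedOrbit (X.rot α).f C}.encard : ℕ∞) : ℝ≥0∞)) K

open T10 in
theorem smallBoundK (h8 : SmallOrbitsK (10 ^ 5)) (h9 : ClassBound) (hr : Rays) (hm : MajRules) :
    SmallBoundK 3300000 := by
  obtain ⟨hK0, h8⟩ := h8
  set K0 : ℝ := 10 ^ 5 with hK0def
  obtain ⟨hm1, hm2, hm3, hm4⟩ := hm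
  -- the numbers
  have hsum1 : Summable (fun j : ℕ => (1 / 2 : ℝ) ^ j) := summable_geometric_two
  have hsum2 : Summable (fun i : ℕ => (1 / 4 : ℝ) ^ i) :=
    summable_geometric_of_lt_one (by norm_num) (by norm_num)
  have hs1 : HasSum (fun j : ℕ => (1 / 2 : ℝ) ^ j) 2 := hasSum_geometric_two
  set S4 : ℝ := ∑' i : ℕ, (1 / 4 : ℝ) ^ i with hS4
  have hS4v : S4 = 4 / 3 := by
    rw [hS4, tsum_geometric_of_lt_one (by norm_num) (by norm_num)]
    norm_num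
  have hS40 : 0 ≤ S4 := tsum_nonneg (fun i => by positivity)
  intro X hX
  -- the bound for one class
  have hcls : ∀ i j : ℕ, Maj (fun α => ((Klass (X.rot α) (1 / 16 ^ (i + 5)) (1 / 16 ^ (j + 5))).encard
      : ℝ≥0∞)) (4 * K0 ^ 2 / 32768 * (1 / 2 : ℝ) ^ j * (1 / 4 : ℝ) ^ i) := by
    intro i j
    set A : ℝ := 1 / 16 ^ (i + 5) with hA
    set B : ℝ := 1 / 16 ^ (j + 5) with hB
    have hA0 : 0 < A := by positivity
    have hB0 : 0 < B := by positivity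
    set D : ℝ := K0 * ((1 / 4) ^ (i + 5) * (1 / 2) ^ (j + 5)) with hD
    have hD0 : 0 ≤ D := by positivity
    have hD4 : D ^ 4 = K0 ^ 4 * (A ^ 2 * B) := by
      rw [hD, hA, hB, mul_pow, mul_pow]
      congr 1
      have e1 : (((1 : ℝ) / 4) ^ (i + 5)) ^ 4 = (1 / 16 ^ (i + 5)) ^ 2 := by
        rw [← pow_mul, ← one_div_pow, ← pow_mul, mul_comm (i + 5) 4, mul_comm (i + 5) 2, pow_mul,
          pow_mul]
        norm_num
      have e2 : (((1 : ℝ) / 2) ^ (j + 5)) ^ 4 = 1 / 16 ^ (j + 5) := by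
        rw [← pow_mul, ← one_div_pow, mul_comm (j + 5) 4, pow_mul]
        norm_num
      rw [e1, e2]
    have h := h9 X A B D (A * B / K0) hA0 hB0 hD0 (by positivity) (by
      intro α _ γ T hcyc har hbox hx hy
      have hAle : A ≤ 1 / 16 ^ 5 := by
        rw [hA]
        exact one_div_le_one_div_of_le (by positivity) (pow_le_pow_right₀ (by norm_num) (by omega))
      have hBle : B ≤ 1 / 16 ^ 5 := by
        rw [hB]
        exact one_div_le_one_div_of_le (by positivity) (pow_le_pow_right₀ (by norm_num) (by omega))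
      obtain ⟨h1, h2⟩ := h8 (X.rot α) γ T A B (hX.rot α) hcyc har hA0 hAle hB0 hBle hbox hx hy
      refine ⟨h1, fun t => ?_⟩
      have h3 := h2 t
      rw [← hD4] at h3
      exact le_of_pow_le_pow_left₀ (by norm_num) hD0 h3)
    refine hm1 _ _ _ _ (fun α _ => le_rfl) ?_ h
    have e3 : D * (4 * A * B) / (A * B / K0) = 4 * K0 * D := by
      field_simp
    rw [e3, hD, pow_add, pow_add]
    have hp1 : (0 : ℝ) ≤ (1 / 4) ^ i := by positivity
    have hp2 : (0 : ℝ) ≤ (1 / 2) ^ j := by positivity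
    have e4 : 4 * K0 * (K0 * ((1 / 4) ^ i * (1 / 4) ^ 5 * ((1 / 2) ^ j * (1 / 2) ^ 5))) =
        (4 * K0 ^ 2 / 32768 * (1 / 2 : ℝ) ^ j * (1 / 4 : ℝ) ^ i) := by ring
    rw [e4]
  have hrow : ∀ i : ℕ, Maj (fun α => ∑' j : ℕ,
      ((Klass (X.rot α) (1 / 16 ^ (i + 5)) (1 / 16 ^ (j + 5))).encard : ℝ≥0∞))
      (4 * K0 ^ 2 / 32768 * 2 * (1 / 4 : ℝ) ^ i) := by
    intro i
    refine hm3 (fun j α => ((Klass (X.rot α) (1 / 16 ^ (i + 5)) (1 / 16 ^ (j + 5))).encard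
      : ℝ≥0∞)) (fun j => 4 * K0 ^ 2 / 32768 * (1 / 2 : ℝ) ^ j * (1 / 4 : ℝ) ^ i) _
      (fun j => by positivity) ?_ (hcls i)
    exact (hs1.mul_left _).mul_right _
  have hall : Maj (fun α => ∑' i : ℕ, ∑' j : ℕ,
      ((Klass (X.rot α) (1 / 16 ^ (i + 5)) (1 / 16 ^ (j + 5))).encard : ℝ≥0∞))
      (4 * K0 ^ 2 / 32768 * 2 * S4) := by
    refine hm3 (fun i α => ∑' j : ℕ,
      ((Klass (X.rot α) (1 / 16 ^ (i + 5)) (1 / 16 ^ (j + 5))).encard : ℝ≥0∞))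
      (fun i => 4 * K0 ^ 2 / 32768 * 2 * (1 / 4 : ℝ) ^ i) _ (fun i => by positivity) ?_ hrow
    exact hsum2.hasSum.mul_left _
  refine hm1 _ _ _ _ ?_ (by rw [hS4v, hK0def]; norm_num) hall
  intro α _
  have hsub : {C | C ∈ Orb (X.rot α) 0 ∧ C ⊆ Box (1 / 16 ^ 5) (1 / 16 ^ 5)} ⊆
      ⋃ i : ℕ, ⋃ j : ℕ, Klass (X.rot α) (1 / 16 ^ (i + 5)) (1 / 16 ^ (j + 5)) := by
    rintro C ⟨hC, hbox⟩
    obtain ⟨γ, T, hcyc, har, rfl⟩ := hC
    have hK := range_compact hcyc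
    have hne : (range γ).Nonempty := ⟨γ 0, 0, rfl⟩
    obtain ⟨z1, hz1, hmax1⟩ := hK.exists_isMaxOn hne
      (continuous_fst.abs.continuousOn (s := range γ))
    obtain ⟨z2, hz2, hmax2⟩ := hK.exists_isMaxOn hne
      (continuous_snd.abs.continuousOn (s := range γ))
    have hp1 : 0 < |z1.1| := by
      obtain ⟨t, r, hr0, ht⟩ := hr (X.rot α) γ T 0 hcyc har (1, 0) (by simp)
      have h1 : |(γ t).1| ≤ |z1.1| := hmax1 ⟨t, rfl⟩
      rw [ht] at h1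
      simp only [Prod.smul_mk, smul_eq_mul, mul_one, zero_add] at h1
      rw [abs_of_pos hr0] at h1
      linarith
    have hp2 : 0 < |z2.2| := by
      obtain ⟨t, r, hr0, ht⟩ := hr (X.rot α) γ T 0 hcyc har (0, 1) (by simp)
      have h1 : |(γ t).2| ≤ |z2.2| := hmax2 ⟨t, rfl⟩
      rw [ht] at h1
      simp only [Prod.smul_mk, smul_eq_mul, mul_one, zero_add] at h1
      rw [abs_of_pos hr0] at h1
      linarith
    obtain ⟨i, hi1, hi2⟩ := scale hp1 (hbox hz1).1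
    obtain ⟨j, hj1, hj2⟩ := scale hp2 (hbox hz2).2
    refine mem_iUnion.2 ⟨i, mem_iUnion.2 ⟨j, ⟨γ, T, hcyc, har, rfl⟩, ?_, ⟨z1, hz1, hi2⟩,
      ⟨z2, hz2, hj2⟩⟩⟩
    intro z hz
    exact ⟨(hmax1 hz).trans hi1, (hmax2 hz).trans hj1⟩
  refine (ENat.toENNReal_le.2 (encard_le_encard hsub)).trans ?_
  refine (encard_iUnion_le _).trans (ENNReal.tsum_le_tsum fun i => encard_iUnion_le _)


namespace T11

/-- the lower bound for the spherical diameter -/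
def d1 : ℝ := 1 / 16 ^ 5 / 3

lemma d1_pos : 0 < d1 := by unfold d1; positivity

lemma le_of' {z w : ℝ × ℝ} (h : d1 ^ 2 * ((1 + H709R2.sq z) * (1 + H709R2.sq w)) ≤ H709R2.sq (z - w)) :
    d1 ≤ √(psi z * psi w * H709R2.sq (z - w)) := by
  refine Real.le_sqrt_of_sq_le ?_
  have h1 : 0 < 1 + H709R2.sq z := H709R2.one_add_sq_pos z
  have h2 : 0 < 1 + H709R2.sq w := H709R2.one_add_sq_pos w
  unfold psi
  rw [← mul_inv, inv_mul_eq_div, le_div_iff₀ (by positivity)]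
  exact h

lemma chord' (X : QF) (γ : ℝ → ℝ × ℝ) (T : ℝ) (hr : Rays) (hcyc : Cyc X γ T)
    (har : Around X 0 γ) (t₀ : ℝ) (h0 : H709R2.sq (γ t₀) ≤ 1000 ^ 2)
    (hbig : ¬ range γ ⊆ Box (1 / 16 ^ 5) (1 / 16 ^ 5)) :
    ∃ p ∈ range γ, ∃ q ∈ range γ, d1 ≤ √(psi p * psi q * H709R2.sq (p - q)) := by
  have hd : d1 ^ 2 = (1 / 16 ^ 5) ^ 2 / 9 := by unfold d1; ring
  have hd' : d1 ^ 2 = 1 / 9895604649984 := by unfold d1; norm_num
  rw [not_subset] at hbig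
  obtain ⟨_, ⟨t₁, rfl⟩, hbig⟩ := hbig
  have h1 : (1 / 16 ^ 5) ^ 2 ≤ H709R2.sq (γ t₁) := by
    unfold Box at hbig
    rw [mem_setOf_eq, not_and_or, not_le, not_le] at hbig
    unfold H709R2.sq
    rcases hbig with h | h
    · have := pow_le_pow_left₀ (by positivity) h.le 2
      rw [sq_abs] at this
      nlinarith [sq_nonneg (γ t₁).2]
    · have := pow_le_pow_left₀ (by positivity) h.le 2
      rw [sq_abs] at this
      nlinarith [sq_nonneg (γ t₁).1]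
  by_cases hc : H709R2.sq (γ t₀) ≤ 9 / 4 * d1 ^ 2
  · refine ⟨γ t₀, ⟨t₀, rfl⟩, γ t₁, ⟨t₁, rfl⟩, le_of' ?_⟩
    have h2 : H709R2.sq (γ t₁) / 4 ≤ H709R2.sq (γ t₀ - γ t₁) := by
      have h3 : H709R2.sq (γ t₀) ≤ H709R2.sq (γ t₁) / 4 := by linarith
      have h4 : H709R2.sq (γ t₀ - γ t₁) = H709R2.sq (γ t₁) / 2 - H709R2.sq (γ t₀) +
          (((γ t₁).1 / 2 - (γ t₀).1) ^ 2 + ((γ t₁).2 / 2 - (γ t₀).2) ^ 2) * 2 := by
        unfold H709R2.sq
        simp only [Prod.fst_sub, Prod.snd_sub]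
        ring
      rw [h4]
      have h5 : 0 ≤ (((γ t₁).1 / 2 - (γ t₀).1) ^ 2 + ((γ t₁).2 / 2 - (γ t₀).2) ^ 2) * 2 := by
        positivity
      linarith
    refine le_trans ?_ h2
    have h6 : 0 ≤ H709R2.sq (γ t₀) := sq_nn _
    have h7 : 0 ≤ H709R2.sq (γ t₁) := sq_nn _
    have h8 : (1 + H709R2.sq (γ t₀)) * (1 + H709R2.sq (γ t₁)) ≤ 2 * (1 + H709R2.sq (γ t₁)) :=
      mul_le_mul_of_nonneg_right (by rw [hd'] at hc; linarith) (by linarith)
    have h9 : d1 ^ 2 * ((1 + H709R2.sq (γ t₀)) * (1 + H709R2.sq (γ t₁))) ≤ d1 ^ 2 * (2 * (1 + H709R2.sq (γ t₁))) :=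
      mul_le_mul_of_nonneg_left h8 (by positivity)
    refine h9.trans ?_
    have h10 : d1 ^ 2 * (2 * (1 + H709R2.sq (γ t₁))) = 2 * d1 ^ 2 + 2 * d1 ^ 2 * H709R2.sq (γ t₁) := by ring
    rw [h10]
    have h11 : 2 * d1 ^ 2 * H709R2.sq (γ t₁) ≤ H709R2.sq (γ t₁) / 100 := by
      rw [hd']; linarith
    linarith
  · push Not at hc
    have hne : -γ t₀ ≠ 0 := by
      intro h
      rw [neg_eq_zero] at h
      rw [h] at hc
      have h2 : H709R2.sq (0 : ℝ × ℝ) = 0 := by simp [H709R2.sq]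
      rw [h2, hd'] at hc
      norm_num at hc
    obtain ⟨t, r, hr0, ht⟩ := hr X γ T 0 hcyc har (-γ t₀) hne
    refine ⟨γ t₀, ⟨t₀, rfl⟩, γ t, ⟨t, rfl⟩, le_of' ?_⟩
    have h2 : H709R2.sq (γ t) = r ^ 2 * H709R2.sq (γ t₀) := by
      rw [ht]; unfold H709R2.sq
      simp only [zero_add, Prod.smul_fst, Prod.smul_snd, Prod.fst_neg, Prod.snd_neg, smul_eq_mul]
      ring
    have h3 : H709R2.sq (γ t₀ - γ t) = (1 + r) ^ 2 * H709R2.sq (γ t₀) := by
      rw [ht]; unfold H709R2.sq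
      simp only [zero_add, Prod.smul_fst, Prod.smul_snd, Prod.fst_neg, Prod.snd_neg, smul_eq_mul,
        Prod.fst_sub, Prod.snd_sub]
      ring
    have hU : 0 ≤ H709R2.sq (γ t₀) := sq_nn _
    have hV : 0 ≤ H709R2.sq (γ t) := sq_nn _
    have h4 : H709R2.sq (γ t₀) + H709R2.sq (γ t) ≤ H709R2.sq (γ t₀ - γ t) := by
      rw [h2, h3]
      nlinarith [mul_nonneg hr0.le hU]
    refine le_trans ?_ h4
    by_cases hV1 : H709R2.sq (γ t) ≤ 1
    · have h8 : (1 + H709R2.sq (γ t₀)) * (1 + H709R2.sq (γ t)) ≤ (1 + H709R2.sq (γ t₀)) * 2 :=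
        mul_le_mul_of_nonneg_left (by linarith) (by linarith)
      have h9 : d1 ^ 2 * ((1 + H709R2.sq (γ t₀)) * (1 + H709R2.sq (γ t))) ≤ d1 ^ 2 * ((1 + H709R2.sq (γ t₀)) * 2) :=
        mul_le_mul_of_nonneg_left h8 (by positivity)
      refine h9.trans ?_
      have h10 : d1 ^ 2 * ((1 + H709R2.sq (γ t₀)) * 2) = 2 * d1 ^ 2 + 2 * d1 ^ 2 * H709R2.sq (γ t₀) := by ring
      rw [h10]
      have h11 : 2 * d1 ^ 2 * H709R2.sq (γ t₀) ≤ H709R2.sq (γ t₀) / 100 := by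
        rw [hd']; linarith
      linarith
    · push Not at hV1
      have h8 : (1 + H709R2.sq (γ t₀)) * (1 + H709R2.sq (γ t)) ≤ (1 + 1000 ^ 2) * (2 * H709R2.sq (γ t)) :=
        mul_le_mul (by linarith) (by linarith) (by linarith) (by norm_num)
      have h9 : d1 ^ 2 * ((1 + H709R2.sq (γ t₀)) * (1 + H709R2.sq (γ t))) ≤
          d1 ^ 2 * ((1 + 1000 ^ 2) * (2 * H709R2.sq (γ t))) :=
        mul_le_mul_of_nonneg_left h8 (by positivity)
      refine h9.trans ?_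
      rw [hd']
      linarith

end T11

open T11 in
theorem largeBoundK (hr : Rays) (hp : Pinch) : LargeBoundK 93200000 := by
  intro X hX hX1 M
  have hnum : π ^ 2 * ((2 : ℕ) + 1) / d1 ≤ 93200000 := by
    have h1 := Real.pi_lt_d4
    have h2 := Real.pi_pos
    have h3 : π ^ 2 ≤ 3.1416 ^ 2 := by gcongr
    unfold d1
    push_cast
    rw [div_le_iff₀ (by positivity)]
    norm_num at h3 ⊢
    linarith
  obtain ⟨g, hg1, hg2, hg3⟩ := H709R2.thmAplus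
    (deg_poly X.a0 X.a1 X.a2 X.a3 X.a4 X.a5) (deg_poly X.b0 X.b1 X.b2 X.b3 X.b4 X.b5)
    (isCompact_Box M) d1_pos
  refine ⟨g, hg1, fun α hα => ?_, (setLIntegral_le_lintegral _ _).trans
    (hg3.trans (ENNReal.ofReal_le_ofReal hnum))⟩
  refine le_trans (ENat.toENNReal_le.2 (encard_le_encard ?_)) (hg2 α hα)
  rintro C ⟨hC, hbox, hbig⟩
  obtain ⟨γ, T, hcyc, har, rfl⟩ := hC
  refine ⟨⟨γ, T, hcyc.pos, fun t => ?_, hcyc.per, ⟨0, T / 2, fun h => ?_⟩, rfl⟩, hbox, ?_⟩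
  · have h := hcyc.ode t
    rw [QF.f_rot, ← field_eq X] at h
    exact h
  · obtain ⟨k, hk⟩ := hcyc.inj _ _ h
    have h1 : (2 * k + 1 : ℝ) * T = 0 := by linarith
    have h2 := hcyc.pos
    rcases mul_eq_zero.1 h1 with h3 | h3
    · have h4 : (2 * k + 1 : ℤ) = 0 := by exact_mod_cast h3
      omega
    · linarith
  · obtain ⟨t, ht⟩ := hp (X.rot α) γ T (hX.rot α) (hX1.rot α) hcyc har
    exact chord' (X.rot α) γ T hr hcyc har t ht hbig


open T13a in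
theorem centreBoundK (hm : MajRules) {Ks Kl : ℝ} (hKs : 0 < Ks) (hs : SmallBoundK Ks)
    (hKl : 0 < Kl) (hl : LargeBoundK Kl) (hr : Reduction)
    (ha : AffineCase) : CentreBoundK (Ks + Kl) := by
  obtain ⟨hm1, hm2, hm3, hm4⟩ := hm
  intro X p hp
  by_cases hex : ∃ (α : ℝ) (γ : ℝ → ℝ × ℝ) (T : ℝ), Cyc (X.rot α) γ T ∧ Around (X.rot α) p γ
  · by_cases hq : X.a3 ≠ 0 ∨ X.a4 ≠ 0 ∨ X.a5 ≠ 0 ∨ X.b3 ≠ 0 ∨ X.b4 ≠ 0 ∨ X.b5 ≠ 0
    · obtain ⟨Y, hY, hY1, hYα⟩ := hr X p hp hex hq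
      refine hm1 _ (fun α => ⨆ M : ℕ, (({C | C ∈ Orb (Y.rot α) 0 ∧ C ⊆ Box M M}.encard : ℕ∞) :
        ℝ≥0∞)) _ (Ks + Kl) ?_ le_rfl ?_
      · intro α _
        refine (ENat.toENNReal_le.2 (hYα α)).trans ?_
        have h1 : Orb (Y.rot α) 0 = ⋃ M : ℕ, {C | C ∈ Orb (Y.rot α) 0 ∧ C ⊆ Box M M} := by
          ext C
          constructor
          · intro hC
            obtain ⟨γ, T, hcyc, har, hCr⟩ := hC
            obtain ⟨M, hM⟩ := range_bounded hcyc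
            exact mem_iUnion.2 ⟨M, ⟨γ, T, hcyc, har, hCr⟩, by rw [hCr]; exact hM⟩
          · intro hC
            obtain ⟨M, hC, _⟩ := mem_iUnion.1 hC
            exact hC
        conv_lhs => rw [h1]
        refine encard_iUnion_mono _ ?_
        intro M M' hMM C hC
        refine ⟨hC.1, hC.2.trans ?_⟩
        intro z hz
        have : (M : ℝ) ≤ M' := by exact_mod_cast hMM
        exact ⟨hz.1.trans this, hz.2.trans this⟩
      · refine hm4 (fun (M : ℕ) α => (({C | C ∈ Orb (Y.rot α) 0 ∧ C ⊆ Box M M}.encard : ℕ∞) :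
          ℝ≥0∞)) _ ?_ ?_
        · intro M M' α hMM
          refine ENat.toENNReal_le.2 (encard_le_encard ?_)
          intro C hC
          refine ⟨hC.1, hC.2.trans ?_⟩
          intro z hz
          have : (M : ℝ) ≤ M' := by exact_mod_cast hMM
          exact ⟨hz.1.trans this, hz.2.trans this⟩
        · intro M
          refine hm1 _ _ _ _ ?_ le_rfl (hm2 _ _ _ _ hKs.le hKl.le (hs Y hY) (hl Y hY hY1 M))
          intro α _
          rw [← ENat.toENNReal_add]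
          refine ENat.toENNReal_le.2 ((encard_le_encard ?_).trans (encard_union_le _ _))
          intro C hC
          by_cases h : C ⊆ Box (1 / 16 ^ 5) (1 / 16 ^ 5)
          · exact Or.inl ⟨hC.1, h⟩
          · exact Or.inr ⟨hC.1, hC.2, h⟩
    · push Not at hq
      obtain ⟨h1, h2, h3, h4, h5, h6⟩ := hq
      exact hm1 _ _ _ _ (fun α _ => le_rfl) (by positivity) (ha X p hp h1 h2 h3 h4 h5 h6)
  · refine ⟨fun _ => 0, measurable_const, ?_, by simp⟩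
    intro α _
    have : Orb (X.rot α) p = ∅ := by
      rw [eq_empty_iff_forall_notMem]
      rintro C ⟨γ, T, h1, h2, _⟩
      exact hex ⟨α, γ, T, h1, h2⟩
    simp only [this]
    simp


theorem finalK (h1 : MajRules) (h2 : MinimalPeriod) (h3 : Convexity) (h4 : ZeroInside)
    (h5 : FewCentres) {K : ℝ} (hK : 0 < K) (h6 : CentreBoundK K) : FinalK (8 * K) := by
  intro X
  have hA := T13b_half h1 h5 hK h6 X
  have hB := T13b_half h1 h5 hK h6 (X.rot π)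
  have hAB := h1.2.1 _ _ _ _ (by positivity) (by positivity) hA hB
  refine h1.1 _ _ _ _ ?_ (by linarith) hAB
  intro α _
  have hsub : {C | ClosedOrbit (X.rot α).f C} ⊆
      (⋃ p ∈ T13bR X, Orb (X.rot α) p) ∪ ⋃ p ∈ T13bR (X.rot π), Orb ((X.rot π).rot α) p := by
    intro C hC
    obtain ⟨γ, T, hγ, rfl⟩ := h2 _ _ hC
    rcases h3 _ _ _ hγ with hc | hc
    · left
      obtain ⟨p, hp, hap⟩ := h4 _ _ _ hγ hc
      simp only [mem_iUnion]
      exact ⟨p, ⟨T13b_zero hp, α, γ, T, hγ, hap⟩, γ, T, hγ, hap, rfl⟩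
    · right
      have hγ' := T13b_rev hγ
      obtain ⟨p, hp, hap⟩ := h4 _ _ _ hγ' hc
      have e : (X.rot α).rot π = (X.rot π).rot α := by
        rw [QF.rot_rot, QF.rot_rot, add_comm]
      rw [e] at hγ' hap hp
      simp only [mem_iUnion]
      exact ⟨p, ⟨T13b_zero hp, α, _, T, hγ', hap⟩, _, T, hγ', hap, (T13b_range γ).symm⟩
  calc (({C | ClosedOrbit (X.rot α).f C}.encard : ℕ∞) : ℝ≥0∞)
      ≤ ((((⋃ p ∈ T13bR X, Orb (X.rot α) p) ∪
          ⋃ p ∈ T13bR (X.rot π), Orb ((X.rot π).rot α) p).encard : ℕ∞) : ℝ≥0∞) :=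
        ENat.toENNReal_mono (Set.encard_le_encard hsub)
    _ ≤ _ := by
      rw [← ENat.toENNReal_add]
      exact ENat.toENNReal_mono (Set.encard_union_le _ _)

end

end Pool.Agent.H709Q
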