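import Pool.Agent.H709Q.Assem
import Pool.Agent.H709R2.WFin

/-! Measurability and the final form. -/

open Real Set MeasureTheory Topology Filter
open scoped ENNReal

namespace Pool.Agent.H709Q

noncomputable section

open Pool.Agent.H709R2 (wedge ClosedOrbit psi)

/-- exponents of degree at most two -/
def S2 : Finset (ℕ × ℕ) := {(0, 0), (1, 0), (0, 1), (2, 0), (1, 1), (0, 2)}

/-- index of an exponent -/
def idx (m : ℕ × ℕ) : Fin 6 :=
  if m = (0, 0) then 0 else if m = (1, 0) then 1 else if m = (0, 1) then 2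
  else if m = (2, 0) then 3 else if m = (1, 1) then 4 else 5

/-- coefficients indexed by exponents -/
def toS (c : Fin 6 → ℝ × ℝ) (m : S2) : ℝ × ℝ := c (idx m.1)

/-- the field with six coefficient vectors -/
def qf (c : Fin 6 → ℝ × ℝ) (z : ℝ × ℝ) : ℝ × ℝ :=
  c 0 + z.1 • c 1 + z.2 • c 2 + z.1 ^ 2 • c 3 + (z.1 * z.2) • c 4 + z.2 ^ 2 • c 5

/-- the corresponding `QF` -/
def toQF (c : Fin 6 → ℝ × ℝ) : QF where
  a0 := (c 0).1
  a1 := (c 1).1
  a2 := (c 2).1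
  a3 := (c 3).1
  a4 := (c 4).1
  a5 := (c 5).1
  b0 := (c 0).2
  b1 := (c 1).2
  b2 := (c 2).2
  b3 := (c 3).2
  b4 := (c 4).2
  b5 := (c 5).2

lemma toQF_f (c : Fin 6 → ℝ × ℝ) : (toQF c).f = qf c := by
  ext z <;> simp [QF.f, qf, toQF] <;> ring

lemma fld_toS (c : Fin 6 → ℝ × ℝ) : H709R2.fld (toS c) = qf c := by
  funext z
  unfold H709R2.fld qf
  have h : ∑ m : S2, (z.1 ^ m.1.1 * z.2 ^ m.1.2) • toS c m =
      ∑ m ∈ S2, (z.1 ^ m.1 * z.2 ^ m.2) • c (idx m) :=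
    Finset.sum_coe_sort S2 (fun m : ℕ × ℕ => (z.1 ^ m.1 * z.2 ^ m.2) • c (idx m))
  rw [h]
  unfold S2
  rw [Finset.sum_insert (by decide), Finset.sum_insert (by decide), Finset.sum_insert (by decide),
    Finset.sum_insert (by decide), Finset.sum_insert (by decide), Finset.sum_singleton]
  have i0 : idx (0, 0) = 0 := by decide
  have i1 : idx (1, 0) = 1 := by decide
  have i2 : idx (0, 1) = 2 := by decide
  have i3 : idx (2, 0) = 3 := by decide
  have i4 : idx (1, 1) = 4 := by decide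
  have i5 : idx (0, 2) = 5 := by decide
  rw [i0, i1, i2, i3, i4, i5]
  simp only [pow_zero, pow_one, mul_one, one_mul, one_smul]
  abel

/-- number of closed orbits -/
def NQ (c : Fin 6 → ℝ × ℝ) : ℝ≥0∞ :=
  (({C : Set (ℝ × ℝ) | ClosedOrbit (qf c) C}.encard : ℕ∞) : ℝ≥0∞)

lemma measurable_NQ : Measurable NQ := by
  have h1 : Measurable (toS : (Fin 6 → ℝ × ℝ) → (S2 → ℝ × ℝ)) :=
    measurable_pi_lambda _ fun m => measurable_pi_apply _
  have h2 : NQ = fun c => H709R2.NP (toS c) := by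
    funext c
    unfold NQ H709R2.NP
    rw [fld_toS]
  rw [h2]
  exact H709R2.measurable_NP.comp h1

/-- rotation of the coefficients -/
def rc (α : ℝ) (c : Fin 6 → ℝ × ℝ) : Fin 6 → ℝ × ℝ := fun i => H709R2.rot α (c i)

lemma continuous_rc : Continuous fun q : ℝ × (Fin 6 → ℝ × ℝ) => rc q.1 q.2 := by
  unfold rc H709R2.rot
  fun_prop

lemma qf_rc (α : ℝ) (c : Fin 6 → ℝ × ℝ) (z : ℝ × ℝ) : qf (rc α c) z = H709R2.rot α (qf c z) := by
  unfold qf rc H709R2.rot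
  ext <;> simp <;> ring

lemma NQ_rc (α : ℝ) (c : Fin 6 → ℝ × ℝ) : NQ (rc α c) = NR (toQF c) α := by
  unfold NQ NR
  have : qf (rc α c) = ((toQF c).rot α).f := by
    funext z
    rw [qf_rc, QF.f_rot, toQF_f]
  rw [this]

theorem main_single (c : Fin 6 → ℝ × ℝ) : Measurable (fun α => NQ (rc α c)) ∧
    ∫⁻ α in Ioc 0 (2 * π), NQ (rc α c) ≤ ENNReal.ofReal (1544 * 10 ^ 6) := by
  refine ⟨measurable_NQ.comp (continuous_rc.comp (continuous_id.prodMk continuous_const)).measurable,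
    ?_⟩
  simp only [NQ_rc]
  exact full_le _

theorem main_measure (μ : Measure (Fin 6 → ℝ × ℝ)) [IsProbabilityMeasure μ]
    (hμ : ∀ α, μ.map (rc α) = μ) : ∫⁻ c, NQ c ∂μ ≤ ENNReal.ofReal (246 * 10 ^ 6) := by
  have hm : ∀ α, Measurable (rc α) := fun α =>
    (continuous_rc.comp (continuous_const.prodMk continuous_id)).measurable
  have h1 : ∀ α, ∫⁻ c, NQ (rc α c) ∂μ = ∫⁻ c, NQ c ∂μ := by
    intro α
    conv_rhs => rw [← hμ α]
    rw [lintegral_map measurable_NQ (hm α)]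
  have h2 : ∫⁻ α in Ioc 0 (2 * π), (∫⁻ c, NQ (rc α c) ∂μ) =
      ∫⁻ c, (∫⁻ α in Ioc 0 (2 * π), NQ (rc α c)) ∂μ := by
    apply lintegral_lintegral_swap
    exact (measurable_NQ.comp continuous_rc.measurable).aemeasurable
  have h3 : ∫⁻ c, (∫⁻ α in Ioc 0 (2 * π), NQ (rc α c)) ∂μ ≤ ENNReal.ofReal (1544 * 10 ^ 6) := by
    calc ∫⁻ c, (∫⁻ α in Ioc 0 (2 * π), NQ (rc α c)) ∂μ
        ≤ ∫⁻ _c, ENNReal.ofReal (1544 * 10 ^ 6) ∂μ := lintegral_mono fun c => (main_single c).2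
      _ = ENNReal.ofReal (1544 * 10 ^ 6) := by simp
  rw [← h2] at h3
  simp only [h1] at h3
  rw [setLIntegral_const, Real.volume_Ioc, sub_zero] at h3
  have hpi : 0 < 2 * π := by positivity
  have h4 : ∫⁻ c, NQ c ∂μ ≤ ENNReal.ofReal (1544 * 10 ^ 6) / ENNReal.ofReal (2 * π) := by
    rw [ENNReal.le_div_iff_mul_le (Or.inl (ENNReal.ofReal_pos.2 hpi).ne')
      (Or.inl ENNReal.ofReal_ne_top)]
    exact h3
  refine h4.trans ?_
  rw [← ENNReal.ofReal_div_of_pos hpi]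
  apply ENNReal.ofReal_le_ofReal
  rw [div_le_iff₀ hpi]
  have := Real.pi_gt_d2
  norm_num at *
  linarith

end

end Pool.Agent.H709Q
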