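import Pool.Agent.H709Q.Defs

/-! Local lemmas for the convexity of closed orbits of quadratic vector fields. -/

open Real Set MeasureTheory Topology Filter
open scoped ENNReal

namespace Pool.Agent.H709Q

open Pool.Agent.H709R2 (wedge ClosedOrbit)

lemma hasDerivAt_wedge_const (v : ℝ × ℝ) {g : ℝ → ℝ × ℝ} {g' : ℝ × ℝ} {t : ℝ}
    (h : HasDerivAt g g' t) : HasDerivAt (fun t => wedge v (g t)) (wedge v g') t := by
  have h1 : HasDerivAt (fun t => (g t).1) g'.1 t :=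
    (hasFDerivAt_fst (𝕜 := ℝ) (p := g t)).comp_hasDerivAt t h
  have h2 : HasDerivAt (fun t => (g t).2) g'.2 t :=
    (hasFDerivAt_snd (𝕜 := ℝ) (p := g t)).comp_hasDerivAt t h
  unfold wedge
  exact (h2.const_mul v.1).sub (h1.const_mul v.2)

lemma loc_pos {h h' : ℝ → ℝ} {t₁ a : ℝ} (hd : ∀ t, HasDerivAt h (h' t) t)
    (hd2 : HasDerivAt h' a t₁) (h0 : h t₁ = 0) (h1 : h' t₁ = 0) (ha : 0 < a) :
    ∃ ε > 0, ∀ t, t ≠ t₁ → |t - t₁| < ε → 0 < h t := by
  have hs := (hasDerivAt_iff_tendsto_slope.1 hd2).eventually (lt_mem_nhds ha)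
  rw [eventually_nhdsWithin_iff, Metric.eventually_nhds_iff] at hs
  obtain ⟨ε, hε, hs⟩ := hs
  refine ⟨ε, hε, fun t ht hte => ?_⟩
  have key : ∀ y, y ≠ t₁ → |y - t₁| < ε → 0 < (y - t₁)⁻¹ * h' y := by
    intro y hy hye
    have := hs (by rw [Real.dist_eq]; exact hye) hy
    rw [slope_def_field, h1, sub_zero, div_eq_inv_mul] at this
    exact this
  rcases lt_or_gt_of_ne ht with hlt | hgt
  · obtain ⟨c, hc, hc'⟩ := exists_hasDerivAt_eq_slope h h' hlt
      (fun x _ => (hd x).continuousAt.continuousWithinAt) (fun x _ => hd x)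
    have hk := key c hc.2.ne (by
      rw [abs_lt] at hte ⊢
      constructor <;> linarith [hc.1, hc.2])
    have hneg : (c - t₁)⁻¹ < 0 := inv_lt_zero.2 (by linarith [hc.2])
    have h2 : h' c < 0 := by
      by_contra hcon
      push Not at hcon
      nlinarith [mul_nonneg_of_nonpos_of_nonpos hneg.le (neg_nonpos.2 hcon)]
    rw [hc', h0, zero_sub] at h2
    have h3 : 0 < t₁ - t := by linarith
    rw [div_neg_iff] at h2
    rcases h2 with h2 | h2
    · linarith [h2.2]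
    · linarith [h2.1]
  · obtain ⟨c, hc, hc'⟩ := exists_hasDerivAt_eq_slope h h' hgt
      (fun x _ => (hd x).continuousAt.continuousWithinAt) (fun x _ => hd x)
    have hk := key c hc.1.ne' (by
      rw [abs_lt] at hte ⊢
      constructor <;> linarith [hc.1, hc.2])
    have hpos : 0 < (c - t₁)⁻¹ := inv_pos.2 (by linarith [hc.1])
    have h2 : 0 < h' c := (mul_pos_iff_of_pos_left hpos).1 hk
    rw [hc', h0, sub_zero] at h2
    have h3 : 0 < t - t₁ := by linarith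
    exact (div_pos_iff_of_pos_right h3).1 h2

lemma loc_neg {h h' : ℝ → ℝ} {t₁ a : ℝ} (hd : ∀ t, HasDerivAt h (h' t) t)
    (hd2 : HasDerivAt h' a t₁) (h0 : h t₁ = 0) (h1 : h' t₁ = 0) (ha : a < 0) :
    ∃ ε > 0, ∀ t, t ≠ t₁ → |t - t₁| < ε → h t < 0 := by
  obtain ⟨ε, hε, h⟩ := loc_pos (h := fun t => - h t) (h' := fun t => - h' t) (a := -a)
    (fun t => (hd t).neg) hd2.neg (by simp [h0]) (by simp [h1]) (by linarith)
  exact ⟨ε, hε, fun t ht hte => by have := h t ht hte; linarith⟩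

lemma par {v u : ℝ × ℝ} (hv : v ≠ 0) (h : wedge v u = 0) : ∃ c : ℝ, u = c • v := by
  unfold wedge at h
  have hvv : 0 < v.1 ^ 2 + v.2 ^ 2 := by
    rcases (not_and_or.1 fun hh : v.1 = 0 ∧ v.2 = 0 => hv (Prod.ext hh.1 hh.2)) with h1 | h1
    · have := sq_nonneg v.2
      have := pow_pos (abs_pos.2 h1) 2
      rw [sq_abs] at this
      linarith
    · have := sq_nonneg v.1
      have := pow_pos (abs_pos.2 h1) 2
      rw [sq_abs] at this
      linarith
  refine ⟨(v.1 * u.1 + v.2 * u.2) / (v.1 ^ 2 + v.2 ^ 2), ?_⟩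
  ext
  · simp only [Prod.smul_fst, smul_eq_mul]
    rw [div_mul_eq_mul_div, eq_div_iff hvv.ne']
    linear_combination (-v.2) * h
  · simp only [Prod.smul_snd, smul_eq_mul]
    rw [div_mul_eq_mul_div, eq_div_iff hvv.ne']
    linear_combination v.1 * h

/-- the tangent line at `z₀` meets the curve again tangentially -/
lemma dbl (X : QF) (z₀ z₁ : ℝ × ℝ) (h0 : X.f z₀ ≠ 0) (h1 : X.f z₁ ≠ 0) (hne : z₁ ≠ z₀)
    (hw : wedge (X.f z₀) (z₁ - z₀) = 0) (hw' : wedge (X.f z₀) (X.f z₁) = 0) :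
    ∃ c s : ℝ, c ≠ 0 ∧ X.f z₁ = c • X.f z₀ ∧ z₁ = z₀ + s • X.f z₀ ∧
      wedge (X.f z₀) (X.D z₁ (X.f z₁)) = - (c * X.curv z₀) := by
  obtain ⟨c, hc⟩ := par h0 hw'
  obtain ⟨s, hs⟩ := par h0 hw
  have hz : z₁ = z₀ + s • X.f z₀ := by rw [← hs]; abel
  have hs0 : s ≠ 0 := by
    rintro rfl
    rw [zero_smul, add_zero] at hz
    exact hne hz
  have hc0 : c ≠ 0 := by
    rintro rfl
    rw [zero_smul] at hc
    exact h1 hc
  refine ⟨c, s, hc0, hc, hz, ?_⟩
  -- the quadratic polynomial along the line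
  have hq : s * X.curv z₀ + s ^ 2 * wedge (X.f z₀) (X.qd (X.f z₀)) = 0 := by
    have h2 : wedge (X.f z₀) (X.f z₁) =
        s * X.curv z₀ + s ^ 2 * wedge (X.f z₀) (X.qd (X.f z₀)) := by
      rw [hz, QF.f_add]
      unfold QF.curv
      generalize X.f z₀ = v
      unfold wedge QF.D QF.qd
      simp only [Prod.fst_add, Prod.snd_add, Prod.smul_fst, Prod.smul_snd, smul_eq_mul]
      ring
    rw [← h2, hw']
  have hq' : X.curv z₀ + s * wedge (X.f z₀) (X.qd (X.f z₀)) = 0 := by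
    have : s * (X.curv z₀ + s * wedge (X.f z₀) (X.qd (X.f z₀))) = 0 := by
      linear_combination hq
    exact (mul_eq_zero.1 this).resolve_left hs0
  have h3 : wedge (X.f z₀) (X.D z₁ (X.f z₁)) =
      c * (X.curv z₀ + 2 * s * wedge (X.f z₀) (X.qd (X.f z₀))) := by
    rw [hc, hz]
    unfold QF.curv
    generalize X.f z₀ = v
    unfold wedge QF.D QF.qd
    simp only [Prod.fst_add, Prod.snd_add, Prod.smul_fst, Prod.smul_snd, smul_eq_mul]
    ring
  rw [h3]
  linear_combination 2 * c * hq'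

end Pool.Agent.H709Q
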