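import Pool.Agent.H709Q.T8e

/-! Small closed orbits of quadratic fields in normal form: conclusion. -/

open Real Set MeasureTheory Topology Filter

namespace Pool.Agent.H709Q

noncomputable section

variable {P : Par} {x₁ x₂ A B : ℝ} {yl yu : ℝ → ℝ}

namespace Sm

variable (S : Sm P x₁ x₂ yl yu A B)

include S

lemma B_le' {xm H : ℝ} (hm : xm ∈ Ioo x₁ x₂) (hH : ∀ x ∈ Icc x₁ x₂, yu x - yl x ≤ H)
    (hHm : yu xm - yl xm = H) : B ≤ 101 * H := by
  have h1 := S.B_le hm hH hHm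
  have h2 := S.kappa_le hm hH hHm
  linarith

lemma B_tau {xm H : ℝ} (hm : xm ∈ Ioo x₁ x₂) (hH : ∀ x ∈ Icc x₁ x₂, yu x - yl x ≤ H)
    (hHm : yu xm - yl xm = H) : B ≤ 303 * (x₂ - x₁) := by
  have h1 := S.B_le' hm hH hHm
  have h2 := S.H_le hm hH hHm
  linarith

lemma H_B {xm H : ℝ} (hm : xm ∈ Ioo x₁ x₂) (hHm : yu xm - yl xm = H) : H ≤ 2 * B := by
  have hm' := Ioo_subset_Icc_self hm
  have h1 := abs_le.1 (S.bl xm hm')
  have h2 := abs_le.1 (S.bu xm hm')
  linarith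

lemma div_le {x y : ℝ} (hx : x ∈ Icc x₁ x₂) (hy : |y| ≤ B) :
    |P.dv x y| ≤ 2 * (|2 * P.p1 + P.q2| * (x₂ - x₁)) + 6 * B := by
  have h1 := S.d0
  have h2 := S.d1
  have h3 := S.d2
  have hxt := S.xt hx
  have e1 : |(2 * P.p1 + P.q2) * x| ≤ |2 * P.p1 + P.q2| * (x₂ - x₁) := by
    rw [abs_mul]; gcongr
  have e2 : |(P.p2 + 2 * P.q3) * y| ≤ 3 * B := by
    rw [abs_mul]; gcongr
  have e3 : P.dv x y = -((1 + P.e) * P.s) + (2 * P.p1 + P.q2) * x + (P.p2 + 2 * P.q3) * y := by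
    unfold Par.dv; ring
  rw [e3]
  have e4 := abs_add_le (-((1 + P.e) * P.s) + (2 * P.p1 + P.q2) * x) ((P.p2 + 2 * P.q3) * y)
  have e5 := abs_add_le (-((1 + P.e) * P.s)) ((2 * P.p1 + P.q2) * x)
  rw [abs_neg] at e5
  linarith

/-- fourth power bound of the divergence -/
lemma div_pow {x y : ℝ} (hx : x ∈ Icc x₁ x₂) (hy : |y| ≤ B) :
    |P.dv x y| ^ 4 ≤ (10 ^ 5) ^ 4 * (A ^ 2 * B) := by
  obtain ⟨xm, hm, hH⟩ := S.exists_max
  have h1 := S.div_le hx hy
  have h2 := S.B_tau hm hH rfl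
  have h3 := S.H_B hm rfl
  have h4 := S.d1_le hm hH rfl
  have h5 := S.d1
  have ht := S.tpos
  have htA := S.t2A
  have hA := S.hA
  have hA0 := S.A0
  have hB0 := S.B0
  have hwA := S.wA
  set H := yu xm - yl xm with hHdef
  set τ := x₂ - x₁ with hτ
  set δ := |2 * P.p1 + P.q2| with hδ
  set d := |P.dv x y| with hd
  have hd0 : 0 ≤ d := abs_nonneg _
  have k1 : δ * τ ≤ 3 * τ := by gcongr
  have k2 : d ≤ 3648 * A := by linarith
  have k3 : d * A ≤ 45000 * B := by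
    have e1 : d * A ≤ (2 * (δ * τ) + 6 * B) * (16 * τ) :=
      mul_le_mul h1 hwA hA0.le (by positivity)
    have hτs : τ ≤ 2 / 10 ^ 6 := by norm_num at *; linarith
    have e2 : B * τ ≤ B * (2 / 10 ^ 6) := by gcongr
    norm_num at e2
    nlinarith
  have k4 : d ^ 3 ≤ (3648 * A) ^ 3 := by gcongr
  have k5 : d ^ 4 * A ≤ (3648 * A) ^ 3 * (45000 * B) := by
    calc d ^ 4 * A = d ^ 3 * (d * A) := by ring
      _ ≤ _ := by gcongr
  have k6 : d ^ 4 * A ≤ ((10 ^ 5) ^ 4 * (A ^ 2 * B)) * A := by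
    refine k5.trans ?_
    have : 0 ≤ A ^ 3 * B := by positivity
    nlinarith
  exact le_of_mul_le_mul_right k6 hA0

/-- lower bound of the action -/
lemma act_ge (hact : ContinuousOn (fun x => P.V1 x (yl x) - P.V1 x (yu x)) (Icc x₁ x₂)) :
    A * B / 10 ^ 5 ≤ ∫ x in x₁..x₂, (P.V1 x (yl x) - P.V1 x (yu x)) := by
  obtain ⟨xm, hm, hH⟩ := S.exists_max
  have h1 := S.B_le' hm hH rfl
  have ht := S.tpos
  have hwA := S.wA
  have hA0 := S.A0
  have hB0 := S.B0
  set H := yu xm - yl xm with hHdef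
  have hH0 : 0 < H := by rw [hHdef]; linarith [S.lu xm hm]
  have h2 : ∫ x in x₁..x₂, (98 / 100 * H / (x₂ - x₁) ^ 2) * ((x - x₁) * (x₂ - x)) =
      98 / 100 * H * (x₂ - x₁) / 6 := by
    rw [intervalIntegral.integral_const_mul]
    have e1 : ∫ x in x₁..x₂, (x - x₁) * (x₂ - x) = (x₂ - x₁) ^ 3 / 6 := by
      have e2 : ∀ x ∈ uIcc x₁ x₂, HasDerivAt (fun x => (x₁ + x₂) * x ^ 2 / 2 - x ^ 3 / 3 - x₁ * x₂ * x)
          ((x - x₁) * (x₂ - x)) x := by
        intro x _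
        have hid := hasDerivAt_id x
        have e3 := (((((hid.pow 2).const_mul (x₁ + x₂)).div_const 2)).sub
          ((hid.pow 3).div_const 3)).sub (hid.const_mul (x₁ * x₂))
        refine HasDerivAt.congr_deriv e3 ?_
        simp
        ring
      rw [intervalIntegral.integral_eq_sub_of_hasDerivAt e2 (by
        apply Continuous.intervalIntegrable
        fun_prop)]
      ring
    rw [e1]
    field_simp
  have h3 : 98 / 100 * H * (x₂ - x₁) / 6 ≤ ∫ x in x₁..x₂, (P.V1 x (yl x) - P.V1 x (yu x)) := by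
    rw [← h2]
    apply intervalIntegral.integral_mono_on S.lt.le
    · apply Continuous.intervalIntegrable
      fun_prop
    · rw [intervalIntegrable_iff_integrableOn_Icc_of_le S.lt.le]
      exact hact.integrableOn_Icc
    · intro x hx
      have e1 := S.tent (Ioo_subset_Icc_self hm) rfl hx
      have e2 := (S.width hx).1
      calc 98 / 100 * H / (x₂ - x₁) ^ 2 * ((x - x₁) * (x₂ - x))
          = 98 / 100 * (H * ((x - x₁) * (x₂ - x) / (x₂ - x₁) ^ 2)) := by ring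
        _ ≤ 98 / 100 * (yu x - yl x) := by gcongr
        _ ≤ _ := e2
  refine le_trans ?_ h3
  have h4 : A * B ≤ (16 * (x₂ - x₁)) * (101 * H) := by gcongr
  have h5 : 0 < H * (x₂ - x₁) := by positivity
  linarith

end Sm

/-- the parameters of a field in normal form -/
def parOf (X : QF) (e a : ℝ) : Par := ⟨e, sin a, cos a, X.a3, X.a4, X.a5, X.b3, X.b4, X.b5⟩

/-- T8 with an explicit constant -/
def SmallOrbitsK (K : ℝ) : Prop :=
  0 < K ∧ ∀ (X : QF) (γ : ℝ → ℝ × ℝ) (T A B : ℝ), NF X → Cyc X γ T → Around X 0 γ → 0 < A →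
    A ≤ 1 / 16 ^ 5 → 0 < B → B ≤ 1 / 16 ^ 5 → (∀ t, |(γ t).1| ≤ A ∧ |(γ t).2| ≤ B) →
    (∃ s, A / 16 < |(γ s).1|) → (∃ s, B / 16 < |(γ s).2|) →
    A * B / K ≤ ∫ t in (0:ℝ)..T, H709R2.sq (X.f (γ t)) ∧
      ∀ t, |X.div (γ t)| ^ 4 ≤ K ^ 4 * (A ^ 2 * B)

theorem smallOrbitsK (hg : Graphs) (hc : CcwOfAround) (hr : Rays) : SmallOrbitsK (10 ^ 5) := by
  refine ⟨by norm_num, ?_⟩
  intro X γ T A B hN hC hA A0 hA1 B0 hB1 hbox hsA hsB
  obtain ⟨e, a, he0, he1, l1, l2, l3, l4⟩ := hN.lin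
  obtain ⟨x₁, x₂, yl, yu, G⟩ := hg X γ T hC (hc X γ T 0 hC hA)
  set P := parOf X e a with hP
  have f1 : ∀ x y, (X.f (x, y)).1 = P.V1 x y := by
    intro x y
    simp only [QF.f, Par.V1, hP, parOf, hN.za, l1, l2]
    ring
  have f2 : ∀ x y, (X.f (x, y)).2 = P.V2 x y := by
    intro x y
    simp only [QF.f, Par.V2, hP, parOf, hN.zb, l3, l4]
    ring
  have f3 : ∀ z : ℝ × ℝ, X.div z = P.dv z.1 z.2 := by
    intro z
    simp only [QF.div, Par.dv, hP, parOf, l1, l4]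
    ring
  have hmem : ∀ x ∈ Icc x₁ x₂, (x, yl x) ∈ range γ ∧ (x, yu x) ∈ range γ := by
    intro x hx
    rw [G.rng]
    exact ⟨⟨hx, Or.inl rfl⟩, ⟨hx, Or.inr rfl⟩⟩
  have hin : ∀ t, (γ t).1 ∈ Icc x₁ x₂ ∧ ((γ t).2 = yl (γ t).1 ∨ (γ t).2 = yu (γ t).1) := by
    intro t
    have : γ t ∈ range γ := ⟨t, rfl⟩
    rw [G.rng] at this
    exact this
  have hab : ∀ p q : ℝ, p ^ 2 + q ^ 2 ≤ 1 → |p| ≤ 1 ∧ |q| ≤ 1 := by
    intro p q h
    constructor
    · rw [← sq_le_one_iff_abs_le_one]; nlinarith [sq_nonneg q]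
    · rw [← sq_le_one_iff_abs_le_one]; nlinarith [sq_nonneg p]
  have hn2 : 0 < x₂ := by
    obtain ⟨t, r, hr0, ht⟩ := hr X γ T 0 hC hA (1, 0) (by simp)
    have := (hin t).1.2
    rw [ht] at this
    simp at this
    linarith
  have hn1 : x₁ < 0 := by
    obtain ⟨t, r, hr0, ht⟩ := hr X γ T 0 hC hA (-1, 0) (by simp)
    have := (hin t).1.1
    rw [ht] at this
    simp at this
    linarith
  have hlu0 := G.lu 0 ⟨hn1, hn2⟩
  have ho2 : 0 < yu 0 := by
    obtain ⟨t, r, hr0, ht⟩ := hr X γ T 0 hC hA (0, 1) (by simp)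
    have h := (hin t).2
    rw [ht] at h
    simp at h
    rcases h with h | h <;> linarith
  have ho1 : yl 0 < 0 := by
    obtain ⟨t, r, hr0, ht⟩ := hr X γ T 0 hC hA (0, -1) (by simp)
    have h := (hin t).2
    rw [ht] at h
    simp at h
    rcases h with h | h <;> linarith
  have hbb : ∀ z ∈ range γ, |z.1| ≤ A ∧ |z.2| ≤ B := by
    rintro _ ⟨t, rfl⟩
    exact hbox t
  have hτA : ∀ x ∈ Icc x₁ x₂, |x| ≤ x₂ - x₁ := by
    intro x hx
    rw [abs_le]
    constructor <;> linarith [hx.1, hx.2]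
  have S : Sm P x₁ x₂ yl yu A B :=
    { lt := G.lt
      cl := G.cl
      cu := G.cu
      e1 := G.e1
      e2 := G.e2
      lu := G.lu
      vl := fun x hx => by rw [← f1]; exact G.vl x hx
      vu := fun x hx => by rw [← f1]; exact G.vu x hx
      dl := fun x hx => by rw [← f1, ← f2]; exact G.dl x hx
      du := fun x hx => by rw [← f1, ← f2]; exact G.du x hx
      convl := G.convl
      concu := G.concu
      v1 := by rw [← f1]; exact G.v1
      v2 := by rw [← f1]; exact G.v2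
      w1 := by rw [← f2]; exact G.w1
      w2 := by rw [← f2]; exact G.w2
      he0 := he0
      he1 := he1
      hsc := sin_sq_add_cos_sq a
      hp1 := (hab _ _ hN.q3).1
      hp2 := (hab _ _ hN.q4).1
      hp3 := (hab _ _ hN.q5).1
      hq1 := (hab _ _ hN.q3).2
      hq2 := (hab _ _ hN.q4).2
      hq3 := (hab _ _ hN.q5).2
      n1 := hn1
      n2 := hn2
      o1 := ho1
      o2 := ho2
      A0 := A0
      B0 := B0
      hA := hA1.trans (by norm_num)
      hB := hB1.trans (by norm_num)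
      bx := fun x hx => (hbb _ (hmem x hx).1).1
      bl := fun x hx => (hbb _ (hmem x hx).1).2
      bu := fun x hx => (hbb _ (hmem x hx).2).2
      wA := by
        obtain ⟨s, hs⟩ := hsA
        have := hτA _ (hin s).1
        linarith
      wB := by
        obtain ⟨s, hs⟩ := hsB
        exact ⟨_, (hin s).1, _, (hin s).2, by linarith⟩ }
  constructor
  · have hact : ContinuousOn (fun x => P.V1 x (yl x) - P.V1 x (yu x)) (Icc x₁ x₂) := by
      have h1 := G.cl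
      have h2 := G.cu
      unfold Par.V1
      fun_prop
    refine (S.act_ge hact).trans (le_trans (le_of_eq ?_) G.act)
    simp only [f1]
  · intro t
    rw [f3]
    refine S.div_pow (hin t).1 (hbox t).2

theorem smallOrbits (hg : Graphs) (hc : CcwOfAround) (hr : Rays) : SmallOrbits :=
  ⟨10 ^ 5, smallOrbitsK hg hc hr⟩

end

end Pool.Agent.H709Q
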