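import Pool.Agent.H709Q.Defs

/-! Small closed orbits of quadratic fields in normal form: analysis of the two graphs. -/

open Real Set MeasureTheory Topology Filter

namespace Pool.Agent.H709Q

noncomputable section

/-- parameters of the normal form -/
structure Par where
  (e s c p1 p2 p3 q1 q2 q3 : ℝ)

namespace Par

variable (P : Par)

/-- first component -/
def V1 (x y : ℝ) : ℝ :=
  -(P.e * P.s) * x - P.c * y + P.p1 * x ^ 2 + P.p2 * (x * y) + P.p3 * y ^ 2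

/-- second component -/
def V2 (x y : ℝ) : ℝ :=
  P.e * P.c * x - P.s * y + P.q1 * x ^ 2 + P.q2 * (x * y) + P.q3 * y ^ 2

/-- divergence -/
def dv (x y : ℝ) : ℝ :=
  -(1 + P.e) * P.s + (2 * P.p1 + P.q2) * x + (P.p2 + 2 * P.q3) * y

/-- antiderivative of `V1` in `y` -/
def W (x y : ℝ) : ℝ :=
  -(P.e * P.s) * x * y - P.c * y ^ 2 / 2 + P.p1 * x ^ 2 * y + P.p2 * x * y ^ 2 / 2 + P.p3 * y ^ 3 / 3

end Par

/-- small orbit data -/
structure Sm (P : Par) (x₁ x₂ : ℝ) (yl yu : ℝ → ℝ) (A B : ℝ) : Prop where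
  lt : x₁ < x₂
  cl : ContinuousOn yl (Icc x₁ x₂)
  cu : ContinuousOn yu (Icc x₁ x₂)
  e1 : yl x₁ = yu x₁
  e2 : yl x₂ = yu x₂
  lu : ∀ x ∈ Ioo x₁ x₂, yl x < yu x
  vl : ∀ x ∈ Ioo x₁ x₂, 0 < P.V1 x (yl x)
  vu : ∀ x ∈ Ioo x₁ x₂, P.V1 x (yu x) < 0
  dl : ∀ x ∈ Ioo x₁ x₂, HasDerivAt yl (P.V2 x (yl x) / P.V1 x (yl x)) x
  du : ∀ x ∈ Ioo x₁ x₂, HasDerivAt yu (P.V2 x (yu x) / P.V1 x (yu x)) x
  convl : ConvexOn ℝ (Icc x₁ x₂) yl
  concu : ConcaveOn ℝ (Icc x₁ x₂) yu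
  v1 : P.V1 x₁ (yl x₁) = 0
  v2 : P.V1 x₂ (yl x₂) = 0
  w1 : P.V2 x₁ (yl x₁) < 0
  w2 : 0 < P.V2 x₂ (yl x₂)
  he0 : 0 < P.e
  he1 : P.e ≤ 1
  hsc : P.s ^ 2 + P.c ^ 2 = 1
  hp1 : |P.p1| ≤ 1
  hp2 : |P.p2| ≤ 1
  hp3 : |P.p3| ≤ 1
  hq1 : |P.q1| ≤ 1
  hq2 : |P.q2| ≤ 1
  hq3 : |P.q3| ≤ 1
  n1 : x₁ < 0
  n2 : 0 < x₂
  o1 : yl 0 < 0
  o2 : 0 < yu 0
  A0 : 0 < A
  B0 : 0 < B
  hA : A ≤ 1 / 10 ^ 6
  hB : B ≤ 1 / 10 ^ 6
  bx : ∀ x ∈ Icc x₁ x₂, |x| ≤ A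
  bl : ∀ x ∈ Icc x₁ x₂, |yl x| ≤ B
  bu : ∀ x ∈ Icc x₁ x₂, |yu x| ≤ B
  wA : A ≤ 16 * (x₂ - x₁)
  wB : ∃ x ∈ Icc x₁ x₂, ∃ y, (y = yl x ∨ y = yu x) ∧ B ≤ 16 * |y|

variable {P : Par} {x₁ x₂ A B : ℝ} {yl yu : ℝ → ℝ}

namespace Sm

variable (S : Sm P x₁ x₂ yl yu A B)

include S

lemma t2A : x₂ - x₁ ≤ 2 * A := by
  have h1 := S.bx x₁ ⟨le_rfl, S.lt.le⟩
  have h2 := S.bx x₂ ⟨S.lt.le, le_rfl⟩
  have h3 := neg_abs_le x₁
  have h4 := le_abs_self x₂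
  linarith

lemma xt {x : ℝ} (hx : x ∈ Icc x₁ x₂) : |x| ≤ x₂ - x₁ := by
  have h1 := S.n1
  have h2 := S.n2
  have h3 := hx.1
  have h4 := hx.2
  rw [abs_le]
  constructor <;> linarith

lemma lu' {x : ℝ} (hx : x ∈ Icc x₁ x₂) : yl x ≤ yu x := by
  rcases eq_or_lt_of_le hx.1 with h | h
  · rw [← h]; exact S.e1.le
  · rcases eq_or_lt_of_le hx.2 with h' | h'
    · rw [h']; exact S.e2.le
    · exact (S.lu x ⟨h, h'⟩).le

/-- derivative of the slice integral -/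
lemma hasDerivAt_Phi {x : ℝ} (hx : x ∈ Ioo x₁ x₂) :
    HasDerivAt (fun x => P.W x (yu x) - P.W x (yl x))
      ((yu x - yl x) * P.dv x ((yl x + yu x) / 2)) x := by
  have h1 := S.dl x hx
  have h2 := S.du x hx
  have key : ∀ (y : ℝ → ℝ) (y' : ℝ), HasDerivAt y y' x → HasDerivAt (fun x => P.W x (y x))
      (-(P.e * P.s) * y x + 2 * P.p1 * x * y x + P.p2 * y x ^ 2 / 2 + P.V1 x (y x) * y') x := by
    intro y y' h
    have hid := hasDerivAt_id x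
    unfold Par.W Par.V1
    have h3 := (((((hid.const_mul (-(P.e * P.s))).mul h).sub (((h.pow 2).const_mul P.c).div_const 2)).add
      (((hid.pow 2).const_mul P.p1).mul h)).add ((((hid.const_mul P.p2).mul (h.pow 2))).div_const 2)).add
      (((h.pow 3).const_mul P.p3).div_const 3)
    refine HasDerivAt.congr_deriv h3 ?_
    simp
    ring
  have h3 := (key yu _ h2).sub (key yl _ h1)
  refine HasDerivAt.congr_deriv h3 ?_
  have e1 : P.V1 x (yu x) * (P.V2 x (yu x) / P.V1 x (yu x)) = P.V2 x (yu x) :=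
    mul_div_cancel₀ _ (S.vu x hx).ne
  have e2 : P.V1 x (yl x) * (P.V2 x (yl x) / P.V1 x (yl x)) = P.V2 x (yl x) :=
    mul_div_cancel₀ _ (S.vl x hx).ne'
  rw [e1, e2]
  unfold Par.V2 Par.dv
  ring

lemma cW {y : ℝ → ℝ} (hy : ContinuousOn y (Icc x₁ x₂)) :
    ContinuousOn (fun x => P.W x (y x)) (Icc x₁ x₂) := by
  unfold Par.W
  fun_prop

lemma cPhi : ContinuousOn (fun x => P.W x (yu x) - P.W x (yl x)) (Icc x₁ x₂) :=
  (S.cW S.cu).sub (S.cW S.cl)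

/-- Rolle -/
lemma rolle : ∃ x ∈ Ioo x₁ x₂, P.dv x ((yl x + yu x) / 2) = 0 := by
  obtain ⟨x, hx, h⟩ := exists_hasDerivAt_eq_zero S.lt S.cPhi
    (by simp [S.e1, S.e2]) (fun x hx => S.hasDerivAt_Phi hx)
  refine ⟨x, hx, ?_⟩
  have h1 := S.lu x hx
  rcases mul_eq_zero.1 h with h | h
  · linarith
  · exact h

lemma d1 : |2 * P.p1 + P.q2| ≤ 3 := by
  have h1 := abs_le.1 S.hp1
  have h2 := abs_le.1 S.hq2
  rw [abs_le]
  constructor <;> linarith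

lemma d2 : |P.p2 + 2 * P.q3| ≤ 3 := by
  have h1 := abs_le.1 S.hp2
  have h2 := abs_le.1 S.hq3
  rw [abs_le]
  constructor <;> linarith

lemma ycB {x : ℝ} (hx : x ∈ Icc x₁ x₂) : |(yl x + yu x) / 2| ≤ B := by
  have h1 := abs_le.1 (S.bl x hx)
  have h2 := abs_le.1 (S.bu x hx)
  rw [abs_le]
  constructor <;> linarith

/-- constant term of the divergence -/
lemma d0 : |(1 + P.e) * P.s| ≤ |2 * P.p1 + P.q2| * (x₂ - x₁) + 3 * B := by
  obtain ⟨x, hx, h⟩ := S.rolle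
  have hx' := Ioo_subset_Icc_self hx
  have h1 := S.xt hx'
  have h2 := S.ycB hx'
  have h3 := S.d2
  have h4 : (1 + P.e) * P.s = (2 * P.p1 + P.q2) * x + (P.p2 + 2 * P.q3) * ((yl x + yu x) / 2) := by
    unfold Par.dv at h
    linarith
  rw [h4]
  calc _ ≤ |(2 * P.p1 + P.q2) * x| + |(P.p2 + 2 * P.q3) * ((yl x + yu x) / 2)| := abs_add_le _ _
    _ = |2 * P.p1 + P.q2| * |x| + |P.p2 + 2 * P.q3| * |(yl x + yu x) / 2| := by
        rw [abs_mul, abs_mul]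
    _ ≤ _ := by
        have := S.B0
        gcongr

lemma tpos : 0 < x₂ - x₁ := sub_pos.2 S.lt

lemma sb : |P.s| ≤ 3 * (x₂ - x₁) + 3 * B := by
  have h1 := S.d0
  have h2 := S.d1
  have h3 := S.tpos
  have h4 : |P.s| ≤ |(1 + P.e) * P.s| := by
    rw [abs_mul, abs_of_pos (by linarith [S.he0] : 0 < 1 + P.e)]
    have := S.he0
    nlinarith [abs_nonneg P.s]
  have h5 : |2 * P.p1 + P.q2| * (x₂ - x₁) ≤ 3 * (x₂ - x₁) := by gcongr
  linarith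

lemma s_small : |P.s| ≤ 1 / 10 ^ 5 := by
  have h1 := S.sb
  have h2 := S.t2A
  have h3 := S.hA
  have h4 := S.hB
  norm_num at *
  linarith

lemma zero_mem : (0:ℝ) ∈ Ioo x₁ x₂ := ⟨S.n1, S.n2⟩

lemma c_le : P.c ≤ 1 := by
  have h := S.hsc
  nlinarith [sq_nonneg P.s, sq_nonneg (P.c - 1)]

lemma c_ge : 99 / 100 ≤ P.c := by
  have h := S.hsc
  have h1 := S.s_small
  have h2 := abs_le.1 h1
  have h3 : P.s ^ 2 ≤ 1 / 10 ^ 10 := by
    have : P.s ^ 2 = |P.s| ^ 2 := (sq_abs _).symm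
    rw [this]
    calc |P.s| ^ 2 ≤ (1 / 10 ^ 5) ^ 2 := by gcongr
      _ = _ := by norm_num
  have h4 := S.vl 0 S.zero_mem
  have h5 := S.o1
  have h6 := abs_le.1 (S.bl 0 (Ioo_subset_Icc_self S.zero_mem))
  have h7 := abs_le.1 S.hp3
  have h8 := S.hB
  have h9 : -1 / 10 ^ 6 < P.c := by
    unfold Par.V1 at h4
    by_contra hc
    push Not at hc
    have e1 : 0 < yl 0 * (-P.c + P.p3 * yl 0) := by nlinarith
    have e2 : -P.c + P.p3 * yl 0 < 0 := by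
      by_contra hcc
      push Not at hcc
      nlinarith
    have e3 : P.p3 * yl 0 ≥ -1 / 10 ^ 6 := by
      have : |P.p3 * yl 0| ≤ 1 * (1 / 10 ^ 6) := by
        rw [abs_mul]
        have := S.bl 0 (Ioo_subset_Icc_self S.zero_mem)
        have := S.hp3
        gcongr
        linarith
      have := (abs_le.1 this).1
      norm_num at this ⊢
      linarith
    norm_num at *
    linarith
  by_contra hc
  push Not at hc
  have e1 : P.c ^ 2 < (99 / 100) ^ 2 := by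
    apply sq_lt_sq'
    · norm_num at *; linarith
    · exact hc
  norm_num at *
  linarith

end Sm

end

end Pool.Agent.H709Q
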