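import Pool.Agent.H709Q.T8a

/-! Small closed orbits of quadratic fields in normal form: analysis of the two graphs, II. -/

open Real Set MeasureTheory Topology Filter

namespace Pool.Agent.H709Q

noncomputable section

variable {P : Par} {x₁ x₂ A B : ℝ} {yl yu : ℝ → ℝ}

namespace Sm

variable (S : Sm P x₁ x₂ yl yu A B)

include S

lemma V1_sub (x y y' : ℝ) : P.V1 x y - P.V1 x y' = (y' - y) * (P.c - P.p2 * x - P.p3 * (y + y')) := by
  unfold Par.V1
  ring

lemma fac {x y y' : ℝ} (hx : |x| ≤ A) (hy : |y| ≤ B) (hy' : |y'| ≤ B) :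
    98 / 100 ≤ P.c - P.p2 * x - P.p3 * (y + y') ∧ P.c - P.p2 * x - P.p3 * (y + y') ≤ 101 / 100 := by
  have h1 := S.c_ge
  have h2 := S.c_le
  have h3 : |P.p2 * x| ≤ 1 * A := by
    rw [abs_mul]
    have := S.hp2
    gcongr
  have h4 : |P.p3 * (y + y')| ≤ 1 * (B + B) := by
    rw [abs_mul]
    have := S.hp3
    gcongr
    exact (abs_add_le _ _).trans (add_le_add hy hy')
  have h5 := S.hA
  have h6 := S.hB
  have h7 := abs_le.1 h3
  have h8 := abs_le.1 h4
  norm_num at *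
  constructor <;> linarith

/-- lower branch value -/
lemma ul {x : ℝ} (hx : x ∈ Icc x₁ x₂) : 0 ≤ P.V1 x (yl x) := by
  rcases eq_or_lt_of_le hx.1 with h | h
  · rw [← h]; exact S.v1.ge
  · rcases eq_or_lt_of_le hx.2 with h' | h'
    · rw [h']; exact S.v2.ge
    · exact (S.vl x ⟨h, h'⟩).le

lemma uu {x : ℝ} (hx : x ∈ Icc x₁ x₂) : P.V1 x (yu x) ≤ 0 := by
  rcases eq_or_lt_of_le hx.1 with h | h
  · rw [← h, ← S.e1]; exact S.v1.le
  · rcases eq_or_lt_of_le hx.2 with h' | h'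
    · rw [h', ← S.e2]; exact S.v2.le
    · exact (S.vu x ⟨h, h'⟩).le

/-- the two values control the width -/
lemma width {x : ℝ} (hx : x ∈ Icc x₁ x₂) :
    98 / 100 * (yu x - yl x) ≤ P.V1 x (yl x) - P.V1 x (yu x) ∧
      P.V1 x (yl x) - P.V1 x (yu x) ≤ 101 / 100 * (yu x - yl x) := by
  have h1 := S.V1_sub x (yl x) (yu x)
  have h2 := S.fac (S.bx x hx) (S.bl x hx) (S.bu x hx)
  have h3 := S.lu' hx
  have h4 : 0 ≤ yu x - yl x := by linarith
  rw [h1]
  constructor
  · rw [mul_comm]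
    exact mul_le_mul_of_nonneg_left h2.1 h4
  · rw [mul_comm (101 / 100)]
    exact mul_le_mul_of_nonneg_left h2.2 h4

lemma ul_le {x : ℝ} (hx : x ∈ Icc x₁ x₂) : P.V1 x (yl x) ≤ 101 / 100 * (yu x - yl x) := by
  have := (S.width hx).2
  have := S.uu hx
  linarith

lemma uu_ge {x : ℝ} (hx : x ∈ Icc x₁ x₂) : -(101 / 100 * (yu x - yl x)) ≤ P.V1 x (yu x) := by
  have := (S.width hx).2
  have := S.ul hx
  linarith

/-- `V1` on the chord -/
lemma V1_mid {x y : ℝ} (hx : x ∈ Icc x₁ x₂) (hy : y ∈ Icc (yl x) (yu x)) :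
    |P.V1 x y| ≤ 101 / 100 * (yu x - yl x) := by
  have hyB : |y| ≤ B := by
    have h1 := abs_le.1 (S.bl x hx)
    have h2 := abs_le.1 (S.bu x hx)
    rw [abs_le]
    constructor
    · linarith [hy.1]
    · linarith [hy.2]
  have h1 := S.V1_sub x (yl x) y
  have h2 := S.fac (S.bx x hx) (S.bl x hx) hyB
  have h3 := S.V1_sub x y (yu x)
  have h4 := S.fac (S.bx x hx) hyB (S.bu x hx)
  have h5 : 0 ≤ y - yl x := by linarith [hy.1]
  have h6 : 0 ≤ yu x - y := by linarith [hy.2]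
  have h7 := mul_le_mul_of_nonneg_left h2.1 h5
  have h8 := mul_le_mul_of_nonneg_left h4.1 h6
  have h9 := S.ul_le hx
  have h10 := S.uu_ge hx
  rw [abs_le]
  constructor
  · nlinarith
  · nlinarith

/-- the slice integral -/
lemma Phi_le {x : ℝ} (hx : x ∈ Icc x₁ x₂) :
    |P.W x (yu x) - P.W x (yl x)| ≤ 6 / 10 * (yu x - yl x) ^ 2 := by
  have h0 : P.W x (yu x) - P.W x (yl x) =
      (yu x - yl x) * ((P.V1 x (yl x) + P.V1 x (yu x)) / 2 - P.p3 * (yu x - yl x) ^ 2 / 6) := by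
    unfold Par.W Par.V1
    ring
  have h1 := S.lu' hx
  have h2 : 0 ≤ yu x - yl x := by linarith
  have h3 := S.ul_le hx
  have h4 := S.uu_ge hx
  have h5 := S.ul hx
  have h6 := S.uu hx
  have h7 : |(P.V1 x (yl x) + P.V1 x (yu x)) / 2| ≤ 101 / 200 * (yu x - yl x) := by
    rw [abs_le]
    constructor <;> linarith
  have h8 : yu x - yl x ≤ 2 * B := by
    have h1 := abs_le.1 (S.bl x hx)
    have h2 := abs_le.1 (S.bu x hx)
    linarith
  have h9 : |P.p3 * (yu x - yl x) ^ 2 / 6| ≤ 1 / 100 * (yu x - yl x) := by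
    rw [abs_div, abs_mul, abs_of_nonneg (sq_nonneg (yu x - yl x)), abs_of_pos (by norm_num : (0:ℝ) < 6)]
    have h10 : |P.p3| * (yu x - yl x) ^ 2 ≤ 1 * ((yu x - yl x) * (2 * B)) := by
      have := S.hp3
      have := S.B0
      rw [sq]
      gcongr
    have h11 := S.hB
    have h12 : (yu x - yl x) * (2 * B) ≤ (yu x - yl x) * (2 * (1 / 10 ^ 6)) := by gcongr
    norm_num at h12 ⊢
    linarith
  rw [h0, abs_mul, abs_of_nonneg h2]
  have h10 : |(P.V1 x (yl x) + P.V1 x (yu x)) / 2 - P.p3 * (yu x - yl x) ^ 2 / 6| ≤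
      6 / 10 * (yu x - yl x) := by
    have := abs_sub ((P.V1 x (yl x) + P.V1 x (yu x)) / 2) (P.p3 * (yu x - yl x) ^ 2 / 6)
    linarith
  calc _ ≤ (yu x - yl x) * (6 / 10 * (yu x - yl x)) := by gcongr
    _ = _ := by ring

/-- concavity: the width dominates the tent function -/
lemma tent {xm : ℝ} (hm : xm ∈ Icc x₁ x₂) {H : ℝ} (hH : yu xm - yl xm = H) {x : ℝ}
    (hx : x ∈ Icc x₁ x₂) :
    H * ((x - x₁) * (x₂ - x) / (x₂ - x₁) ^ 2) ≤ yu x - yl x := by
  have hc : ConcaveOn ℝ (Icc x₁ x₂) (fun x => yu x - yl x) := S.concu.sub S.convl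
  have ht := S.tpos
  have h1m : x₁ ∈ Icc x₁ x₂ := ⟨le_rfl, S.lt.le⟩
  have h2m : x₂ ∈ Icc x₁ x₂ := ⟨S.lt.le, le_rfl⟩
  have hH0 : 0 ≤ H := by rw [← hH]; have := S.lu' hm; linarith
  have ha : 0 ≤ x - x₁ := by linarith [hx.1]
  have hb : 0 ≤ x₂ - x := by linarith [hx.2]
  rcases le_total x xm with h | h
  · -- x between x₁ and xm
    rcases eq_or_lt_of_le hm.1 with h' | h'
    · have hxx : x = x₁ := le_antisymm (by linarith) hx.1
      subst hxx
      have := S.lu' hx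
      simp
      linarith
    · have hd : 0 < xm - x₁ := by linarith
      have ga : 0 ≤ (xm - x) / (xm - x₁) := by apply div_nonneg <;> linarith
      have gb : 0 ≤ (x - x₁) / (xm - x₁) := by apply div_nonneg <;> linarith
      have h3 := hc.2 h1m hm ga gb (by field_simp; ring)
      have h4 : ((xm - x) / (xm - x₁)) • x₁ + ((x - x₁) / (xm - x₁)) • xm = x := by
        simp only [smul_eq_mul]
        field_simp
        ring
      rw [h4] at h3
      simp only [smul_eq_mul] at h3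
      rw [← S.e1, sub_self, mul_zero, zero_add, hH] at h3
      refine le_trans ?_ h3
      rw [mul_comm H]
      gcongr ?_ * H
      rw [div_le_div_iff₀ (by positivity) hd]
      have h5 : (x₂ - x) * (xm - x₁) ≤ (x₂ - x₁) ^ 2 := by
        rw [sq]
        have : xm - x₁ ≤ x₂ - x₁ := by linarith [hm.2]
        have : x₂ - x ≤ x₂ - x₁ := by linarith [hx.1]
        gcongr
      calc (x - x₁) * (x₂ - x) * (xm - x₁) = (x - x₁) * ((x₂ - x) * (xm - x₁)) := by ring
        _ ≤ (x - x₁) * (x₂ - x₁) ^ 2 := by gcongr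
  · rcases eq_or_lt_of_le hm.2 with h' | h'
    · have hxx : x = x₂ := le_antisymm hx.2 (by linarith)
      subst hxx
      have := S.lu' hx
      simp
      linarith
    · have hd : 0 < x₂ - xm := by linarith
      have ga : 0 ≤ (x₂ - x) / (x₂ - xm) := by apply div_nonneg <;> linarith
      have gb : 0 ≤ (x - xm) / (x₂ - xm) := by apply div_nonneg <;> linarith
      have h3 := hc.2 hm h2m ga gb (by field_simp; ring)
      have h4 : ((x₂ - x) / (x₂ - xm)) • xm + ((x - xm) / (x₂ - xm)) • x₂ = x := by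
        simp only [smul_eq_mul]
        field_simp
        ring
      rw [h4] at h3
      simp only [smul_eq_mul] at h3
      rw [← S.e2, sub_self, mul_zero, add_zero, hH] at h3
      refine le_trans ?_ h3
      rw [mul_comm H]
      gcongr ?_ * H
      rw [div_le_div_iff₀ (by positivity) hd]
      have h5 : (x - x₁) * (x₂ - xm) ≤ (x₂ - x₁) ^ 2 := by
        rw [sq]
        have : x₂ - xm ≤ x₂ - x₁ := by linarith [hm.1]
        have : x - x₁ ≤ x₂ - x₁ := by linarith [hx.2]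
        gcongr
      calc (x - x₁) * (x₂ - x) * (x₂ - xm) = (x₂ - x) * ((x - x₁) * (x₂ - xm)) := by ring
        _ ≤ (x₂ - x) * (x₂ - x₁) ^ 2 := by gcongr

/-- a maximal width -/
lemma exists_max : ∃ xm ∈ Ioo x₁ x₂, ∀ x ∈ Icc x₁ x₂, yu x - yl x ≤ yu xm - yl xm := by
  obtain ⟨xm, hm, hmax⟩ := isCompact_Icc.exists_isMaxOn (nonempty_Icc.2 S.lt.le)
    (S.cu.sub S.cl)
  have h0 := hmax (Ioo_subset_Icc_self S.zero_mem)
  simp only [Pi.sub_apply, mem_ofPred_eq] at h0
  have h1 := S.o1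
  have h2 := S.o2
  have hpos : 0 < yu xm - yl xm := by linarith
  refine ⟨xm, ⟨lt_of_le_of_ne hm.1 ?_, lt_of_le_of_ne hm.2 ?_⟩, fun x hx => hmax hx⟩
  · rintro rfl
    rw [S.e1] at hpos
    linarith
  · rintro rfl
    rw [S.e2] at hpos
    linarith

end Sm

end

end Pool.Agent.H709Q
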