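import Pool.Agent.H709Q.T8b

/-! Small closed orbits of quadratic fields in normal form: analysis of the two graphs, III. -/

open Real Set MeasureTheory Topology Filter

namespace Pool.Agent.H709Q

noncomputable section

variable {P : Par} {x₁ x₂ A B : ℝ} {yl yu : ℝ → ℝ}

/-- `∂V1/∂x` -/
def Par.V1x (P : Par) (x y : ℝ) : ℝ := -(P.e * P.s) + 2 * P.p1 * x + P.p2 * y

/-- `∂V1/∂y` -/
def Par.V1y (P : Par) (x y : ℝ) : ℝ := -P.c + P.p2 * x + 2 * P.p3 * y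

lemma hasDerivAt_G (P : Par) {y : ℝ → ℝ} {x : ℝ} (hne : P.V1 x (y x) ≠ 0)
    (hy : HasDerivAt y (P.V2 x (y x) / P.V1 x (y x)) x) :
    HasDerivAt (fun x => P.V1 x (y x) ^ 2 / 2)
      (P.V1 x (y x) * P.V1x x (y x) + P.V1y x (y x) * P.V2 x (y x)) x := by
  have hid := hasDerivAt_id x
  have h1 : HasDerivAt (fun x => P.V1 x (y x))
      (P.V1x x (y x) + P.V1y x (y x) * (P.V2 x (y x) / P.V1 x (y x))) x := by
    unfold Par.V1
    have h3 := ((((hid.const_mul (-(P.e * P.s))).sub (hy.const_mul P.c)).add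
      ((hid.pow 2).const_mul P.p1)).add ((hid.mul hy).const_mul P.p2)).add
      ((hy.pow 2).const_mul P.p3)
    refine HasDerivAt.congr_deriv h3 ?_
    unfold Par.V1x Par.V1y Par.V1
    simp
    ring
  have h2 := (h1.pow 2).div_const 2
  refine HasDerivAt.congr_deriv h2 ?_
  have e1 : P.V1 x (y x) * (P.V2 x (y x) / P.V1 x (y x)) = P.V2 x (y x) :=
    mul_div_cancel₀ _ hne
  push_cast
  linear_combination (P.V1y x (y x)) * e1

namespace Sm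

variable (S : Sm P x₁ x₂ yl yu A B)

include S

lemma V1y_bd {x y : ℝ} (hx : |x| ≤ A) (hy : |y| ≤ B) :
    -(101 / 100) ≤ P.V1y x y ∧ P.V1y x y ≤ -(98 / 100) := by
  have h := S.fac hx hy hy
  unfold Par.V1y
  constructor <;> nlinarith [h.1, h.2]

lemma V1x_bd {x y : ℝ} (hx : |x| ≤ x₂ - x₁) (hy : |y| ≤ B) :
    |P.V1x x y| ≤ |P.e * P.s| + 2 * (x₂ - x₁) + B := by
  unfold Par.V1x
  have h1 : |2 * P.p1 * x| ≤ 2 * 1 * (x₂ - x₁) := by
    rw [abs_mul, abs_mul, abs_of_pos (by norm_num : (0:ℝ) < 2)]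
    have := S.hp1
    gcongr
  have h2 : |P.p2 * y| ≤ 1 * B := by
    rw [abs_mul]
    have := S.hp2
    gcongr
  have h3 := abs_add_le (-(P.e * P.s) + 2 * P.p1 * x) (P.p2 * y)
  have h4 := abs_add_le (-(P.e * P.s)) (2 * P.p1 * x)
  rw [abs_neg] at h4
  linarith

lemma es_le : |P.e * P.s| ≤ |P.s| := by
  rw [abs_mul, abs_of_pos S.he0]
  have := S.he1
  nlinarith [abs_nonneg P.s]

lemma quad_bd {a b d x y : ℝ} (ha : |a| ≤ 1) (hb : |b| ≤ 1) (hd : |d| ≤ 1) :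
    |a * x ^ 2 + b * (x * y) + d * y ^ 2| ≤ (|x| + |y|) ^ 2 := by
  have h1 : |a * x ^ 2| ≤ 1 * |x| ^ 2 := by
    rw [abs_mul, abs_pow]
    gcongr
  have h2 : |b * (x * y)| ≤ 1 * (|x| * |y|) := by
    rw [abs_mul, abs_mul]
    gcongr
  have h3 : |d * y ^ 2| ≤ 1 * |y| ^ 2 := by
    rw [abs_mul, abs_pow]
    gcongr
  have h4 := abs_add_le (a * x ^ 2 + b * (x * y)) (d * y ^ 2)
  have h5 := abs_add_le (a * x ^ 2) (b * (x * y))
  have h6 : 0 ≤ |x| * |y| := by positivity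
  nlinarith

lemma ec_le : |P.e * P.c| ≤ 1 := by
  have h1 := S.c_ge
  have h2 := S.c_le
  have h3 := S.he0
  have h4 := S.he1
  rw [abs_of_pos (mul_pos h3 (by linarith))]
  nlinarith

lemma V2_bd {x y : ℝ} (hx : |x| ≤ x₂ - x₁) (hy : |y| ≤ B) :
    |P.V2 x y| ≤ (x₂ - x₁) + |P.s| * B + (x₂ - x₁ + B) ^ 2 := by
  have h1 : |P.e * P.c * x| ≤ 1 * (x₂ - x₁) := by
    rw [abs_mul]
    have := S.ec_le
    gcongr
  have h2 : |P.s * y| ≤ |P.s| * B := by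
    rw [abs_mul]
    gcongr
  have h3 := S.quad_bd (x := x) (y := y) S.hq1 S.hq2 S.hq3
  have h4 : (|x| + |y|) ^ 2 ≤ (x₂ - x₁ + B) ^ 2 := by gcongr
  have h5 : P.V2 x y = P.e * P.c * x - P.s * y + (P.q1 * x ^ 2 + P.q2 * (x * y) + P.q3 * y ^ 2) := by
    unfold Par.V2; ring
  rw [h5]
  have h6 := abs_add_le (P.e * P.c * x - P.s * y) (P.q1 * x ^ 2 + P.q2 * (x * y) + P.q3 * y ^ 2)
  have h7 := abs_sub (P.e * P.c * x) (P.s * y)
  linarith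

/-- bound of the ordinate by the value of `V1` -/
lemma y_bd {x y : ℝ} (hx : x ∈ Icc x₁ x₂) (hy : |y| ≤ B) :
    98 / 100 * |y| ≤ |P.V1 x y| + |P.e * P.s| * (x₂ - x₁) + |P.p1| * (x₂ - x₁) ^ 2 := by
  have hxt := S.xt hx
  have hxA := S.bx x hx
  have h0 : P.c * y = -P.V1 x y - P.e * P.s * x + P.p1 * x ^ 2 + (P.p2 * x + P.p3 * y) * y := by
    unfold Par.V1; ring
  have h1 : |P.c * y| ≤ |P.V1 x y| + |P.e * P.s| * (x₂ - x₁) + |P.p1| * (x₂ - x₁) ^ 2 +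
      (A + B) * |y| := by
    rw [h0]
    have e1 : |P.e * P.s * x| ≤ |P.e * P.s| * (x₂ - x₁) := by
      rw [abs_mul]; gcongr
    have e2 : |P.p1 * x ^ 2| ≤ |P.p1| * (x₂ - x₁) ^ 2 := by
      rw [abs_mul, abs_pow]; gcongr
    have e3 : |(P.p2 * x + P.p3 * y) * y| ≤ (A + B) * |y| := by
      rw [abs_mul]
      gcongr
      refine (abs_add_le _ _).trans ?_
      rw [abs_mul, abs_mul]
      have := S.hp2
      have := S.hp3
      calc |P.p2| * |x| + |P.p3| * |y| ≤ 1 * A + 1 * B := by gcongr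
        _ = A + B := by ring
    have e4 := abs_add_le (-P.V1 x y - P.e * P.s * x + P.p1 * x ^ 2) ((P.p2 * x + P.p3 * y) * y)
    have e5 := abs_add_le (-P.V1 x y - P.e * P.s * x) (P.p1 * x ^ 2)
    have e6 := abs_sub (-P.V1 x y) (P.e * P.s * x)
    rw [abs_neg] at e6
    linarith
  have h2 : |P.c * y| = P.c * |y| := by
    rw [abs_mul, abs_of_pos (by linarith [S.c_ge])]
  rw [h2] at h1
  have h3 := S.c_ge
  have h4 := S.hA
  have h5 := S.hB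
  have h6 := abs_nonneg y
  have h7 : (A + B) * |y| ≤ 1 / 100 * |y| := by
    gcongr
    norm_num at *
    linarith
  nlinarith

/-- `B` in terms of the width -/
lemma B_bd {H : ℝ} (hH : ∀ x ∈ Icc x₁ x₂, yu x - yl x ≤ H) :
    98 / 100 * B ≤ 16 * (101 / 100 * H + |P.e * P.s| * (x₂ - x₁) + |P.p1| * (x₂ - x₁) ^ 2) := by
  obtain ⟨x, hx, y, hy, hB⟩ := S.wB
  have h1 : |P.V1 x y| ≤ 101 / 100 * H := by
    have h2 := S.V1_mid (y := y) hx (by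
      rcases hy with rfl | rfl
      · exact ⟨le_rfl, S.lu' hx⟩
      · exact ⟨S.lu' hx, le_rfl⟩)
    have := hH x hx
    linarith
  have h3 : |y| ≤ B := by
    rcases hy with rfl | rfl
    · exact S.bl x hx
    · exact S.bu x hx
  have h4 := S.y_bd hx h3
  linarith

/-- energy bound at an interior point -/
lemma G_le {y : ℝ → ℝ} (hyc : ContinuousOn y (Icc x₁ x₂)) (hy1 : P.V1 x₁ (y x₁) = 0)
    (hyB : ∀ x ∈ Icc x₁ x₂, |y x| ≤ B) (hne : ∀ x ∈ Ioo x₁ x₂, P.V1 x (y x) ≠ 0)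
    (hy : ∀ x ∈ Ioo x₁ x₂, HasDerivAt y (P.V2 x (y x) / P.V1 x (y x)) x)
    {H : ℝ} (hV : ∀ x ∈ Icc x₁ x₂, |P.V1 x (y x)| ≤ 101 / 100 * H) {x : ℝ} (hx : x ∈ Ioo x₁ x₂) :
    P.V1 x (y x) ^ 2 / 2 ≤ (101 / 100 * H * (|P.s| + 2 * (x₂ - x₁) + B) +
      101 / 100 * ((x₂ - x₁) + |P.s| * B + (x₂ - x₁ + B) ^ 2)) * (x₂ - x₁) := by
  have hcG : ContinuousOn (fun x => P.V1 x (y x) ^ 2 / 2) (Icc x₁ x₂) := by
    unfold Par.V1
    fun_prop
  obtain ⟨ξ, hξ, h⟩ := exists_hasDerivAt_eq_slope (fun x => P.V1 x (y x) ^ 2 / 2)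
    (fun x => P.V1 x (y x) * P.V1x x (y x) + P.V1y x (y x) * P.V2 x (y x)) hx.1
    (hcG.mono (Icc_subset_Icc le_rfl hx.2.le))
    (fun z hz => hasDerivAt_G P (hne z ⟨hz.1, hz.2.trans hx.2⟩) (hy z ⟨hz.1, hz.2.trans hx.2⟩))
  have hξ' : ξ ∈ Icc x₁ x₂ := ⟨hξ.1.le, (hξ.2.trans hx.2).le⟩
  have hd : 0 < x - x₁ := sub_pos.2 hx.1
  rw [eq_div_iff hd.ne', hy1] at h
  have h1 : P.V1 x (y x) ^ 2 / 2 =
      (P.V1 ξ (y ξ) * P.V1x ξ (y ξ) + P.V1y ξ (y ξ) * P.V2 ξ (y ξ)) * (x - x₁) := by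
    rw [h]; ring
  have hB := hyB ξ hξ'
  have h2 : P.V1 ξ (y ξ) * P.V1x ξ (y ξ) + P.V1y ξ (y ξ) * P.V2 ξ (y ξ) ≤
      101 / 100 * H * (|P.s| + 2 * (x₂ - x₁) + B) +
      101 / 100 * ((x₂ - x₁) + |P.s| * B + (x₂ - x₁ + B) ^ 2) := by
    have e1 : |P.V1 ξ (y ξ) * P.V1x ξ (y ξ)| ≤ 101 / 100 * H * (|P.s| + 2 * (x₂ - x₁) + B) := by
      rw [abs_mul]
      have e2 := hV ξ hξ'
      have e3 := S.V1x_bd (S.xt hξ') hB
      have e4 := S.es_le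
      have e5 : |P.V1x ξ (y ξ)| ≤ |P.s| + 2 * (x₂ - x₁) + B := by linarith
      gcongr
      exact (abs_nonneg _).trans e2
    have e6 : |P.V1y ξ (y ξ) * P.V2 ξ (y ξ)| ≤
        101 / 100 * ((x₂ - x₁) + |P.s| * B + (x₂ - x₁ + B) ^ 2) := by
      rw [abs_mul]
      have e7 := S.V1y_bd (S.bx ξ hξ') hB
      have e8 := S.V2_bd (S.xt hξ') hB
      have e9 : |P.V1y ξ (y ξ)| ≤ 101 / 100 := by
        rw [abs_le]; constructor <;> linarith [e7.1, e7.2]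
      gcongr
    have := le_abs_self (P.V1 ξ (y ξ) * P.V1x ξ (y ξ))
    have := le_abs_self (P.V1y ξ (y ξ) * P.V2 ξ (y ξ))
    linarith
  rw [h1]
  have h3 : 0 ≤ 101 / 100 * H * (|P.s| + 2 * (x₂ - x₁) + B) +
      101 / 100 * ((x₂ - x₁) + |P.s| * B + (x₂ - x₁ + B) ^ 2) := by
    have hH0 : 0 ≤ 101 / 100 * H := (abs_nonneg _).trans (hV ξ hξ')
    have := S.tpos
    have := S.B0
    have := abs_nonneg P.s
    positivity
  calc _ ≤ (101 / 100 * H * (|P.s| + 2 * (x₂ - x₁) + B) +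
      101 / 100 * ((x₂ - x₁) + |P.s| * B + (x₂ - x₁ + B) ^ 2)) * (x - x₁) := by gcongr
    _ ≤ _ := by
      have : x - x₁ ≤ x₂ - x₁ := by linarith [hx.2]
      gcongr

lemma abs_ul {H : ℝ} (hH : ∀ x ∈ Icc x₁ x₂, yu x - yl x ≤ H) {x : ℝ} (hx : x ∈ Icc x₁ x₂) :
    |P.V1 x (yl x)| ≤ 101 / 100 * H := by
  have h2 := S.V1_mid (y := yl x) hx ⟨le_rfl, S.lu' hx⟩
  have := hH x hx
  linarith

lemma abs_uu {H : ℝ} (hH : ∀ x ∈ Icc x₁ x₂, yu x - yl x ≤ H) {x : ℝ} (hx : x ∈ Icc x₁ x₂) :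
    |P.V1 x (yu x)| ≤ 101 / 100 * H := by
  have h2 := S.V1_mid (y := yu x) hx ⟨S.lu' hx, le_rfl⟩
  have := hH x hx
  linarith

/-- the width is at most three times the length -/
lemma H_le {xm H : ℝ} (hm : xm ∈ Ioo x₁ x₂) (hH : ∀ x ∈ Icc x₁ x₂, yu x - yl x ≤ H)
    (hHm : yu xm - yl xm = H) : H ≤ 3 * (x₂ - x₁) := by
  have hm' := Ioo_subset_Icc_self hm
  have hw := (S.width hm').1
  rw [hHm] at hw
  have ht := S.tpos
  have hB0 := S.B0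
  have hH0 : 0 < H := by rw [← hHm]; linarith [S.lu xm hm]
  set M := (101 / 100 * H * (|P.s| + 2 * (x₂ - x₁) + B) +
      101 / 100 * ((x₂ - x₁) + |P.s| * B + (x₂ - x₁ + B) ^ 2)) * (x₂ - x₁) with hM
  have h1 := S.G_le S.cl S.v1 S.bl (fun x hx => (S.vl x hx).ne') S.dl
    (fun x hx => S.abs_ul hH hx) hm
  have h2 := S.G_le S.cu (by rw [← S.e1]; exact S.v1) S.bu (fun x hx => (S.vu x hx).ne) S.du
    (fun x hx => S.abs_uu hH hx) hm
  rw [← hM] at h1 h2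
  have h3 : (49 / 100 * H) ^ 2 / 2 ≤ M := by
    rcases le_total (49 / 100 * H) (P.V1 xm (yl xm)) with h | h
    · refine le_trans ?_ h1
      gcongr
    · have h4 : 49 / 100 * H ≤ -P.V1 xm (yu xm) := by linarith
      refine le_trans ?_ h2
      rw [← neg_sq (P.V1 xm (yu xm))]
      gcongr
  by_contra hc
  push Not at hc
  have hs := S.sb
  have hs' := S.s_small
  have htA := S.t2A
  have hA := S.hA
  have hB := S.hB
  have hBb := S.B_bd hH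
  have hes := S.es_le
  have hp1 := S.hp1
  set τ := x₂ - x₁ with hτ
  have hτs : τ ≤ 2 / 10 ^ 6 := by norm_num at *; linarith
  have b1 : |P.e * P.s| * τ ≤ 1 / 10 ^ 5 * τ := by gcongr; linarith
  have b2 : |P.p1| * τ ^ 2 ≤ 2 / 10 ^ 6 * τ := by
    rw [sq]
    calc |P.p1| * (τ * τ) ≤ 1 * (2 / 10 ^ 6 * τ) := by gcongr
      _ = _ := by ring
  have b3 : B ≤ 17 * H + τ := by norm_num at *; linarith
  have b4 : |P.s| * B + (τ + B) ^ 2 ≤ 6 / 10 ^ 6 * (τ + B) := by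
    have e1 : |P.s| * B ≤ (3 * τ + 3 * B) * B := by gcongr
    have e2 : (3 * τ + 3 * B) * B + (τ + B) ^ 2 = (τ + 4 * B) * (τ + B) := by ring
    have e3 : (τ + 4 * B) * (τ + B) ≤ 6 / 10 ^ 6 * (τ + B) := by
      gcongr
      norm_num at *
      linarith
    linarith
  have b5 : |P.s| + 2 * τ + B ≤ 2 / 10 ^ 5 := by norm_num at *; linarith
  have b6 : M ≤ (102 / 100 * τ + 2 / 10 ^ 4 * H) * τ := by
    rw [hM]
    refine mul_le_mul_of_nonneg_right ?_ ht.le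
    have e1 : 101 / 100 * H * (|P.s| + 2 * τ + B) ≤ 101 / 100 * H * (2 / 10 ^ 5) := by gcongr
    have e2 : τ + |P.s| * B + (τ + B) ^ 2 ≤ τ + 6 / 10 ^ 6 * (τ + (17 * H + τ)) := by
      have : 6 / 10 ^ 6 * (τ + B) ≤ 6 / 10 ^ 6 * (τ + (17 * H + τ)) := by gcongr
      linarith
    norm_num at *
    linarith
  have b7 : 3 * τ * τ < H * τ := by gcongr
  have b8 : 3 * τ * H < H * H := by gcongr
  norm_num at *
  nlinarith

end Sm

end

end Pool.Agent.H709Q
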