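import Pool.Agent.H709Q.T8c

/-! Small closed orbits of quadratic fields in normal form: analysis of the two graphs, IV. -/

open Real Set MeasureTheory Topology Filter

namespace Pool.Agent.H709Q

noncomputable section

variable {P : Par} {x₁ x₂ A B : ℝ} {yl yu : ℝ → ℝ}

namespace Sm

variable (S : Sm P x₁ x₂ yl yu A B)

include S

/-- one quarter interval -/
lemma quarter {xm H : ℝ} (hm : xm ∈ Ioo x₁ x₂) (hH : ∀ x ∈ Icc x₁ x₂, yu x - yl x ≤ H)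
    (hHm : yu xm - yl xm = H) {l r σ : ℝ} (hl : x₁ + (x₂ - x₁) / 8 ≤ l)
    (hr : r ≤ x₂ - (x₂ - x₁) / 8) (hlr : r - l = (x₂ - x₁) / 4) (hσ : |σ| = 1)
    (hbig : 48 * B ≤ |2 * P.p1 + P.q2| * (x₂ - x₁))
    (ha : ∀ x ∈ Ioo l r, |2 * P.p1 + P.q2| * (x₂ - x₁) / 8 ≤
      σ * (-(1 + P.e) * P.s + (2 * P.p1 + P.q2) * x)) :
    |2 * P.p1 + P.q2| * (x₂ - x₁) ^ 2 ≤ 703 * H := by
  have ht := S.tpos
  have hlr' : l < r := by linarith
  have hsub : Icc l r ⊆ Icc x₁ x₂ := Icc_subset_Icc (by linarith) (by linarith)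
  have hsub' : Ioo l r ⊆ Ioo x₁ x₂ := Ioo_subset_Ioo (by linarith) (by linarith)
  obtain ⟨ξ, hξ, h⟩ := exists_hasDerivAt_eq_slope (fun x => P.W x (yu x) - P.W x (yl x))
    (fun x => (yu x - yl x) * P.dv x ((yl x + yu x) / 2)) hlr' (S.cPhi.mono hsub)
    (fun x hx => S.hasDerivAt_Phi (hsub' hx))
  have hξ' := hsub' hξ
  have hξ'' := Ioo_subset_Icc_self hξ'
  have hH0 : 0 < H := by rw [← hHm]; linarith [S.lu xm hm]
  set δ := |2 * P.p1 + P.q2| with hδ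
  set τ := x₂ - x₁ with hτ
  have hL : 7 / 64 * H ≤ yu ξ - yl ξ := by
    refine le_trans ?_ (S.tent (Ioo_subset_Icc_self hm) hHm hξ'')
    rw [mul_comm]
    refine mul_le_mul_of_nonneg_left ?_ hH0.le
    rw [← hτ, le_div_iff₀ (by positivity)]
    have e1 : τ / 8 ≤ ξ - x₁ := by linarith [hξ.1]
    have e2 : τ / 8 ≤ x₂ - ξ := by linarith [hξ.2]
    have e3 : (ξ - x₁) + (x₂ - ξ) = τ := by rw [hτ]; ring
    nlinarith
  have h1 : δ * τ / 16 ≤ σ * P.dv ξ ((yl ξ + yu ξ) / 2) := by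
    have e1 := ha ξ hξ
    have e2 := S.ycB hξ''
    have e3 := S.d2
    have e4 : |σ * ((P.p2 + 2 * P.q3) * ((yl ξ + yu ξ) / 2))| ≤ 1 * (3 * B) := by
      rw [abs_mul, abs_mul, hσ]
      gcongr
    have e5 := neg_abs_le (σ * ((P.p2 + 2 * P.q3) * ((yl ξ + yu ξ) / 2)))
    have e6 : σ * P.dv ξ ((yl ξ + yu ξ) / 2) = σ * (-(1 + P.e) * P.s + (2 * P.p1 + P.q2) * ξ) +
      σ * ((P.p2 + 2 * P.q3) * ((yl ξ + yu ξ) / 2)) := by
      unfold Par.dv; ring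
    rw [e6]
    linarith
  have hδ0 : 0 ≤ δ := abs_nonneg _
  have h2 : 7 / 64 * H * (δ * τ / 16) ≤ σ * ((yu ξ - yl ξ) * P.dv ξ ((yl ξ + yu ξ) / 2)) := by
    calc 7 / 64 * H * (δ * τ / 16) ≤ (yu ξ - yl ξ) * (σ * P.dv ξ ((yl ξ + yu ξ) / 2)) :=
          mul_le_mul hL h1 (by positivity) (by linarith [S.lu' hξ''])
      _ = _ := by ring
  have hr' : r ∈ Icc x₁ x₂ := hsub ⟨hlr'.le, le_rfl⟩
  have hl' : l ∈ Icc x₁ x₂ := hsub ⟨le_rfl, hlr'.le⟩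
  have h3 : ∀ x ∈ Icc x₁ x₂, |P.W x (yu x) - P.W x (yl x)| ≤ 6 / 10 * H ^ 2 := by
    intro x hx
    refine (S.Phi_le hx).trans ?_
    have := hH x hx
    have := S.lu' hx
    have e : 0 ≤ yu x - yl x := by linarith
    gcongr
  rw [h] at h2
  have h4 : σ * ((P.W r (yu r) - P.W r (yl r) - (P.W l (yu l) - P.W l (yl l))) / (r - l)) ≤
      12 / 10 * H ^ 2 / (τ / 4) := by
    rw [hlr, ← mul_div_assoc]
    refine div_le_div_of_nonneg_right ?_ (by positivity)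
    have e1 := h3 r hr'
    have e2 := h3 l hl'
    have e3 := abs_sub (P.W r (yu r) - P.W r (yl r)) (P.W l (yu l) - P.W l (yl l))
    refine (le_abs_self _).trans ?_
    rw [abs_mul, hσ]
    linarith
  have h5 := h2.trans h4
  rw [le_div_iff₀ (by positivity)] at h5
  have h6 : H * (δ * τ ^ 2) ≤ H * (703 * H) := by nlinarith
  exact le_of_mul_le_mul_left h6 hH0

/-- the quadratic trace coefficient -/
lemma d1_le {xm H : ℝ} (hm : xm ∈ Ioo x₁ x₂) (hH : ∀ x ∈ Icc x₁ x₂, yu x - yl x ≤ H)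
    (hHm : yu xm - yl xm = H) :
    |2 * P.p1 + P.q2| * (x₂ - x₁) ^ 2 ≤ 703 * H + 48 * B * (x₂ - x₁) := by
  have ht := S.tpos
  have hH0 : 0 < H := by rw [← hHm]; linarith [S.lu xm hm]
  have hB := S.B0
  rcases le_total (|2 * P.p1 + P.q2| * (x₂ - x₁)) (48 * B) with hbig | hbig
  · have : |2 * P.p1 + P.q2| * (x₂ - x₁) ^ 2 ≤ 48 * B * (x₂ - x₁) := by
      rw [sq, ← mul_assoc]
      gcongr
    linarith
  · have key : |2 * P.p1 + P.q2| * (x₂ - x₁) ^ 2 ≤ 703 * H := by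
      rcases le_total 0 (2 * P.p1 + P.q2) with hd | hd
      · rcases le_total 0 (-(1 + P.e) * P.s + (2 * P.p1 + P.q2) * ((x₁ + x₂) / 2)) with h0 | h0
        · refine S.quarter hm hH hHm (l := (x₁ + x₂) / 2 + (x₂ - x₁) / 8)
            (r := (x₁ + x₂) / 2 + 3 * (x₂ - x₁) / 8) (σ := 1) (by linarith) (by linarith)
            (by ring) (by simp) hbig ?_
          intro x hx
          rw [abs_of_nonneg hd, one_mul]
          have := hx.1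
          nlinarith
        · refine S.quarter hm hH hHm (l := (x₁ + x₂) / 2 - 3 * (x₂ - x₁) / 8)
            (r := (x₁ + x₂) / 2 - (x₂ - x₁) / 8) (σ := -1) (by linarith) (by linarith)
            (by ring) (by simp) hbig ?_
          intro x hx
          rw [abs_of_nonneg hd]
          have := hx.2
          nlinarith
      · rcases le_total 0 (-(1 + P.e) * P.s + (2 * P.p1 + P.q2) * ((x₁ + x₂) / 2)) with h0 | h0
        · refine S.quarter hm hH hHm (l := (x₁ + x₂) / 2 - 3 * (x₂ - x₁) / 8)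
            (r := (x₁ + x₂) / 2 - (x₂ - x₁) / 8) (σ := 1) (by linarith) (by linarith)
            (by ring) (by simp) hbig ?_
          intro x hx
          rw [abs_of_nonpos hd, one_mul]
          have := hx.2
          nlinarith
        · refine S.quarter hm hH hHm (l := (x₁ + x₂) / 2 + (x₂ - x₁) / 8)
            (r := (x₁ + x₂) / 2 + 3 * (x₂ - x₁) / 8) (σ := -1) (by linarith) (by linarith)
            (by ring) (by simp) hbig ?_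
          intro x hx
          rw [abs_of_nonpos hd]
          have := hx.1
          nlinarith
    have : 0 ≤ 48 * B * (x₂ - x₁) := by positivity
    linarith

/-- the coefficient of `x²` in the first component -/
lemma p1_le {xm H : ℝ} (hm : xm ∈ Ioo x₁ x₂) (hH : ∀ x ∈ Icc x₁ x₂, yu x - yl x ≤ H)
    (hHm : yu xm - yl xm = H) :
    |P.p1| * (x₂ - x₁) ^ 2 ≤ 41 / 10 * H + 1 / 100 * (|P.e * P.s| * (x₂ - x₁)) := by
  have ht := S.tpos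
  have hH0 : 0 < H := by rw [← hHm]; linarith [S.lu xm hm]
  have h1m : x₁ ∈ Icc x₁ x₂ := ⟨le_rfl, S.lt.le⟩
  have h2m : x₂ ∈ Icc x₁ x₂ := ⟨S.lt.le, le_rfl⟩
  have hmid : (x₁ + x₂) / 2 ∈ Icc x₁ x₂ := ⟨by linarith, by linarith⟩
  have g1 := S.convl.2 h1m h2m (by norm_num : (0:ℝ) ≤ 1 / 2) (by norm_num : (0:ℝ) ≤ 1 / 2)
    (by norm_num)
  have g2 := S.concu.2 h1m h2m (by norm_num : (0:ℝ) ≤ 1 / 2) (by norm_num : (0:ℝ) ≤ 1 / 2)
    (by norm_num)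
  simp only [smul_eq_mul] at g1 g2
  rw [show 1 / 2 * x₁ + 1 / 2 * x₂ = (x₁ + x₂) / 2 by ring] at g1 g2
  rw [← S.e1, ← S.e2] at g2
  set y₁ := yl x₁ with hy1
  set y₂ := yl x₂ with hy2
  have h1 : |P.V1 ((x₁ + x₂) / 2) ((y₁ + y₂) / 2)| ≤ 101 / 100 * H := by
    have h2 := S.V1_mid (y := (y₁ + y₂) / 2) hmid ⟨by linarith, by linarith⟩
    have := hH _ hmid
    linarith
  have h3 : P.V1 ((x₁ + x₂) / 2) ((y₁ + y₂) / 2) = (P.V1 x₁ y₁ + P.V1 x₂ y₂) / 2 -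
      (P.p1 * (x₂ - x₁) ^ 2 + P.p2 * ((x₂ - x₁) * (y₂ - y₁)) + P.p3 * (y₂ - y₁) ^ 2) / 4 := by
    unfold Par.V1; ring
  rw [S.v1, S.v2] at h3
  have k1 := S.y_bd h1m (S.bl x₁ h1m)
  have k2 := S.y_bd h2m (S.bl x₂ h2m)
  rw [S.v1, abs_zero, zero_add, ← hy1] at k1
  rw [S.v2, abs_zero, zero_add, ← hy2] at k2
  have hB1 := S.bl x₁ h1m
  have hB2 := S.bl x₂ h2m
  rw [← hy1] at hB1
  rw [← hy2] at hB2
  have htA := S.t2A
  have hA := S.hA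
  have hB := S.hB
  set τ := x₂ - x₁ with hτ
  set Δ := y₂ - y₁ with hΔ
  have k3 : |Δ| ≤ |y₁| + |y₂| := by rw [hΔ]; have := abs_sub y₂ y₁; linarith
  have k4 : |P.p1 * τ ^ 2 + P.p2 * (τ * Δ) + P.p3 * Δ ^ 2| ≤ 404 / 100 * H := by
    have e : P.p1 * τ ^ 2 + P.p2 * (τ * Δ) + P.p3 * Δ ^ 2 =
      -(4 * P.V1 ((x₁ + x₂) / 2) ((y₁ + y₂) / 2)) := by rw [h3]; ring
    rw [e, abs_neg, abs_mul, abs_of_pos (by norm_num : (0:ℝ) < 4)]
    linarith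
  have k5 : |P.p2 * (τ * Δ) + P.p3 * Δ ^ 2| ≤ (τ + |Δ|) * |Δ| := by
    have e1 : |P.p2 * (τ * Δ)| ≤ 1 * (τ * |Δ|) := by
      rw [abs_mul, abs_mul, abs_of_pos ht]
      have := S.hp2
      gcongr
    have e2 : |P.p3 * Δ ^ 2| ≤ 1 * |Δ| ^ 2 := by
      rw [abs_mul, abs_pow]
      have := S.hp3
      gcongr
    have := abs_add_le (P.p2 * (τ * Δ)) (P.p3 * Δ ^ 2)
    nlinarith
  have k6 : |P.p1| * τ ^ 2 ≤ 404 / 100 * H + (τ + |Δ|) * |Δ| := by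
    have e1 : |P.p1| * τ ^ 2 = |(P.p1 * τ ^ 2 + P.p2 * (τ * Δ) + P.p3 * Δ ^ 2) -
      (P.p2 * (τ * Δ) + P.p3 * Δ ^ 2)| := by
      rw [show (P.p1 * τ ^ 2 + P.p2 * (τ * Δ) + P.p3 * Δ ^ 2) -
        (P.p2 * (τ * Δ) + P.p3 * Δ ^ 2) = P.p1 * τ ^ 2 by ring, abs_mul,
        abs_of_nonneg (sq_nonneg τ)]
    rw [e1]
    have := abs_sub (P.p1 * τ ^ 2 + P.p2 * (τ * Δ) + P.p3 * Δ ^ 2)
      (P.p2 * (τ * Δ) + P.p3 * Δ ^ 2)
    linarith
  have k7 : (τ + |Δ|) * |Δ| ≤ 1 / 10 ^ 4 * |Δ| := by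
    gcongr
    norm_num at *
    linarith
  have k8 : 0 ≤ |P.e * P.s| * τ := by positivity
  have k9 : 0 ≤ |P.p1| * τ ^ 2 := by positivity
  norm_num at k7 ⊢
  norm_num at k1 k2
  rw [abs_mul] at k8
  nlinarith

/-- `B` is controlled by the width and the trace -/
lemma B_le {xm H : ℝ} (hm : xm ∈ Ioo x₁ x₂) (hH : ∀ x ∈ Icc x₁ x₂, yu x - yl x ≤ H)
    (hHm : yu xm - yl xm = H) :
    B ≤ 84 * H + 17 * (|P.e * P.s| * (x₂ - x₁)) := by
  have h1 := S.B_bd hH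
  have h2 := S.p1_le hm hH hHm
  have h3 : 0 ≤ |P.e * P.s| * (x₂ - x₁) := by have := S.tpos; positivity
  have hH0 : 0 < H := by rw [← hHm]; linarith [S.lu xm hm]
  linarith

/-- a lower bound of `V2` on the lower graph, right side -/
lemma V2_right {x : ℝ} (hx : x ∈ Icc 0 x₂) {y : ℝ} (hy : |y| ≤ B) :
    P.e * P.c * x * (1 - x / x₂) - 2 * (B * (|P.s| + (x₂ - x₁) + B)) ≤ P.V2 x y := by
  have hn2 := S.n2
  have hn1 := S.n1
  have h1 := S.w2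
  have h2m : x₂ ∈ Icc x₁ x₂ := ⟨S.lt.le, le_rfl⟩
  have hyB := S.bl x₂ h2m
  have ht := S.tpos
  have hx1 : |x| ≤ x₂ - x₁ := S.xt ⟨by linarith [hx.1], hx.2⟩
  have hx2 : |x₂| ≤ x₂ - x₁ := S.xt h2m
  have key : ∀ u v : ℝ, |u| ≤ x₂ - x₁ → |v| ≤ B →
      |-(P.s * v) + P.q2 * (u * v) + P.q3 * v ^ 2| ≤ B * (|P.s| + (x₂ - x₁) + B) := by
    intro u v hu hv
    have e1 : |P.s * v| ≤ |P.s| * B := by rw [abs_mul]; gcongr
    have e2 : |P.q2 * (u * v)| ≤ 1 * ((x₂ - x₁) * B) := by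
      rw [abs_mul, abs_mul]
      have := S.hq2
      gcongr
    have e3 : |P.q3 * v ^ 2| ≤ 1 * B ^ 2 := by
      rw [abs_mul, abs_pow]
      have := S.hq3
      gcongr
    have e4 := abs_add_le (-(P.s * v) + P.q2 * (u * v)) (P.q3 * v ^ 2)
    have e5 := abs_add_le (-(P.s * v)) (P.q2 * (u * v))
    rw [abs_neg] at e5
    nlinarith
  have k1 := key x₂ (yl x₂) hx2 hyB
  have k2 := key x y hx1 hy
  set η := B * (|P.s| + (x₂ - x₁) + B) with hη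
  have hη0 : 0 ≤ η := by
    have := S.B0
    rw [hη]
    positivity
  have h3 : P.V2 x₂ (yl x₂) = P.e * P.c * x₂ + P.q1 * x₂ ^ 2 +
      (-(P.s * yl x₂) + P.q2 * (x₂ * yl x₂) + P.q3 * yl x₂ ^ 2) := by unfold Par.V2; ring
  have h4 : P.V2 x y = P.e * P.c * x + P.q1 * x ^ 2 +
      (-(P.s * y) + P.q2 * (x * y) + P.q3 * y ^ 2) := by unfold Par.V2; ring
  have k3 := (abs_le.1 k1).2
  have k4 := (abs_le.1 k2).1
  have h5 : -(P.e * P.c * x₂) - η ≤ P.q1 * x₂ ^ 2 := by linarith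
  set ρ := x / x₂ with hρ
  have hρ0 : 0 ≤ ρ := div_nonneg hx.1 hn2.le
  have hρ1 : ρ ≤ 1 := by rw [hρ, div_le_one hn2]; exact hx.2
  have hxρ : x = ρ * x₂ := by rw [hρ]; field_simp
  have hρ2 : ρ ^ 2 ≤ 1 := by nlinarith
  have h6 : (-(P.e * P.c * x₂) - η) * ρ ^ 2 ≤ P.q1 * x₂ ^ 2 * ρ ^ 2 :=
    mul_le_mul_of_nonneg_right h5 (sq_nonneg ρ)
  have h7 : η * ρ ^ 2 ≤ η := by nlinarith
  rw [h4, hxρ]
  rw [hxρ] at k4
  nlinarith

/-- an upper bound of `V2` on the lower graph, left side -/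
lemma V2_left {x : ℝ} (hx : x ∈ Icc x₁ 0) {y : ℝ} (hy : |y| ≤ B) :
    P.V2 x y ≤ P.e * P.c * x * (1 - x / x₁) + 2 * (B * (|P.s| + (x₂ - x₁) + B)) := by
  have hn2 := S.n2
  have hn1 := S.n1
  have h1 := S.w1
  have h2m : x₁ ∈ Icc x₁ x₂ := ⟨le_rfl, S.lt.le⟩
  have hyB := S.bl x₁ h2m
  have ht := S.tpos
  have hx1 : |x| ≤ x₂ - x₁ := S.xt ⟨hx.1, by linarith [hx.2]⟩
  have hx2 : |x₁| ≤ x₂ - x₁ := S.xt h2m
  have key : ∀ u v : ℝ, |u| ≤ x₂ - x₁ → |v| ≤ B →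
      |-(P.s * v) + P.q2 * (u * v) + P.q3 * v ^ 2| ≤ B * (|P.s| + (x₂ - x₁) + B) := by
    intro u v hu hv
    have e1 : |P.s * v| ≤ |P.s| * B := by rw [abs_mul]; gcongr
    have e2 : |P.q2 * (u * v)| ≤ 1 * ((x₂ - x₁) * B) := by
      rw [abs_mul, abs_mul]
      have := S.hq2
      gcongr
    have e3 : |P.q3 * v ^ 2| ≤ 1 * B ^ 2 := by
      rw [abs_mul, abs_pow]
      have := S.hq3
      gcongr
    have e4 := abs_add_le (-(P.s * v) + P.q2 * (u * v)) (P.q3 * v ^ 2)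
    have e5 := abs_add_le (-(P.s * v)) (P.q2 * (u * v))
    rw [abs_neg] at e5
    nlinarith
  have k1 := key x₁ (yl x₁) hx2 hyB
  have k2 := key x y hx1 hy
  set η := B * (|P.s| + (x₂ - x₁) + B) with hη
  have hη0 : 0 ≤ η := by
    have := S.B0
    rw [hη]
    positivity
  have h3 : P.V2 x₁ (yl x₁) = P.e * P.c * x₁ + P.q1 * x₁ ^ 2 +
      (-(P.s * yl x₁) + P.q2 * (x₁ * yl x₁) + P.q3 * yl x₁ ^ 2) := by unfold Par.V2; ring
  have h4 : P.V2 x y = P.e * P.c * x + P.q1 * x ^ 2 +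
      (-(P.s * y) + P.q2 * (x * y) + P.q3 * y ^ 2) := by unfold Par.V2; ring
  have k3 := (abs_le.1 k1).1
  have k4 := (abs_le.1 k2).2
  have h5 : P.q1 * x₁ ^ 2 ≤ -(P.e * P.c * x₁) + η := by linarith
  set ρ := x / x₁ with hρ
  have hρ0 : 0 ≤ ρ := div_nonneg_of_nonpos hx.2 hn1.le
  have hρ1 : ρ ≤ 1 := by rw [hρ, div_le_one_of_neg hn1]; exact hx.1
  have hxρ : x = ρ * x₁ := by rw [hρ, div_mul_cancel₀ _ hn1.ne]
  have hρ2 : ρ ^ 2 ≤ 1 := by nlinarith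
  have h6 : P.q1 * x₁ ^ 2 * ρ ^ 2 ≤ (-(P.e * P.c * x₁) + η) * ρ ^ 2 :=
    mul_le_mul_of_nonneg_right h5 (sq_nonneg ρ)
  have h7 : η * ρ ^ 2 ≤ η := by nlinarith
  rw [h4, hxρ]
  rw [hxρ] at k4
  nlinarith

end Sm

end

end Pool.Agent.H709Q
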