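import Pool.Agent.H709Q.T8d

/-! Small closed orbits of quadratic fields in normal form: analysis of the two graphs, V. -/

open Real Set MeasureTheory Topology Filter

namespace Pool.Agent.H709Q

noncomputable section

variable {P : Par} {x₁ x₂ A B : ℝ} {yl yu : ℝ → ℝ}

lemma kappa_num {e c σ τ B H : ℝ} (he0 : 0 < e) (he1 : e ≤ 1) (hc : 99 / 100 ≤ c) (hσ0 : 0 ≤ σ)
    (hτ0 : 0 < τ) (hτs : τ ≤ 2 / 10 ^ 6) (hB0 : 0 < B) (hH0 : 0 < H) (hH3 : H ≤ 3 * τ)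
    (b1 : B ≤ 253 * τ) (b2 : σ ≤ 762 * τ) (hBl : B ≤ 84 * H + 17 * (e * σ * τ))
    (key : 98 / 100 * (e * c) * (τ / 2) ^ 2 / 6 ≤
      (101 / 100 * H * (e * σ + 2 * τ + B) + 202 / 100 * (B * (σ + τ + B))) * τ +
        (101 / 100 * H) ^ 2 / 2) : e * σ * τ ≤ H := by
  have hes : e * σ ≤ σ := by nlinarith
  have c1 : 101 / 100 * H * (e * σ + 2 * τ + B) ≤ 101 / 100 * H * (1017 * τ) :=
    mul_le_mul_of_nonneg_left (by linarith) (by positivity)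
  have c3 : e * σ * τ ≤ e * (762 * τ) * τ := by gcongr
  have c2 : B * (σ + τ + B) ≤ (84 * H + 17 * (e * (762 * τ) * τ)) * (1016 * τ) :=
    mul_le_mul (by linarith) (by linarith) (by positivity) (by positivity)
  have c5 : (101 / 100 * H * (e * σ + 2 * τ + B) + 202 / 100 * (B * (σ + τ + B))) * τ ≤
      (101 / 100 * H * (1017 * τ) +
        202 / 100 * ((84 * H + 17 * (e * (762 * τ) * τ)) * (1016 * τ))) * τ :=
    mul_le_mul_of_nonneg_right (by linarith) hτ0.le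
  have c6 : 98 / 100 * (e * (99 / 100)) * (τ / 2) ^ 2 / 6 ≤
      98 / 100 * (e * c) * (τ / 2) ^ 2 / 6 := by gcongr
  have c7 := (c6.trans key).trans (add_le_add_left c5 ((101 / 100 * H) ^ 2 / 2))
  have d1 : τ ^ 2 ≤ 4 / 10 ^ 12 := by
    calc τ ^ 2 ≤ (2 / 10 ^ 6) ^ 2 := by gcongr
      _ = _ := by norm_num
  have d2 : e * τ ^ 2 * τ ^ 2 ≤ e * τ ^ 2 * (4 / 10 ^ 12) := by gcongr
  have d3 : H * H ≤ H * (3 * τ) := by gcongr
  have d4 : H * τ ≤ H * (2 / 10 ^ 6) := by gcongr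
  have d5 : H * τ ^ 2 ≤ H * (4 / 10 ^ 12) := by gcongr
  have n1 : 0 ≤ e * τ ^ 2 := by positivity
  have n2 : 0 ≤ e * τ ^ 2 * τ ^ 2 := by positivity
  have n3 : 0 ≤ H * τ ^ 2 := by positivity
  have n4 : 0 ≤ H * H := by positivity
  have f1 : 4 / 100 * (e * τ ^ 2) ≤ 175000 * (H * τ ^ 2) + 27000000 * (e * τ ^ 2 * τ ^ 2) +
      52 / 100 * (H * H) := by linarith
  have f2 : e * τ ^ 2 ≤ 5000000 * (H * τ ^ 2) + 14 * (H * H) := by linarith
  have f3 : e * τ ^ 2 ≤ H / 762 := by linarith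
  calc e * σ * τ ≤ e * (762 * τ) * τ := c3
    _ = 762 * (e * τ ^ 2) := by ring
    _ ≤ 762 * (H / 762) := by gcongr
    _ = H := by ring

namespace Sm

variable (S : Sm P x₁ x₂ yl yu A B)

include S

lemma cG : ContinuousOn (fun x => P.V1 x (yl x) ^ 2 / 2) (Icc x₁ x₂) := by
  have := S.cl
  unfold Par.V1
  fun_prop

lemma u0_le {H : ℝ} (hH : ∀ x ∈ Icc x₁ x₂, yu x - yl x ≤ H) :
    P.V1 0 (yl 0) ^ 2 / 2 ≤ (101 / 100 * H) ^ 2 / 2 := by
  have h1 := S.abs_ul hH (Ioo_subset_Icc_self S.zero_mem)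
  have h2 : P.V1 0 (yl 0) ^ 2 = |P.V1 0 (yl 0)| ^ 2 := (sq_abs _).symm
  rw [h2]
  gcongr

/-- the error constant -/
lemma first_bd {H : ℝ} (hH : ∀ x ∈ Icc x₁ x₂, yu x - yl x ≤ H) {x : ℝ} (hx : x ∈ Icc x₁ x₂) :
    |P.V1 x (yl x) * P.V1x x (yl x)| ≤
      101 / 100 * H * (|P.e * P.s| + 2 * (x₂ - x₁) + B) := by
  rw [abs_mul]
  have e2 := S.abs_ul hH hx
  have e3 := S.V1x_bd (S.xt hx) (S.bl x hx)
  have := (abs_nonneg _).trans e2
  gcongr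

lemma energy_right {H : ℝ} (hH : ∀ x ∈ Icc x₁ x₂, yu x - yl x ≤ H) :
    98 / 100 * (P.e * P.c) * x₂ ^ 2 / 6 ≤
      (101 / 100 * H * (|P.e * P.s| + 2 * (x₂ - x₁) + B) +
        202 / 100 * (B * (|P.s| + (x₂ - x₁) + B))) * x₂ + (101 / 100 * H) ^ 2 / 2 := by
  have hn2 := S.n2
  have hn1 := S.n1
  set E := 101 / 100 * H * (|P.e * P.s| + 2 * (x₂ - x₁) + B) +
        202 / 100 * (B * (|P.s| + (x₂ - x₁) + B)) with hE
  have hcont : ContinuousOn (fun x => P.V1 x (yl x) ^ 2 / 2 +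
      98 / 100 * (P.e * P.c) * (x ^ 2 / 2 - x ^ 3 / (3 * x₂)) - E * x) (Icc 0 x₂) := by
    refine ((S.cG.mono (Icc_subset_Icc hn1.le le_rfl)).add ?_).sub (by fun_prop)
    fun_prop
  have hder : ∀ x ∈ Ioo 0 x₂, HasDerivAt (fun x => P.V1 x (yl x) ^ 2 / 2 +
      98 / 100 * (P.e * P.c) * (x ^ 2 / 2 - x ^ 3 / (3 * x₂)) - E * x)
      (P.V1 x (yl x) * P.V1x x (yl x) + P.V1y x (yl x) * P.V2 x (yl x) +
        98 / 100 * (P.e * P.c) * (x - x ^ 2 / x₂) - E) x := by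
    intro x hx
    have hx' : x ∈ Ioo x₁ x₂ := ⟨hn1.trans hx.1, hx.2⟩
    have h1 := hasDerivAt_G P (S.vl x hx').ne' (S.dl x hx')
    have hid := hasDerivAt_id x
    have h2 := (((hid.pow 2).div_const 2).sub ((hid.pow 3).div_const (3 * x₂))).const_mul
      (98 / 100 * (P.e * P.c))
    have h3 := (h1.add h2).sub (hid.const_mul E)
    refine HasDerivAt.congr_deriv h3 ?_
    have h4 : (98 / 100 * (P.e * P.c) * (↑2 * id x ^ (2 - 1) * 1 / 2 -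
        ↑3 * id x ^ (3 - 1) * 1 / (3 * x₂)) : ℝ) = 98 / 100 * (P.e * P.c) * (x - x ^ 2 / x₂) := by
      simp only [id]
      rw [show (2 - 1 : ℕ) = 1 from rfl, show (3 - 1 : ℕ) = 2 from rfl]
      field_simp
    push_cast at h4 ⊢
    rw [h4]
    ring
  obtain ⟨ξ, hξ, h⟩ := exists_hasDerivAt_eq_slope _ _ hn2 hcont hder
  have hξ' : ξ ∈ Icc x₁ x₂ := ⟨by linarith [hξ.1], hξ.2.le⟩
  have hneg : P.V1 ξ (yl ξ) * P.V1x ξ (yl ξ) + P.V1y ξ (yl ξ) * P.V2 ξ (yl ξ) +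
        98 / 100 * (P.e * P.c) * (ξ - ξ ^ 2 / x₂) - E ≤ 0 := by
    have e1 := (abs_le.1 (S.first_bd hH hξ')).2
    have e2 := S.V2_right (x := ξ) ⟨hξ.1.le, hξ.2.le⟩ (S.bl ξ hξ')
    have e3 := S.V1y_bd (S.bx ξ hξ') (S.bl ξ hξ')
    have e4 : ξ - ξ ^ 2 / x₂ = ξ * (1 - ξ / x₂) := by ring
    have hec : 0 ≤ P.e * P.c := mul_nonneg S.he0.le (by linarith [S.c_ge])
    have e5 : 0 ≤ 1 - ξ / x₂ := by
      rw [sub_nonneg, div_le_one hn2]
      exact hξ.2.le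
    have e6 : 0 ≤ P.e * P.c * ξ * (1 - ξ / x₂) := by
      have := hξ.1
      positivity
    have hη : 0 ≤ B * (|P.s| + (x₂ - x₁) + B) := by
      have := S.B0
      have := S.tpos
      positivity
    set η := B * (|P.s| + (x₂ - x₁) + B) with hη'
    have e7 : P.V1y ξ (yl ξ) * P.V2 ξ (yl ξ) ≤
        P.V1y ξ (yl ξ) * (P.e * P.c * ξ * (1 - ξ / x₂) - 2 * η) :=
      mul_le_mul_of_nonpos_left e2 (by linarith [e3.2])
    have e8 : P.V1y ξ (yl ξ) * (P.e * P.c * ξ * (1 - ξ / x₂)) ≤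
        -(98 / 100) * (P.e * P.c * ξ * (1 - ξ / x₂)) :=
      mul_le_mul_of_nonneg_right e3.2 e6
    have e9 : -(P.V1y ξ (yl ξ) * (2 * η)) ≤ 101 / 100 * (2 * η) := by
      rw [← neg_mul]
      exact mul_le_mul_of_nonneg_right (by linarith [e3.1]) (by linarith)
    rw [e4, hE]
    linarith
  rw [h, div_nonpos_iff] at hneg
  rcases hneg with ⟨-, h'⟩ | ⟨h', -⟩
  · linarith
  · have h2 := S.u0_le hH
    have e : x₂ ^ 2 / 2 - x₂ ^ 3 / (3 * x₂) = x₂ ^ 2 / 6 := by field_simp; ring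
    rw [S.v2, e] at h'
    simp only [ne_eq, OfNat.ofNat_ne_zero, not_false_eq_true, zero_pow, zero_div, sub_self,
      mul_zero, add_zero, sub_zero, zero_add] at h'
    linarith

lemma energy_left {H : ℝ} (hH : ∀ x ∈ Icc x₁ x₂, yu x - yl x ≤ H) :
    98 / 100 * (P.e * P.c) * x₁ ^ 2 / 6 ≤
      (101 / 100 * H * (|P.e * P.s| + 2 * (x₂ - x₁) + B) +
        202 / 100 * (B * (|P.s| + (x₂ - x₁) + B))) * (-x₁) + (101 / 100 * H) ^ 2 / 2 := by
  have hn2 := S.n2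
  have hn1 := S.n1
  set E := 101 / 100 * H * (|P.e * P.s| + 2 * (x₂ - x₁) + B) +
        202 / 100 * (B * (|P.s| + (x₂ - x₁) + B)) with hE
  have hcont : ContinuousOn (fun x => P.V1 x (yl x) ^ 2 / 2 +
      98 / 100 * (P.e * P.c) * (x ^ 2 / 2 - x ^ 3 / (3 * x₁)) + E * x) (Icc x₁ 0) := by
    refine ((S.cG.mono (Icc_subset_Icc le_rfl hn2.le)).add ?_).add (by fun_prop)
    fun_prop
  have hder : ∀ x ∈ Ioo x₁ 0, HasDerivAt (fun x => P.V1 x (yl x) ^ 2 / 2 +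
      98 / 100 * (P.e * P.c) * (x ^ 2 / 2 - x ^ 3 / (3 * x₁)) + E * x)
      (P.V1 x (yl x) * P.V1x x (yl x) + P.V1y x (yl x) * P.V2 x (yl x) +
        98 / 100 * (P.e * P.c) * (x - x ^ 2 / x₁) + E) x := by
    intro x hx
    have hx' : x ∈ Ioo x₁ x₂ := ⟨hx.1, hx.2.trans hn2⟩
    have h1 := hasDerivAt_G P (S.vl x hx').ne' (S.dl x hx')
    have hid := hasDerivAt_id x
    have h2 := (((hid.pow 2).div_const 2).sub ((hid.pow 3).div_const (3 * x₁))).const_mul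
      (98 / 100 * (P.e * P.c))
    have h3 := (h1.add h2).add (hid.const_mul E)
    refine HasDerivAt.congr_deriv h3 ?_
    have h4 : (98 / 100 * (P.e * P.c) * (↑2 * id x ^ (2 - 1) * 1 / 2 -
        ↑3 * id x ^ (3 - 1) * 1 / (3 * x₁)) : ℝ) = 98 / 100 * (P.e * P.c) * (x - x ^ 2 / x₁) := by
      simp only [id]
      rw [show (2 - 1 : ℕ) = 1 from rfl, show (3 - 1 : ℕ) = 2 from rfl]
      have := hn1.ne
      field_simp
    push_cast at h4 ⊢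
    rw [h4]
    ring
  obtain ⟨ξ, hξ, h⟩ := exists_hasDerivAt_eq_slope _ _ hn1 hcont hder
  have hξ' : ξ ∈ Icc x₁ x₂ := ⟨hξ.1.le, by linarith [hξ.2]⟩
  have hneg : 0 ≤ P.V1 ξ (yl ξ) * P.V1x ξ (yl ξ) + P.V1y ξ (yl ξ) * P.V2 ξ (yl ξ) +
        98 / 100 * (P.e * P.c) * (ξ - ξ ^ 2 / x₁) + E := by
    have e1 := (abs_le.1 (S.first_bd hH hξ')).1
    have e2 := S.V2_left (x := ξ) ⟨hξ.1.le, hξ.2.le⟩ (S.bl ξ hξ')
    have e3 := S.V1y_bd (S.bx ξ hξ') (S.bl ξ hξ')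
    have e4 : ξ - ξ ^ 2 / x₁ = ξ * (1 - ξ / x₁) := by ring
    have hec : 0 ≤ P.e * P.c := mul_nonneg S.he0.le (by linarith [S.c_ge])
    have e5 : 0 ≤ 1 - ξ / x₁ := by
      rw [sub_nonneg, div_le_one_of_neg hn1]
      exact hξ.1.le
    have e6 : P.e * P.c * ξ * (1 - ξ / x₁) ≤ 0 := by
      have e7 : P.e * P.c * ξ ≤ 0 := mul_nonpos_of_nonneg_of_nonpos hec hξ.2.le
      exact mul_nonpos_of_nonpos_of_nonneg e7 e5
    have hη : 0 ≤ B * (|P.s| + (x₂ - x₁) + B) := by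
      have := S.B0
      have := S.tpos
      positivity
    set η := B * (|P.s| + (x₂ - x₁) + B) with hη'
    have e7 : P.V1y ξ (yl ξ) * (P.e * P.c * ξ * (1 - ξ / x₁) + 2 * η) ≤
        P.V1y ξ (yl ξ) * P.V2 ξ (yl ξ) :=
      mul_le_mul_of_nonpos_left e2 (by linarith [e3.2])
    have e8 : -(98 / 100) * (P.e * P.c * ξ * (1 - ξ / x₁)) ≤
        P.V1y ξ (yl ξ) * (P.e * P.c * ξ * (1 - ξ / x₁)) :=
      mul_le_mul_of_nonpos_right e3.2 e6
    have e9 : -(101 / 100 * (2 * η)) ≤ P.V1y ξ (yl ξ) * (2 * η) := by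
      rw [← neg_mul]
      exact mul_le_mul_of_nonneg_right (by linarith [e3.1]) (by linarith)
    rw [e4, hE]
    linarith
  rw [h, div_nonneg_iff] at hneg
  rcases hneg with ⟨h', -⟩ | ⟨-, h'⟩
  · have h2 := S.u0_le hH
    have e : x₁ ^ 2 / 2 - x₁ ^ 3 / (3 * x₁) = x₁ ^ 2 / 6 := by
      have := hn1.ne
      field_simp
      ring
    rw [S.v1, e] at h'
    simp only [ne_eq, OfNat.ofNat_ne_zero, not_false_eq_true, zero_pow, zero_div, sub_self,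
      mul_zero, add_zero, zero_add] at h'
    linarith
  · linarith

/-- the trace is dominated by the width -/
lemma kappa_le {xm H : ℝ} (hm : xm ∈ Ioo x₁ x₂) (hH : ∀ x ∈ Icc x₁ x₂, yu x - yl x ≤ H)
    (hHm : yu xm - yl xm = H) : |P.e * P.s| * (x₂ - x₁) ≤ H := by
  have ht := S.tpos
  have hH0 : 0 < H := by rw [← hHm]; linarith [S.lu xm hm]
  have hH3 := S.H_le hm hH hHm
  have hBl := S.B_le hm hH hHm
  have hs := S.sb
  have he0 := S.he0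
  have he1 := S.he1
  have hc1 := S.c_ge
  have hc2 := S.c_le
  have hB0 := S.B0
  have hn1 := S.n1
  have hn2 := S.n2
  have hes : |P.e * P.s| = P.e * |P.s| := by rw [abs_mul, abs_of_pos he0]
  have hesl := S.es_le
  -- `B ≤ 270 τ`
  have hs5 := S.s_small
  have b0 : |P.e * P.s| * (x₂ - x₁) ≤ 1 / 10 ^ 5 * (x₂ - x₁) := by
    gcongr
    linarith
  have b1 : B ≤ 253 * (x₂ - x₁) := by
    norm_num at *
    linarith
  have b2 : |P.s| ≤ 762 * (x₂ - x₁) := by linarith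
  have key : 98 / 100 * (P.e * P.c) * ((x₂ - x₁) / 2) ^ 2 / 6 ≤
      (101 / 100 * H * (|P.e * P.s| + 2 * (x₂ - x₁) + B) +
        202 / 100 * (B * (|P.s| + (x₂ - x₁) + B))) * (x₂ - x₁) + (101 / 100 * H) ^ 2 / 2 := by
    have hE : 0 ≤ 101 / 100 * H * (|P.e * P.s| + 2 * (x₂ - x₁) + B) +
        202 / 100 * (B * (|P.s| + (x₂ - x₁) + B)) := by positivity
    have hec : 0 ≤ P.e * P.c := mul_nonneg he0.le (by linarith)
    rcases le_total ((x₂ - x₁) / 2) x₂ with h | h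
    · have h1 := S.energy_right hH
      have h2 : 98 / 100 * (P.e * P.c) * ((x₂ - x₁) / 2) ^ 2 / 6 ≤
          98 / 100 * (P.e * P.c) * x₂ ^ 2 / 6 := by gcongr
      have h3 : (101 / 100 * H * (|P.e * P.s| + 2 * (x₂ - x₁) + B) +
        202 / 100 * (B * (|P.s| + (x₂ - x₁) + B))) * x₂ ≤
        (101 / 100 * H * (|P.e * P.s| + 2 * (x₂ - x₁) + B) +
        202 / 100 * (B * (|P.s| + (x₂ - x₁) + B))) * (x₂ - x₁) :=
        mul_le_mul_of_nonneg_left (by linarith) hE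
      linarith
    · have h1 := S.energy_left hH
      have h2 : 98 / 100 * (P.e * P.c) * ((x₂ - x₁) / 2) ^ 2 / 6 ≤
          98 / 100 * (P.e * P.c) * (-x₁) ^ 2 / 6 := by
        gcongr
        linarith
      have h3 : (101 / 100 * H * (|P.e * P.s| + 2 * (x₂ - x₁) + B) +
        202 / 100 * (B * (|P.s| + (x₂ - x₁) + B))) * (-x₁) ≤
        (101 / 100 * H * (|P.e * P.s| + 2 * (x₂ - x₁) + B) +
        202 / 100 * (B * (|P.s| + (x₂ - x₁) + B))) * (x₂ - x₁) :=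
        mul_le_mul_of_nonneg_left (by linarith) hE
      rw [neg_sq] at h2
      linarith
  have htA := S.t2A
  have hA := S.hA
  have hτs : x₂ - x₁ ≤ 2 / 10 ^ 6 := by norm_num at *; linarith
  rw [hes] at key hBl ⊢
  exact kappa_num he0 he1 hc1 (abs_nonneg _) ht hτs hB0 hH0 hH3 b1 b2 hBl key

end Sm

end

end Pool.Agent.H709Q
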